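import Pool.Agent.FIExt.Defs2

/-!
# Basic lemmas on comparison maps, stabilisation maps, four lemmas
-/

open CategoryTheory CategoryTheory.Abelian

universe u w v t

namespace Pool.Agent.FIExt

section conj

variable {C : Type t} [Category.{v} C] [Abelian C] [HasExt.{w} C]

theorem conj_conj {P Q R S T U : C} {i : ℕ} (a' : P ⟶ Q) (A : Q ⟶ R) (X : Ext R S i)
    (B : S ⟶ T) (b' : T ⟶ U) :
    ((Ext.mk₀ a').comp (((Ext.mk₀ A).comp X (zero_add i)).comp (Ext.mk₀ B) (add_zero i))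
      (zero_add i)).comp (Ext.mk₀ b') (add_zero i) =
      ((Ext.mk₀ (a' ≫ A)).comp X (zero_add i)).comp (Ext.mk₀ (B ≫ b')) (add_zero i) := by
  simp only [Ext.comp_assoc_of_third_deg_zero, Ext.mk₀_comp_mk₀_assoc, Ext.mk₀_comp_mk₀]

theorem ext_sub_comp {P Q R : C} {i l m : ℕ} (x y : Ext P Q i) (z : Ext Q R l) (h : i + l = m) :
    (x - y).comp z h = x.comp z h - y.comp z h := by
  rw [sub_eq_add_neg, Ext.add_comp, Ext.neg_comp, ← sub_eq_add_neg]

theorem ext_comp_sub {P Q R : C} {i l m : ℕ} (x : Ext P Q i) (y z : Ext Q R l) (h : i + l = m) :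
    x.comp (y - z) h = x.comp y h - x.comp z h := by
  rw [sub_eq_add_neg, Ext.comp_add, Ext.comp_neg, ← sub_eq_add_neg]

theorem conj_post {P Q R S : C} {i l m : ℕ} (a : P ⟶ Q) (X : Ext Q R i) (Y : Ext R S l)
    (h : i + l = m) :
    (Ext.mk₀ a).comp (X.comp Y h) (zero_add m) = ((Ext.mk₀ a).comp X (zero_add i)).comp Y h :=
  (Ext.comp_assoc (Ext.mk₀ a) X Y (zero_add i) h (by omega)).symm

end conj

section cmp

variable {k : Type u} [Field k] {G H K : Type} [Group G] [Group H] [Group K]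

theorem cmp_mk₀ (φ : H →* G) {X Y : Rep.{u} k G} {X' Y' : Rep.{u} k H}
    (a : X' ⟶ Rep.res φ X) (b : Rep.res φ Y ⟶ Y') (f : X ⟶ Y) :
    cmp φ a b 0 (Ext.mk₀ f) = Ext.mk₀ (a ≫ Rep.resMap φ f ≫ b) := by
  rw [cmp_apply, resE_mk₀, Ext.mk₀_comp_mk₀, Ext.mk₀_comp_mk₀, Category.assoc]

/-- functoriality of comparison maps. -/
theorem cmp_cmp (φ : H →* G) (ψ : K →* H) {X Y : Rep.{u} k G} {X' Y' : Rep.{u} k H}
    {X'' Y'' : Rep.{u} k K} (a : X' ⟶ Rep.res φ X) (b : Rep.res φ Y ⟶ Y')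
    (a' : X'' ⟶ Rep.res ψ X') (b' : Rep.res ψ Y' ⟶ Y'') (i : ℕ) (x : Ext X Y i) :
    cmp ψ a' b' i (cmp φ a b i x) =
      cmp (φ.comp ψ) (a' ≫ Rep.resMap ψ a) (Rep.resMap ψ b ≫ b') i x := by
  rw [cmp_apply, cmp_apply, resE_comp, resE_comp, resE_mk₀, resE_mk₀, resE_resE]
  exact conj_conj _ _ _ _ _

theorem cmp_congr {φ φ' : H →* G} (hφ : φ = φ') {X Y : Rep.{u} k G} {X' Y' : Rep.{u} k H}
    (a : X' ⟶ Rep.res φ X) (b : Rep.res φ Y ⟶ Y') (a' : X' ⟶ Rep.res φ' X)
    (b' : Rep.res φ' Y ⟶ Y') (ha : ∀ x, a.hom x = a'.hom x) (hb : ∀ y, b.hom y = b'.hom y)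
    (i : ℕ) (x : Ext X Y i) : cmp φ a b i x = cmp φ' a' b' i x := by
  subst hφ
  have h1 : a = a' := by ext x; exact ha x
  have h2 : b = b' := by ext x; exact hb x
  rw [h1, h2]

theorem cmp_id {X Y : Rep.{u} k G} (i : ℕ) (x : Ext X Y i) :
    cmp (MonoidHom.id G) (𝟙 X) (𝟙 Y) i x = x := by
  rw [cmp_apply, resE_id]
  exact (congrArg (fun t => Ext.comp t (Ext.mk₀ (𝟙 Y)) (add_zero i)) (Ext.mk₀_id_comp x)).trans
    (Ext.comp_mk₀_id x)

/-- naturality in the second variable. -/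
theorem cmp_comp_mk₀ (φ : H →* G) {X Y Z : Rep.{u} k G} {X' Y' Z' : Rep.{u} k H}
    (a : X' ⟶ Rep.res φ X) (b : Rep.res φ Y ⟶ Y') (c : Rep.res φ Z ⟶ Z') (f : Y ⟶ Z)
    (f' : Y' ⟶ Z') (h : b ≫ f' = Rep.resMap φ f ≫ c) (i : ℕ) (x : Ext X Y i) :
    cmp φ a c i (x.comp (Ext.mk₀ f) (add_zero i)) =
      (cmp φ a b i x).comp (Ext.mk₀ f') (add_zero i) := by
  rw [cmp_apply, cmp_apply, resE_comp, resE_mk₀]
  simp only [Ext.comp_assoc_of_third_deg_zero]
  rw [Ext.mk₀_comp_mk₀, Ext.mk₀_comp_mk₀, h]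

/-- naturality in the first variable. -/
theorem cmp_mk₀_comp (φ : H →* G) {X Y Z : Rep.{u} k G} {X' Y' Z' : Rep.{u} k H}
    (a : X' ⟶ Rep.res φ X) (b : Y' ⟶ Rep.res φ Y) (c : Rep.res φ Z ⟶ Z') (f : X ⟶ Y)
    (f' : X' ⟶ Y') (h : a ≫ Rep.resMap φ f = f' ≫ b) (i : ℕ) (x : Ext Y Z i) :
    cmp φ a c i ((Ext.mk₀ f).comp x (zero_add i)) =
      (Ext.mk₀ f').comp (cmp φ b c i x) (zero_add i) := by
  rw [cmp_apply, cmp_apply, resE_comp, resE_mk₀, Ext.mk₀_comp_mk₀_assoc, h,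
    ← Ext.mk₀_comp_mk₀_assoc, Ext.comp_assoc_of_third_deg_zero]

/-- compatibility with the covariant connecting maps. -/
theorem cmp_comp_extClass (φ : H →* G) {X : Rep.{u} k G} {X' : Rep.{u} k H}
    {S : ShortComplex (Rep.{u} k G)} (hS : S.ShortExact) {S' : ShortComplex (Rep.{u} k H)}
    (hS' : S'.ShortExact) (a : X' ⟶ Rep.res φ X)
    (τ₁ : Rep.res φ S.X₁ ⟶ S'.X₁) (τ₂ : Rep.res φ S.X₂ ⟶ S'.X₂) (τ₃ : Rep.res φ S.X₃ ⟶ S'.X₃)
    (hf : τ₁ ≫ S'.f = Rep.resMap φ S.f ≫ τ₂) (hg : τ₂ ≫ S'.g = Rep.resMap φ S.g ≫ τ₃)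
    (i i' : ℕ) (hi : i + 1 = i') (x : Ext X S.X₃ i) :
    cmp φ a τ₁ i' (x.comp hS.extClass hi) = (cmp φ a τ₃ i x).comp hS'.extClass hi := by
  subst hi
  let τ : S.map (Rep.resFunctor.{u} (k := k) φ) ⟶ S' :=
    { τ₁ := τ₁, τ₂ := τ₂, τ₃ := τ₃, comm₁₂ := hf, comm₂₃ := hg }
  have h := ShortComplex.ShortExact.extClass_naturality (res_shortExact φ hS) hS' τ
  rw [cmp_apply, cmp_apply, resE_comp, resE_extClass]
  have aux : ∀ {A B D E F : Rep.{u} k H} (a : A ⟶ B) (X : Ext B D i) (c : Ext D E 1)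
      (t₁ : E ⟶ F) {D' : Rep.{u} k H} (t₃ : D ⟶ D') (c' : Ext D' F 1),
      c.comp (Ext.mk₀ t₁) (add_zero 1) = (Ext.mk₀ t₃).comp c' (zero_add 1) →
      ((Ext.mk₀ a).comp (X.comp c rfl) (zero_add (i+1))).comp (Ext.mk₀ t₁) (add_zero (i+1)) =
      (((Ext.mk₀ a).comp X (zero_add i)).comp (Ext.mk₀ t₃) (add_zero i)).comp c' rfl := by
    intro A B D E F a X c t₁ D' t₃ c' hc
    rw [conj_post, Ext.comp_assoc_of_third_deg_zero, hc, Ext.comp_assoc_of_second_deg_zero]
  exact aux a (resE φ x) _ τ₁ τ₃ _ h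

/-- compatibility with the contravariant connecting maps. -/
theorem cmp_extClass_comp (φ : H →* G) {Y : Rep.{u} k G} {Y' : Rep.{u} k H}
    {S : ShortComplex (Rep.{u} k G)} (hS : S.ShortExact) {S' : ShortComplex (Rep.{u} k H)}
    (hS' : S'.ShortExact) (b : Rep.res φ Y ⟶ Y')
    (τ₁ : S'.X₁ ⟶ Rep.res φ S.X₁) (τ₂ : S'.X₂ ⟶ Rep.res φ S.X₂) (τ₃ : S'.X₃ ⟶ Rep.res φ S.X₃)
    (hf : τ₁ ≫ Rep.resMap φ S.f = S'.f ≫ τ₂) (hg : τ₂ ≫ Rep.resMap φ S.g = S'.g ≫ τ₃)
    (i i' : ℕ) (hi : 1 + i = i') (x : Ext S.X₁ Y i) :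
    cmp φ τ₃ b i' (hS.extClass.comp x hi) = hS'.extClass.comp (cmp φ τ₁ b i x) hi := by
  subst hi
  let τ : S' ⟶ S.map (Rep.resFunctor.{u} (k := k) φ) :=
    { τ₁ := τ₁, τ₂ := τ₂, τ₃ := τ₃, comm₁₂ := hf, comm₂₃ := hg }
  have h := ShortComplex.ShortExact.extClass_naturality hS' (res_shortExact φ hS) τ
  rw [cmp_apply, cmp_apply, resE_comp, resE_extClass]
  have aux : ∀ {A A' B B' D E : Rep.{u} k H} (t₃ : A ⟶ A') (c : Ext A' B' 1) (X : Ext B' D i)
      (b : D ⟶ E) (c' : Ext A B 1) (t₁ : B ⟶ B'),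
      c'.comp (Ext.mk₀ t₁) (add_zero 1) = (Ext.mk₀ t₃).comp c (zero_add 1) →
      ((Ext.mk₀ t₃).comp (c.comp X rfl) (zero_add (1+i))).comp (Ext.mk₀ b) (add_zero (1+i)) =
      c'.comp (((Ext.mk₀ t₁).comp X (zero_add i)).comp (Ext.mk₀ b) (add_zero i)) rfl := by
    intro A A' B B' D E t₃ c X b c' t₁ hc
    rw [conj_post, ← hc, Ext.comp_assoc_of_second_deg_zero, Ext.comp_assoc_of_third_deg_zero]
  exact aux τ₃ _ (resE φ x) b _ τ₁ h

end cmp

section via

theorem viaE_refl (α : Type) : viaE (Function.Embedding.refl α) = MonoidHom.id _ := by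
  ext σ a
  exact viaE_apply (Function.Embedding.refl α) σ a

theorem viaE_trans {α β γ : Type} (j : α ↪ β) (j' : β ↪ γ) :
    (viaE j').comp (viaE j) = viaE (j.trans j') := by
  ext σ c
  by_cases h : ∃ b, j' b = c
  · obtain ⟨b, rfl⟩ := h
    by_cases h' : ∃ a, j a = b
    · obtain ⟨a, rfl⟩ := h'
      have e := viaE_apply (j.trans j') σ a
      simp only [MonoidHom.comp_apply, viaE_apply]
      exact e.symm
    · simp only [MonoidHom.comp_apply, viaE_apply]
      rw [viaE_apply_of_notMem j σ b h', viaE_apply_of_notMem]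
      rintro ⟨a, ha⟩
      exact h' ⟨a, j'.injective ha⟩
  · simp only [MonoidHom.comp_apply]
    rw [viaE_apply_of_notMem j' _ c h, viaE_apply_of_notMem]
    rintro ⟨a, ha⟩
    exact h ⟨j a, ha⟩

end via

section stab

variable {k : Type u} [Field k]

theorem stab_refl (V : FIMod k) {W : FIMod k} (P : Sharp W) (α : Type) [Finite α] (i : ℕ)
    (x : Ext (V.rep α) (W.rep α) i) :
    stab V P (Function.Embedding.refl α) i x = x := by
  refine (cmp_congr (viaE_refl α) (V.embHom _) (P.prHom _) (𝟙 (V.rep α)) (𝟙 (W.rep α)) ?_ ?_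
    i x).trans (cmp_id i x)
  · intro v
    exact V.mapL_refl α v
  · intro w
    exact P.pr_refl α w

theorem stab_trans (V : FIMod k) {W : FIMod k} (P : Sharp W) {α β γ : Type} [Finite α]
    [Finite β] [Finite γ] (j : α ↪ β) (j' : β ↪ γ) (i : ℕ) (x : Ext (V.rep γ) (W.rep γ) i) :
    stab V P j i (stab V P j' i x) = stab V P (j.trans j') i x := by
  refine (cmp_cmp (viaE j') (viaE j) (V.embHom j') (P.prHom j') (V.embHom j) (P.prHom j) i
    x).trans ?_
  refine cmp_congr (viaE_trans j j') _ _ _ _ ?_ ?_ i x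
  · intro v
    exact (V.mapL_trans j j' v).symm
  · intro w
    exact (P.pr_trans j j' w).symm

theorem stab_equiv_bijective (V : FIMod k) {W : FIMod k} (P : Sharp W) {α β : Type} [Finite α]
    [Finite β] (e : α ≃ β) (i : ℕ) : Function.Bijective (stab V P e.toEmbedding i) := by
  rw [Function.bijective_iff_has_inverse]
  refine ⟨stab V P e.symm.toEmbedding i, ?_, ?_⟩
  · intro x
    rw [stab_trans]
    have : e.symm.toEmbedding.trans e.toEmbedding = Function.Embedding.refl β := by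
      ext x; simp
    rw [this, stab_refl]
  · intro x
    rw [stab_trans]
    have : e.toEmbedding.trans e.symm.toEmbedding = Function.Embedding.refl α := by
      ext x; simp
    rw [this, stab_refl]

/-- bijectivity of the stabilisation map is invariant under isomorphisms. -/
theorem stab_bijective_iff (V : FIMod k) {W : FIMod k} (P : Sharp W) {α β α' β' : Type}
    [Finite α] [Finite β] [Finite α'] [Finite β'] (j : α ↪ β) (j' : α' ↪ β') (e : α ≃ α')
    (e' : β ≃ β') (h : ∀ a, e' (j a) = j' (e a)) (i : ℕ) :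
    Function.Bijective (stab V P j i) ↔ Function.Bijective (stab V P j' i) := by
  have h1 : j.trans e'.toEmbedding = e.toEmbedding.trans j' := by
    ext a; exact h a
  have h2 : ∀ x, stab V P j i (stab V P e'.toEmbedding i x) =
      stab V P e.toEmbedding i (stab V P j' i x) := by
    intro x
    rw [stab_trans, stab_trans, h1]
  have h3 : (stab V P j i) ∘ (stab V P e'.toEmbedding i) =
      (stab V P e.toEmbedding i) ∘ (stab V P j' i) := funext h2
  constructor
  · intro hj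
    have := hj.comp (stab_equiv_bijective V P e' i)
    rw [h3] at this
    exact (Function.Bijective.of_comp_iff' (stab_equiv_bijective V P e i) _).1 this
  · intro hj
    have := (stab_equiv_bijective V P e i).comp hj
    rw [← h3] at this
    exact (Function.Bijective.of_comp_iff _ (stab_equiv_bijective V P e' i)).1 this

/-- naturality of the stabilisation maps in `W`. -/
theorem stab_comp_mk₀ (V : FIMod k) {W W' : FIMod k} (P : Sharp W) (P' : Sharp W') (f : W ⟶ W')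
    {α β : Type} [Finite α] [Finite β] (j : α ↪ β)
    (hf : ∀ w, P'.pr j (FIMod.appL f β w) = FIMod.appL f α (P.pr j w)) (i : ℕ)
    (x : Ext (V.rep β) (W.rep β) i) :
    stab V P' j i (x.comp (Ext.mk₀ (FIMod.repHom f β)) (add_zero i)) =
      (stab V P j i x).comp (Ext.mk₀ (FIMod.repHom f α)) (add_zero i) := by
  refine cmp_comp_mk₀ (viaE j) (V.embHom j) (P.prHom j) (P'.prHom j) (FIMod.repHom f β)
    (FIMod.repHom f α) ?_ i x
  ext w
  exact (hf w).symm

/-- naturality of the stabilisation maps in `V`. -/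
theorem stab_mk₀_comp {V V' : FIMod k} {W : FIMod k} (P : Sharp W) (f : V ⟶ V')
    {α β : Type} [Finite α] [Finite β] (j : α ↪ β) (i : ℕ)
    (x : Ext (V'.rep β) (W.rep β) i) :
    stab V P j i ((Ext.mk₀ (FIMod.repHom f β)).comp x (zero_add i)) =
      (Ext.mk₀ (FIMod.repHom f α)).comp (stab V' P j i x) (zero_add i) := by
  refine cmp_mk₀_comp (viaE j) (V.embHom j) (V'.embHom j) (P.prHom j) (FIMod.repHom f β)
    (FIMod.repHom f α) ?_ i x
  ext v
  exact FIMod.appL_mapL f j v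

/-- exactness at `α`. -/
def ExactAt {V' V V'' : FIMod k} (f : V' ⟶ V) (g : V ⟶ V'') (α : Type) [Finite α] : Prop :=
  Function.Injective (FIMod.appL f α) ∧ Function.Exact (FIMod.appL f α) (FIMod.appL g α) ∧
      Function.Surjective (FIMod.appL g α)

/-- The short complex of representations attached to a sequence of FI-modules exact at `α`. -/
def repSC {V' V V'' : FIMod k} {f : V' ⟶ V} {g : V ⟶ V''} {α : Type} [Finite α]
    (h : ExactAt f g α) : ShortComplex (Rep.{u} k (Equiv.Perm α)) :=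
  ShortComplex.mk (FIMod.repHom f α) (FIMod.repHom g α) (by
    ext v
    exact h.2.1.apply_apply_eq_zero v)

/-- A short complex of representations is short exact as soon as it is so on underlying
spaces. -/
theorem shortExact_of_exact {G : Type} [Group G] (S : ShortComplex (Rep.{u} k G))
    (h1 : Function.Injective S.f.hom) (h2 : Function.Exact S.f.hom S.g.hom)
    (h3 : Function.Surjective S.g.hom) : S.ShortExact := by
  have e : (S.map (forget₂ (Rep.{u} k G) (ModuleCat.{u} k))).Exact := by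
    rw [ShortComplex.ShortExact.moduleCat_exact_iff_function_exact]
    exact h2
  exact
    { exact := (ShortComplex.exact_map_iff_of_faithful S
        (forget₂ (Rep.{u} k G) (ModuleCat.{u} k))).1 e
      mono_f := (Rep.mono_iff_injective _).2 h1
      epi_g := (Rep.epi_iff_surjective _).2 h3 }

theorem repSC_shortExact {V' V V'' : FIMod k} {f : V' ⟶ V} {g : V ⟶ V''} {α : Type} [Finite α]
    (h : ExactAt f g α) : (repSC h).ShortExact :=
  shortExact_of_exact _ h.1 h.2.1 h.2.2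

/-- compatibility of the stabilisation maps with the covariant connecting maps. -/
theorem stab_comp_extClass (V : FIMod k) {W' W W'' : FIMod k} (P' : Sharp W') (P : Sharp W)
    (P'' : Sharp W'') (f : W' ⟶ W) (g : W ⟶ W'') {α β : Type} [Finite α] [Finite β] (j : α ↪ β)
    (hf : ∀ w, P.pr j (FIMod.appL f β w) = FIMod.appL f α (P'.pr j w))
    (hg : ∀ w, P''.pr j (FIMod.appL g β w) = FIMod.appL g α (P.pr j w))
    (hα : ExactAt f g α) (hβ : ExactAt f g β) (i i' : ℕ) (hi : i + 1 = i')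
    (x : Ext (V.rep β) (W''.rep β) i) :
    stab V P' j i' (x.comp (repSC_shortExact hβ).extClass hi) =
      (stab V P'' j i x).comp (repSC_shortExact hα).extClass hi := by
  refine cmp_comp_extClass (viaE j) (repSC_shortExact hβ) (repSC_shortExact hα) (V.embHom j)
    (P'.prHom j) (P.prHom j) (P''.prHom j) ?_ ?_ i i' hi x
  · ext w
    exact (hf w).symm
  · ext w
    exact (hg w).symm

/-- compatibility of the stabilisation maps with the contravariant connecting maps. -/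
theorem stab_extClass_comp {V' V V'' : FIMod k} {W : FIMod k} (P : Sharp W)
    (f : V' ⟶ V) (g : V ⟶ V'') {α β : Type} [Finite α] [Finite β] (j : α ↪ β)
    (hα : ExactAt f g α) (hβ : ExactAt f g β) (i i' : ℕ) (hi : 1 + i = i')
    (x : Ext (V'.rep β) (W.rep β) i) :
    stab V'' P j i' ((repSC_shortExact hβ).extClass.comp x hi) =
      (repSC_shortExact hα).extClass.comp (stab V' P j i x) hi := by
  refine cmp_extClass_comp (viaE j) (repSC_shortExact hβ) (repSC_shortExact hα) (P.prHom j)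
    (V'.embHom j) (V.embHom j) (V''.embHom j) ?_ ?_ i i' hi x
  · ext w
    exact FIMod.appL_mapL f j w
  · ext w
    exact FIMod.appL_mapL g j w

end stab

section decomp

/-- every embedding of a type with at least `r` elements is isomorphic to one of the form
`j₀ ⊕ id : α ⊕ Fin r ↪ α' ⊕ Fin r`. -/
theorem exists_decomp {β β' : Type} [Finite β] [Finite β'] (j : β ↪ β') (r : ℕ)
    (h : r ≤ Nat.card β) : ∃ (α α' : Type) (_ : Finite α) (_ : Finite α') (j₀ : α ↪ α')
      (e : β ≃ α ⊕ Fin r) (e' : β' ≃ α' ⊕ Fin r), (∀ b, e' (j b) = sumEmb (Fin r) j₀ (e b)) ∧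
        Nat.card α + r = Nat.card β := by
  classical
  have := Fintype.ofFinite β
  obtain ⟨κ⟩ : Nonempty (Fin r ↪ β) := by
    apply Function.Embedding.nonempty_of_card_le
    simpa [Nat.card_eq_fintype_card] using h
  let e₀ : {b // b ∉ Set.range κ} ⊕ Fin r ≃ β :=
    (Equiv.sumCongr (Equiv.refl _) (Equiv.ofInjective κ κ.injective)).trans
      ((Equiv.sumComm _ _).trans (Equiv.Set.sumCompl (Set.range κ)))
  let e₀' : {b // b ∉ Set.range (κ.trans j)} ⊕ Fin r ≃ β' :=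
    (Equiv.sumCongr (Equiv.refl _)
      (Equiv.ofInjective (κ.trans j) (κ.trans j).injective)).trans
      ((Equiv.sumComm _ _).trans (Equiv.Set.sumCompl (Set.range (κ.trans j))))
  let j₀ : {b // b ∉ Set.range κ} ↪ {b // b ∉ Set.range (κ.trans j)} :=
    { toFun := fun b => ⟨j b.1, by
        rintro ⟨x, hx⟩
        exact b.2 ⟨x, j.injective hx⟩⟩
      inj' := by
        intro a b hab
        exact Subtype.ext (j.injective (congrArg Subtype.val hab)) }
  have key : ∀ x, e₀' (sumEmb (Fin r) j₀ x) = j (e₀ x) := by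
    rintro (x | x)
    · rfl
    · rfl
  refine ⟨{b // b ∉ Set.range κ}, {b // b ∉ Set.range (κ.trans j)}, inferInstance, inferInstance,
    j₀, e₀.symm, e₀'.symm, ?_, ?_⟩
  · intro b
    rw [Equiv.symm_apply_eq, key, Equiv.apply_symm_apply]
  · have := Nat.card_congr e₀
    rw [Nat.card_sum] at this
    simpa using this

end decomp

section ladders

variable {C : Type t} [Category.{v} C] [Abelian C] [HasExt.{w} C]
variable {D : Type t} [Category.{v} D] [Abelian D] [HasExt.{w} D]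

/-- A morphism between two covariant long exact sequences. -/
structure CovLadder {S : ShortComplex C} (hS : S.ShortExact) {S' : ShortComplex D}
    (hS' : S'.ShortExact) (X : C) (X' : D) where
  /-- first component -/
  c₁ : ∀ m, Ext X S.X₁ m →+ Ext X' S'.X₁ m
  /-- second component -/
  c₂ : ∀ m, Ext X S.X₂ m →+ Ext X' S'.X₂ m
  /-- third component -/
  c₃ : ∀ m, Ext X S.X₃ m →+ Ext X' S'.X₃ m
  comm_f : ∀ m (x : Ext X S.X₁ m), c₂ m (x.comp (Ext.mk₀ S.f) (add_zero m)) =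
    (c₁ m x).comp (Ext.mk₀ S'.f) (add_zero m)
  comm_g : ∀ m (x : Ext X S.X₂ m), c₃ m (x.comp (Ext.mk₀ S.g) (add_zero m)) =
    (c₂ m x).comp (Ext.mk₀ S'.g) (add_zero m)
  comm_δ : ∀ m n (h : m + 1 = n) (x : Ext X S.X₃ m), c₁ n (x.comp hS.extClass h) =
    (c₃ m x).comp hS'.extClass h

namespace CovLadder

variable {S : ShortComplex C} {hS : S.ShortExact} {S' : ShortComplex D}
    {hS' : S'.ShortExact} {X : C} {X' : D} (L : CovLadder hS hS' X X')

include L

theorem inj₁ (n : ℕ) (h₂ : Function.Injective (L.c₂ n))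
    (h₂' : ∀ m, m + 1 = n → Function.Surjective (L.c₂ m))
    (h₃' : ∀ m, m + 1 = n → Function.Injective (L.c₃ m)) : Function.Injective (L.c₁ n) := by
  rw [injective_iff_map_eq_zero]
  intro x hx
  have h1 : x.comp (Ext.mk₀ S.f) (add_zero n) = 0 := by
    apply h₂
    rw [L.comm_f, hx, map_zero, Ext.zero_comp]
  cases n with
  | zero =>
    have := hS.mono_f
    exact (injective_iff_map_eq_zero _).1 (Ext.postcomp_mk₀_injective_of_mono X S.f) x h1
  | succ m =>
    obtain ⟨z, rfl⟩ := Ext.covariant_sequence_exact₁ X hS x h1 rfl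
    rw [L.comm_δ m (m+1) rfl] at hx
    obtain ⟨y', hy'⟩ := Ext.covariant_sequence_exact₃ X' hS' (L.c₃ m z) rfl hx
    obtain ⟨y, rfl⟩ := h₂' m rfl y'
    have : z = y.comp (Ext.mk₀ S.g) (add_zero m) := by
      apply h₃' m rfl
      rw [L.comm_g, hy']
    rw [this, Ext.comp_assoc_of_second_deg_zero, ShortComplex.ShortExact.comp_extClass,
      Ext.comp_zero]

theorem surj₁ (n : ℕ) (h₂ : Function.Surjective (L.c₂ n)) (h₃ : Function.Injective (L.c₃ n))
    (h₃' : ∀ m, m + 1 = n → Function.Surjective (L.c₃ m)) : Function.Surjective (L.c₁ n) := by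
  intro y
  obtain ⟨x₂, hx₂⟩ := h₂ (y.comp (Ext.mk₀ S'.f) (add_zero n))
  have h1 : x₂.comp (Ext.mk₀ S.g) (add_zero n) = 0 := by
    apply h₃
    rw [L.comm_g, hx₂, map_zero, Ext.comp_assoc_of_third_deg_zero, Ext.mk₀_comp_mk₀, S'.zero,
      Ext.mk₀_zero, Ext.comp_zero]
  obtain ⟨x₁, rfl⟩ := Ext.covariant_sequence_exact₂ X hS x₂ h1
  have h2 : (y - L.c₁ n x₁).comp (Ext.mk₀ S'.f) (add_zero n) = 0 := by
    rw [ext_sub_comp, ← hx₂, L.comm_f, sub_self]
  cases n with
  | zero =>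
    have := hS'.mono_f
    have h3 : y - L.c₁ 0 x₁ = 0 :=
      (injective_iff_map_eq_zero _).1 (Ext.postcomp_mk₀_injective_of_mono X' S'.f) _ h2
    exact ⟨x₁, (sub_eq_zero.1 h3).symm⟩
  | succ m =>
    obtain ⟨z', hz'⟩ := Ext.covariant_sequence_exact₁ X' hS' _ h2 rfl
    obtain ⟨z, rfl⟩ := h₃' m rfl z'
    refine ⟨x₁ + z.comp hS.extClass rfl, ?_⟩
    rw [map_add, L.comm_δ m (m+1) rfl, hz']
    abel

theorem inj₂ (n : ℕ) (h₁ : Function.Injective (L.c₁ n)) (h₃ : Function.Injective (L.c₃ n))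
    (h₃' : ∀ m, m + 1 = n → Function.Surjective (L.c₃ m)) : Function.Injective (L.c₂ n) := by
  rw [injective_iff_map_eq_zero]
  intro x hx
  have h1 : x.comp (Ext.mk₀ S.g) (add_zero n) = 0 := by
    apply h₃
    rw [L.comm_g, hx, map_zero, Ext.zero_comp]
  obtain ⟨x₁, rfl⟩ := Ext.covariant_sequence_exact₂ X hS x h1
  rw [L.comm_f] at hx
  cases n with
  | zero =>
    have := hS'.mono_f
    have h3 : L.c₁ 0 x₁ = 0 :=
      (injective_iff_map_eq_zero _).1 (Ext.postcomp_mk₀_injective_of_mono X' S'.f) _ hx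
    rw [(injective_iff_map_eq_zero _).1 h₁ x₁ h3, Ext.zero_comp]
  | succ m =>
    obtain ⟨z', hz'⟩ := Ext.covariant_sequence_exact₁ X' hS' _ hx rfl
    obtain ⟨z, rfl⟩ := h₃' m rfl z'
    have : x₁ = z.comp hS.extClass rfl := by
      apply h₁
      rw [L.comm_δ m (m+1) rfl, hz']
    rw [this, Ext.comp_assoc_of_third_deg_zero, ShortComplex.ShortExact.extClass_comp,
      Ext.comp_zero]

theorem surj₂ (n : ℕ) (h₁ : Function.Surjective (L.c₁ n)) (h₃ : Function.Surjective (L.c₃ n))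
    (h₁' : Function.Injective (L.c₁ (n + 1))) : Function.Surjective (L.c₂ n) := by
  intro y
  obtain ⟨x₃, hx₃⟩ := h₃ (y.comp (Ext.mk₀ S'.g) (add_zero n))
  have h1 : x₃.comp hS.extClass (rfl : n + 1 = n + 1) = 0 := by
    apply h₁'
    rw [L.comm_δ n (n+1) rfl, hx₃, map_zero, Ext.comp_assoc_of_second_deg_zero,
      ShortComplex.ShortExact.comp_extClass, Ext.comp_zero]
  obtain ⟨x₂, rfl⟩ := Ext.covariant_sequence_exact₃ X hS x₃ rfl h1
  have h2 : (y - L.c₂ n x₂).comp (Ext.mk₀ S'.g) (add_zero n) = 0 := by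
    rw [ext_sub_comp, ← hx₃, L.comm_g, sub_self]
  obtain ⟨z', hz'⟩ := Ext.covariant_sequence_exact₂ X' hS' _ h2
  obtain ⟨z, rfl⟩ := h₁ z'
  refine ⟨x₂ + z.comp (Ext.mk₀ S.f) (add_zero n), ?_⟩
  rw [map_add, L.comm_f, hz']
  abel

end CovLadder

/-- A morphism between two contravariant long exact sequences. -/
structure ContraLadder {S : ShortComplex C} (hS : S.ShortExact) {S' : ShortComplex D}
    (hS' : S'.ShortExact) (Y : C) (Y' : D) where
  /-- first component -/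
  c₁ : ∀ m, Ext S.X₁ Y m →+ Ext S'.X₁ Y' m
  /-- second component -/
  c₂ : ∀ m, Ext S.X₂ Y m →+ Ext S'.X₂ Y' m
  /-- third component -/
  c₃ : ∀ m, Ext S.X₃ Y m →+ Ext S'.X₃ Y' m
  comm_f : ∀ m (x : Ext S.X₂ Y m), c₁ m ((Ext.mk₀ S.f).comp x (zero_add m)) =
    (Ext.mk₀ S'.f).comp (c₂ m x) (zero_add m)
  comm_g : ∀ m (x : Ext S.X₃ Y m), c₂ m ((Ext.mk₀ S.g).comp x (zero_add m)) =
    (Ext.mk₀ S'.g).comp (c₃ m x) (zero_add m)
  comm_δ : ∀ m n (h : 1 + m = n) (x : Ext S.X₁ Y m), c₃ n (hS.extClass.comp x h) =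
    hS'.extClass.comp (c₁ m x) h

namespace ContraLadder

variable {S : ShortComplex C} {hS : S.ShortExact} {S' : ShortComplex D}
    {hS' : S'.ShortExact} {Y : C} {Y' : D} (L : ContraLadder hS hS' Y Y')

include L

theorem inj₃ (n : ℕ) (h₂ : Function.Injective (L.c₂ n))
    (h₂' : ∀ m, m + 1 = n → Function.Surjective (L.c₂ m))
    (h₁' : ∀ m, m + 1 = n → Function.Injective (L.c₁ m)) : Function.Injective (L.c₃ n) := by
  rw [injective_iff_map_eq_zero]
  intro x hx
  have h1 : (Ext.mk₀ S.g).comp x (zero_add n) = 0 := by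
    apply h₂
    rw [L.comm_g, hx, map_zero, Ext.comp_zero]
  cases n with
  | zero =>
    have := hS.epi_g
    exact (injective_iff_map_eq_zero _).1 (Ext.precomp_mk₀_injective_of_epi Y S.g) x h1
  | succ m =>
    obtain ⟨z, rfl⟩ := Ext.contravariant_sequence_exact₃ hS Y x h1 (add_comm 1 m)
    rw [L.comm_δ m (m+1) (add_comm 1 m)] at hx
    obtain ⟨y', hy'⟩ := Ext.contravariant_sequence_exact₁ hS' Y' (L.c₁ m z) (add_comm 1 m) hx
    obtain ⟨y, rfl⟩ := h₂' m rfl y'
    have : z = (Ext.mk₀ S.f).comp y (zero_add m) := by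
      apply h₁' m rfl
      rw [L.comm_f, hy']
    rw [this]
    simp

theorem surj₃ (n : ℕ) (h₂ : Function.Surjective (L.c₂ n)) (h₁ : Function.Injective (L.c₁ n))
    (h₁' : ∀ m, m + 1 = n → Function.Surjective (L.c₁ m)) : Function.Surjective (L.c₃ n) := by
  intro y
  obtain ⟨x₂, hx₂⟩ := h₂ ((Ext.mk₀ S'.g).comp y (zero_add n))
  have h1 : (Ext.mk₀ S.f).comp x₂ (zero_add n) = 0 := by
    apply h₁
    rw [L.comm_f, hx₂, map_zero, Ext.mk₀_comp_mk₀_assoc, S'.zero, Ext.mk₀_zero, Ext.zero_comp]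
  obtain ⟨x₃, rfl⟩ := Ext.contravariant_sequence_exact₂ hS Y x₂ h1
  have h2 : (Ext.mk₀ S'.g).comp (y - L.c₃ n x₃) (zero_add n) = 0 := by
    rw [ext_comp_sub, ← hx₂, L.comm_g, sub_self]
  cases n with
  | zero =>
    have := hS'.epi_g
    have h3 : y - L.c₃ 0 x₃ = 0 :=
      (injective_iff_map_eq_zero _).1 (Ext.precomp_mk₀_injective_of_epi Y' S'.g) _ h2
    exact ⟨x₃, (sub_eq_zero.1 h3).symm⟩
  | succ m =>
    obtain ⟨z', hz'⟩ := Ext.contravariant_sequence_exact₃ hS' Y' _ h2 (add_comm 1 m)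
    obtain ⟨z, rfl⟩ := h₁' m rfl z'
    refine ⟨x₃ + hS.extClass.comp z (add_comm 1 m), ?_⟩
    rw [map_add, L.comm_δ m (m+1) (add_comm 1 m), hz']
    abel

end ContraLadder

end ladders

section stabladders

variable {k : Type u} [Field k]

/-- the ladder of stabilisation maps, covariant in `W`. -/
noncomputable def stabCov (V : FIMod k) {W' W W'' : FIMod k} (P' : Sharp W') (P : Sharp W)
    (P'' : Sharp W'') (f : W' ⟶ W) (g : W ⟶ W'') {α β : Type} [Finite α] [Finite β] (j : α ↪ β)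
    (hf : ∀ w, P.pr j (FIMod.appL f β w) = FIMod.appL f α (P'.pr j w))
    (hg : ∀ w, P''.pr j (FIMod.appL g β w) = FIMod.appL g α (P.pr j w))
    (hα : ExactAt f g α) (hβ : ExactAt f g β) :
    CovLadder (repSC_shortExact hβ) (repSC_shortExact hα) (V.rep β) (V.rep α) where
  c₁ m := (stab V P' j m).toAddMonoidHom
  c₂ m := (stab V P j m).toAddMonoidHom
  c₃ m := (stab V P'' j m).toAddMonoidHom
  comm_f m x := stab_comp_mk₀ V P' P f j hf m x
  comm_g m x := stab_comp_mk₀ V P P'' g j hg m x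
  comm_δ m n h x := stab_comp_extClass V P' P P'' f g j hf hg hα hβ m n h x

/-- the ladder of stabilisation maps, contravariant in `V`. -/
noncomputable def stabContra {V' V V'' : FIMod k} {W : FIMod k} (P : Sharp W)
    (f : V' ⟶ V) (g : V ⟶ V'') {α β : Type} [Finite α] [Finite β] (j : α ↪ β)
    (hα : ExactAt f g α) (hβ : ExactAt f g β) :
    ContraLadder (repSC_shortExact hβ) (repSC_shortExact hα) (W.rep β) (W.rep α) where
  c₁ m := (stab V' P j m).toAddMonoidHom
  c₂ m := (stab V P j m).toAddMonoidHom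
  c₃ m := (stab V'' P j m).toAddMonoidHom
  comm_f m x := stab_mk₀_comp P f j m x
  comm_g m x := stab_mk₀_comp P g j m x
  comm_δ m n h x := stab_extClass_comp P f g j hα hβ m n h x

end stabladders

end Pool.Agent.FIExt
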