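import Pool.Agent.FIExt.BetaRep

/-!
# The class `β` of a character of order `p`
-/

open CategoryTheory CategoryTheory.Abelian

universe u

namespace Pool.Agent.FIExt

namespace BetaM

section general

variable {k : Type u} [Field k]

theorem resE_id' {H : Type} [Group H] (φ : H →* H) (hφ : φ = MonoidHom.id H) {X Y : Rep.{u} k H}
    (a : X ⟶ Rep.res φ X) (b : Rep.res φ Y ⟶ Y) (ha : ∀ x : X.V, a.hom x = x)
    (hb : ∀ y : Y.V, b.hom y = y) {n : ℕ} (ζ : Ext X Y n) :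
    ((Ext.mk₀ a).comp (resE φ ζ) (zero_add n)).comp (Ext.mk₀ b) (add_zero n) = ζ := by
  subst hφ
  have e1 : a = 𝟙 X := hom_ext' ha
  have e2 : b = 𝟙 Y := hom_ext' hb
  subst e1 e2
  rw [resE_id]
  exact (Ext.comp_mk₀_id _).trans (Ext.mk₀_id_comp ζ)

theorem resE_congr' {Γ S : Type} [Group Γ] [Group S] (ψ ψ' : Γ →* S) (h : ψ = ψ')
    {X Y : Rep.{u} k S} (a : Rep.res ψ' X ⟶ Rep.res ψ X) (b : Rep.res ψ Y ⟶ Rep.res ψ' Y)
    (ha : ∀ x : X.V, a.hom x = x) (hb : ∀ y : Y.V, b.hom y = y) {n : ℕ} (ζ : Ext X Y n) :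
    ((Ext.mk₀ a).comp (resE ψ ζ) (zero_add n)).comp (Ext.mk₀ b) (add_zero n) = resE ψ' ζ := by
  subst h
  have e1 : a = 𝟙 _ := hom_ext' ha
  have e2 : b = 𝟙 _ := hom_ext' hb
  subst e1 e2
  exact (Ext.comp_mk₀_id _).trans (Ext.mk₀_id_comp _)

variable {Γ S H : Type} [Group Γ] [Group S] [Group H] {q : Γ →* S} {i : H →* Γ} {r : Γ →* H}

/-- the identity as a map `X → res r (res i X)` -/
def idL (hq : (q.comp i).comp r = q) (N₀ : Rep.{u} k S) :
    Rep.res q N₀ ⟶ Rep.res r (Rep.res i (Rep.res q N₀)) :=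
  mk (A := Rep.res q N₀) (B := Rep.res r (Rep.res i (Rep.res q N₀))) LinearMap.id (fun g x => by
    change N₀.ρ (q g) x = N₀.ρ (((q.comp i).comp r) g) x
    rw [hq])

/-- the identity as a map `res r (res i X) → X` -/
def idR (hq : (q.comp i).comp r = q) (N₀ : Rep.{u} k S) :
    Rep.res r (Rep.res i (Rep.res q N₀)) ⟶ Rep.res q N₀ :=
  mk (A := Rep.res r (Rep.res i (Rep.res q N₀))) (B := Rep.res q N₀) LinearMap.id (fun g x => by
    change N₀.ρ (((q.comp i).comp r) g) x = N₀.ρ (q g) x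
    rw [hq])

theorem idR_idL (hq : (q.comp i).comp r = q) (N₀ : Rep.{u} k S) :
    idR hq N₀ ≫ idL hq N₀ = 𝟙 _ := by
  apply hom_ext'
  intro x
  rfl

/-- inflation -/
noncomputable def infl (hq : (q.comp i).comp r = q) (X₀ N₀ : Rep.{u} k S) (n : ℕ) :
    Ext (Rep.res i (Rep.res q X₀)) (Rep.res i (Rep.res q N₀)) n →ₗ[k]
      Ext (Rep.res q X₀) (Rep.res q N₀) n :=
  cmp r (idL hq X₀) (idR hq N₀) n

theorem infl_apply (hq : (q.comp i).comp r = q) (X₀ N₀ : Rep.{u} k S) (n : ℕ)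
    (ζ : Ext (Rep.res i (Rep.res q X₀)) (Rep.res i (Rep.res q N₀)) n) :
    infl hq X₀ N₀ n ζ = ((Ext.mk₀ (idL hq X₀)).comp (resE r ζ) (zero_add n)).comp
      (Ext.mk₀ (idR hq N₀)) (add_zero n) := rfl

/-- `Res (infl ζ) = ζ` -/
theorem res_infl (hq : (q.comp i).comp r = q) (hr : r.comp i = MonoidHom.id H)
    (X₀ N₀ : Rep.{u} k S) (n : ℕ)
    (ζ : Ext (Rep.res i (Rep.res q X₀)) (Rep.res i (Rep.res q N₀)) n) :
    resE i (infl hq X₀ N₀ n ζ) = ζ := by
  rw [infl_apply, resE_comp, resE_comp, resE_mk₀, resE_mk₀, resE_resE]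
  exact resE_id' (r.comp i) hr _ _ (fun _ => rfl) (fun _ => rfl) ζ

/-- inflation is multiplicative -/
theorem infl_comp (hq : (q.comp i).comp r = q) (X₀ N₀ N₁ : Rep.{u} k S) (n m l : ℕ)
    (h : n + m = l) (ζ : Ext (Rep.res i (Rep.res q X₀)) (Rep.res i (Rep.res q N₀)) n)
    (ζ' : Ext (Rep.res i (Rep.res q N₀)) (Rep.res i (Rep.res q N₁)) m) :
    infl hq X₀ N₁ l (ζ.comp ζ' h) = (infl hq X₀ N₀ n ζ).comp (infl hq N₀ N₁ m ζ') h := by
  have e : (Ext.mk₀ (idR hq N₀)).comp (infl hq N₀ N₁ m ζ') (zero_add m) =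
      (resE r ζ').comp (Ext.mk₀ (idR hq N₁)) (add_zero m) := by
    rw [infl_apply, ← Ext.comp_assoc_of_third_deg_zero, Ext.mk₀_comp_mk₀_assoc, idR_idL,
      Ext.mk₀_id_comp]
  rw [infl_apply hq X₀ N₀, Ext.comp_assoc_of_second_deg_zero, e, infl_apply, resE_comp,
    ← Ext.comp_assoc_of_third_deg_zero _ _ _ h,
    Ext.comp_assoc (Ext.mk₀ (idL hq X₀)) (resE r ζ) (resE r ζ') (zero_add n) h (by omega)]

/-- inflation of the restriction of a class from `S` -/
theorem infl_res (hq : (q.comp i).comp r = q) (N₀ N₁ : Rep.{u} k S) (m : ℕ)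
    (y : Ext N₀ N₁ m) : infl hq N₀ N₁ m (resE i (resE q y)) = resE q y := by
  rw [infl_apply, resE_resE, resE_resE]
  exact resE_congr' ((q.comp i).comp r) q hq _ _ (fun _ => rfl) (fun _ => rfl) y

theorem infl_comp_res (hq : (q.comp i).comp r = q) (X₀ N₀ N₁ : Rep.{u} k S) (n m l : ℕ)
    (h : n + m = l) (ζ : Ext (Rep.res i (Rep.res q X₀)) (Rep.res i (Rep.res q N₀)) n)
    (y : Ext N₀ N₁ m) :
    infl hq X₀ N₁ l (ζ.comp (resE i (resE q y)) h) = (infl hq X₀ N₀ n ζ).comp (resE q y) h := by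
  rw [infl_comp, infl_res]

end general

section main

variable {k : Type u} [Field k] {p : ℕ} [Fact p.Prime] [CharP k p]
  {Γ S H : Type} [Group Γ] [Group S] [Group H] [Finite Γ]
  {q : Γ →* S} {i : H →* Γ} {r : Γ →* H} {lam : Γ →* Multiplicative (ZMod p)}

omit [CharP k p] in
/-- the Shapiro injectivity used below -/
theorem sh_inj (hSI : Stmt_ShapiroInd.{u}) (hlam : Function.Surjective lam)
    (hinj : Function.Injective i) (hi : i.range = lam.ker) (U N : Rep.{u} k Γ) {n : ℕ}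
    {y y' : Ext (FF lam U) N n}
    (h : (Ext.mk₀ (uF lam i hi U)).comp (resE i y) (zero_add n) =
      (Ext.mk₀ (uF lam i hi U)).comp (resE i y') (zero_add n)) : y = y' :=
  (hSI i hinj (Y := FF lam U) (Z := Rep.res i U) (uF lam i hi U)
    (fun N => shInd i hlam hi U N) N n).1 h

omit [CharP k p] in
theorem sh_inj' (hSC : Stmt_ShapiroCo.{u}) (hlam : Function.Surjective lam)
    (hinj : Function.Injective i) (hi : i.range = lam.ker) (X U : Rep.{u} k Γ) {n : ℕ}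
    {y y' : Ext X (FF lam U) n}
    (h : (resE i y).comp (Ext.mk₀ (evF lam i hi U)) (add_zero n) =
      (resE i y').comp (Ext.mk₀ (evF lam i hi U)) (add_zero n)) : y = y' :=
  (hSC i hinj (Y := FF lam U) (Z := Rep.res i U) (evF lam i hi U)
    (fun X => shCo i hlam hi X U) X n).1 h

omit [CharP k p] [Finite Γ] in
/-- `u · Res (aug · y) = Res y` -/
theorem u_res_aug (hi : i.range = lam.ker) (U N : Rep.{u} k Γ) {n : ℕ} (y : Ext U N n) :
    (Ext.mk₀ (uF lam i hi U)).comp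
      (resE i ((Ext.mk₀ (augF lam U)).comp y (zero_add n))) (zero_add n) = resE i y := by
  rw [resE_comp, resE_mk₀, Ext.mk₀_comp_mk₀_assoc, uF_augF, Ext.mk₀_id_comp]

omit [CharP k p] in
/-- every class in `Ext(F, N)`, `N` inflated, comes from `aug` and inflation -/
theorem eq_aug_infl (hSI : Stmt_ShapiroInd.{u}) (hlam : Function.Surjective lam)
    (hinj : Function.Injective i) (hi : i.range = lam.ker) (hr : r.comp i = MonoidHom.id H)
    (hq : (q.comp i).comp r = q) (X₀ N₀ : Rep.{u} k S) {n : ℕ}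
    (y : Ext (FF lam (Rep.res q X₀)) (Rep.res q N₀) n) :
    y = (Ext.mk₀ (augF lam (Rep.res q X₀))).comp (infl hq X₀ N₀ n
      ((Ext.mk₀ (uF lam i hi (Rep.res q X₀))).comp (resE i y) (zero_add n))) (zero_add n) := by
  apply sh_inj hSI hlam hinj hi
  rw [u_res_aug, res_infl hq hr]

omit [CharP k p] in
/-- `aug · ξ = aug · infl (Res ξ)` -/
theorem aug_eq (hSI : Stmt_ShapiroInd.{u}) (hlam : Function.Surjective lam)
    (hinj : Function.Injective i) (hi : i.range = lam.ker) (hr : r.comp i = MonoidHom.id H)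
    (hq : (q.comp i).comp r = q) (X₀ N₀ : Rep.{u} k S) {n : ℕ}
    (ξ : Ext (Rep.res q X₀) (Rep.res q N₀) n) :
    (Ext.mk₀ (augF lam (Rep.res q X₀))).comp ξ (zero_add n) =
      (Ext.mk₀ (augF lam (Rep.res q X₀))).comp (infl hq X₀ N₀ n (resE i ξ)) (zero_add n) := by
  apply sh_inj hSI hlam hinj hi
  rw [u_res_aug, u_res_aug, res_infl hq hr]

theorem delta1_inj (hSI : Stmt_ShapiroInd.{u}) (hlam : Function.Surjective lam)
    (hinj : Function.Injective i) (hi : i.range = lam.ker) (hr : r.comp i = MonoidHom.id H)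
    (hq : (q.comp i).comp r = q) (X₀ N₀ : Rep.{u} k S) {n m : ℕ} (h : 1 + n = m)
    (x : Ext (Rep.res q X₀) (Rep.res q N₀) n)
    (hx : (S1_exact lam (Rep.res q X₀)).extClass.comp x h = 0) : x = 0 := by
  obtain ⟨y, hy⟩ := Ext.contravariant_sequence_exact₁ (S1_exact lam (Rep.res q X₀))
    (Rep.res q N₀) x h hx
  rw [← hy, eq_aug_infl hSI hlam hinj hi hr hq X₀ N₀ y, Ext.mk₀_comp_mk₀_assoc, jF_augF,
    Ext.mk₀_zero, Ext.zero_comp]

omit [CharP k p] in
theorem delta2_inj (hSI : Stmt_ShapiroInd.{u}) (hlam : Function.Surjective lam)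
    (hinj : Function.Injective i) (hi : i.range = lam.ker) (hr : r.comp i = MonoidHom.id H)
    (hq : (q.comp i).comp r = q) (X₀ N₀ : Rep.{u} k S) {n m : ℕ} (h : 1 + n = m)
    (x : Ext (OO lam (Rep.res q X₀)) (Rep.res q N₀) n)
    (hx : (S2_exact lam (Rep.res q X₀)).extClass.comp x h = 0) : x = 0 := by
  obtain ⟨y, hy⟩ := Ext.contravariant_sequence_exact₁ (S2_exact lam (Rep.res q X₀))
    (Rep.res q N₀) x h hx
  rw [← hy, eq_aug_infl hSI hlam hinj hi hr hq X₀ N₀ y, Ext.mk₀_comp_mk₀_assoc, incF_augF,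
    Ext.mk₀_zero, Ext.zero_comp]

omit [Fact p.Prime] [CharP k p] [Finite Γ] [Group Γ] in
theorem extClass_zero_of_section {S' : ShortComplex (Rep.{u} k H)} (hS : S'.ShortExact)
    (σ : S'.X₃ ⟶ S'.X₂) (h : σ ≫ S'.g = 𝟙 _) : hS.extClass = 0 := by
  have h1 := hS.comp_extClass
  rw [← Ext.mk₀_id_comp hS.extClass, ← h, ← Ext.mk₀_comp_mk₀_assoc, h1, Ext.comp_zero]

omit [CharP k p] [Finite Γ] in
/-- the restriction of `[S2]` vanishes -/
theorem res_E2 (hi : i.range = lam.ker) (U : Rep.{u} k Γ) :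
    resE i (S2_exact lam U).extClass = 0 := by
  rw [resE_extClass]
  exact extClass_zero_of_section (res_shortExact i (S2_exact lam U)) (uF lam i hi U)
    (uF_augF lam i hi U)

/-- the class `β` -/
noncomputable def beta (lam : Γ →* Multiplicative (ZMod p)) (U : Rep.{u} k Γ) : Ext U U 2 :=
  (S2_exact lam U).extClass.comp (S1_exact lam U).extClass rfl

/-- the decomposition map -/
noncomputable def Psi (lam : Γ →* Multiplicative (ZMod p)) (hq : (q.comp i).comp r = q)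
    (X₀ N₀ : Rep.{u} k S) (s : ℕ) :
    (Ext (Rep.res q X₀) (Rep.res q N₀) s ×
      Ext (Rep.res i (Rep.res q X₀)) (Rep.res i (Rep.res q N₀)) (1 + s) ×
      Ext (Rep.res i (Rep.res q X₀)) (Rep.res i (Rep.res q N₀)) (2 + s)) →ₗ[k]
      Ext (Rep.res q X₀) (Rep.res q N₀) (2 + s) :=
  LinearMap.coprod ((beta lam (Rep.res q X₀)).precompOfLinear k (Rep.res q N₀) rfl)
    (LinearMap.coprod
      (((S2_exact lam (Rep.res q X₀)).extClass.precompOfLinear k (Rep.res q N₀)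
        (by omega : 1 + (1 + s) = 2 + s)) ∘ₗ
        ((Ext.mk₀ (augO lam (Rep.res q X₀))).precompOfLinear k (Rep.res q N₀)
          (zero_add (1 + s))) ∘ₗ (infl hq X₀ N₀ (1 + s)))
      (infl hq X₀ N₀ (2 + s)))

omit [Finite Γ] in
theorem Psi_apply (hq : (q.comp i).comp r = q)
    (X₀ N₀ : Rep.{u} k S) (s : ℕ) (x : Ext (Rep.res q X₀) (Rep.res q N₀) s)
    (ζ' : Ext (Rep.res i (Rep.res q X₀)) (Rep.res i (Rep.res q N₀)) (1 + s))
    (ζ : Ext (Rep.res i (Rep.res q X₀)) (Rep.res i (Rep.res q N₀)) (2 + s)) :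
    Psi lam hq X₀ N₀ s (x, ζ', ζ) = (beta lam (Rep.res q X₀)).comp x rfl +
      ((S2_exact lam (Rep.res q X₀)).extClass.comp ((Ext.mk₀ (augO lam (Rep.res q X₀))).comp
        (infl hq X₀ N₀ (1 + s) ζ') (zero_add (1 + s))) (by omega : 1 + (1 + s) = 2 + s) +
      infl hq X₀ N₀ (2 + s) ζ) := rfl

omit [Finite Γ] in
theorem d_augO (U N : Rep.{u} k Γ) {n : ℕ} (y : Ext U N n) :
    (Ext.mk₀ (dF lam U)).comp ((Ext.mk₀ (augO lam U)).comp y (zero_add n)) (zero_add n) =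
      (Ext.mk₀ (augF lam U)).comp y (zero_add n) := by
  rw [Ext.mk₀_comp_mk₀_assoc, dF_augO]

theorem Psi_injective (hSI : Stmt_ShapiroInd.{u}) (hlam : Function.Surjective lam)
    (hinj : Function.Injective i) (hi : i.range = lam.ker) (hr : r.comp i = MonoidHom.id H)
    (hq : (q.comp i).comp r = q) (X₀ N₀ : Rep.{u} k S) (s : ℕ) :
    Function.Injective (Psi lam hq X₀ N₀ s) := by
  rw [injective_iff_map_eq_zero]
  rintro ⟨x, ζ', ζ⟩ h
  rw [Psi_apply] at h
  -- apply the restriction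
  have h1 : ζ = 0 := by
    have h2 := congrArg (resE i) h
    rw [map_add, map_add, map_zero, res_infl hq hr, beta, resE_comp, resE_comp, resE_comp,
      res_E2 hi, Ext.zero_comp, Ext.zero_comp, Ext.zero_comp, zero_add, zero_add] at h2
    exact h2
  subst h1
  rw [map_zero, add_zero, beta, Ext.comp_assoc _ _ _ _ (rfl : 1 + s = 1 + s) (by omega),
    ← Ext.comp_add] at h
  have h3 := delta2_inj hSI hlam hinj hi hr hq X₀ N₀ _ _ h
  have h4 : ζ' = 0 := by
    have h5 := congrArg (fun t => (Ext.mk₀ (dF lam (Rep.res q X₀))).comp t (zero_add (1 + s))) h3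
    dsimp only at h5
    rw [Ext.comp_add, (S1_exact lam (Rep.res q X₀)).comp_extClass_assoc, zero_add, d_augO,
      Ext.comp_zero] at h5
    have h6 := congrArg (fun t => (Ext.mk₀ (uF lam i hi (Rep.res q X₀))).comp (resE i t)
      (zero_add (1 + s))) h5
    rw [u_res_aug, res_infl hq hr, map_zero, Ext.comp_zero] at h6
    exact h6
  subst h4
  rw [map_zero, Ext.comp_zero, add_zero] at h3
  have h7 := delta1_inj hSI hlam hinj hi hr hq X₀ N₀ _ x h3
  subst h7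
  rfl

theorem Psi_surjective (hSI : Stmt_ShapiroInd.{u}) (hlam : Function.Surjective lam)
    (hinj : Function.Injective i) (hi : i.range = lam.ker) (hr : r.comp i = MonoidHom.id H)
    (hq : (q.comp i).comp r = q) (X₀ N₀ : Rep.{u} k S) (s : ℕ) :
    Function.Surjective (Psi lam hq X₀ N₀ s) := by
  intro ξ
  have h1 : (Ext.mk₀ (augF lam (Rep.res q X₀))).comp
      (ξ - infl hq X₀ N₀ (2 + s) (resE i ξ)) (zero_add (2 + s)) = 0 := by
    rw [sub_eq_add_neg, Ext.comp_add, Ext.comp_neg, ← sub_eq_add_neg, sub_eq_zero]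
    exact aug_eq hSI hlam hinj hi hr hq X₀ N₀ ξ
  obtain ⟨θ, hθ⟩ := Ext.contravariant_sequence_exact₃ (S2_exact lam (Rep.res q X₀))
    (Rep.res q N₀) _ h1 (by omega : 1 + (1 + s) = 2 + s)
  have h2 := eq_aug_infl hSI hlam hinj hi hr hq X₀ N₀
    ((Ext.mk₀ (dF lam (Rep.res q X₀))).comp θ (zero_add (1 + s)))
  set ζ' := (Ext.mk₀ (uF lam i hi (Rep.res q X₀))).comp (resE i
    ((Ext.mk₀ (dF lam (Rep.res q X₀))).comp θ (zero_add (1 + s)))) (zero_add (1 + s)) with hζ'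
  have h3 : (Ext.mk₀ (dF lam (Rep.res q X₀))).comp
      (θ - (Ext.mk₀ (augO lam (Rep.res q X₀))).comp (infl hq X₀ N₀ (1 + s) ζ')
        (zero_add (1 + s))) (zero_add (1 + s)) = 0 := by
    rw [sub_eq_add_neg, Ext.comp_add, Ext.comp_neg, d_augO, ← sub_eq_add_neg, sub_eq_zero]
    exact h2
  obtain ⟨x, hx⟩ := Ext.contravariant_sequence_exact₃ (S1_exact lam (Rep.res q X₀))
    (Rep.res q N₀) _ h3 rfl
  refine ⟨(x, ζ', resE i ξ), ?_⟩
  rw [Psi_apply, beta, Ext.comp_assoc _ _ _ _ (rfl : 1 + s = 1 + s) (by omega), hx,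
    ← add_assoc, ← Ext.comp_add, sub_add_cancel, hθ, sub_add_cancel]

/-- the decomposition of `Ext^{2+s}` -/
noncomputable def PsiE (hSI : Stmt_ShapiroInd.{u}) (hlam : Function.Surjective lam)
    (hinj : Function.Injective i) (hi : i.range = lam.ker) (hr : r.comp i = MonoidHom.id H)
    (hq : (q.comp i).comp r = q) (X₀ N₀ : Rep.{u} k S) (s : ℕ) :
    (Ext (Rep.res q X₀) (Rep.res q N₀) s ×
      Ext (Rep.res i (Rep.res q X₀)) (Rep.res i (Rep.res q N₀)) (1 + s) ×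
      Ext (Rep.res i (Rep.res q X₀)) (Rep.res i (Rep.res q N₀)) (2 + s)) ≃ₗ[k]
      Ext (Rep.res q X₀) (Rep.res q N₀) (2 + s) :=
  LinearEquiv.ofBijective (Psi lam hq X₀ N₀ s)
    ⟨Psi_injective hSI hlam hinj hi hr hq X₀ N₀ s, Psi_surjective hSI hlam hinj hi hr hq X₀ N₀ s⟩

omit [Finite Γ] in
/-- naturality of the decomposition map -/
theorem Psi_comp (hq : (q.comp i).comp r = q) (X₀ N₀ N₁ : Rep.{u} k S) (s t s' : ℕ)
    (hs : s + t = s') (x : Ext (Rep.res q X₀) (Rep.res q N₀) s)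
    (ζ' : Ext (Rep.res i (Rep.res q X₀)) (Rep.res i (Rep.res q N₀)) (1 + s))
    (ζ : Ext (Rep.res i (Rep.res q X₀)) (Rep.res i (Rep.res q N₀)) (2 + s)) (y : Ext N₀ N₁ t) :
    (Psi lam hq X₀ N₀ s (x, ζ', ζ)).comp (resE q y) (by omega : 2 + s + t = 2 + s') =
      Psi lam hq X₀ N₁ s' (x.comp (resE q y) hs,
        ζ'.comp (resE i (resE q y)) (by omega : 1 + s + t = 1 + s'),
        ζ.comp (resE i (resE q y)) (by omega : 2 + s + t = 2 + s')) := by
  rw [Psi_apply, Psi_apply, Ext.add_comp, Ext.add_comp, infl_comp_res hq, infl_comp_res hq]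
  congr 1
  · exact Ext.comp_assoc _ _ _ _ _ (by omega)
  · congr 1
    rw [Ext.comp_assoc _ _ _ _ (by omega : 1 + s + t = 1 + s') (by omega)]
    congr 1
    exact Ext.comp_assoc _ _ _ _ _ (by omega)

end main

end BetaM

open BetaM in
/-- the class `β` of a character of order `p` -/
theorem Beta_proof (hSC : Stmt_ShapiroCo.{u}) (hSI : Stmt_ShapiroInd.{u}) : Stmt_Beta.{u} := by
  intro k _ p _ _ Γ S H _ _ _ _ q i r lam hlam hinj hi hr hq X₀
  refine ⟨{
    m := 2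
    e := beta lam (Rep.res q X₀)
    ρ := fun N₀ s => (LinearMap.fst k _ _) ∘ₗ
      (PsiE hSI hlam hinj hi hr hq X₀ N₀ s).symm.toLinearMap
    ρ_e := ?_
    ρ_nat := ?_
    kill := ?_ }⟩
  · intro N₀ s x
    have h : (beta lam (Rep.res q X₀)).comp x rfl = PsiE hSI hlam hinj hi hr hq X₀ N₀ s
        (x, 0, 0) := by
      change _ = Psi lam hq X₀ N₀ s (x, 0, 0)
      rw [Psi_apply, map_zero, map_zero, Ext.comp_zero, Ext.comp_zero, add_zero, add_zero]
    rw [h]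
    simp
  · intro N₀ N₁ s t s' hs x y
    obtain ⟨⟨x', ζ', ζ⟩, rfl⟩ := (PsiE hSI hlam hinj hi hr hq X₀ N₀ s).surjective x
    have h := Psi_comp (lam := lam) hq X₀ N₀ N₁ s t s' hs x' ζ' ζ y
    change _ = PsiE hSI hlam hinj hi hr hq X₀ N₁ s' _ at h
    change (Psi lam hq X₀ N₀ s (x', ζ', ζ)).comp _ _ = _ at h
    change (LinearMap.fst k _ _) ((PsiE hSI hlam hinj hi hr hq X₀ N₁ s').symm
      ((Psi lam hq X₀ N₀ s (x', ζ', ζ)).comp (resE q y) _)) = _
    rw [h]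
    simp
  · rintro U ⟨π, h1, h2, h3⟩ s x
    have e1 : (beta lam (Rep.res q X₀)).comp x rfl =
        (((beta lam (Rep.res q X₀)).comp x rfl).comp (Ext.mk₀ (sG lam U π h3))
          (add_zero (2 + s))).comp (Ext.mk₀ (rG lam U π h3)) (add_zero (2 + s)) := by
      rw [Ext.comp_assoc_of_third_deg_zero, Ext.mk₀_comp_mk₀, sG_rG lam U π h1 h2 h3,
        Ext.comp_mk₀_id]
    have e2 : ((beta lam (Rep.res q X₀)).comp x rfl).comp (Ext.mk₀ (sG lam U π h3))
          (add_zero (2 + s)) = 0 := by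
      apply sh_inj' hSC hlam hinj hi
      rw [resE_comp, resE_comp, beta, resE_comp, res_E2 hi, map_zero, Ext.zero_comp,
        Ext.zero_comp, Ext.zero_comp, Ext.zero_comp]
    rw [e1, e2, Ext.zero_comp]

end Pool.Agent.FIExt
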