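import Pool.Agent.FIExt.Stmts

/-!
# The representations used for the class `β`
-/

open CategoryTheory CategoryTheory.Abelian

universe u

namespace Pool.Agent.FIExt

namespace BetaM

variable {k : Type u} [Field k] {p : ℕ} [Fact p.Prime] {Γ : Type} [Group Γ]
  (lam : Γ →* Multiplicative (ZMod p))

/-- A morphism of representations from an equivariant linear map. -/
def mk {G : Type} [Group G] {A B : Rep.{u} k G} (f : A.V →ₗ[k] B.V)
    (h : ∀ g x, f (A.ρ g x) = B.ρ g (f x)) : A ⟶ B :=
  Rep.ofHom (ρ := A.ρ) (σ := B.ρ) ⟨f, fun g => by ext x; exact h g x⟩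

@[simp] theorem mk_apply {G : Type} [Group G] {A B : Rep.{u} k G} (f : A.V →ₗ[k] B.V)
    (h : ∀ g x, f (A.ρ g x) = B.ρ g (f x)) (x : A.V) : (mk f h).hom x = f x := rfl

theorem hom_ext' {G : Type} [Group G] {A B : Rep.{u} k G} {f g : A ⟶ B}
    (h : ∀ x : A.V, f.hom x = g.hom x) : f = g := by
  ext x
  exact h x

/-- the underlying representation of `F(U)` -/
def Fρ (U : Rep.{u} k Γ) : Representation k Γ (ZMod p → U.V) where
  toFun g :=
    { toFun := fun f c => U.ρ g (f (c - (lam g).toAdd))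
      map_add' := fun f f' => by funext c; simp
      map_smul' := fun a f => by funext c; simp }
  map_one' := by
    apply LinearMap.ext
    intro f
    funext c
    simp
  map_mul' g h := by
    apply LinearMap.ext
    intro f
    funext c
    simp only [map_mul, Module.End.mul_apply, LinearMap.coe_mk, AddHom.coe_mk, toAdd_mul]
    rw [sub_sub]

/-- `F(U)`: functions `ZMod p → U` -/
abbrev FF (U : Rep.{u} k Γ) : Rep.{u} k Γ := Rep.of (Fρ lam U)

theorem FF_ρ (U : Rep.{u} k Γ) (g : Γ) (f : ZMod p → U.V) (c : ZMod p) :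
    (FF lam U).ρ g f c = U.ρ g (f (c - (lam g).toAdd)) := rfl

/-- constants -/
def jF (U : Rep.{u} k Γ) : U ⟶ FF lam U :=
  mk { toFun := fun u _ => u
       map_add' := fun _ _ => rfl
       map_smul' := fun _ _ => rfl } (fun _ _ => rfl)

theorem jF_apply (U : Rep.{u} k Γ) (u : U.V) (c : ZMod p) : (jF lam U).hom u c = u := rfl

/-- sum of the values -/
def augF (U : Rep.{u} k Γ) : FF lam U ⟶ U :=
  mk { toFun := fun f => ∑ c : ZMod p, f c
       map_add' := fun f f' => by simp [Finset.sum_add_distrib]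
       map_smul' := fun a f => by simp [Finset.smul_sum] } (fun g f => by
    change ∑ c : ZMod p, U.ρ g (f (c - (lam g).toAdd)) = U.ρ g (∑ c : ZMod p, f c)
    rw [map_sum]
    exact Fintype.sum_equiv (Equiv.subRight (lam g).toAdd) _ _ (fun c => rfl))

theorem augF_apply (U : Rep.{u} k Γ) (f : ZMod p → U.V) :
    (augF lam U).hom f = ∑ c : ZMod p, f c := rfl

/-- the kernel of `augF` -/
def OK (U : Rep.{u} k Γ) : Submodule k (ZMod p → U.V) where
  carrier := {f | ∑ c : ZMod p, f c = 0}
  add_mem' {f f'} hf hf' := by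
    simp only [Set.mem_ofPred_eq] at hf hf' ⊢
    simp [Finset.sum_add_distrib, hf, hf']
  zero_mem' := by simp
  smul_mem' a f hf := by
    simp only [Set.mem_ofPred_eq] at hf ⊢
    simp [← Finset.smul_sum, hf]

theorem mem_OK (U : Rep.{u} k Γ) (f : ZMod p → U.V) :
    f ∈ OK (p := p) U ↔ ∑ c : ZMod p, f c = 0 := Iff.rfl

theorem OK_inv (U : Rep.{u} k Γ) (g : Γ) :
    OK (p := p) U ≤ (OK (p := p) U).comap ((FF lam U).ρ g) := by
  intro f hf
  rw [Submodule.mem_comap, mem_OK]
  have h1 := (Rep.hom_comm_apply (augF lam U) g f)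
  rw [augF_apply, augF_apply] at h1
  rw [h1, (mem_OK U f).mp hf, map_zero]

/-- the representation `O = ker aug` -/
abbrev OO (U : Rep.{u} k Γ) : Rep.{u} k Γ :=
  Rep.subrepresentation (FF lam U) (OK U) (OK_inv lam U)

/-- inclusion of `O` -/
def incF (U : Rep.{u} k Γ) : OO lam U ⟶ FF lam U :=
  mk (OK (p := p) U).subtype (fun _ _ => rfl)

theorem incF_apply (U : Rep.{u} k Γ) (f : OO lam U) : (incF lam U).hom f = f.1 := rfl

/-- `τ - 1 : F → O` -/
def dF (U : Rep.{u} k Γ) : FF lam U ⟶ OO lam U :=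
  mk (A := FF lam U) (B := OO lam U)
    { toFun := fun f => ⟨fun c => f (c - 1) - f c, by
        rw [mem_OK, Finset.sum_sub_distrib, sub_eq_zero]
        exact Fintype.sum_equiv (Equiv.subRight 1) _ _ (fun c => rfl)⟩
      map_add' := fun f f' => by
        apply Subtype.ext
        funext c
        change (f + f') (c - 1) - (f + f') c = (f (c - 1) - f c) + (f' (c - 1) - f' c)
        simp only [Pi.add_apply]
        abel
      map_smul' := fun a f => by
        apply Subtype.ext
        funext c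
        change (a • f) (c - 1) - (a • f) c = a • (f (c - 1) - f c)
        simp only [Pi.smul_apply, smul_sub] }
    (fun g f => by
      apply Subtype.ext
      funext c
      change U.ρ g (f (c - 1 - (lam g).toAdd)) - U.ρ g (f (c - (lam g).toAdd)) =
        U.ρ g (f (c - (lam g).toAdd - 1) - f (c - (lam g).toAdd))
      rw [map_sub, sub_right_comm])

theorem dF_apply (U : Rep.{u} k Γ) (f : ZMod p → U.V) (c : ZMod p) :
    ((dF lam U).hom f).1 c = f (c - 1) - f c := rfl

section

variable [CharP k p]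

/-- `aug' : O → U` with `(τ - 1) ≫ aug' = aug` -/
def augO (U : Rep.{u} k Γ) : OO lam U ⟶ U :=
  mk (A := OO lam U) (B := U)
    { toFun := fun f => ∑ c : ZMod p, (ZMod.castHom (dvd_refl p) k c) • f.1 c
      map_add' := fun f f' => by
        simp [Finset.sum_add_distrib]
      map_smul' := fun a f => by
        simp only [Finset.smul_sum, RingHom.id_apply]
        refine Finset.sum_congr rfl (fun c _ => ?_)
        change _ • (a • f.1 c) = _
        rw [smul_comm] }
    (fun g f => by
      change ∑ c : ZMod p, (ZMod.castHom (dvd_refl p) k c) • U.ρ g (f.1 (c - (lam g).toAdd)) =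
        U.ρ g (∑ c : ZMod p, (ZMod.castHom (dvd_refl p) k c) • f.1 c)
      have h0 : ∑ c : ZMod p, f.1 c = 0 := f.2
      have e : ∑ c : ZMod p, (ZMod.castHom (dvd_refl p) k c) • U.ρ g (f.1 (c - (lam g).toAdd)) =
          ∑ c : ZMod p, (ZMod.castHom (dvd_refl p) k (c + (lam g).toAdd)) • U.ρ g (f.1 c) := by
        refine Fintype.sum_equiv (Equiv.subRight (lam g).toAdd) _ _ (fun c => ?_)
        simp
      rw [e]
      simp only [map_add, add_smul, Finset.sum_add_distrib, map_sum, map_smul]
      rw [← Finset.smul_sum, ← map_sum, h0, map_zero, smul_zero, add_zero])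

theorem augO_apply (U : Rep.{u} k Γ) (f : OO lam U) :
    (augO lam U).hom f = ∑ c : ZMod p, (ZMod.castHom (dvd_refl p) k c) • f.1 c := rfl

theorem dF_augO (U : Rep.{u} k Γ) : dF lam U ≫ augO lam U = augF lam U := by
  apply hom_ext'
  intro f
  change ∑ c : ZMod p, (ZMod.castHom (dvd_refl p) k c) • (f (c - 1) - f c) = ∑ c : ZMod p, f c
  simp only [smul_sub, Finset.sum_sub_distrib]
  have e : ∑ c : ZMod p, (ZMod.castHom (dvd_refl p) k c) • f (c - 1) =
      ∑ c : ZMod p, (ZMod.castHom (dvd_refl p) k (c + 1)) • f c := by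
    refine Fintype.sum_equiv (Equiv.subRight 1) _ _ (fun c => ?_)
    simp
  rw [e]
  simp only [map_add, map_one, add_smul, one_smul, Finset.sum_add_distrib]
  abel

theorem jF_augF (U : Rep.{u} k Γ) : jF lam U ≫ augF lam U = 0 := by
  apply hom_ext'
  intro x
  change ∑ c : ZMod p, x = 0
  rw [Finset.sum_const, Finset.card_univ, ZMod.card, ← Nat.cast_smul_eq_nsmul k,
    CharP.cast_eq_zero, zero_smul]

end

theorem incF_augF (U : Rep.{u} k Γ) : incF lam U ≫ augF lam U = 0 := by
  apply hom_ext'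
  intro f
  exact f.2

theorem jF_dF (U : Rep.{u} k Γ) : jF lam U ≫ dF lam U = 0 := by
  apply hom_ext'
  intro x
  apply Subtype.ext
  funext c
  exact sub_self x

/-- a criterion for short exactness -/
theorem shortExact_of {G : Type} [Group G] (S : ShortComplex (Rep.{u} k G))
    (hf : Function.Injective S.f.hom) (hg : Function.Surjective S.g.hom)
    (he : ∀ x : S.X₂.V, S.g.hom x = 0 → ∃ y : S.X₁.V, S.f.hom y = x) : S.ShortExact := by
  have h1 : S.Exact := by
    rw [← ShortComplex.exact_map_iff_of_faithful S (forget₂ (Rep.{u} k G) (ModuleCat.{u} k)),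
      ShortComplex.moduleCat_exact_iff]
    exact he
  exact { exact := h1
          mono_f := (Rep.mono_iff_injective _).2 hf
          epi_g := (Rep.epi_iff_surjective _).2 hg }


/-- the sequence `0 → U → F → O → 0` -/
abbrev S1 (U : Rep.{u} k Γ) : ShortComplex (Rep.{u} k Γ) :=
  ShortComplex.mk (jF lam U) (dF lam U) (jF_dF lam U)

/-- the sequence `0 → O → F → U → 0` -/
abbrev S2 (U : Rep.{u} k Γ) : ShortComplex (Rep.{u} k Γ) :=
  ShortComplex.mk (incF lam U) (augF lam U) (incF_augF lam U)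

theorem sum_range_zmod {A : Type*} [AddCommMonoid A] (h : ZMod p → A) :
    ∑ t ∈ Finset.range p, h (t : ZMod p) = ∑ c : ZMod p, h c := by
  refine Finset.sum_bij' (fun t _ => (t : ZMod p)) (fun c _ => c.val) ?_ ?_ ?_ ?_ ?_
  · intro t _; exact Finset.mem_univ _
  · intro c _; exact Finset.mem_range.mpr (ZMod.val_lt c)
  · intro t ht; exact ZMod.val_cast_of_lt (Finset.mem_range.mp ht)
  · intro c _; exact ZMod.natCast_zmod_val c
  · intro t _; rfl

theorem val_neg_one_add (p : ℕ) [hp : Fact p.Prime] : ((0 : ZMod p) - 1).val + 1 = p := by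
  cases p with
  | zero => exact absurd hp.out Nat.not_prime_zero
  | succ n => rw [zero_sub, ZMod.val_neg_one]

theorem S2_exact (U : Rep.{u} k Γ) : (S2 lam U).ShortExact := by
  classical
  refine shortExact_of _ ?_ ?_ ?_
  · intro x y h
    exact Subtype.ext h
  · intro x
    refine ⟨Pi.single 0 x, ?_⟩
    change ∑ c : ZMod p, (Pi.single 0 x : ZMod p → U.V) c = x
    rw [Finset.sum_pi_single']
    simp
  · intro x hx
    exact ⟨⟨x, hx⟩, rfl⟩

theorem S1_exact (U : Rep.{u} k Γ) : (S1 lam U).ShortExact := by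
  refine shortExact_of _ ?_ ?_ ?_
  · intro x y h
    exact congrFun h 0
  · intro h
    let H : ZMod p → U.V := h.1
    have hH : ∑ c : ZMod p, H c = 0 := h.2
    refine ⟨fun c => - ∑ t ∈ Finset.range (c.val + 1), H (t : ZMod p), ?_⟩
    apply Subtype.ext
    funext c
    change (- ∑ t ∈ Finset.range ((c - 1).val + 1), H (t : ZMod p)) -
      (- ∑ t ∈ Finset.range (c.val + 1), H (t : ZMod p)) = H c
    have hp : 1 < p := (Fact.out : p.Prime).one_lt
    by_cases hc : c = 0
    · subst hc
      have e : ((0 : ZMod p) - 1).val + 1 = p := val_neg_one_add p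
      rw [e, sum_range_zmod, hH]
      simp
    · have h1 : (1 : ZMod p).val = 1 := by
        have : Fact (1 < p) := ⟨hp⟩
        exact ZMod.val_one p
      have h2 : c.val ≠ 0 := by rwa [Ne, ZMod.val_eq_zero]
      have e : (c - 1).val + 1 = c.val := by
        rw [ZMod.val_sub (by rw [h1]; omega), h1]
        omega
      rw [e, Finset.sum_range_succ, ZMod.natCast_zmod_val]
      abel
  · intro f hf
    have h1 : ∀ c : ZMod p, f (c - 1) = f c := by
      intro c
      have := congrFun (congrArg Subtype.val hf) c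
      exact sub_eq_zero.mp this
    have h2 : ∀ n : ℕ, f (n : ZMod p) = f 0 := by
      intro n
      induction n with
      | zero => simp
      | succ n ih =>
          rw [← h1, Nat.cast_succ, add_sub_cancel_right, ih]
    refine ⟨f 0, ?_⟩
    funext c
    change f 0 = f c
    rw [← h2 c.val, ZMod.natCast_zmod_val]


/-! ### graded representations -/

/-- the embedding `U → F(U)` of a graded representation -/
def sG (U : Rep.{u} k Γ) (π : ZMod p → (U.V →ₗ[k] U.V))
    (h : ∀ g c u, U.ρ g (π c u) = π (c + (lam g).toAdd) (U.ρ g u)) : U ⟶ FF lam U :=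
  mk (A := U) (B := FF lam U) (LinearMap.pi π) (fun g u => by
    funext c
    change π c (U.ρ g u) = U.ρ g (π (c - (lam g).toAdd) u)
    rw [h, sub_add_cancel])

/-- the retraction `F(U) → U` of a graded representation -/
def rG (U : Rep.{u} k Γ) (π : ZMod p → (U.V →ₗ[k] U.V))
    (h : ∀ g c u, U.ρ g (π c u) = π (c + (lam g).toAdd) (U.ρ g u)) : FF lam U ⟶ U :=
  mk (A := FF lam U) (B := U)
    { toFun := fun f => ∑ c : ZMod p, π c (f c)
      map_add' := fun f f' => by simp [Finset.sum_add_distrib]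
      map_smul' := fun a f => by simp [Finset.smul_sum] } (fun g f => by
    change ∑ c : ZMod p, π c (U.ρ g (f (c - (lam g).toAdd))) = U.ρ g (∑ c : ZMod p, π c (f c))
    rw [map_sum]
    simp only [h]
    refine Fintype.sum_equiv (Equiv.subRight (lam g).toAdd) _ _ (fun c => ?_)
    simp)

theorem sG_rG (U : Rep.{u} k Γ) (π : ZMod p → (U.V →ₗ[k] U.V))
    (h1 : ∀ c c' u, c ≠ c' → π c (π c' u) = 0) (h2 : ∀ u, ∑ c, π c u = u)
    (h : ∀ g c u, U.ρ g (π c u) = π (c + (lam g).toAdd) (U.ρ g u)) :
    sG lam U π h ≫ rG lam U π h = 𝟙 U := by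
  apply hom_ext'
  intro u
  change ∑ c : ZMod p, π c (π c u) = u
  have e : ∀ c, π c (π c u) = π c u := by
    intro c
    conv_rhs => rw [← h2 u]
    rw [map_sum, Finset.sum_eq_single c]
    · intro c' _ hc; exact h1 c c' u (Ne.symm hc)
    · intro hc; exact absurd (Finset.mem_univ c) hc
  simp only [e]
  exact h2 u

/-! ### Shapiro data -/

section Sh

variable {H : Type} [Group H] (i : H →* Γ)

theorem lam_i (hi : i.range = lam.ker) (h : H) : (lam (i h)).toAdd = 0 := by
  have : i h ∈ lam.ker := by rw [← hi]; exact ⟨h, rfl⟩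
  rw [MonoidHom.mem_ker] at this
  rw [this]; rfl

/-- `x ↦ δ₀ x` -/
def uF (hi : i.range = lam.ker) (U : Rep.{u} k Γ) : Rep.res i U ⟶ Rep.res i (FF lam U) :=
  mk (A := Rep.res i U) (B := Rep.res i (FF lam U)) (LinearMap.single k (fun _ : ZMod p => U.V) 0)
    (fun h x => by
      classical
      funext c
      change (Pi.single 0 (U.ρ (i h) x) : ZMod p → U.V) c =
        U.ρ (i h) ((Pi.single 0 x : ZMod p → U.V) (c - (lam (i h)).toAdd))
      rw [lam_i lam i hi, sub_zero]
      by_cases hc : c = 0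
      · subst hc; simp
      · simp [hc])

/-- evaluation at `0` -/
def evF (hi : i.range = lam.ker) (U : Rep.{u} k Γ) : Rep.res i (FF lam U) ⟶ Rep.res i U :=
  mk (A := Rep.res i (FF lam U)) (B := Rep.res i U) (LinearMap.proj (φ := fun _ : ZMod p => U.V) 0)
    (fun h f => by
      change U.ρ (i h) (f (0 - (lam (i h)).toAdd)) = U.ρ (i h) (f 0)
      rw [lam_i lam i hi, sub_zero])

theorem uF_augF (hi : i.range = lam.ker) (U : Rep.{u} k Γ) :
    uF lam i hi U ≫ Rep.resMap i (augF lam U) = 𝟙 (Rep.res i U) := by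
  classical
  apply hom_ext'
  intro x
  change ∑ c : ZMod p, (Pi.single 0 x : ZMod p → U.V) c = x
  rw [Finset.sum_pi_single']
  simp

variable {lam}

theorem FF_single (U : Rep.{u} k Γ) (g : Γ) (x : U.V) :
    (FF lam U).ρ g (Pi.single 0 x : ZMod p → U.V) =
      (Pi.single (lam g).toAdd (U.ρ g x) : ZMod p → U.V) := by
  funext c
  change U.ρ g ((Pi.single 0 x : ZMod p → U.V) (c - (lam g).toAdd)) = _
  by_cases hc : c = (lam g).toAdd
  · subst hc; simp
  · have : c - (lam g).toAdd ≠ 0 := by rwa [Ne, sub_eq_zero]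
    simp [hc, this]

theorem transport (hi : i.range = lam.ker) {U N : Rep.{u} k Γ} (φ : Rep.res i U ⟶ Rep.res i N)
    (a b γ : Γ) (h : lam a = lam γ * lam b) (x : U.V) :
    N.ρ a (φ.hom (U.ρ a⁻¹ (U.ρ γ x))) = N.ρ γ (N.ρ b (φ.hom (U.ρ b⁻¹ x))) := by
  obtain ⟨h', hh⟩ : a⁻¹ * γ * b ∈ i.range := by
    rw [hi, MonoidHom.mem_ker, map_mul, map_mul, map_inv, h]
    group
  have e1 : U.ρ a⁻¹ (U.ρ γ x) = (Rep.res i U).ρ h' (U.ρ b⁻¹ x) := by
    change _ = U.ρ (i h') (U.ρ b⁻¹ x)
    rw [hh, ← Module.End.mul_apply, ← Module.End.mul_apply, ← map_mul, ← map_mul]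
    congr 2
    group
  rw [e1, Rep.hom_comm_apply φ h' (U.ρ b⁻¹ x)]
  change N.ρ a (N.ρ (i h') (φ.hom (U.ρ b⁻¹ x))) = _
  rw [hh, ← Module.End.mul_apply, ← Module.End.mul_apply, ← map_mul, ← map_mul]
  congr 2
  group

theorem transport1 (hi : i.range = lam.ker) {U N : Rep.{u} k Γ} (φ : Rep.res i U ⟶ Rep.res i N)
    (a : Γ) (h : (lam a).toAdd = 0) (x : U.V) :
    N.ρ a (φ.hom (U.ρ a⁻¹ x)) = φ.hom x := by
  have h1 : lam a = lam 1 * lam 1 := by
    rw [map_one, mul_one]; exact h
  have := transport i hi φ a 1 1 h1 x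
  simpa using this

theorem exists_section (hlam : Function.Surjective lam) :
    ∃ g : ZMod p → Γ, ∀ c, (lam (g c)).toAdd = c := by
  have hg : ∀ c : ZMod p, ∃ g : Γ, (lam g).toAdd = c := fun c => by
    obtain ⟨g, hg⟩ := hlam (Multiplicative.ofAdd c)
    exact ⟨g, by rw [hg]; rfl⟩
  exact ⟨fun c => (hg c).choose, fun c => (hg c).choose_spec⟩

theorem shInd (hlam : Function.Surjective lam) (hi : i.range = lam.ker)
    (U N : Rep.{u} k Γ) :
    Function.Bijective (fun f : FF lam U ⟶ N => uF lam i hi U ≫ Rep.resMap i f) := by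
  classical
  obtain ⟨g, hg⟩ := exists_section hlam
  constructor
  · intro f f' hff
    have h0 : ∀ x : U.V, f.hom (Pi.single 0 x : ZMod p → U.V) =
        f'.hom (Pi.single 0 x : ZMod p → U.V) := by
      intro x
      exact congrArg (fun F : Rep.res i U ⟶ Rep.res i N => F.hom x) hff
    have h1 : ∀ (c : ZMod p) (x : U.V), f.hom (Pi.single c x : ZMod p → U.V) =
        f'.hom (Pi.single c x : ZMod p → U.V) := by
      intro c x
      have e : (Pi.single c x : ZMod p → U.V) =
          (FF lam U).ρ (g c) (Pi.single 0 (U.ρ (g c)⁻¹ x) : ZMod p → U.V) := by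
        rw [FF_single, hg]
        congr 1
        simp [← Module.End.mul_apply, ← map_mul]
      rw [e, Rep.hom_comm_apply, Rep.hom_comm_apply, h0]
    apply hom_ext'
    intro F
    have e : F = ∑ c : ZMod p, (Pi.single c (F c) : ZMod p → U.V) :=
      (Finset.univ_sum_single F).symm
    rw [e, map_sum, map_sum]
    exact Finset.sum_congr rfl (fun c _ => h1 c (F c))
  · intro φ
    refine ⟨mk (A := FF lam U) (B := N)
      { toFun := fun F => ∑ c : ZMod p, N.ρ (g c) (φ.hom (U.ρ (g c)⁻¹ (F c)))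
        map_add' := fun f f' => by
          simp only [← Finset.sum_add_distrib]
          refine Finset.sum_congr rfl (fun c _ => ?_)
          rw [Pi.add_apply, map_add, map_add, map_add]
        map_smul' := fun a f => by
          simp only [Finset.smul_sum, RingHom.id_apply]
          refine Finset.sum_congr rfl (fun c _ => ?_)
          rw [Pi.smul_apply, map_smul, map_smul, map_smul] } ?_, ?_⟩
    · intro γ F
      change ∑ c : ZMod p, N.ρ (g c) (φ.hom (U.ρ (g c)⁻¹ (U.ρ γ (F (c - (lam γ).toAdd))))) =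
        N.ρ γ (∑ c : ZMod p, N.ρ (g c) (φ.hom (U.ρ (g c)⁻¹ (F c))))
      rw [map_sum]
      refine Fintype.sum_equiv (Equiv.subRight (lam γ).toAdd) _ _ (fun c => ?_)
      apply transport i hi φ
      have e1 : lam (g c) = Multiplicative.ofAdd c := hg c
      have e2 : lam (g (c - (lam γ).toAdd)) = Multiplicative.ofAdd (c - (lam γ).toAdd) := hg _
      change lam (g c) = lam γ * lam (g (c - (lam γ).toAdd))
      rw [e1, e2]
      change c = (lam γ).toAdd + (c - (lam γ).toAdd)
      abel
    · apply hom_ext'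
      intro x
      change ∑ c : ZMod p, N.ρ (g c) (φ.hom (U.ρ (g c)⁻¹ ((Pi.single 0 x : ZMod p → U.V) c))) =
        φ.hom x
      rw [Finset.sum_eq_single 0]
      · rw [Pi.single_eq_same]
        exact transport1 i hi φ (g 0) (hg 0) x
      · intro c _ hc
        rw [Pi.single_eq_of_ne hc, map_zero, map_zero, map_zero]
      · intro hc; exact absurd (Finset.mem_univ _) hc

theorem shCo (hlam : Function.Surjective lam) (hi : i.range = lam.ker)
    (X U : Rep.{u} k Γ) :
    Function.Bijective (fun f : X ⟶ FF lam U => Rep.resMap i f ≫ evF lam i hi U) := by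
  classical
  obtain ⟨g, hg⟩ := exists_section hlam
  constructor
  · intro f f' hff
    have h0 : ∀ x : X.V, (f.hom x : ZMod p → U.V) 0 = (f'.hom x : ZMod p → U.V) 0 := by
      intro x
      exact congrArg (fun F : Rep.res i X ⟶ Rep.res i U => F.hom x) hff
    have h1 : ∀ (f : X ⟶ FF lam U) (x : X.V) (c : ZMod p), (f.hom x : ZMod p → U.V) c =
        U.ρ (g c) ((f.hom (X.ρ (g c)⁻¹ x) : ZMod p → U.V) 0) := by
      intro f x c
      have e : x = X.ρ (g c) (X.ρ (g c)⁻¹ x) := by
        simp [← Module.End.mul_apply, ← map_mul]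
      conv_lhs => rw [e, Rep.hom_comm_apply]
      rw [FF_ρ, hg, sub_self]
    apply hom_ext'
    intro x
    funext c
    rw [h1 f, h1 f', h0]
  · intro φ
    refine ⟨mk (A := X) (B := FF lam U)
      (LinearMap.pi (fun c => (U.ρ (g c)) ∘ₗ φ.hom.toLinearMap ∘ₗ (X.ρ (g c)⁻¹))) ?_, ?_⟩
    · intro γ x
      funext c
      change U.ρ (g c) (φ.hom (X.ρ (g c)⁻¹ (X.ρ γ x))) =
        U.ρ γ (U.ρ (g (c - (lam γ).toAdd)) (φ.hom (X.ρ (g (c - (lam γ).toAdd))⁻¹ x)))
      apply transport i hi φ
      have e1 : lam (g c) = Multiplicative.ofAdd c := hg c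
      have e2 : lam (g (c - (lam γ).toAdd)) = Multiplicative.ofAdd (c - (lam γ).toAdd) := hg _
      rw [e1, e2]
      change c = (lam γ).toAdd + (c - (lam γ).toAdd)
      abel
    · apply hom_ext'
      intro x
      exact transport1 i hi φ (g 0) (hg 0) x

end Sh

end BetaM

end Pool.Agent.FIExt
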