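import Pool.Agent.FIExt.ResE

/-!
# FI-modules and Ext over symmetric groups: definitions
-/

open CategoryTheory CategoryTheory.Abelian

universe u

namespace Pool.Agent.FIExt

/-! ## FI and FI-modules -/

/-- finite sets -/
structure FI : Type 1 where
  /-- the underlying set -/
  carrier : Type
  [fin : Finite carrier]

attribute [instance] FI.fin

/-- The category FI: finite sets and injective maps. -/
instance : Category FI where
  Hom X Y := X.carrier ↪ Y.carrier
  id X := Function.Embedding.refl X.carrier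
  comp f g := Function.Embedding.trans f g

/-- FI-modules over `k`. -/
abbrev FIMod (k : Type u) [Field k] := FI ⥤ ModuleCat.{u} k

section Basic

variable {k : Type u} [Field k]

/-- the object of FI attached to a finite type. -/
abbrev FI.of (α : Type) [Finite α] : FI := ⟨α⟩

/-- The space `V(α)`. -/
abbrev FIMod.at (V : FIMod k) (α : Type) [Finite α] : Type u := V.obj (FI.of α)

/-- The linear map `V(α) → V(β)` attached to an injection `j : α ↪ β`. -/
def FIMod.mapL (V : FIMod k) {α β : Type} [Finite α] [Finite β] (j : α ↪ β) :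
    V.at α →ₗ[k] V.at β :=
  (V.map (show FI.of α ⟶ FI.of β from j)).hom

theorem FIMod.mapL_refl (V : FIMod k) (α : Type) [Finite α] (v : V.at α) :
    V.mapL (Function.Embedding.refl α) v = v := by
  have := V.map_id (FI.of α)
  unfold FIMod.mapL
  erw [this]
  rfl

theorem FIMod.mapL_trans (V : FIMod k) {α β γ : Type} [Finite α] [Finite β] [Finite γ]
    (j : α ↪ β) (j' : β ↪ γ) (v : V.at α) :
    V.mapL (j.trans j') v = V.mapL j' (V.mapL j v) := by
  have := V.map_comp (show FI.of α ⟶ FI.of β from j) (show FI.of β ⟶ FI.of γ from j')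
  unfold FIMod.mapL
  erw [this]
  rfl

/-- The component at `α` of a map of FI-modules. -/
def FIMod.appL {V W : FIMod k} (f : V ⟶ W) (α : Type) [Finite α] : V.at α →ₗ[k] W.at α :=
  (f.app (FI.of α)).hom

theorem FIMod.appL_mapL {V W : FIMod k} (f : V ⟶ W) {α β : Type} [Finite α] [Finite β]
    (j : α ↪ β) (v : V.at α) :
    FIMod.appL f β (V.mapL j v) = W.mapL j (FIMod.appL f α v) := by
  have := f.naturality (show FI.of α ⟶ FI.of β from j)
  exact congrArg (fun g => g.hom v) this

/-- Build an FI-module from unbundled data. -/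
def FIMod.mk' (obj : ∀ (α : Type) [Finite α], ModuleCat.{u} k)
    (map : ∀ {α β : Type} [Finite α] [Finite β], (α ↪ β) → (obj α →ₗ[k] obj β))
    (map_refl : ∀ (α : Type) [Finite α] (v : obj α), map (Function.Embedding.refl α) v = v)
    (map_trans : ∀ {α β γ : Type} [Finite α] [Finite β] [Finite γ] (j : α ↪ β) (j' : β ↪ γ)
      (v : obj α), map (j.trans j') v = map j' (map j v)) : FIMod k where
  obj X := obj X.carrier
  map {X Y} f := ModuleCat.ofHom (map (show X.carrier ↪ Y.carrier from f))
  map_id X := by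
    ext v
    exact map_refl X.carrier v
  map_comp {X Y Z} f g := by
    ext v
    exact map_trans (show X.carrier ↪ Y.carrier from f) (show Y.carrier ↪ Z.carrier from g) v

/-- Build a map of FI-modules from unbundled data. -/
def FIMod.homMk {V W : FIMod k} (f : ∀ (α : Type) [Finite α], V.at α →ₗ[k] W.at α)
    (hf : ∀ {α β : Type} [Finite α] [Finite β] (j : α ↪ β) (v : V.at α),
      f β (V.mapL j v) = W.mapL j (f α v)) : V ⟶ W where
  app X := ModuleCat.ofHom (f X.carrier)
  naturality {X Y} g := by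
    ext v
    exact hf (show X.carrier ↪ Y.carrier from g) v

theorem FIMod.appL_homMk {V W : FIMod k} (f : ∀ (α : Type) [Finite α], V.at α →ₗ[k] W.at α)
    (hf : ∀ {α β : Type} [Finite α] [Finite β] (j : α ↪ β) (v : V.at α),
      f β (V.mapL j v) = W.mapL j (f α v)) (α : Type) [Finite α] :
    FIMod.appL (FIMod.homMk f hf) α = f α := rfl

/-- The representation of the symmetric group of `α` on `V(α)`. -/
def FIMod.ρ (V : FIMod k) (α : Type) [Finite α] : Representation k (Equiv.Perm α) (V.at α) where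
  toFun σ := V.mapL σ.toEmbedding
  map_one' := by
    ext v
    exact V.mapL_refl α v
  map_mul' σ τ := by
    ext v
    exact V.mapL_trans τ.toEmbedding σ.toEmbedding v

/-- `V(α)` as an object of the category of representations of the symmetric group of `α`. -/
abbrev FIMod.rep (V : FIMod k) (α : Type) [Finite α] : Rep.{u} k (Equiv.Perm α) :=
  Rep.of (V.ρ α)

/-- The equivariant map `V(j) : V(α) → V(β)`, where the group `G` acts on `α` and `β` and
`j` is `G`-equivariant. -/
def FIMod.gMap (V : FIMod k) {α β : Type} [Finite α] [Finite β] (j : α ↪ β) {G : Type} [Group G]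
    (φ : G →* Equiv.Perm α) (ψ : G →* Equiv.Perm β) (h : ∀ g a, j (φ g a) = ψ g (j a)) :
    Rep.res φ (V.rep α) ⟶ Rep.res ψ (V.rep β) :=
  Rep.ofHom ⟨V.mapL j, fun g => by
    ext v
    have e : ((φ g).toEmbedding.trans j) = j.trans (ψ g).toEmbedding := by
      ext a
      exact h g a
    exact (V.mapL_trans (φ g).toEmbedding j v).symm.trans
      ((congrArg (fun t => V.mapL t v) e).trans (V.mapL_trans j (ψ g).toEmbedding v))⟩

/-- The extension homomorphism `Perm α → Perm β` attached to `j : α ↪ β`. -/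
noncomputable def viaE {α β : Type} (j : α ↪ β) : Equiv.Perm α →* Equiv.Perm β :=
  Equiv.Perm.viaEmbeddingHom j

theorem viaE_apply {α β : Type} (j : α ↪ β) (σ : Equiv.Perm α) (a : α) :
    viaE j σ (j a) = j (σ a) :=
  Equiv.Perm.viaEmbedding_apply σ j a

theorem viaE_apply_of_notMem {α β : Type} (j : α ↪ β) (σ : Equiv.Perm α) (b : β)
    (hb : b ∉ Set.range j) : viaE j σ b = b :=
  Equiv.Perm.viaEmbedding_apply_of_notMem σ j b hb

/-- `V(j)` as an equivariant map. -/
noncomputable def FIMod.embHom (V : FIMod k) {α β : Type} [Finite α] [Finite β] (j : α ↪ β) :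
    V.rep α ⟶ Rep.res (viaE j) (V.rep β) :=
  V.gMap j (MonoidHom.id _) (viaE j) (fun σ a => (viaE_apply j σ a).symm)

/-- The equivariant map `V(α) → W(α)` attached to a map of FI-modules. -/
def FIMod.repHom {V W : FIMod k} (f : V ⟶ W) (α : Type) [Finite α] : V.rep α ⟶ W.rep α :=
  Rep.ofHom ⟨FIMod.appL f α, fun σ => by
    ext v
    exact FIMod.appL_mapL f σ.toEmbedding v⟩

/-! ## Submodules, generation, exactness -/

/-- FI-submodules. -/
@[ext]
structure FISub (V : FIMod k) where
  /-- the subspaces -/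
  carrier : ∀ (α : Type) [Finite α], Submodule k (V.at α)
  mapL_mem : ∀ {α β : Type} [Finite α] [Finite β] (j : α ↪ β) {v : V.at α},
    v ∈ carrier α → V.mapL j v ∈ carrier β

/-- The FI-module attached to an FI-submodule. -/
def FISub.toFI {V : FIMod k} (K : FISub V) : FIMod k :=
  FIMod.mk' (fun α _ => ModuleCat.of k (K.carrier α))
    (fun {_ _} _ _ j => (V.mapL j).restrict (fun _ hv => K.mapL_mem j hv))
    (fun _ _ v => Subtype.ext (V.mapL_refl _ v.1))
    (fun j j' v => Subtype.ext (V.mapL_trans j j' v.1))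

/-- The inclusion of an FI-submodule. -/
def FISub.ι {V : FIMod k} (K : FISub V) : K.toFI ⟶ V :=
  FIMod.homMk (fun α _ => (K.carrier α).subtype) (fun _ _ => rfl)

/-- The quotient by an FI-submodule. -/
def FISub.quot {V : FIMod k} (K : FISub V) : FIMod k :=
  FIMod.mk' (fun α _ => ModuleCat.of k (V.at α ⧸ K.carrier α))
    (fun {α β} _ _ j => (K.carrier α).mapQ (K.carrier β) (V.mapL j) (fun _ hv => K.mapL_mem j hv))
    (fun α _ v => by
      obtain ⟨w, rfl⟩ := (K.carrier α).mkQ_surjective v
      exact congrArg _ (V.mapL_refl _ w))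
    (fun {α β γ} _ _ _ j j' v => by
      obtain ⟨w, rfl⟩ := (K.carrier α).mkQ_surjective v
      exact congrArg _ (V.mapL_trans j j' w))

/-- The projection to the quotient. -/
def FISub.π {V : FIMod k} (K : FISub V) : V ⟶ K.quot :=
  FIMod.homMk (fun α _ => (K.carrier α).mkQ) (fun _ _ => rfl)

/-- Finite generation: finitely many elements `v i ∈ V_{n i}` which lie in no proper
FI-submodule. -/
def FG (V : FIMod k) : Prop :=
  ∃ (m : ℕ) (n : Fin m → ℕ) (v : ∀ i, V.at (Fin (n i))), ∀ K : FISub V,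
    (∀ i, v i ∈ K.carrier (Fin (n i))) → ∀ (α : Type) [Finite α], K.carrier α = ⊤

/-- Generation in degrees `< d`. -/
def GenLT (d : ℕ) (V : FIMod k) : Prop :=
  ∀ K : FISub V, (∀ n < d, K.carrier (Fin n) = ⊤) → ∀ (α : Type) [Finite α], K.carrier α = ⊤

/-- `0 → V' → V → V'' → 0` is exact in high degrees. -/
def EvExact {V' V V'' : FIMod k} (f : V' ⟶ V) (g : V ⟶ V'') : Prop :=
  ∃ N : ℕ, ∀ (α : Type) [Finite α], N ≤ Nat.card α →
    Function.Injective (FIMod.appL f α) ∧ Function.Exact (FIMod.appL f α) (FIMod.appL g α) ∧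
      Function.Surjective (FIMod.appL g α)

/-- `V` vanishes in high degrees. -/
def EvZero (V : FIMod k) : Prop :=
  ∃ N : ℕ, ∀ (α : Type) [Finite α], N ≤ Nat.card α → ∀ v : V.at α, v = 0

/-! ## Shifts -/

/-- The embedding `α ⊕ R ↪ β ⊕ R` attached to `j : α ↪ β`. -/
def sumEmb (R : Type) {α β : Type} (j : α ↪ β) : α ⊕ R ↪ β ⊕ R :=
  j.sumMap (Function.Embedding.refl R)

/-- The shift `Σ^R V`, `α ↦ V(α ⊕ R)`. -/
def FIMod.shift (V : FIMod k) (R : Type) [Finite R] : FIMod k :=
  FIMod.mk' (fun α _ => V.obj (FI.of (α ⊕ R)))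
    (fun {_ _} _ _ j => V.mapL (sumEmb R j))
    (fun α _ v => by
      have : sumEmb R (Function.Embedding.refl α) = Function.Embedding.refl (α ⊕ R) := by
        ext x; cases x <;> rfl
      rw [this]; exact V.mapL_refl _ v)
    (fun {α β γ} _ _ _ j j' v => by
      have : sumEmb R (j.trans j') = (sumEmb R j).trans (sumEmb R j') := by
        ext x; cases x <;> rfl
      rw [this]; exact V.mapL_trans _ _ v)

/-- The map `V → Σ^R V` induced by the inclusions `α → α ⊕ R`. -/
def FIMod.toShift (V : FIMod k) (R : Type) [Finite R] : V ⟶ V.shift R :=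
  FIMod.homMk (fun α _ => V.mapL (Function.Embedding.inl : α ↪ α ⊕ R)) (fun {α β} _ _ j v => by
    change V.mapL _ (V.mapL j v) = V.mapL (sumEmb R j) (V.mapL _ v)
    rw [← V.mapL_trans, ← V.mapL_trans]
    rfl)

/-! ## Sharp structures and stabilisation maps -/

/-- A compatible system of left inverses `W(β) → W(α)` of the maps `W(j)` (an `FI♯`-structure
without the mixed relations). -/
structure Sharp (W : FIMod k) where
  /-- the left inverses -/
  pr : ∀ {α β : Type} [Finite α] [Finite β], (α ↪ β) → (W.at β →ₗ[k] W.at α)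
  pr_refl : ∀ (α : Type) [Finite α] (w : W.at α), pr (Function.Embedding.refl α) w = w
  pr_trans : ∀ {α β γ : Type} [Finite α] [Finite β] [Finite γ] (j : α ↪ β) (j' : β ↪ γ)
    (w : W.at γ), pr (j.trans j') w = pr j (pr j' w)
  pr_mapL : ∀ {α β : Type} [Finite α] [Finite β] (j : α ↪ β) (w : W.at α), pr j (W.mapL j w) = w

theorem Sharp.pr_equiv {W : FIMod k} (P : Sharp W) {α β : Type} [Finite α] [Finite β]
    (e : α ≃ β) (w : W.at β) : P.pr e.toEmbedding w = W.mapL e.symm.toEmbedding w := by
  have h : W.mapL e.toEmbedding (W.mapL e.symm.toEmbedding w) = w := by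
    rw [← W.mapL_trans]
    have : e.symm.toEmbedding.trans e.toEmbedding = Function.Embedding.refl β := by
      ext x; simp
    rw [this, W.mapL_refl]
  conv_lhs => rw [← h]
  exact P.pr_mapL _ _

theorem Sharp.pr_gMap {W : FIMod k} (P : Sharp W) {α β : Type} [Finite α] [Finite β]
    (j : α ↪ β) (σ : Equiv.Perm α) (τ : Equiv.Perm β) (h : ∀ a, j (σ a) = τ (j a))
    (w : W.at β) : P.pr j (W.ρ β τ w) = W.ρ α σ (P.pr j w) := by
  have e : (σ.symm.toEmbedding.trans j) = j.trans τ.symm.toEmbedding := by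
    ext a
    apply τ.injective
    have := h (σ.symm a)
    simp only [Equiv.apply_symm_apply] at this
    simp [← this]
  have h1 : W.ρ β τ w = P.pr τ.symm.toEmbedding w := (P.pr_equiv τ.symm w).symm
  have h2 : W.ρ α σ (P.pr j w) = P.pr σ.symm.toEmbedding (P.pr j w) :=
    (P.pr_equiv σ.symm _).symm
  rw [h1, h2, ← P.pr_trans, ← P.pr_trans, e]

/-- The equivariant projection `W(β) → W(α)` attached to a `G`-equivariant `j`. -/
def Sharp.gPr {W : FIMod k} (P : Sharp W) {α β : Type} [Finite α] [Finite β] (j : α ↪ β)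
    {G : Type} [Group G] (φ : G →* Equiv.Perm α) (ψ : G →* Equiv.Perm β)
    (h : ∀ g a, j (φ g a) = ψ g (j a)) : Rep.res ψ (W.rep β) ⟶ Rep.res φ (W.rep α) :=
  Rep.ofHom ⟨P.pr j, fun g => by
    ext w
    exact P.pr_gMap j (φ g) (ψ g) (h g) w⟩

/-- The projection as an equivariant map. -/
noncomputable def Sharp.prHom {W : FIMod k} (P : Sharp W) {α β : Type} [Finite α] [Finite β]
    (j : α ↪ β) : Rep.res (viaE j) (W.rep β) ⟶ W.rep α :=
  P.gPr j (MonoidHom.id _) (viaE j) (fun σ a => (viaE_apply j σ a).symm)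

/-- The comparison map `x ↦ a · res_φ(x) · b` on `Ext` groups. -/
noncomputable def cmp {G H : Type} [Group G] [Group H] (φ : H →* G) {X Y : Rep.{u} k G}
    {X' Y' : Rep.{u} k H} (a : X' ⟶ Rep.res φ X) (b : Rep.res φ Y ⟶ Y') (i : ℕ) :
    Ext X Y i →ₗ[k] Ext X' Y' i :=
  ((Ext.mk₀ b).postcompOfLinear k X' (add_zero i)).comp
    (((Ext.mk₀ a).precompOfLinear k (Rep.res φ Y) (zero_add i)).comp (resE φ))

theorem cmp_apply {G H : Type} [Group G] [Group H] (φ : H →* G) {X Y : Rep.{u} k G}
    {X' Y' : Rep.{u} k H} (a : X' ⟶ Rep.res φ X) (b : Rep.res φ Y ⟶ Y') (i : ℕ)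
    (x : Ext X Y i) : cmp φ a b i x =
      ((Ext.mk₀ a).comp (resE φ x) (zero_add i)).comp (Ext.mk₀ b) (add_zero i) := rfl

/-- The stabilisation map `Ext_{Perm β}(V(β), W(β)) → Ext_{Perm α}(V(α), W(α))` attached to
`j : α ↪ β`, for an FI-module `V` and an FI-module `W` with a sharp structure. -/
noncomputable def stab (V : FIMod k) {W : FIMod k} (P : Sharp W) {α β : Type} [Finite α]
    [Finite β] (j : α ↪ β) (i : ℕ) :
    Ext (V.rep β) (W.rep β) i →ₗ[k] Ext (V.rep α) (W.rep α) i :=
  cmp (viaE j) (V.embHom j) (P.prHom j) i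

end Basic

end Pool.Agent.FIExt
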