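import Pool.Agent.FIExt.Defs

/-!
# The FI-modules `M(A)`, constant FI-modules, free FI-modules; blocks; graded representations
-/

open CategoryTheory CategoryTheory.Abelian

universe u

namespace Pool.Agent.FIExt

section

variable {k : Type u} [Field k]

/-! ## The FI-module `M(A)` -/

/-- `M(A)(α)`: the `Perm R`-equivariant functions `(R ↪ α) → A`. -/
def MAcar (R : Type) [Finite R] (A : Rep.{u} k (Equiv.Perm R)) (α : Type) :
    Submodule k ((R ↪ α) → A) where
  carrier := {f | ∀ (σ : Equiv.Perm R) (ι : R ↪ α), f (σ.toEmbedding.trans ι) = A.ρ σ⁻¹ (f ι)}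
  add_mem' {f g} hf hg σ ι := by simp [hf σ ι, hg σ ι]
  zero_mem' σ ι := by simp
  smul_mem' c f hf σ ι := by simp [hf σ ι]

theorem mem_MAcar {R : Type} [Finite R] {A : Rep.{u} k (Equiv.Perm R)} {α : Type}
    (f : (R ↪ α) → A) : f ∈ MAcar R A α ↔
      ∀ (σ : Equiv.Perm R) (ι : R ↪ α), f (σ.toEmbedding.trans ι) = A.ρ σ⁻¹ (f ι) := Iff.rfl

open Classical in
/-- Extension by zero along `j : α ↪ β`. -/
noncomputable def MAext {R : Type} {B : Type u} [AddCommGroup B] [Module k B] {α β : Type}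
    (j : α ↪ β) : ((R ↪ α) → B) →ₗ[k] ((R ↪ β) → B) where
  toFun f κ := if h : ∃ ι : R ↪ α, ι.trans j = κ then f h.choose else 0
  map_add' f g := by
    ext κ
    by_cases h : ∃ ι : R ↪ α, ι.trans j = κ
    · simp [dif_pos h]
    · simp [dif_neg h]
  map_smul' c f := by
    ext κ
    by_cases h : ∃ ι : R ↪ α, ι.trans j = κ
    · simp [dif_pos h]
    · simp [dif_neg h]

theorem trans_inj {R α β : Type} (j : α ↪ β) {ι ι' : R ↪ α} (h : ι.trans j = ι'.trans j) :
    ι = ι' := by
  ext x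
  exact j.injective (DFunLike.congr_fun h x)

theorem MAext_apply {R : Type} {B : Type u} [AddCommGroup B] [Module k B] {α β : Type}
    (j : α ↪ β) (f : (R ↪ α) → B) (ι : R ↪ α) :
    MAext (k := k) j f (ι.trans j) = f ι := by
  have h : ∃ ι' : R ↪ α, ι'.trans j = ι.trans j := ⟨ι, rfl⟩
  have : MAext (k := k) j f (ι.trans j) = f h.choose := dif_pos h
  rw [this, trans_inj j h.choose_spec]

theorem MAext_apply_of_not {R : Type} {B : Type u} [AddCommGroup B] [Module k B] {α β : Type}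
    (j : α ↪ β) (f : (R ↪ α) → B) (κ : R ↪ β) (h : ¬ ∃ ι : R ↪ α, ι.trans j = κ) :
    MAext (k := k) j f κ = 0 := dif_neg h

theorem MAext_mem {R : Type} [Finite R] {A : Rep.{u} k (Equiv.Perm R)} {α β : Type}
    (j : α ↪ β) {f : (R ↪ α) → A} (hf : f ∈ MAcar R A α) :
    MAext (k := k) j f ∈ MAcar R A β := by
  intro σ κ
  by_cases h : ∃ ι : R ↪ α, ι.trans j = κ
  · obtain ⟨ι, rfl⟩ := h
    have e : σ.toEmbedding.trans (ι.trans j) = (σ.toEmbedding.trans ι).trans j := rfl
    rw [e, MAext_apply, MAext_apply, hf σ ι]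
  · rw [MAext_apply_of_not j f κ h, MAext_apply_of_not, map_zero]
    rintro ⟨ι, hι⟩
    apply h
    refine ⟨σ⁻¹.toEmbedding.trans ι, ?_⟩
    ext x
    have := DFunLike.congr_fun hι (σ⁻¹ x)
    simpa using this

theorem MAext_refl {R : Type} {B : Type u} [AddCommGroup B] [Module k B] {α : Type}
    (f : (R ↪ α) → B) : MAext (k := k) (Function.Embedding.refl α) f = f := by
  ext κ
  exact MAext_apply (k := k) (Function.Embedding.refl α) f κ

theorem MAext_trans {R : Type} {B : Type u} [AddCommGroup B] [Module k B] {α β γ : Type}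
    (j : α ↪ β) (j' : β ↪ γ) (f : (R ↪ α) → B) :
    MAext (k := k) (j.trans j') f = MAext (k := k) j' (MAext (k := k) j f) := by
  ext κ
  by_cases h : ∃ ι : R ↪ α, ι.trans (j.trans j') = κ
  · obtain ⟨ι, rfl⟩ := h
    rw [MAext_apply]
    have e : ι.trans (j.trans j') = (ι.trans j).trans j' := rfl
    rw [e, MAext_apply, MAext_apply]
  · rw [MAext_apply_of_not _ _ _ h]
    by_cases h' : ∃ ι : R ↪ β, ι.trans j' = κ
    · obtain ⟨ι, rfl⟩ := h'
      rw [MAext_apply, MAext_apply_of_not]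
      rintro ⟨ι', rfl⟩
      exact h ⟨ι', rfl⟩
    · rw [MAext_apply_of_not _ _ _ h']

/-- The FI-module `M(A)` attached to a representation `A` of `Perm R`. -/
noncomputable def MA (R : Type) [Finite R] (A : Rep.{u} k (Equiv.Perm R)) : FIMod k :=
  FIMod.mk' (fun α _ => ModuleCat.of k (MAcar R A α))
    (fun {_ _} _ _ j => (MAext j).restrict (fun _ hf => MAext_mem j hf))
    (fun _ _ v => Subtype.ext (MAext_refl (k := k) (B := A) v.1))
    (fun j j' v => Subtype.ext (MAext_trans (k := k) (B := A) j j' v.1))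

/-- An element of `M(A)(α)` as a function. -/
def MA.fn {R : Type} [Finite R] {A : Rep.{u} k (Equiv.Perm R)} {α : Type} [Finite α]
    (w : (MA R A).at α) : (R ↪ α) → A :=
  Subtype.val (p := fun f => f ∈ MAcar R A α) w

/-- The element of `M(A)(α)` attached to an equivariant function. -/
def MA.mkFn {R : Type} [Finite R] {A : Rep.{u} k (Equiv.Perm R)} {α : Type} [Finite α]
    (f : (R ↪ α) → A) (hf : ∀ (σ : Equiv.Perm R) (ι : R ↪ α),
      f (σ.toEmbedding.trans ι) = A.ρ σ⁻¹ (f ι)) : (MA R A).at α :=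
  (⟨f, hf⟩ : MAcar R A α)

section fnlemmas

variable {R : Type} [Finite R] {A : Rep.{u} k (Equiv.Perm R)} {α : Type} [Finite α]

theorem MA.fn_equiv (w : (MA R A).at α) (σ : Equiv.Perm R) (ι : R ↪ α) :
    MA.fn w (σ.toEmbedding.trans ι) = A.ρ σ⁻¹ (MA.fn w ι) :=
  (w : MAcar R A α).2 σ ι

theorem MA.fn_injective {w w' : (MA R A).at α} (h : ∀ ι, MA.fn w ι = MA.fn w' ι) : w = w' :=
  Subtype.ext (p := fun f => f ∈ MAcar R A α) (funext h)

@[simp] theorem MA.fn_mkFn (f : (R ↪ α) → A) (hf) : MA.fn (MA.mkFn (A := A) f hf) = f := rfl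

@[simp] theorem MA.fn_add (w w' : (MA R A).at α) (ι : R ↪ α) :
    MA.fn (w + w') ι = MA.fn w ι + MA.fn w' ι := rfl

@[simp] theorem MA.fn_smul (c : k) (w : (MA R A).at α) (ι : R ↪ α) :
    MA.fn (c • w) ι = c • MA.fn w ι := rfl

@[simp] theorem MA.fn_zero (ι : R ↪ α) : MA.fn (0 : (MA R A).at α) ι = 0 := rfl

end fnlemmas

/-- The projection `(M(A))(β) → (M(A))(α)`, restriction of functions. -/
def MA.prL {R : Type} [Finite R] (A : Rep.{u} k (Equiv.Perm R)) {α β : Type} [Finite α]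
    [Finite β] (j : α ↪ β) : (MA R A).at β →ₗ[k] (MA R A).at α where
  toFun w := MA.mkFn (fun ι => MA.fn w (ι.trans j)) (fun σ ι => MA.fn_equiv w σ (ι.trans j))
  map_add' _ _ := rfl
  map_smul' _ _ := rfl

theorem MA.mapL_apply {R : Type} [Finite R] {A : Rep.{u} k (Equiv.Perm R)} {α β : Type}
    [Finite α] [Finite β] (j : α ↪ β) (w : (MA R A).at α) (ι : R ↪ α) :
    MA.fn ((MA R A).mapL j w) (ι.trans j) = MA.fn w ι :=
  MAext_apply (k := k) (B := A) j (MA.fn w) ι

theorem MA.mapL_apply_of_not {R : Type} [Finite R] {A : Rep.{u} k (Equiv.Perm R)} {α β : Type}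
    [Finite α] [Finite β] (j : α ↪ β) (w : (MA R A).at α) (κ : R ↪ β)
    (h : ¬ ∃ ι : R ↪ α, ι.trans j = κ) :
    MA.fn ((MA R A).mapL j w) κ = 0 :=
  MAext_apply_of_not (k := k) (B := A) j (MA.fn w) κ h

/-- The sharp structure on `M(A)`. -/
noncomputable def MA.sharp (R : Type) [Finite R] (A : Rep.{u} k (Equiv.Perm R)) :
    Sharp (MA R A) where
  pr j := MA.prL A j
  pr_refl _ _ _ := rfl
  pr_trans _ _ _ := rfl
  pr_mapL j w := MA.fn_injective (fun ι => MA.mapL_apply j w ι)

theorem MA.pr_apply {R : Type} [Finite R] {A : Rep.{u} k (Equiv.Perm R)} {α β : Type}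
    [Finite α] [Finite β] (j : α ↪ β) (w : (MA R A).at β) (ι : R ↪ α) :
    MA.fn ((MA.sharp R A).pr j w) ι = MA.fn w (ι.trans j) := rfl

theorem MA.ρ_apply {R : Type} [Finite R] {A : Rep.{u} k (Equiv.Perm R)} {α : Type}
    [Finite α] (σ : Equiv.Perm α) (w : (MA R A).at α) (ι : R ↪ α) :
    MA.fn ((MA R A).ρ α σ w) ι = MA.fn w (ι.trans σ⁻¹.toEmbedding) := by
  have h := MA.mapL_apply σ.toEmbedding w (ι.trans σ⁻¹.toEmbedding)
  have e : (ι.trans σ⁻¹.toEmbedding).trans σ.toEmbedding = ι := by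
    ext x; simp
  rw [e] at h
  exact h

/-- Functoriality of `M(A)` in `A`. -/
noncomputable def MA.mapA (R : Type) [Finite R] {A A' : Rep.{u} k (Equiv.Perm R)} (f : A ⟶ A') :
    MA R A ⟶ MA R A' :=
  FIMod.homMk (V := MA R A) (W := MA R A')
    (fun α _ =>
      { toFun := fun w => MA.mkFn (fun ι => f.hom (MA.fn w ι)) (fun σ ι => by
          have h1 := congrArg f.hom (MA.fn_equiv w σ ι)
          have h2 := Rep.hom_comm_apply f σ⁻¹ (MA.fn w ι)
          exact h1.trans h2)
        map_add' := fun w w' => MA.fn_injective (fun ι => by simp)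
        map_smul' := fun c w => MA.fn_injective (fun ι => by simp) })
    (fun {α β} _ _ j v => MA.fn_injective (fun κ => by
      by_cases h : ∃ ι : R ↪ α, ι.trans j = κ
      · obtain ⟨ι, rfl⟩ := h
        rw [MA.mapL_apply]
        exact congrArg f.hom (MA.mapL_apply j v ι)
      · rw [MA.mapL_apply_of_not _ _ _ h]
        exact (congrArg f.hom (MA.mapL_apply_of_not j v κ h)).trans (map_zero _)))

theorem MA.mapA_apply {R : Type} [Finite R] {A A' : Rep.{u} k (Equiv.Perm R)} (f : A ⟶ A')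
    {α : Type} [Finite α] (w : (MA R A).at α) (ι : R ↪ α) :
    MA.fn (FIMod.appL (MA.mapA R f) α w) ι = f.hom (MA.fn w ι) := rfl

/-! ## Constant and free FI-modules -/

/-- The constant FI-module with value `B`. -/
def constFI (k : Type u) [Field k] (B : Type u) [AddCommGroup B] [Module k B] : FIMod k :=
  FIMod.mk' (fun _ _ => ModuleCat.of k B) (fun _ => LinearMap.id) (fun _ _ _ => rfl)
    (fun _ _ _ => rfl)

/-- The sharp structure on a constant FI-module. -/
def constFI.sharp (k : Type u) [Field k] (B : Type u) [AddCommGroup B] [Module k B] :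
    Sharp (constFI k B) where
  pr _ := LinearMap.id
  pr_refl _ _ _ := rfl
  pr_trans _ _ _ := rfl
  pr_mapL _ _ := rfl

/-- The free FI-module on a generator in degree `r`: `α ↦ k[Fin r ↪ α]`. -/
noncomputable def FreeFI (k : Type u) [Field k] (r : ℕ) : FIMod k :=
  FIMod.mk' (fun α _ => ModuleCat.of k ((Fin r ↪ α) →₀ k))
    (fun {_ _} _ _ j => Finsupp.lmapDomain k k (fun ι => ι.trans j))
    (fun _ _ v => Finsupp.mapDomain_id (v := v))
    (fun {α β γ} _ _ _ j j' v => by
      change Finsupp.mapDomain _ _ = Finsupp.mapDomain _ (Finsupp.mapDomain _ _)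
      rw [← Finsupp.mapDomain_comp]
      rfl)

/-! ## Blocks -/

/-- The elementary abelian group `(ℤ/p)^N`, written additively, which is also the block on which
it acts by translations. -/
abbrev Blk (p N : ℕ) : Type := Fin N → ZMod p

/-- The action of the block on itself by translations. -/
def translHom (A : Type) [AddCommGroup A] : Multiplicative A →* Equiv.Perm A where
  toFun a := Equiv.addLeft a.toAdd
  map_one' := by ext x; simp
  map_mul' a b := by ext x; simp

/-- The homomorphism `Perm α × B → Perm (α ⊕ B)`, where `B` acts on itself by translations. -/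
def blockHom (α A : Type) [AddCommGroup A] :
    Equiv.Perm α × Multiplicative A →* Equiv.Perm (α ⊕ A) :=
  (Equiv.Perm.sumCongrHom α A).comp (MonoidHom.prodMap (MonoidHom.id _) (translHom A))

theorem blockHom_inl (α A : Type) [AddCommGroup A] (g : Equiv.Perm α × Multiplicative A)
    (a : α) : blockHom α A g (Sum.inl a) = Sum.inl (g.1 a) := rfl

theorem blockHom_inr (α A : Type) [AddCommGroup A] (g : Equiv.Perm α × Multiplicative A)
    (a : A) : blockHom α A g (Sum.inr a) = Sum.inr (g.2.toAdd + a) := rfl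

/-! ## Graded and split representations -/

/-- `U` is graded by `ZMod p` compatibly with `lam : Γ → ZMod p`: `g U_c = U_{c + lam g}`. -/
def IsGraded {p : ℕ} [NeZero p] {Γ : Type} [Group Γ] (lam : Γ →* Multiplicative (ZMod p))
    (U : Rep.{u} k Γ) : Prop :=
  ∃ π : ZMod p → (U →ₗ[k] U),
    (∀ c c' u, c ≠ c' → π c (π c' u) = 0) ∧ (∀ u, ∑ c, π c u = u) ∧
      ∀ g c u, U.ρ g (π c u) = π (c + (lam g).toAdd) (U.ρ g u)

/-- The character of `S × E` attached to an additive character of `E`. -/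
def charOf {p : ℕ} (S : Type) [Group S] {E : Type} [AddCommGroup E] (l : E →+ ZMod p) :
    S × Multiplicative E →* Multiplicative (ZMod p) :=
  (AddMonoidHom.toMultiplicative l).comp (MonoidHom.snd S (Multiplicative E))

/-- `U` is a direct sum (retract form) of representations graded by nonzero characters of `E`. -/
def IsSplit (p : ℕ) [NeZero p] {S : Type} [Group S] {E : Type} [AddCommGroup E]
    (U : Rep.{u} k (S × Multiplicative E)) : Prop :=
  ∃ (n : ℕ) (l : Fin n → (E →+ ZMod p)) (U' : Fin n → Rep.{u} k (S × Multiplicative E))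
    (a : ∀ i, U ⟶ U' i) (b : ∀ i, U' i ⟶ U),
    (∀ i, l i ≠ 0) ∧ (∀ i, IsGraded (charOf S (l i)) (U' i)) ∧ ∑ i, a i ≫ b i = 𝟙 U

/-- A class `e ∈ Ext^m(q^*X₀, q^*X₀)` which kills `Ext(q^*X₀, U)` for the `U` in the class `𝒰`,
and acts on `Ext(q^*X₀, q^*N₀)` with a natural left inverse `ρ`. -/
structure BData {Γ S : Type} [Group Γ] [Group S] (q : Γ →* S) (X₀ : Rep.{u} k S)
    (𝒰 : Rep.{u} k Γ → Prop) where
  /-- the degree -/
  m : ℕ
  /-- the class -/
  e : Ext (Rep.res q X₀) (Rep.res q X₀) m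
  /-- the left inverse -/
  ρ : ∀ (N₀ : Rep.{u} k S) (s : ℕ),
    Ext (Rep.res q X₀) (Rep.res q N₀) (m + s) →ₗ[k] Ext (Rep.res q X₀) (Rep.res q N₀) s
  ρ_e : ∀ (N₀ : Rep.{u} k S) (s : ℕ) (x : Ext (Rep.res q X₀) (Rep.res q N₀) s),
    ρ N₀ s (e.comp x rfl) = x
  ρ_nat : ∀ (N₀ N₁ : Rep.{u} k S) (s t s' : ℕ) (hs : s + t = s')
    (x : Ext (Rep.res q X₀) (Rep.res q N₀) (m + s)) (y : Ext N₀ N₁ t),
    ρ N₁ s' (x.comp (resE q y) (by omega)) = (ρ N₀ s x).comp (resE q y) hs
  kill : ∀ U, 𝒰 U → ∀ (s : ℕ) (x : Ext (Rep.res q X₀) U s),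
    e.comp x (rfl : m + s = m + s) = 0

end

end Pool.Agent.FIExt
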