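import Pool.Agent.FIExt.Stmts

/-!
# Dévissage of finitely generated FI-modules by shifts
-/

open CategoryTheory

universe u

namespace Pool.Agent.FIExt

namespace Dev

variable {k : Type u} [Field k]

/-! ### the part generated in low degrees -/

/-- the FI-submodule generated in degrees `< d` -/
def low (d : ℕ) (V : FIMod k) : FISub V where
  carrier α _ := Submodule.span k
    {v | ∃ n, n < d ∧ ∃ (κ : Fin n ↪ α) (a : V.at (Fin n)), v = V.mapL κ a}
  mapL_mem := by
    intro α β _ _ j v hv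
    induction hv using Submodule.span_induction with
    | mem x hx =>
        obtain ⟨n, hn, κ, a, rfl⟩ := hx
        exact Submodule.subset_span ⟨n, hn, κ.trans j, a, (V.mapL_trans κ j a).symm⟩
    | zero => rw [map_zero]; exact Submodule.zero_mem _
    | add x y _ _ hx hy => rw [map_add]; exact Submodule.add_mem _ hx hy
    | smul c x _ hx => rw [map_smul]; exact Submodule.smul_mem _ c hx

theorem mem_low {d : ℕ} {V : FIMod k} {α : Type} [Finite α] {n : ℕ} (hn : n < d) (κ : Fin n ↪ α)
    (a : V.at (Fin n)) : V.mapL κ a ∈ (low d V).carrier α :=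
  Submodule.subset_span ⟨n, hn, κ, a, rfl⟩

theorem low_induction {d : ℕ} {V : FIMod k} {α : Type} [Finite α] {p : V.at α → Prop}
    (hmem : ∀ n, n < d → ∀ (κ : Fin n ↪ α) (a : V.at (Fin n)), p (V.mapL κ a))
    (h0 : p 0) (hadd : ∀ x y, x ∈ (low d V).carrier α → y ∈ (low d V).carrier α →
      p x → p y → p (x + y))
    (hsmul : ∀ (c : k) x, x ∈ (low d V).carrier α → p x → p (c • x))
    {v : V.at α} (hv : v ∈ (low d V).carrier α) : p v := by
  have hv' : v ∈ Submodule.span k
    {v | ∃ n, n < d ∧ ∃ (κ : Fin n ↪ α) (a : V.at (Fin n)), v = V.mapL κ a} := hv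
  induction hv' using Submodule.span_induction with
  | mem x hx =>
      obtain ⟨n, hn, κ, a, rfl⟩ := hx
      exact hmem n hn κ a
  | zero => exact h0
  | add x y hx' hy' hx hy => exact hadd x y hx' hy' (hx hx') (hy hy')
  | smul c x hx' hx => exact hsmul c x hx' (hx hx')

theorem low_mono {d d' : ℕ} (h : d ≤ d') (V : FIMod k) (α : Type) [Finite α] :
    (low d V).carrier α ≤ (low d' V).carrier α := by
  apply Submodule.span_mono
  rintro v ⟨n, hn, κ, a, rfl⟩
  exact ⟨n, lt_of_lt_of_le hn h, κ, a, rfl⟩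

theorem low_map {d : ℕ} {V W : FIMod k} (f : V ⟶ W) {α : Type} [Finite α] {v : V.at α}
    (hv : v ∈ (low d V).carrier α) : FIMod.appL f α v ∈ (low d W).carrier α := by
  refine low_induction (p := fun v => FIMod.appL f α v ∈ (low d W).carrier α) ?_ ?_ ?_ ?_ hv
  · intro n hn κ a
    rw [FIMod.appL_mapL]
    exact mem_low hn κ _
  · rw [map_zero]; exact Submodule.zero_mem _
  · intro x y _ _ hx hy; rw [map_add]; exact Submodule.add_mem _ hx hy
  · intro c x _ hx; rw [map_smul]; exact Submodule.smul_mem _ c hx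

theorem low_genLT (d : ℕ) (V : FIMod k) : GenLT d (low d V).toFI := by
  intro K hK α _
  rw [eq_top_iff]
  rintro ⟨v, hv⟩ -
  have key : ∀ (v : V.at α) (hv : v ∈ (low d V).carrier α),
      (show (low d V).toFI.at α from ⟨v, hv⟩) ∈ K.carrier α := by
    intro v hv
    refine low_induction (p := fun v => ∀ hv : v ∈ (low d V).carrier α,
      (show (low d V).toFI.at α from ⟨v, hv⟩) ∈ K.carrier α) ?_ ?_ ?_ ?_ hv hv
    · intro n hn κ a h
      have ha : a ∈ (low d V).carrier (Fin n) := by
        have := mem_low (V := V) hn (Function.Embedding.refl (Fin n)) a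
        rwa [V.mapL_refl] at this
      have h1 : (show (low d V).toFI.at (Fin n) from ⟨a, ha⟩) ∈ K.carrier (Fin n) := by
        rw [hK n hn]; exact Submodule.mem_top
      exact K.mapL_mem κ h1
    · intro h; exact Submodule.zero_mem _
    · intro x y hx' hy' hx hy h
      exact Submodule.add_mem _ (hx hx') (hy hy')
    · intro c x hx' hx h
      exact Submodule.smul_mem _ c (hx hx')
  exact key v hv

theorem low_eq_top {D : ℕ} {V : FIMod k} (h : GenLT D V) (α : Type) [Finite α] :
    (low D V).carrier α = ⊤ := by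
  refine h (low D V) (fun n hn => ?_) α
  rw [eq_top_iff]
  intro v _
  have := mem_low (V := V) hn (Function.Embedding.refl (Fin n)) v
  rwa [V.mapL_refl] at this

/-- linear maps agree if they agree on generators -/
theorem ext_gen {D : ℕ} {V : FIMod k} (h : GenLT D V) {α : Type} [Finite α] {X : Type*}
    [AddCommGroup X] [Module k X] {f g : V.at α →ₗ[k] X}
    (hfg : ∀ n, n < D → ∀ (κ : Fin n ↪ α) (a : V.at (Fin n)),
      f (V.mapL κ a) = g (V.mapL κ a)) (v : V.at α) : f v = g v := by
  have hv : v ∈ (low D V).carrier α := by rw [low_eq_top h]; exact Submodule.mem_top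
  refine low_induction (p := fun v => f v = g v) hfg ?_ ?_ ?_ hv
  · rw [map_zero, map_zero]
  · intro x y _ _ hx hy; rw [map_add, map_add, hx, hy]
  · intro c x _ hx; rw [map_smul, map_smul, hx]

/-! ### embeddings in a sum -/

theorem factor {n : ℕ} {α R : Type} [Finite α] [Finite R] (κ : Fin n ↪ α ⊕ R) :
    (∃ κ' : Fin n ↪ α, κ = κ'.trans Function.Embedding.inl) ∨
    ∃ t, t < n ∧ ∃ (j : Fin t ↪ α) (κ' : Fin n ↪ Fin t ⊕ R), κ = κ'.trans (sumEmb R j) := by
  classical
  by_cases hall : ∀ x, (κ x).isLeft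
  · left
    refine ⟨⟨fun x => (κ x).getLeft (hall x), fun x y hxy => ?_⟩, ?_⟩
    · apply κ.injective
      rw [← Sum.inl_getLeft (κ x) (hall x), ← Sum.inl_getLeft (κ y) (hall y)]
      exact congrArg Sum.inl hxy
    · ext x
      exact (Sum.inl_getLeft (κ x) (hall x)).symm
  · right
    obtain ⟨T, hT⟩ : ∃ T : Finset (Fin n), T = Finset.univ.filter (fun x => (κ x).isLeft) :=
      ⟨_, rfl⟩
    have hmem : ∀ x, x ∈ T ↔ (κ x).isLeft := by intro x; rw [hT]; simp
    have hlt : T.card < n := by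
      push Not at hall
      obtain ⟨x, hx⟩ := hall
      have : T.card < (Finset.univ : Finset (Fin n)).card := by
        apply Finset.card_lt_card
        rw [Finset.ssubset_univ_iff]
        intro h
        apply hx
        rw [← hmem, h]; exact Finset.mem_univ _
      simpa using this
    let e : T ≃ Fin T.card := T.equivFin
    have hnot : ∀ x, x ∉ T → (κ x).isRight := by
      intro x hx
      rw [hmem] at hx
      cases h : κ x with
      | inl a => rw [h] at hx; exact absurd rfl hx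
      | inr a => rfl
    refine ⟨T.card, hlt, ⟨fun i => (κ (e.symm i)).getLeft ((hmem _).mp (e.symm i).2),
      fun i i' hi => ?_⟩, ⟨fun x => if h : x ∈ T then Sum.inl (e ⟨x, h⟩)
        else Sum.inr ((κ x).getRight (hnot x h)), fun x y hxy => ?_⟩, ?_⟩
    · apply e.symm.injective
      apply Subtype.ext
      apply κ.injective
      rw [← Sum.inl_getLeft (κ (e.symm i)) ((hmem _).mp (e.symm i).2),
        ← Sum.inl_getLeft (κ (e.symm i')) ((hmem _).mp (e.symm i').2)]
      exact congrArg Sum.inl hi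
    · by_cases hx : x ∈ T
      · by_cases hy : y ∈ T
        · simp only [hx, hy, dif_pos] at hxy
          have := e.injective (Sum.inl_injective hxy)
          exact congrArg Subtype.val this
        · simp only [hx, hy, dif_pos, dif_neg, not_false_eq_true] at hxy
          exact absurd hxy (by simp)
      · by_cases hy : y ∈ T
        · simp only [hx, hy, dif_pos, dif_neg, not_false_eq_true] at hxy
          exact absurd hxy (by simp)
        · simp only [hx, hy, dif_neg, not_false_eq_true] at hxy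
          apply κ.injective
          rw [← Sum.inr_getRight (κ x) (hnot x hx), ← Sum.inr_getRight (κ y) (hnot y hy)]
          exact congrArg Sum.inr (Sum.inr_injective hxy)
    · ext x
      show κ x = Sum.map (fun i => (κ (e.symm i)).getLeft ((hmem _).mp (e.symm i).2)) id
        (if h : x ∈ T then Sum.inl (e ⟨x, h⟩) else Sum.inr ((κ x).getRight (hnot x h)))
      by_cases hx : x ∈ T
      · rw [dif_pos hx, Sum.map_inl]
        conv_lhs => rw [← Sum.inl_getLeft (κ x) ((hmem x).mp hx)]
        simp only [Equiv.symm_apply_apply]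
      · rw [dif_neg hx, Sum.map_inr]
        exact (Sum.inr_getRight (κ x) (hnot x hx)).symm

/-- the identity map `V(α ⊕ R) → (Σ^R V)(α)` -/
def shIn (V : FIMod k) (α R : Type) [Finite α] [Finite R] :
    V.at (α ⊕ R) →ₗ[k] (V.shift R).at α := LinearMap.id

/-- the identity map `(Σ^R V)(α) → V(α ⊕ R)` -/
def shOut (V : FIMod k) (α R : Type) [Finite α] [Finite R] :
    (V.shift R).at α →ₗ[k] V.at (α ⊕ R) := LinearMap.id

theorem shIn_shOut (V : FIMod k) {α R : Type} [Finite α] [Finite R] (u : (V.shift R).at α) :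
    shIn V α R (shOut V α R u) = u := rfl

theorem shIn_mapL (V : FIMod k) {α β R : Type} [Finite α] [Finite β] [Finite R] (j : α ↪ β)
    (v : V.at (α ⊕ R)) :
    (V.shift R).mapL j (shIn V α R v) = shIn V β R (V.mapL (sumEmb R j) v) := rfl

theorem toShift_apply (V : FIMod k) {α R : Type} [Finite α] [Finite R] (v : V.at α) :
    FIMod.appL (V.toShift R) α v = shIn V α R (V.mapL Function.Embedding.inl v) := rfl

/-- generators of the shift -/
theorem gen_shift {V : FIMod k} {α R : Type} [Finite α] [Finite R] {n : ℕ}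
    (κ : Fin n ↪ α ⊕ R) (a : V.at (Fin n)) :
    (∃ κ' : Fin n ↪ α, κ = κ'.trans Function.Embedding.inl) ∨
    shIn V α R (V.mapL κ a) ∈ (low n (V.shift R)).carrier α := by
  rcases factor κ with h | ⟨t, ht, j, κ', rfl⟩
  · exact Or.inl h
  · right
    rw [V.mapL_trans, ← shIn_mapL]
    exact mem_low ht j _

theorem lemA {d : ℕ} {V : FIMod k} (hV : GenLT (d + 1) V) {α R : Type} [Finite α] [Finite R]
    (u : (V.shift R).at α) : ∃ v : V.at α,
      u - FIMod.appL (V.toShift R) α v ∈ (low d (V.shift R)).carrier α := by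
  have key : ∀ w : V.at (α ⊕ R), ∃ v : V.at α,
      shIn V α R w - FIMod.appL (V.toShift R) α v ∈ (low d (V.shift R)).carrier α := by
    intro w
    have hw : w ∈ (low (d + 1) V).carrier (α ⊕ R) := by
      rw [low_eq_top hV]; exact Submodule.mem_top
    refine low_induction (p := fun w => ∃ v : V.at α, shIn V α R w -
        FIMod.appL (V.toShift R) α v ∈ (low d (V.shift R)).carrier α) ?_ ?_ ?_ ?_ hw
    · intro n hn κ a
      rcases gen_shift κ a with ⟨κ', rfl⟩ | h
      · refine ⟨V.mapL κ' a, ?_⟩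
        rw [toShift_apply, V.mapL_trans, sub_self]
        exact Submodule.zero_mem _
      · refine ⟨0, ?_⟩
        rw [map_zero, sub_zero]
        exact low_mono (Nat.lt_succ_iff.mp hn) _ α h
    · refine ⟨0, ?_⟩
      rw [map_zero, map_zero, sub_zero]
      exact Submodule.zero_mem _
    · rintro x y - - ⟨v, hv⟩ ⟨w, hw⟩
      refine ⟨v + w, ?_⟩
      have := Submodule.add_mem _ hv hw
      rw [map_add, map_add, add_sub_add_comm]
      exact this
    · rintro c x - ⟨v, hv⟩
      refine ⟨c • v, ?_⟩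
      have := Submodule.smul_mem _ c hv
      rw [map_smul, map_smul, ← smul_sub]
      exact this
  exact key (shOut V α R u)

/-! ### FI-submodules: tools -/

theorem ι_mem {V : FIMod k} (K : FISub V) {α : Type} [Finite α] (x : K.toFI.at α) :
    FIMod.appL K.ι α x ∈ K.carrier α := Subtype.property (p := fun v => v ∈ K.carrier α) x

theorem ι_surj {V : FIMod k} (K : FISub V) {α : Type} [Finite α] {v : V.at α}
    (hv : v ∈ K.carrier α) : ∃ x : K.toFI.at α, FIMod.appL K.ι α x = v :=
  ⟨(⟨v, hv⟩ : K.carrier α), rfl⟩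

theorem ι_inj {V : FIMod k} (K : FISub V) {α : Type} [Finite α] :
    Function.Injective (FIMod.appL K.ι α) := fun _ _ h =>
  Subtype.ext (p := fun v => v ∈ K.carrier α) h

theorem π_surj {V : FIMod k} (K : FISub V) {α : Type} [Finite α] :
    Function.Surjective (FIMod.appL K.π α) := (K.carrier α).mkQ_surjective

theorem π_eq_zero {V : FIMod k} (K : FISub V) {α : Type} [Finite α] {v : V.at α} :
    FIMod.appL K.π α v = 0 ↔ v ∈ K.carrier α :=
  Submodule.Quotient.mk_eq_zero (K.carrier α)

/-- inverse image -/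
def comap {V W : FIMod k} (f : V ⟶ W) (K : FISub W) : FISub V where
  carrier α _ := (K.carrier α).comap (FIMod.appL f α)
  mapL_mem := by
    intro α β _ _ j v hv
    rw [Submodule.mem_comap] at hv ⊢
    rw [FIMod.appL_mapL]
    exact K.mapL_mem j hv

/-- image -/
def rangeSub {V W : FIMod k} (f : V ⟶ W) : FISub W where
  carrier α _ := LinearMap.range (FIMod.appL f α)
  mapL_mem := by
    rintro α β _ _ j _ ⟨v, rfl⟩
    exact ⟨V.mapL j v, FIMod.appL_mapL f j v⟩

/-! ### chain condition -/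

theorem chain (hN : Stmt_Noeth.{u}) {V : FIMod k} (hV : FG V) (K : ℕ → FISub V)
    (hK : ∀ m n, m ≤ n → ∀ (α : Type) [Finite α], (K m).carrier α ≤ (K n).carrier α) :
    ∃ m, ∀ n, ∀ (α : Type) [Finite α], (K n).carrier α ≤ (K m).carrier α := by
  obtain ⟨Kw, hKw⟩ : ∃ Kw : FISub V, ∀ (α : Type) [Finite α] (v : V.at α),
      v ∈ Kw.carrier α ↔ ∃ n, v ∈ (K n).carrier α := by
    have hd : ∀ (α : Type) [Finite α], Directed (· ≤ ·) (fun n => (K n).carrier α) := by
      intro α _ m n
      exact ⟨max m n, hK m _ (le_max_left _ _) α, hK n _ (le_max_right _ _) α⟩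
    refine ⟨⟨fun α _ => ⨆ n, (K n).carrier α, ?_⟩, fun α _ v => ?_⟩
    · intro α β _ _ j v hv
      rw [Submodule.mem_iSup_of_directed _ (hd α)] at hv
      rw [Submodule.mem_iSup_of_directed _ (hd β)]
      obtain ⟨n, hn⟩ := hv
      exact ⟨n, (K n).mapL_mem j hn⟩
    · exact Submodule.mem_iSup_of_directed _ (hd α)
  obtain ⟨M, nn, v, hv⟩ := hN V hV Kw
  have h1 : ∀ i, ∃ m, FIMod.appL Kw.ι _ (v i) ∈ (K m).carrier (Fin (nn i)) := fun i =>
    (hKw _ _).mp (ι_mem Kw (v i))
  choose f hf using h1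
  refine ⟨Finset.univ.sup f, fun n α _ w hw => ?_⟩
  have h2 := hv (comap Kw.ι (K (Finset.univ.sup f))) (fun i => by
    show FIMod.appL Kw.ι _ (v i) ∈ (K (Finset.univ.sup f)).carrier (Fin (nn i))
    exact hK (f i) _ (Finset.le_sup (Finset.mem_univ i)) _ (hf i)) α
  obtain ⟨x, rfl⟩ := ι_surj Kw ((hKw α w).mpr ⟨n, hw⟩)
  have h3 : x ∈ (comap Kw.ι (K (Finset.univ.sup f))).carrier α := by
    rw [h2]; exact Submodule.mem_top
  exact h3

/-! ### stationarity -/

/-- functoriality of shifts -/
def shMap (V : FIMod k) {R R' : Type} [Finite R] [Finite R'] (r : R ↪ R') :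
    V.shift R ⟶ V.shift R' :=
  FIMod.homMk (V := V.shift R) (W := V.shift R')
    (fun α _ => (shIn V α R').comp ((V.mapL ((Function.Embedding.refl α).sumMap r)).comp
      (shOut V α R)))
    (fun {α β} _ _ j v => by
      obtain ⟨w, rfl⟩ : ∃ w : V.at (α ⊕ R), shIn V α R w = v := ⟨shOut V α R v, rfl⟩
      change V.mapL _ (V.mapL (sumEmb R j) w) = V.mapL (sumEmb R' j) (V.mapL _ w)
      rw [← V.mapL_trans, ← V.mapL_trans]
      refine congrArg (fun t => V.mapL t w) ?_
      ext x
      cases x <;> rfl)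

theorem shMap_toShift (V : FIMod k) {R R' : Type} [Finite R] [Finite R'] (r : R ↪ R')
    {α : Type} [Finite α] (v : V.at α) :
    FIMod.appL (shMap V r) α (FIMod.appL (V.toShift R) α v) = FIMod.appL (V.toShift R') α v := by
  change V.mapL _ (V.mapL _ v) = V.mapL _ v
  rw [← V.mapL_trans]
  rfl

/-- associativity of shifts -/
def shAssoc (V : FIMod k) (S R : Type) [Finite S] [Finite R] :
    (V.shift S).shift R ⟶ V.shift (R ⊕ S) :=
  FIMod.homMk (V := (V.shift S).shift R) (W := V.shift (R ⊕ S))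
    (fun α _ => (shIn V α (R ⊕ S)).comp ((V.mapL (Equiv.sumAssoc α R S).toEmbedding).comp
      ((shOut V (α ⊕ R) S).comp (shOut (V.shift S) α R))))
    (fun {α β} _ _ j v => by
      obtain ⟨w, rfl⟩ : ∃ w : V.at ((α ⊕ R) ⊕ S),
        shIn (V.shift S) α R (shIn V (α ⊕ R) S w) = v :=
          ⟨shOut V (α ⊕ R) S (shOut (V.shift S) α R v), rfl⟩
      change V.mapL _ (V.mapL (sumEmb S (sumEmb R j)) w) = V.mapL (sumEmb (R ⊕ S) j) (V.mapL _ w)
      rw [← V.mapL_trans, ← V.mapL_trans]
      refine congrArg (fun t => V.mapL t w) ?_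
      ext x
      rcases x with (x | x) | x <;> rfl)

theorem shAssoc_toShift (V : FIMod k) (S R : Type) [Finite S] [Finite R] {α : Type} [Finite α]
    (v : V.at α) :
    FIMod.appL (shAssoc V S R) α (FIMod.appL ((V.shift S).toShift R) α
      (FIMod.appL (V.toShift S) α v)) = FIMod.appL (V.toShift (R ⊕ S)) α v := by
  change V.mapL _ (V.mapL (sumEmb S Function.Embedding.inl) (V.mapL _ v)) = V.mapL _ v
  rw [← V.mapL_trans, ← V.mapL_trans]
  congr 1

/-- the kernel of `V → (Σ^R V)/(Σ^R V)_{<d}` -/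
def KR (d : ℕ) (V : FIMod k) (R : Type) [Finite R] : FISub V :=
  comap (V.toShift R) (low d (V.shift R))

theorem mem_KR {d : ℕ} {V : FIMod k} {R : Type} [Finite R] {α : Type} [Finite α] {v : V.at α} :
    v ∈ (KR d V R).carrier α ↔
      FIMod.appL (V.toShift R) α v ∈ (low d (V.shift R)).carrier α := Iff.rfl

theorem KR_mono (d : ℕ) (V : FIMod k) {R R' : Type} [Finite R] [Finite R'] (r : R ↪ R')
    (α : Type) [Finite α] : (KR d V R).carrier α ≤ (KR d V R').carrier α := by
  intro v hv
  rw [mem_KR] at hv ⊢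
  have := low_map (shMap V r) hv
  rwa [shMap_toShift] at this

theorem KR_stat (hN : Stmt_Noeth.{u}) (d : ℕ) {V : FIMod k} (hV : FG V) :
    ∃ m : ℕ, ∀ (R : Type) [Finite R] (α : Type) [Finite α],
      (KR d V R).carrier α ≤ (KR d V (Fin m)).carrier α := by
  obtain ⟨m, hm⟩ := chain hN hV (fun n => KR d V (Fin n))
    (fun m n h α _ => KR_mono d V (Fin.castLEEmb h) α)
  refine ⟨m, fun R _ α _ => ?_⟩
  exact (KR_mono d V (Finite.equivFin R).toEmbedding α).trans (hm (Nat.card R) α)

/-- stationarity -/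
def Stab (d : ℕ) (U : FIMod k) : Prop :=
  ∀ (α R : Type) [Finite α] [Finite R] (u : U.at α),
    FIMod.appL (U.toShift R) α u ∈ (low d (U.shift R)).carrier α → u ∈ (low d U).carrier α

theorem stab_shift {d : ℕ} {V : FIMod k} (hV : GenLT (d + 1) V) {S : Type} [Finite S]
    (hS : ∀ (R : Type) [Finite R] (α : Type) [Finite α],
      (KR d V R).carrier α ≤ (KR d V S).carrier α) : Stab d (V.shift S) := by
  intro α R _ _ u hu
  obtain ⟨v, hv⟩ := lemA hV u
  have h1 : FIMod.appL ((V.shift S).toShift R) α (FIMod.appL (V.toShift S) α v) ∈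
      (low d ((V.shift S).shift R)).carrier α := by
    have h2 := low_map ((V.shift S).toShift R) hv
    rw [map_sub] at h2
    have := Submodule.sub_mem _ hu h2
    rwa [sub_sub_cancel] at this
  have h3 : v ∈ (KR d V (R ⊕ S)).carrier α := by
    rw [mem_KR]
    have := low_map (shAssoc V S R) h1
    rwa [shAssoc_toShift] at this
  have h4 := mem_KR.mp (hS (R ⊕ S) α h3)
  have := Submodule.add_mem _ hv h4
  rwa [sub_add_cancel] at this

/-! ### projections -/

theorem exists_e {d : ℕ} {α : Type} [Finite α] (ι : Fin d ↪ α) :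
    ∃ (R : Type) (_ : Finite R) (e : α ≃ Fin d ⊕ R), ∀ x, e (ι x) = Sum.inl x := by
  classical
  refine ⟨↥(Set.range ι)ᶜ, inferInstance,
    ((Equiv.sumCongr (Equiv.ofInjective ι ι.injective) (Equiv.refl _)).trans
      (Equiv.Set.sumCompl (Set.range ι))).symm, fun x => ?_⟩
  rw [Equiv.symm_apply_eq]
  simp

theorem exists_pr {d : ℕ} {U : FIMod k} (hU : GenLT (d + 1) U) (hS : Stab d U) {α : Type}
    [Finite α] (ι : Fin d ↪ α) : ∃ p : U.at α →ₗ[k] (low d U).quot.at (Fin d),
      (∀ n, n < d + 1 → ∀ (κ : Fin n ↪ Fin d) (a : U.at (Fin n)),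
        p (U.mapL (κ.trans ι) a) = FIMod.appL (low d U).π (Fin d) (U.mapL κ a)) ∧
      (∀ n, n < d + 1 → ∀ κ : Fin n ↪ α, (¬ ∃ κ' : Fin n ↪ Fin d, κ = κ'.trans ι) →
        ∀ a : U.at (Fin n), p (U.mapL κ a) = 0) := by
  obtain ⟨R, _, e, he⟩ := exists_e ι
  let Phi : (low d U).quot.at (Fin d) →ₗ[k] (low d (U.shift R)).quot.at (Fin d) :=
    Submodule.mapQ ((low d U).carrier (Fin d)) ((low d (U.shift R)).carrier (Fin d))
      (FIMod.appL (U.toShift R) (Fin d)) (fun v hv => low_map _ hv)
  have hPhi : ∀ v, Phi (FIMod.appL (low d U).π (Fin d) v) =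
      FIMod.appL (low d (U.shift R)).π (Fin d) (FIMod.appL (U.toShift R) (Fin d) v) :=
    fun v => rfl
  have hbij : Function.Bijective Phi := by
    constructor
    · rw [injective_iff_map_eq_zero]
      intro x hx
      obtain ⟨v, rfl⟩ := π_surj (low d U) x
      rw [hPhi, π_eq_zero] at hx
      exact (π_eq_zero _).mpr (hS _ _ v hx)
    · intro y
      obtain ⟨u, rfl⟩ := π_surj (low d (U.shift R)) y
      obtain ⟨v, hv⟩ := lemA hU u
      refine ⟨FIMod.appL (low d U).π (Fin d) v, ?_⟩
      rw [hPhi]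
      have := (π_eq_zero _).mpr hv
      rw [map_sub, sub_eq_zero] at this
      exact this.symm
  let E := LinearEquiv.ofBijective Phi hbij
  have hE : ∀ x y, E.symm x = y ↔ x = Phi y := fun x y => E.symm_apply_eq
  refine ⟨E.symm.toLinearMap.comp ((FIMod.appL (low d (U.shift R)).π (Fin d)).comp
    ((shIn U (Fin d) R).comp (U.mapL e.toEmbedding))), fun n hn κ a => ?_, fun n hn κ hκ a => ?_⟩
  · show E.symm _ = _
    rw [hE, hPhi, toShift_apply, ← U.mapL_trans]
    show FIMod.appL (low d (U.shift R)).π (Fin d) (shIn U (Fin d) R (U.mapL e.toEmbedding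
      (U.mapL (κ.trans ι) a))) = _
    rw [← U.mapL_trans]
    have h : (κ.trans ι).trans e.toEmbedding = κ.trans Function.Embedding.inl := by
      ext x
      exact he (κ x)
    rw [h]
  · show E.symm _ = _
    rw [hE, map_zero]
    show FIMod.appL (low d (U.shift R)).π (Fin d) (shIn U (Fin d) R (U.mapL e.toEmbedding
      (U.mapL κ a))) = _
    rw [← U.mapL_trans, π_eq_zero]
    rcases gen_shift (κ.trans e.toEmbedding) a with ⟨κ', h⟩ | h
    · exfalso
      apply hκ
      refine ⟨κ', ?_⟩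
      ext x
      apply e.injective
      show e (κ x) = e (ι (κ' x))
      rw [he]
      exact DFunLike.congr_fun h x
    · exact low_mono (Nat.lt_succ_iff.mp hn) _ _ h

/-- An FI-module generated in degree exactly `d` with projections to degree `d` is `M(A)`. -/
theorem recog {d : ℕ} (Q : FIMod k)
    (hgen : ∀ {α : Type} [Finite α] {p : Q.at α → Prop},
      (∀ (κ : Fin d ↪ α) (b : Q.at (Fin d)), p (Q.mapL κ b)) →
      (∀ x y, p x → p y → p (x + y)) → (∀ (c : k) x, p x → p (c • x)) → p 0 → ∀ v, p v)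
    (pr : ∀ {α : Type} [Finite α], (Fin d ↪ α) → (Q.at α →ₗ[k] Q.at (Fin d)))
    (pr1 : ∀ {α : Type} [Finite α] (ι : Fin d ↪ α) (σ : Equiv.Perm (Fin d)) (b : Q.at (Fin d)),
      pr ι (Q.mapL (σ.toEmbedding.trans ι) b) = Q.mapL σ.toEmbedding b)
    (pr2 : ∀ {α : Type} [Finite α] (ι κ : Fin d ↪ α) (b : Q.at (Fin d)),
      (¬ ∃ σ : Equiv.Perm (Fin d), κ = σ.toEmbedding.trans ι) → pr ι (Q.mapL κ b) = 0) :
    ∃ h : Q ⟶ MA (Fin d) (Q.rep (Fin d)), ∀ (α : Type) [Finite α],
      Function.Bijective (FIMod.appL h α) := by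
  classical
  have hext : ∀ {α : Type} [Finite α] {X : Type u} [AddCommGroup X] [Module k X]
      (f g : Q.at α →ₗ[k] X), (∀ (κ : Fin d ↪ α) (b : Q.at (Fin d)),
        f (Q.mapL κ b) = g (Q.mapL κ b)) → ∀ v, f v = g v := by
    intro α _ X _ _ f g hfg
    refine hgen (p := fun v => f v = g v) hfg ?_ ?_ ?_
    · intro x y hx hy; rw [map_add, map_add, hx, hy]
    · intro c x hx; rw [map_smul, map_smul, hx]
    · rw [map_zero, map_zero]
  -- equivariance
  have heq : ∀ {α : Type} [Finite α] (σ : Equiv.Perm (Fin d)) (ι : Fin d ↪ α) (v : Q.at α),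
      pr (σ.toEmbedding.trans ι) v = Q.mapL σ⁻¹.toEmbedding (pr ι v) := by
    intro α _ σ ι
    refine hext (pr (σ.toEmbedding.trans ι)) ((Q.mapL σ⁻¹.toEmbedding).comp (pr ι)) ?_
    intro κ b
    show _ = Q.mapL σ⁻¹.toEmbedding (pr ι (Q.mapL κ b))
    by_cases h : ∃ τ : Equiv.Perm (Fin d), κ = τ.toEmbedding.trans (σ.toEmbedding.trans ι)
    · obtain ⟨τ, rfl⟩ := h
      rw [pr1]
      have e : τ.toEmbedding.trans (σ.toEmbedding.trans ι) =
          (σ * τ : Equiv.Perm (Fin d)).toEmbedding.trans ι := rfl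
      rw [e, pr1, ← Q.mapL_trans]
      refine congrArg (fun t => Q.mapL t b) ?_
      ext x; simp
    · rw [pr2 _ _ _ h, pr2, map_zero]
      rintro ⟨τ, rfl⟩
      apply h
      refine ⟨σ⁻¹ * τ, ?_⟩
      ext x; simp
  -- naturality
  have hnat1 : ∀ {α β : Type} [Finite α] [Finite β] (j : α ↪ β) (ι : Fin d ↪ α) (v : Q.at α),
      pr (ι.trans j) (Q.mapL j v) = pr ι v := by
    intro α β _ _ j ι
    refine hext ((pr (ι.trans j)).comp (Q.mapL j)) (pr ι) ?_
    intro κ b
    show pr (ι.trans j) (Q.mapL j (Q.mapL κ b)) = _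
    rw [← Q.mapL_trans]
    by_cases h : ∃ σ : Equiv.Perm (Fin d), κ = σ.toEmbedding.trans ι
    · obtain ⟨σ, rfl⟩ := h
      rw [pr1]
      exact pr1 (ι.trans j) σ b
    · rw [pr2 _ _ _ h, pr2]
      rintro ⟨σ, hσ⟩
      apply h
      exact ⟨σ, trans_inj j (hσ.trans rfl)⟩
  have hnat2 : ∀ {α β : Type} [Finite α] [Finite β] (j : α ↪ β) (κ₀ : Fin d ↪ β) (v : Q.at α),
      (¬ ∃ ι : Fin d ↪ α, ι.trans j = κ₀) → pr κ₀ (Q.mapL j v) = 0 := by
    intro α β _ _ j κ₀ v h₀
    refine hext ((pr κ₀).comp (Q.mapL j)) 0 ?_ v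
    intro κ b
    show pr κ₀ (Q.mapL j (Q.mapL κ b)) = 0
    rw [← Q.mapL_trans, pr2]
    rintro ⟨σ, hσ⟩
    apply h₀
    refine ⟨σ⁻¹.toEmbedding.trans κ, ?_⟩
    have : (σ⁻¹.toEmbedding.trans κ).trans j = σ⁻¹.toEmbedding.trans (κ.trans j) := rfl
    rw [this, hσ]
    ext x; simp
  -- orbits
  have key : ∀ (α : Type) [Finite α], ∃ (I : Type) (_ : Fintype I) (c : I → (Fin d ↪ α))
      (q : (Fin d ↪ α) → I), (∀ κ, ∃ σ : Equiv.Perm (Fin d), κ = σ.toEmbedding.trans (c (q κ))) ∧
      (∀ κ i, (∃ σ : Equiv.Perm (Fin d), κ = σ.toEmbedding.trans (c i)) → i = q κ) := by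
    intro α _
    let s : Setoid (Fin d ↪ α) :=
      { r := fun ι κ => ∃ σ : Equiv.Perm (Fin d), κ = σ.toEmbedding.trans ι
        iseqv :=
          { refl := fun ι => ⟨1, by ext x; rfl⟩
            symm := by
              rintro ι κ ⟨σ, rfl⟩
              exact ⟨σ⁻¹, by ext x; simp⟩
            trans := by
              rintro ι κ μ ⟨σ, rfl⟩ ⟨τ, rfl⟩
              exact ⟨σ * τ, by ext x; simp⟩ } }
    have : Finite (Quotient s) := Quotient.finite s
    let _ : Fintype (Quotient s) := Fintype.ofFinite _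
    refine ⟨Quotient s, inferInstance, Quotient.out, fun κ => Quotient.mk s κ, fun κ => ?_,
      fun κ i h => ?_⟩
    · exact Quotient.exact (Quotient.out_eq (Quotient.mk s κ))
    · have h1 : Quotient.mk s i.out = Quotient.mk s κ := Quotient.sound h
      rw [Quotient.out_eq] at h1
      exact h1
  let h : Q ⟶ MA (Fin d) (Q.rep (Fin d)) :=
    FIMod.homMk (V := Q) (W := MA (Fin d) (Q.rep (Fin d)))
      (fun α _ =>
        { toFun := fun v => MA.mkFn (A := Q.rep (Fin d)) (fun ι => pr ι v)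
            (fun σ ι => heq σ ι v)
          map_add' := fun v w => MA.fn_injective (fun ι => map_add (pr ι) v w)
          map_smul' := fun c v => MA.fn_injective (fun ι => map_smul (pr ι) c v) })
      (fun {α β} _ _ j v => MA.fn_injective (fun κ => by
        by_cases hκ : ∃ ι : Fin d ↪ α, ι.trans j = κ
        · obtain ⟨ι, rfl⟩ := hκ
          rw [MA.mapL_apply]
          exact hnat1 j ι v
        · rw [MA.mapL_apply_of_not _ _ _ hκ]
          exact hnat2 j κ v hκ))
  have hh : ∀ {α : Type} [Finite α] (v : Q.at α) (ι : Fin d ↪ α),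
      MA.fn (FIMod.appL h α v) ι = pr ι v := fun v ι => rfl
  refine ⟨h, fun α _ => ?_⟩
  obtain ⟨I, _, c, q, hq1, hq2⟩ := key α
  constructor
  · rw [injective_iff_map_eq_zero]
    intro v hv
    have h1 : ∀ ι, pr ι v = 0 := by
      intro ι
      rw [← hh, hv]; rfl
    have h2 : ∀ v : Q.at α, v = ∑ i, Q.mapL (c i) (pr (c i) v) := by
      intro v
      have h3 := hext LinearMap.id (∑ i, (Q.mapL (c i)).comp (pr (c i))) ?_ v
      · simpa using h3
      · intro κ b
        simp only [LinearMap.id_apply, LinearMap.sum_apply, LinearMap.comp_apply]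
        rw [Finset.sum_eq_single (q κ)]
        · obtain ⟨σ, hσ⟩ := hq1 κ
          have e1 : pr (c (q κ)) (Q.mapL κ b) = Q.mapL σ.toEmbedding b := by
            have := pr1 (c (q κ)) σ b
            rwa [← hσ] at this
          rw [e1, ← Q.mapL_trans, ← hσ]
        · intro i _ hi
          rw [pr2, map_zero]
          intro hcon
          exact hi (hq2 κ i hcon)
        · intro hcon; exact absurd (Finset.mem_univ _) hcon
    rw [h2 v]
    apply Finset.sum_eq_zero
    intro i _
    rw [h1, map_zero]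
  · intro f
    refine ⟨∑ i, Q.mapL (c i) (MA.fn f (c i)), MA.fn_injective (fun ι => ?_)⟩
    rw [hh, map_sum, Finset.sum_eq_single (q ι)]
    · obtain ⟨σ, hσ⟩ := hq1 ι
      have h4 : c (q ι) = σ⁻¹.toEmbedding.trans ι := by
        conv_rhs => rw [hσ]
        ext x; simp
      rw [h4, pr1, MA.fn_equiv]
      show Q.mapL _ (Q.mapL _ (MA.fn f ι)) = _
      rw [← Q.mapL_trans]
      have h5 : (σ⁻¹⁻¹ : Equiv.Perm (Fin d)).toEmbedding.trans
          (σ⁻¹ : Equiv.Perm (Fin d)).toEmbedding = Function.Embedding.refl _ := by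
        ext x; simp
      rw [h5, Q.mapL_refl]
    · intro i _ hi
      rw [pr2]
      rintro ⟨σ, hσ⟩
      apply hi
      apply hq2
      refine ⟨σ⁻¹, ?_⟩
      rw [hσ]
      ext x; simp
    · intro hcon; exact absurd (Finset.mem_univ _) hcon

theorem exists_prQ {d : ℕ} {U : FIMod k} (hU : GenLT (d + 1) U) (hS : Stab d U) {α : Type}
    [Finite α] (ι : Fin d ↪ α) : ∃ p : (low d U).quot.at α →ₗ[k] (low d U).quot.at (Fin d),
      (∀ (σ : Equiv.Perm (Fin d)) (b : (low d U).quot.at (Fin d)),
        p ((low d U).quot.mapL (σ.toEmbedding.trans ι) b) =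
          (low d U).quot.mapL σ.toEmbedding b) ∧
      (∀ κ : Fin d ↪ α, (¬ ∃ σ : Equiv.Perm (Fin d), κ = σ.toEmbedding.trans ι) →
        ∀ b, p ((low d U).quot.mapL κ b) = 0) := by
  obtain ⟨p, hp1, hp2⟩ := exists_pr hU hS ι
  have hp0 : (low d U).carrier α ≤ LinearMap.ker p := by
    intro v hv
    refine low_induction (p := fun v => v ∈ LinearMap.ker p) ?_ ?_ ?_ ?_ hv
    · intro n hn κ a
      rw [LinearMap.mem_ker]
      by_cases h : ∃ κ' : Fin n ↪ Fin d, κ = κ'.trans ι
      · obtain ⟨κ', rfl⟩ := h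
        rw [hp1 n (by omega), π_eq_zero]
        exact mem_low hn κ' a
      · exact hp2 n (by omega) κ h a
    · exact Submodule.zero_mem _
    · intro x y _ _ hx hy; exact Submodule.add_mem _ hx hy
    · intro c x _ hx; exact Submodule.smul_mem _ c hx
  refine ⟨Submodule.liftQ ((low d U).carrier α) p hp0, fun σ b => ?_, fun κ hκ b => ?_⟩
  · obtain ⟨a, rfl⟩ := π_surj (low d U) b
    rw [← FIMod.appL_mapL, ← FIMod.appL_mapL]
    exact hp1 d (by omega) σ.toEmbedding a
  · obtain ⟨a, rfl⟩ := π_surj (low d U) b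
    rw [← FIMod.appL_mapL]
    refine hp2 d (by omega) κ ?_ a
    rintro ⟨κ', rfl⟩
    exact hκ ⟨κ'.equivOfFiniteSelfEmbedding, by
      rw [Function.Embedding.toEmbedding_equivOfFiniteSelfEmbedding]⟩

theorem quot_gen {d : ℕ} {U : FIMod k} (hU : GenLT (d + 1) U) {α : Type} [Finite α]
    {p : (low d U).quot.at α → Prop}
    (h1 : ∀ (κ : Fin d ↪ α) (b : (low d U).quot.at (Fin d)), p ((low d U).quot.mapL κ b))
    (hadd : ∀ x y, p x → p y → p (x + y)) (hsmul : ∀ (c : k) x, p x → p (c • x)) (h0 : p 0)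
    (v : (low d U).quot.at α) : p v := by
  obtain ⟨u, rfl⟩ := π_surj (low d U) v
  have hu : u ∈ (low (d + 1) U).carrier α := by rw [low_eq_top hU]; exact Submodule.mem_top
  refine low_induction (p := fun u => p (FIMod.appL (low d U).π α u)) ?_ ?_ ?_ ?_ hu
  · intro n hn κ a
    rcases Nat.lt_succ_iff_lt_or_eq.mp hn with h | rfl
    · rw [(π_eq_zero (low d U)).mpr (mem_low h κ a)]
      exact h0
    · rw [FIMod.appL_mapL]
      exact h1 κ _
  · rw [map_zero]; exact h0
  · intro x y _ _ hx hy; rw [map_add]; exact hadd _ _ hx hy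
  · intro c x _ hx; rw [map_smul]; exact hsmul _ _ hx

theorem top_iso {d : ℕ} {U : FIMod k} (hU : GenLT (d + 1) U) (hS : Stab d U) :
    ∃ h : (low d U).quot ⟶ MA (Fin d) ((low d U).quot.rep (Fin d)), ∀ (α : Type) [Finite α],
      Function.Bijective (FIMod.appL h α) := by
  have h1 : ∀ (α : Type) [Finite α] (ι : Fin d ↪ α),
      ∃ p : (low d U).quot.at α →ₗ[k] (low d U).quot.at (Fin d),
      (∀ (σ : Equiv.Perm (Fin d)) (b : (low d U).quot.at (Fin d)),
        p ((low d U).quot.mapL (σ.toEmbedding.trans ι) b) =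
          (low d U).quot.mapL σ.toEmbedding b) ∧
      (∀ κ : Fin d ↪ α, (¬ ∃ σ : Equiv.Perm (Fin d), κ = σ.toEmbedding.trans ι) →
        ∀ b, p ((low d U).quot.mapL κ b) = 0) := fun α _ ι => exists_prQ hU hS ι
  choose pr pr1 pr2 using h1
  refine recog (low d U).quot (quot_gen hU) (fun {α} _ ι => pr α ι) (fun {α} _ ι σ b =>
    pr1 α ι σ b) (fun {α} _ ι κ b h => pr2 α ι κ h b)

/-! ### the kernel of `V → Σ^R V` -/

theorem exists_emb {n : ℕ} {γ R : Type} [Finite γ] [Finite R] (j : Fin n ↪ γ)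
    (h : n + Nat.card R ≤ Nat.card γ) :
    ∃ e : Fin n ⊕ R ↪ γ, j = Function.Embedding.inl.trans e := by
  classical
  have : Fintype γ := Fintype.ofFinite γ
  have : Fintype R := Fintype.ofFinite R
  have hc : Fintype.card R ≤ Fintype.card ↥(Set.range j)ᶜ := by
    have h1 : Fintype.card ↥(Set.range j) = n := by
      rw [Set.card_range_of_injective j.injective, Fintype.card_fin]
    have h2 := Fintype.card_compl_set (Set.range j)
    rw [Nat.card_eq_fintype_card, Nat.card_eq_fintype_card] at h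
    omega
  obtain ⟨r⟩ := Function.Embedding.nonempty_of_card_le hc
  refine ⟨⟨Sum.elim j (fun x => (r x).1), ?_⟩, rfl⟩
  rintro (x | x) (y | y) hxy
  · exact congrArg Sum.inl (j.injective hxy)
  · exact absurd ⟨x, hxy⟩ (r y).2
  · exact absurd ⟨y, hxy.symm⟩ (r x).2
  · exact congrArg Sum.inr (r.injective (Subtype.ext hxy))

theorem toShift_inj (hN : Stmt_Noeth.{u}) {V : FIMod k} (hV : FG V) (R : Type) [Finite R] :
    ∃ N : ℕ, ∀ (α : Type) [Finite α], N ≤ Nat.card α →
      Function.Injective (FIMod.appL (V.toShift R) α) := by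
  obtain ⟨T, hT⟩ : ∃ T : FISub V, ∀ (α : Type) [Finite α] (v : V.at α), v ∈ T.carrier α ↔
      V.mapL (Function.Embedding.inl : α ↪ α ⊕ R) v = 0 := by
    refine ⟨⟨fun α _ => LinearMap.ker (V.mapL (Function.Embedding.inl : α ↪ α ⊕ R)), ?_⟩,
      fun α _ v => LinearMap.mem_ker⟩
    intro α β _ _ j v hv
    rw [LinearMap.mem_ker] at hv ⊢
    rw [← V.mapL_trans]
    have e : j.trans (Function.Embedding.inl : β ↪ β ⊕ R) =
        Function.Embedding.inl.trans (sumEmb R j) := rfl
    rw [e, V.mapL_trans, hv, map_zero]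
  obtain ⟨M, nn, v, hv⟩ := hN V hV T
  obtain ⟨N, hNN⟩ : ∃ N, ∀ i, nn i + Nat.card R ≤ N :=
    ⟨Finset.univ.sup (fun i => nn i + Nat.card R), fun i =>
      Finset.le_sup (f := fun i => nn i + Nat.card R) (Finset.mem_univ i)⟩
  let K : FISub T.toFI :=
    { carrier := fun α _ =>
        { carrier := {t | ∀ (γ : Type) [Finite γ] (j : α ↪ γ), N ≤ Nat.card γ →
            V.mapL j (FIMod.appL T.ι α t) = 0}
          add_mem' := by
            intro x y hx hy γ _ j h
            rw [map_add, map_add, hx γ j h, hy γ j h, add_zero]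
          zero_mem' := by
            intro γ _ j h
            rw [map_zero, map_zero]
          smul_mem' := by
            intro c x hx γ _ j h
            rw [map_smul, map_smul, hx γ j h, smul_zero] }
      mapL_mem := by
        intro α β _ _ j t ht γ _ j' h
        rw [FIMod.appL_mapL, ← V.mapL_trans]
        exact ht γ (j.trans j') h }
  have hK := hv K (fun i γ _ j h => by
    obtain ⟨e, rfl⟩ := exists_emb j ((hNN i).trans h)
    rw [V.mapL_trans, (hT _ _).mp (ι_mem T (v i)), map_zero])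
  refine ⟨N, fun α _ hα => ?_⟩
  rw [injective_iff_map_eq_zero]
  intro w hw
  obtain ⟨t, rfl⟩ := ι_surj T ((hT α w).mpr hw)
  have h1 : t ∈ K.carrier α := by rw [hK α]; exact Submodule.mem_top
  have h2 := h1 α (Function.Embedding.refl α) hα
  rwa [V.mapL_refl] at h2

end Dev

open Dev in
theorem Dev_proof (hN : Stmt_Noeth.{u}) (hG : Stmt_Gen.{u}) : Stmt_Dev.{u} := by
  intro k _ d P hzero hMA hext hker
  -- a zero object
  have hZ : ∀ (α : Type) [Finite α] (v : (constFI k PUnit.{u + 1}).at α), v = 0 :=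
    fun α _ v => Subsingleton.elim (α := PUnit.{u + 1}) v 0
  have hiso : ∀ {V W : FIMod k} (f : V ⟶ W), (∀ (α : Type) [Finite α],
      Function.Bijective (FIMod.appL f α)) → P W → P V := by
    intro V W f hf hW
    let g : W ⟶ constFI k PUnit.{u + 1} :=
      FIMod.homMk (V := W) (W := constFI k PUnit.{u + 1}) (fun α _ => 0) (fun _ _ => hZ _ _)
    refine hker f g ⟨0, fun α _ _ => ⟨(hf α).1, fun w => ⟨fun _ => ?_, fun _ => hZ _ _⟩,
      fun z => ⟨0, ?_⟩⟩⟩ hW (hzero _ ⟨0, fun α _ _ v => hZ _ _⟩)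
    · exact (hf α).2 w
    · rw [map_zero]; exact (hZ _ _).symm
  have main : ∀ e, e ≤ d → ∀ V : FIMod k, FG V → GenLT e V → P V := by
    intro e
    induction e with
    | zero =>
        intro _ V _ hV
        refine hzero V ⟨0, fun α _ _ v => ?_⟩
        have h := hV ⟨fun α _ => ⊥, fun j v hv => by
          rw [Submodule.mem_bot] at hv ⊢; rw [hv, map_zero]⟩ (fun n hn => absurd hn
            (Nat.not_lt_zero n)) α
        have h1 : v ∈ (⊥ : Submodule k (V.at α)) := by
          have h2 : (⊥ : Submodule k (V.at α)) = ⊤ := h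
          rw [h2]; exact Submodule.mem_top
        exact (Submodule.mem_bot k).mp h1
    | succ e ih =>
        intro he V hVf hVg
        obtain ⟨m, hm⟩ := KR_stat hN e hVf
        have hfin : ∀ (α : Type) [Finite α], FiniteDimensional k (V.at α) :=
          ((hG.fg_iff V).mp hVf).2
        have hU : GenLT (e + 1) (V.shift (Fin m)) := hG.genLT_shift V (Fin m) (e + 1) hVg
        have hUf : FG (V.shift (Fin m)) := (hG.fg_iff _).mpr
          ⟨⟨e + 1, hU⟩, fun α _ => hfin (α ⊕ Fin m)⟩
        have hS : Stab e (V.shift (Fin m)) := stab_shift hVg hm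
        have hUP : P (V.shift (Fin m)) := by
          have h1 : P (low e (V.shift (Fin m))).toFI :=
            ih (by omega) _ (hN _ hUf _) (low_genLT e _)
          obtain ⟨h, hh⟩ := top_iso hU hS
          have hfd : FiniteDimensional k ((low e (V.shift (Fin m))).quot.rep (Fin e)) := by
            have : FiniteDimensional k ((V.shift (Fin m)).at (Fin e)) := hfin (Fin e ⊕ Fin m)
            exact Module.Finite.of_surjective (FIMod.appL (low e (V.shift (Fin m))).π (Fin e))
              (π_surj _)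
          have h2 : P (low e (V.shift (Fin m))).quot := hiso h hh (hMA e (by omega) _ hfd)
          refine hext (low e (V.shift (Fin m))).ι (low e (V.shift (Fin m))).π
            ⟨0, fun α _ _ => ⟨ι_inj _, fun v => ?_, π_surj _⟩⟩ h1 h2
          rw [π_eq_zero]
          exact ⟨fun hv => ι_surj _ hv, by rintro ⟨x, rfl⟩; exact ι_mem _ x⟩
        -- the cokernel
        obtain ⟨N, hNi⟩ := toShift_inj hN hVf (Fin m)
        have hD : GenLT e (rangeSub (V.toShift (Fin m))).quot := by
          refine hG.genLT_of_surj ((low e (V.shift (Fin m))).ι ≫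
            (rangeSub (V.toShift (Fin m))).π) (fun α _ y => ?_) e (low_genLT e _)
          obtain ⟨u, rfl⟩ := π_surj _ y
          obtain ⟨v, hv⟩ := lemA hVg u
          obtain ⟨x, hx⟩ := ι_surj _ hv
          refine ⟨x, ?_⟩
          show FIMod.appL (rangeSub (V.toShift (Fin m))).π α
            (FIMod.appL (low e (V.shift (Fin m))).ι α x) = _
          rw [hx, map_sub, sub_eq_self, π_eq_zero]
          exact ⟨v, rfl⟩
        have hDf : FG (rangeSub (V.toShift (Fin m))).quot := (hG.fg_iff _).mpr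
          ⟨⟨e, hD⟩, fun α _ => by
            have : FiniteDimensional k ((V.shift (Fin m)).at α) := hfin (α ⊕ Fin m)
            exact Module.Finite.of_surjective
              (FIMod.appL (rangeSub (V.toShift (Fin m))).π α) (π_surj _)⟩
        refine hker (V.toShift (Fin m)) (rangeSub (V.toShift (Fin m))).π
          ⟨N, fun α _ hα => ⟨hNi α hα, fun v => ?_, π_surj _⟩⟩ hUP (ih (by omega) _ hDf hD)
        rw [π_eq_zero]
        exact Iff.rfl
  exact main d le_rfl

end Pool.Agent.FIExt
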