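import Pool.Agent.FIExt.Stmts

/-!
# Products of Bockstein-type data (module EDATA)
-/

open CategoryTheory CategoryTheory.Abelian

universe u

namespace Pool.Agent.FIExt

section

variable {k : Type u} [Field k]

/-- transport of `Ext` classes along an equality of degrees -/
noncomputable def castE {G : Type} [Group G] {X Y : Rep.{u} k G} {a b : ℕ} (h : a = b) :
    Ext X Y a →ₗ[k] Ext X Y b := h ▸ LinearMap.id

theorem castE_comp {G : Type} [Group G] {X Y Z : Rep.{u} k G} {a b c d : ℕ} (x : Ext X Y a)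
    (y : Ext Y Z b) (h : a + b = c) (h' : c = d) :
    castE (k := k) h' (x.comp y h) = x.comp y (h.trans h') := by
  subst h'; rfl

theorem comp_castE {G : Type} [Group G] {X Y Z : Rep.{u} k G} {a a' b c : ℕ} (x : Ext X Y a)
    (y : Ext Y Z b) (h : a = a') (h' : a' + b = c) :
    (castE (k := k) h x).comp y h' = x.comp y (by omega : a + b = c) := by
  subst h; rfl

theorem comp_castE_right {G : Type} [Group G] {X Y Z : Rep.{u} k G} {a b b' c : ℕ} (x : Ext X Y a)
    (y : Ext Y Z b) (h : b = b') (h' : a + b' = c) :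
    x.comp (castE (k := k) h y) h' = x.comp y (by omega : a + b = c) := by
  subst h; rfl

variable {Γ S : Type} [Group Γ] [Group S] {q : Γ →* S} {X₀ : Rep.{u} k S}

/-- weakening the class -/
noncomputable def BData.mono {U1 U2 : Rep.{u} k Γ → Prop} (D : BData q X₀ U1)
    (h : ∀ U, U2 U → U1 U) : BData q X₀ U2 where
  m := D.m
  e := D.e
  ρ := D.ρ
  ρ_e := D.ρ_e
  ρ_nat := D.ρ_nat
  kill U hU := D.kill U (h U hU)

/-- the trivial datum -/
noncomputable def BData.one (q : Γ →* S) (X₀ : Rep.{u} k S) :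
    BData q X₀ (fun _ => False) where
  m := 0
  e := Ext.mk₀ (𝟙 _)
  ρ N₀ s := castE (zero_add s)
  ρ_e N₀ s x := by
    rw [castE_comp]
    exact Ext.mk₀_id_comp x
  ρ_nat N₀ N₁ s t s' hs x y := by
    rw [castE_comp, comp_castE]
  kill U hU := hU.elim

/-- the product of two data -/
noncomputable def BData.mul {U1 U2 : Rep.{u} k Γ → Prop} (D1 : BData q X₀ U1)
    (D2 : BData q X₀ U2) : BData q X₀ (fun U => U1 U ∨ U2 U) where
  m := D1.m + D2.m
  e := D1.e.comp D2.e rfl
  ρ N₀ s := (D2.ρ N₀ s).comp ((D1.ρ N₀ (D2.m + s)).comp (castE (by omega)))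
  ρ_e N₀ s x := by
    rw [LinearMap.comp_apply, LinearMap.comp_apply, castE_comp,
      Ext.comp_assoc D1.e D2.e x rfl rfl (by omega), D1.ρ_e, D2.ρ_e]
  ρ_nat N₀ N₁ s t s' hs x y := by
    rw [LinearMap.comp_apply, LinearMap.comp_apply, LinearMap.comp_apply, LinearMap.comp_apply,
      castE_comp]
    rw [← D2.ρ_nat N₀ N₁ s t s' hs _ y, ← D1.ρ_nat N₀ N₁ (D2.m + s) t (D2.m + s') (by omega) _ y,
      comp_castE]
  kill U hU s x := by
    rw [Ext.comp_assoc D1.e D2.e x rfl rfl (by omega)]
    rcases hU with hU | hU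
    · have h1 := D1.kill U hU (D2.m + s) (D2.e.comp x rfl)
      have h2 := congrArg (castE (k := k) (by omega : D1.m + (D2.m + s) = D1.m + D2.m + s)) h1
      rw [castE_comp, map_zero] at h2
      exact h2
    · rw [D2.kill U hU s x, Ext.comp_zero]

/-- the product over a finite set -/
theorem BData.prod {ι : Type} [DecidableEq ι] (U : ι → Rep.{u} k Γ → Prop) (F : Finset ι)
    (h : ∀ i ∈ F, Nonempty (BData q X₀ (U i))) :
    Nonempty (BData q X₀ (fun V => ∃ i ∈ F, U i V)) := by
  induction F using Finset.induction_on with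
  | empty => exact ⟨(BData.one q X₀).mono (by simp)⟩
  | insert a F ha ih =>
    obtain ⟨D1⟩ := h a (Finset.mem_insert_self a F)
    obtain ⟨D2⟩ := ih (fun i hi => h i (Finset.mem_insert_of_mem hi))
    refine ⟨(D1.mul D2).mono ?_⟩
    rintro V ⟨i, hi, hV⟩
    rcases Finset.mem_insert.1 hi with rfl | hi
    · exact Or.inl hV
    · exact Or.inr ⟨i, hi, hV⟩

/-- `e` kills finite sums (in retract form) of representations killed by `e`. -/
theorem kill_sum {X Y : Rep.{u} k Γ} {m : ℕ} (e : Ext X Y m) {n : ℕ} {U : Rep.{u} k Γ}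
    (U' : Fin n → Rep.{u} k Γ) (a : ∀ i, U ⟶ U' i) (b : ∀ i, U' i ⟶ U)
    (hab : ∑ i, a i ≫ b i = 𝟙 U)
    (hk : ∀ i, ∀ (s : ℕ) (x : Ext Y (U' i) s), e.comp x (rfl : m + s = m + s) = 0)
    (s : ℕ) (x : Ext Y U s) : e.comp x (rfl : m + s = m + s) = 0 := by
  have h1 : x = ∑ i, (x.comp (Ext.mk₀ (a i)) (add_zero s)).comp (Ext.mk₀ (b i)) (add_zero s) := by
    have h2 : x = x.comp (Ext.mk₀ (∑ i, a i ≫ b i)) (add_zero s) := by
      rw [hab, Ext.comp_mk₀_id]
    rw [Ext.mk₀_sum, Ext.comp_sum] at h2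
    refine h2.trans (Finset.sum_congr rfl fun i _ => ?_)
    rw [← Ext.mk₀_comp_mk₀, Ext.comp_assoc_of_third_deg_zero]
  rw [h1, Ext.comp_sum]
  refine Finset.sum_eq_zero fun i _ => ?_
  rw [← Ext.comp_assoc_of_third_deg_zero, hk i s, Ext.zero_comp]

end

theorem EData_proof (hBeta : Stmt_Beta.{u}) : Stmt_EData.{u} := by
  intro k _ p _ _ N S _ _ X₀
  classical
  have hfin : Finite (Blk p N →+ ZMod p) := Finite.of_injective _ DFunLike.coe_injective
  let _ : Fintype (Blk p N →+ ZMod p) := Fintype.ofFinite _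
  have hone : ∀ l : Blk p N →+ ZMod p, l ≠ 0 →
      Nonempty (BData (MonoidHom.fst S (Multiplicative (Blk p N))) X₀
        (IsGraded (charOf S l))) := by
    intro l hl
    obtain ⟨v, hv⟩ : ∃ v, l v ≠ 0 := by
      by_contra h
      push Not at h
      exact hl (AddMonoidHom.ext h)
    let L : Blk p N →ₗ[ZMod p] ZMod p := AddMonoidHom.toZModLinearMap p l
    let w : Blk p N := (l v)⁻¹ • v
    have hw : l w = 1 := by
      have : L w = 1 := by
        rw [map_smul]
        exact inv_mul_cancel₀ hv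
      exact this
    have hlw : ∀ c : ZMod p, l (c • w) = c := by
      intro c
      have : L (c • w) = c := by
        rw [map_smul]
        have h2 : L w = 1 := hw
        rw [h2]
        simp
      exact this
    let lam := charOf S l
    have hlam : ∀ g : S × Multiplicative (Blk p N), lam g = Multiplicative.ofAdd (l g.2.toAdd) :=
      fun g => rfl
    let r0 : S × Multiplicative (Blk p N) →* S × Multiplicative (Blk p N) :=
      { toFun := fun g => (g.1, Multiplicative.ofAdd (g.2.toAdd - l g.2.toAdd • w))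
        map_one' := by simp
        map_mul' := by
          intro g g'
          refine Prod.ext rfl ?_
          apply Multiplicative.toAdd.injective
          simp only [Prod.snd_mul, toAdd_mul, map_add, toAdd_ofAdd, add_smul]
          abel }
    have hr0 : ∀ g, r0 g ∈ lam.ker := by
      intro g
      rw [MonoidHom.mem_ker, hlam]
      simp only [r0, MonoidHom.coe_mk, OneHom.coe_mk, toAdd_ofAdd]
      rw [map_sub, hlw, sub_self]
      rfl
    refine hBeta (k := k) p (MonoidHom.fst S (Multiplicative (Blk p N))) (lam.ker.subtype)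
      (r0.codRestrict lam.ker hr0) lam ?_ lam.ker.subtype_injective lam.ker.range_subtype ?_ ?_ X₀
    · intro c
      refine ⟨(1, Multiplicative.ofAdd (c.toAdd • w)), ?_⟩
      rw [hlam]
      simp only [toAdd_ofAdd]
      rw [hlw]
      rfl
    · ext1 g
      apply Subtype.ext
      have hg : l g.1.2.toAdd = 0 := by
        have := g.2
        rw [MonoidHom.mem_ker, hlam] at this
        exact this
      refine Prod.ext rfl ?_
      apply Multiplicative.toAdd.injective
      change g.1.2.toAdd - l g.1.2.toAdd • w = g.1.2.toAdd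
      rw [hg, zero_smul, sub_zero]
    · ext1 g
      rfl
  obtain ⟨D⟩ := BData.prod (q := MonoidHom.fst S (Multiplicative (Blk p N))) (X₀ := X₀)
    (fun l : Blk p N →+ ZMod p => IsGraded (charOf S l)) (Finset.univ.filter (fun l => l ≠ 0))
    (fun l hl => hone l (Finset.mem_filter.1 hl).2)
  refine ⟨{ m := D.m, e := D.e, ρ := D.ρ, ρ_e := D.ρ_e, ρ_nat := D.ρ_nat, kill := ?_ }⟩
  rintro U ⟨n, l, U', a, b, hl, hg, hab⟩ s x
  refine kill_sum D.e U' a b hab ?_ s x
  intro i s x
  exact D.kill (U' i) ⟨l i, by simp [hl i], hg i⟩ s x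

end Pool.Agent.FIExt
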