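import Mathlib

/-!
# General facts on `Ext` and exact functors
-/

open CategoryTheory CategoryTheory.Abelian CategoryTheory.Limits

universe w w' w'' v v' v'' t t' t''

namespace Pool.Agent.FIExt

section

variable {C : Type t} [Category.{v} C] [Abelian C] [EnoughProjectives C]

/-- the short complex `0 → K → P → X → 0` with `P` projective. -/
@[reducible] noncomputable def syz (X : C) : ShortComplex C :=
  ShortComplex.mk (kernel.ι (Projective.π X)) (Projective.π X) (kernel.condition _)

theorem syz_exact (X : C) : (syz X).ShortExact :=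
  { exact := ShortComplex.exact_kernel _ }

end

section

variable {C : Type t} [Category.{v} C] [Abelian C] [HasExt.{w} C] [EnoughProjectives C]
variable {D : Type t'} [Category.{v'} D] [Abelian D] [HasExt.{w'} D]
variable {E : Type t''} [Category.{v''} E] [Abelian E] [HasExt.{w''} E]

/-- dimension shifting, as an induction principle for elements of `Ext`. -/
theorem ext_ind {Y : C} (motive : ∀ (X : C) (n : ℕ), Ext X Y n → Prop)
    (h0 : ∀ (X : C) (f : X ⟶ Y), motive X 0 (Ext.mk₀ f))
    (hs : ∀ (S : ShortComplex C) (hS : S.ShortExact) (_ : Projective S.X₂) (n : ℕ)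
      (x : Ext S.X₁ Y n), motive S.X₁ n x →
        motive S.X₃ (n + 1) (hS.extClass.comp x (add_comm 1 n))) :
    ∀ (X : C) (n : ℕ) (x : Ext X Y n), motive X n x := by
  intro X n
  induction n generalizing X with
  | zero =>
    intro x
    obtain ⟨f, rfl⟩ := (Ext.mk₀_bijective X Y).2 x
    exact h0 X f
  | succ n hn =>
    intro x
    obtain ⟨x', rfl⟩ := Ext.contravariant_sequence_exact₃ (syz_exact X) Y x
      (Ext.eq_zero_of_projective _) (add_comm 1 n)
    exact hs (syz X) (syz_exact X) (by dsimp; infer_instance) n x' (hn _ x')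

theorem comm_aux {A₃ A₁ B₃ B₁ U W : D} {n : ℕ} (cF : Ext A₃ A₁ 1) (cG : Ext B₃ B₁ 1)
    (t₁ : A₁ ⟶ B₁) (t₃ : A₃ ⟶ B₃) (tY : U ⟶ W) (xF : Ext A₁ U n) (xG : Ext B₁ W n)
    (h : cF.comp (Ext.mk₀ t₁) (add_zero 1) = (Ext.mk₀ t₃).comp cG (zero_add 1))
    (hx : (Ext.mk₀ t₁).comp xG (zero_add n) = xF.comp (Ext.mk₀ tY) (add_zero n)) :
    (Ext.mk₀ t₃).comp (cG.comp xG (add_comm 1 n)) (zero_add (n + 1)) =
      (cF.comp xF (add_comm 1 n)).comp (Ext.mk₀ tY) (add_zero (n + 1)) := by
  rw [← Ext.comp_assoc _ _ _ (zero_add 1) (add_comm 1 n) (by lia : 0 + 1 + n = n + 1),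
      Ext.comp_assoc_of_third_deg_zero, ← hx, ← h,
      Ext.comp_assoc _ _ _ (add_zero 1) (zero_add n) (by lia)]

/-- **T1**: natural transformations between exact functors act compatibly on `Ext`. -/
theorem mapExactFunctor_natTrans (F G : C ⥤ D) [F.Additive] [PreservesFiniteLimits F]
    [PreservesFiniteColimits F] [G.Additive] [PreservesFiniteLimits G]
    [PreservesFiniteColimits G] (τ : F ⟶ G) {X Y : C} {n : ℕ} (x : Ext X Y n) :
    (Ext.mk₀ (τ.app X)).comp (x.mapExactFunctor G) (zero_add n) =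
      (x.mapExactFunctor F).comp (Ext.mk₀ (τ.app Y)) (add_zero n) := by
  refine ext_ind (fun X n x => (Ext.mk₀ (τ.app X)).comp (x.mapExactFunctor G) (zero_add n) =
      (x.mapExactFunctor F).comp (Ext.mk₀ (τ.app Y)) (add_zero n)) ?_ ?_ X n x
  · intro X f
    rw [Ext.mapExactFunctor_mk₀, Ext.mapExactFunctor_mk₀, Ext.mk₀_comp_mk₀, Ext.mk₀_comp_mk₀,
      τ.naturality]
  · intro S hS _ n x hx
    have h := ShortComplex.ShortExact.extClass_naturality
      (hS.map_of_exact F) (hS.map_of_exact G) (S.mapNatTrans τ)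
    rw [Ext.mapExactFunctor_comp, Ext.mapExactFunctor_comp, Ext.mapExactFunctor_extClass,
      Ext.mapExactFunctor_extClass]
    exact comm_aux _ _ _ _ _ _ _ h hx

theorem comp_aux (G : D ⥤ E) [G.Additive] [PreservesFiniteLimits G]
    [PreservesFiniteColimits G] {A₃ A₁ U : D} {n : ℕ} (c : Ext A₃ A₁ 1) (x : Ext A₁ U n)
    (c' : Ext (G.obj A₃) (G.obj A₁) 1) (x' : Ext (G.obj A₁) (G.obj U) n)
    (hc : c' = c.mapExactFunctor G) (hx : x' = x.mapExactFunctor G) :
    c'.comp x' (add_comm 1 n) = (c.comp x (add_comm 1 n)).mapExactFunctor G := by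
  subst hc hx
  exact (Ext.mapExactFunctor_comp G _ _ _).symm

/-- **T2**: composition of exact functors. -/
theorem mapExactFunctor_comp_functor (F : C ⥤ D) (G : D ⥤ E) [F.Additive] [PreservesFiniteLimits F]
    [PreservesFiniteColimits F] [G.Additive] [PreservesFiniteLimits G]
    [PreservesFiniteColimits G] [PreservesFiniteLimits (F ⋙ G)]
    [PreservesFiniteColimits (F ⋙ G)] {X Y : C} {n : ℕ} (x : Ext X Y n) :
    (x.mapExactFunctor (F ⋙ G)) = (x.mapExactFunctor F).mapExactFunctor G := by
  refine ext_ind (fun X n x => (x.mapExactFunctor (F ⋙ G)) =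
    (x.mapExactFunctor F).mapExactFunctor G) ?_ ?_ X n x
  · intro X f
    simp only [Ext.mapExactFunctor_mk₀]
    rfl
  · intro S hS _ n x hx
    rw [Ext.mapExactFunctor_comp, Ext.mapExactFunctor_comp, Ext.mapExactFunctor_extClass,
      Ext.mapExactFunctor_extClass]
    exact comp_aux G (hS.map_of_exact F).extClass _ (hS.map_of_exact (F ⋙ G)).extClass _
      (Ext.mapExactFunctor_extClass G (hS.map_of_exact F)).symm hx

theorem mapExactFunctor_id {X Y : C} {n : ℕ} (x : Ext X Y n) :
    (x.mapExactFunctor (𝟭 C)) = x := by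
  refine ext_ind (fun X n x => (x.mapExactFunctor (𝟭 C)) = x) ?_ ?_ X n x
  · intro X f
    simp only [Ext.mapExactFunctor_mk₀]
    rfl
  · intro S hS _ n x hx
    simp only [Ext.mapExactFunctor_comp, Ext.mapExactFunctor_extClass]
    rw [hx]
    rfl

/-- **T3**: an adjunction between exact functors induces bijections on `Ext`. -/
theorem ext_adjunction_bijective [EnoughProjectives D] (L : C ⥤ D) (R : D ⥤ C) [L.Additive]
    [PreservesFiniteLimits L] [PreservesFiniteColimits L] [R.Additive] [PreservesFiniteLimits R]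
    [PreservesFiniteColimits R] (adj : L ⊣ R) (X : C) (Y : D) (n : ℕ) :
    Function.Bijective (fun x : Ext (L.obj X) Y n =>
      (Ext.mk₀ (adj.unit.app X)).comp (x.mapExactFunctor R) (zero_add n)) := by
  have : PreservesFiniteLimits (L ⋙ R) := comp_preservesFiniteLimits L R
  have : PreservesFiniteColimits (L ⋙ R) := comp_preservesFiniteColimits L R
  have : PreservesFiniteLimits (R ⋙ L) := comp_preservesFiniteLimits R L
  have : PreservesFiniteColimits (R ⋙ L) := comp_preservesFiniteColimits R L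
  rw [Function.bijective_iff_has_inverse]
  refine ⟨fun y => (y.mapExactFunctor L).comp (Ext.mk₀ (adj.counit.app Y)) (add_zero n), ?_, ?_⟩
  · intro x
    have h := mapExactFunctor_natTrans (R ⋙ L) (𝟭 D) adj.counit x
    rw [mapExactFunctor_comp_functor, mapExactFunctor_id] at h
    have h2 := Ext.mapExactFunctor_comp L (Ext.mk₀ (adj.unit.app X)) (x.mapExactFunctor R)
      (zero_add n)
    rw [Ext.mapExactFunctor_mk₀] at h2
    dsimp only
    erw [h2]
    have h3 := Ext.comp_assoc_of_third_deg_zero (Ext.mk₀ (L.map (adj.unit.app X)))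
      ((x.mapExactFunctor R).mapExactFunctor L) (Ext.mk₀ (adj.counit.app Y)) (zero_add n)
    erw [h3]
    erw [← h]
    have h4 := Ext.mk₀_comp_mk₀_assoc (L.map (adj.unit.app X)) (adj.counit.app (L.obj X)) x
    erw [h4]
    have h5 := adj.left_triangle_components X
    rw [h5]
    exact Ext.mk₀_id_comp x
  · intro y
    have h := mapExactFunctor_natTrans (𝟭 C) (L ⋙ R) adj.unit y
    rw [mapExactFunctor_comp_functor, mapExactFunctor_id] at h
    have h2 := Ext.mapExactFunctor_comp R (y.mapExactFunctor L) (Ext.mk₀ (adj.counit.app Y))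
      (add_zero n)
    rw [Ext.mapExactFunctor_mk₀] at h2
    dsimp only
    erw [h2]
    have h3 := Ext.comp_assoc_of_third_deg_zero (Ext.mk₀ (adj.unit.app X))
      ((y.mapExactFunctor L).mapExactFunctor R) (Ext.mk₀ (R.map (adj.counit.app Y))) (zero_add n)
    erw [← h3]
    erw [h]
    have h4 := Ext.comp_assoc_of_third_deg_zero y (Ext.mk₀ (adj.unit.app (R.obj Y)))
      (Ext.mk₀ (R.map (adj.counit.app Y))) (add_zero n)
    erw [h4]
    have h6 := Ext.mk₀_comp_mk₀ (adj.unit.app (R.obj Y)) (R.map (adj.counit.app Y))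
    erw [h6]
    have h5 := adj.right_triangle_components Y
    erw [h5]
    exact Ext.comp_mk₀_id y

/-- the map `x ↦ R(x) · ev`. -/
noncomputable def mapPost (R : C ⥤ D) [R.Additive] [PreservesFiniteLimits R]
    [PreservesFiniteColimits R] {Y : C} {Z : D} (ev : R.obj Y ⟶ Z) (X : C) (n : ℕ) :
    Ext X Y n →+ Ext (R.obj X) Z n :=
  ((Ext.mk₀ ev).postcomp (R.obj X) (add_zero n)).comp (R.mapExtAddHom X Y n)

omit [EnoughProjectives C] in
theorem mapPost_apply (R : C ⥤ D) [R.Additive] [PreservesFiniteLimits R]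
    [PreservesFiniteColimits R] {Y : C} {Z : D} (ev : R.obj Y ⟶ Z) (X : C) (n : ℕ)
    (x : Ext X Y n) : mapPost R ev X n x =
      (x.mapExactFunctor R).comp (Ext.mk₀ ev) (add_zero n) := rfl

omit [EnoughProjectives C] in
theorem mapPost_comp (R : C ⥤ D) [R.Additive] [PreservesFiniteLimits R]
    [PreservesFiniteColimits R] {Y : C} {Z : D} (ev : R.obj Y ⟶ Z) {X X' : C} {n m l : ℕ}
    (y : Ext X X' m) (x : Ext X' Y n) (h : m + n = l) :
    mapPost R ev X l (y.comp x h) = (y.mapExactFunctor R).comp (mapPost R ev X' n x) h := by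
  rw [mapPost_apply, mapPost_apply, Ext.mapExactFunctor_comp, Ext.comp_assoc_of_third_deg_zero]

/-- **T3'**: an exact functor preserving projectives, with a cofree object. -/
theorem mapPost_bijective (R : C ⥤ D) [R.Additive] [PreservesFiniteLimits R]
    [PreservesFiniteColimits R] [R.PreservesProjectiveObjects] {Y : C} {Z : D}
    (ev : R.obj Y ⟶ Z) (h : ∀ X : C, Function.Bijective (fun f : X ⟶ Y => R.map f ≫ ev))
    (X : C) (n : ℕ) : Function.Bijective (mapPost R ev X n) := by
  induction n generalizing X with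
  | zero =>
    constructor
    · intro x y hxy
      obtain ⟨f, rfl⟩ := (Ext.mk₀_bijective X Y).2 x
      obtain ⟨g, rfl⟩ := (Ext.mk₀_bijective X Y).2 y
      rw [mapPost_apply, mapPost_apply, Ext.mapExactFunctor_mk₀, Ext.mapExactFunctor_mk₀,
        Ext.mk₀_comp_mk₀, Ext.mk₀_comp_mk₀] at hxy
      have := (Ext.mk₀_bijective _ _).1 hxy
      rw [(h X).1 this]
    · intro y
      obtain ⟨g, rfl⟩ := (Ext.mk₀_bijective _ _).2 y
      obtain ⟨f, hf⟩ := (h X).2 g
      refine ⟨Ext.mk₀ f, ?_⟩
      rw [mapPost_apply, Ext.mapExactFunctor_mk₀, Ext.mk₀_comp_mk₀]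
      exact congrArg _ hf
  | succ n hn =>
    let S := syz X
    have hS : S.ShortExact := syz_exact X
    have hP : Projective S.X₂ := by dsimp [S]; infer_instance
    have : Projective (S.map R).X₂ := Functor.PreservesProjectiveObjects.projective_obj hP
    have hSR := hS.map_of_exact R
    have hpre : ∀ (z : Ext S.X₁ Y n), mapPost R ev S.X₃ (n+1)
        (hS.extClass.comp z (add_comm 1 n)) =
        hSR.extClass.comp (mapPost R ev S.X₁ n z) (add_comm 1 n) := by
      intro z
      rw [mapPost_comp, Ext.mapExactFunctor_extClass]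
      rfl
    constructor
    · rw [injective_iff_map_eq_zero]
      intro x hx
      obtain ⟨x', rfl⟩ := Ext.contravariant_sequence_exact₃ hS Y x
        (Ext.eq_zero_of_projective _) (add_comm 1 n)
      have hx' := (hpre x').symm.trans hx
      obtain ⟨w, hw⟩ := Ext.contravariant_sequence_exact₁ hSR Z _ (add_comm 1 n) hx'
      obtain ⟨w', hw'⟩ := (hn S.X₂).2 w
      have : (Ext.mk₀ S.f).comp w' (zero_add n) = x' := by
        apply (hn S.X₁).1
        rw [mapPost_comp, Ext.mapExactFunctor_mk₀, ← hw, ← hw']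
        rfl
      rw [← this]
      simp
    · intro y
      obtain ⟨y', hy'⟩ := Ext.contravariant_sequence_exact₃ hSR Z y
        (Ext.eq_zero_of_projective _) (add_comm 1 n)
      obtain ⟨x', hx'⟩ := (hn S.X₁).2 y'
      refine ⟨hS.extClass.comp x' (add_comm 1 n), ?_⟩
      exact (hpre x').trans ((congrArg (fun t => hSR.extClass.comp t (add_comm 1 n)) hx').trans hy')

end

end Pool.Agent.FIExt
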