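import Pool.Agent.FIExt.Stmts

/-!
# `Ext` groups of finite-dimensional representations are finite-dimensional (module FINDIM)
-/

open CategoryTheory CategoryTheory.Abelian CategoryTheory.Limits

universe u

namespace Pool.Agent.FIExt

/-- A finite-dimensional representation is a quotient of a finite-dimensional projective. -/
theorem exists_fd_projective {k : Type u} [Field k] {G : Type} [Group G] [Finite G]
    (X : Rep.{u} k G) (hX : FiniteDimensional k X) :
    ∃ (P : Rep.{u} k G) (π : P ⟶ X), Projective P ∧ FiniteDimensional k P ∧
      Function.Surjective π.hom := by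
  classical
  obtain ⟨n, s, hs⟩ := Module.Finite.exists_fin' k X
  let f : ULift.{u} (Fin n) → X := fun i => s (Pi.single i.down 1)
  refine ⟨Rep.free k G (ULift.{u} (Fin n)), Rep.freeLift k G X f, inferInstance, ?_, ?_⟩
  · have h0 : Module.Finite k (MonoidAlgebra k G) := by
      let e : MonoidAlgebra k G →ₗ[k] (G →₀ k) :=
        { toFun := fun x => x.coeff
          map_add' := fun _ _ => rfl
          map_smul' := fun _ _ => rfl }
      refine FiniteDimensional.of_injective e ?_
      intro x y h
      exact MonoidAlgebra.coeffEquiv.injective h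
    change Module.Finite k (ULift.{u} (Fin n) →₀ MonoidAlgebra k G)
    infer_instance
  · intro x
    obtain ⟨c, rfl⟩ := hs x
    let L := (Rep.freeLift k G X f).hom.toLinearMap
    have h1 : ∀ i : Fin n, L (Finsupp.single (ULift.up i) (MonoidAlgebra.single 1 1)) =
        s (Pi.single i 1) := by
      intro i
      simp [L, f]
    refine ⟨∑ i, c i • Finsupp.single (ULift.up i) (MonoidAlgebra.single 1 1), ?_⟩
    change L (∑ i, c i • Finsupp.single (ULift.up i) (MonoidAlgebra.single 1 1)) = s c
    rw [map_sum]
    have h2 : c = ∑ i, c i • (Pi.single i 1 : Fin n → k) := by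
      ext j
      simp [Finset.sum_apply, Pi.single_apply]
    conv_rhs => rw [h2, map_sum]
    refine Finset.sum_congr rfl fun i _ => ?_
    rw [map_smul, map_smul, h1]

theorem FinDim_proof : Stmt_FinDim.{u} := by
  intro k _ G _ _ X Y hX hY i
  induction i generalizing X with
  | zero =>
    let e : Ext X Y 0 ≃ₗ[k] (X ⟶ Y) := Ext.linearEquiv₀
    let j : (X ⟶ Y) →ₗ[k] (X →ₗ[k] Y) :=
      { toFun := fun f => f.hom.toLinearMap
        map_add' := fun _ _ => rfl
        map_smul' := fun _ _ => rfl }
    have hj : Function.Injective j := by
      intro f g h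
      ext x
      exact LinearMap.congr_fun h x
    have : FiniteDimensional k (X →ₗ[k] Y) := inferInstance
    have h1 : FiniteDimensional k (X ⟶ Y) := FiniteDimensional.of_injective j hj
    exact Module.Finite.equiv e.symm
  | succ i ih =>
    obtain ⟨P, π, hP, hPf, hπ⟩ := exists_fd_projective X hX
    have hepi : Epi π := (Rep.epi_iff_surjective π).2 hπ
    let S : ShortComplex (Rep.{u} k G) :=
      ShortComplex.mk (kernel.ι π) π (kernel.condition _)
    have hS : S.ShortExact := { exact := ShortComplex.exact_kernel _ }
    have hK : FiniteDimensional k (kernel π : Rep.{u} k G) := by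
      have h1 : Function.Injective (kernel.ι π).hom := (Rep.mono_iff_injective _).1 inferInstance
      exact FiniteDimensional.of_injective (kernel.ι π).hom.toLinearMap h1
    have h1 := ih (kernel π) hK
    let δ : Ext (kernel π) Y i →ₗ[k] Ext X Y (i + 1) :=
      hS.extClass.precompOfLinear k Y (add_comm 1 i)
    have hδ : Function.Surjective δ := by
      intro x
      obtain ⟨x', hx'⟩ := Ext.contravariant_sequence_exact₃ hS Y x
        (Ext.eq_zero_of_projective (P := P) _) (add_comm 1 i)
      exact ⟨x', hx'⟩
    exact Module.Finite.of_surjective δ hδ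

end Pool.Agent.FIExt
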