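import Pool.Agent.FIExt.PhiDefs

/-!
# The final theorem for modules over the group algebras `k[S_n]`
-/

open CategoryTheory CategoryTheory.Abelian CategoryTheory.Limits

universe u

namespace Pool.Agent.FIExt

section

variable {k : Type u} [Field k] {G : Type} [Group G]

instance toMod_additive : (Rep.toModuleMonoidAlgebra.{u} (k := k) (G := G)).Additive where
  map_add := by intros; rfl

instance toMod_linear : (Rep.toModuleMonoidAlgebra.{u} (k := k) (G := G)).Linear k where
  map_smul {X Y} f r := by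
    ext x
    change r • f.hom x = (algebraMap k (MonoidAlgebra k G) r) • (show Y.ρ.asModule from f.hom x)
    rw [algebraMap_smul]
    rfl

/-- `Ext` over `Rep k G` and over `k[G]`-modules. -/
noncomputable def extEquiv (X Y : Rep.{u} k G) (i : ℕ) :
    Ext X Y i ≃ₗ[k] Ext (ModuleCat.of (MonoidAlgebra k G) X.ρ.asModule)
      (ModuleCat.of (MonoidAlgebra k G) Y.ρ.asModule) i :=
  LinearEquiv.ofBijective
    ((Rep.toModuleMonoidAlgebra.{u} (k := k) (G := G)).mapExtLinearMap k X Y i)
    ((Rep.toModuleMonoidAlgebra.{u} (k := k) (G := G)).mapExt_bijective_of_preservesProjectiveObjects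
      X Y i)

end

section

variable {k : Type u} [Field k]

/-- `W(e⁻¹)` as an equivariant map -/
noncomputable def cjHom (W : FIMod k) {α β : Type} [Finite α] [Finite β] (e : α ≃ β) :
    Rep.res (viaE e.toEmbedding) (W.rep β) ⟶ W.rep α :=
  W.gMap e.symm.toEmbedding (viaE e.toEmbedding) (MonoidHom.id _) (fun σ a => by
    obtain ⟨a, rfl⟩ := e.surjective a
    have h := viaE_apply e.toEmbedding σ a
    have h1 : e.symm (viaE e.toEmbedding σ (e a)) = σ a := by
      rw [Equiv.symm_apply_eq]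
      exact h
    have h2 : e.symm (e a) = a := e.symm_apply_apply a
    change e.symm (viaE e.toEmbedding σ (e a)) = σ (e.symm (e a))
    rw [h1, h2])

theorem cjHom_apply (W : FIMod k) {α β : Type} [Finite α] [Finite β] (e : α ≃ β)
    (w : W.at β) : (cjHom W e).hom w = W.mapL e.symm.toEmbedding w := rfl

theorem embHom_apply (V : FIMod k) {α β : Type} [Finite α] [Finite β] (j : α ↪ β)
    (v : V.at α) : (V.embHom j).hom v = V.mapL j v := rfl

theorem cj_refl_apply (W : FIMod k) (α : Type) [Finite α] (w : W.at α) :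
    (cjHom W (Equiv.refl α)).hom w = w := by
  rw [cjHom_apply]
  exact W.mapL_refl α w

theorem cj_trans_apply (W : FIMod k) {α β γ : Type} [Finite α] [Finite β] [Finite γ] (e : α ≃ β)
    (e' : β ≃ γ) (w : W.at γ) :
    (cjHom W e).hom ((cjHom W e').hom w) = (cjHom W (e.trans e')).hom w := by
  rw [cjHom_apply, cjHom_apply, cjHom_apply]
  exact (W.mapL_trans e'.symm.toEmbedding e.symm.toEmbedding w).symm

/-- conjugation by a bijection -/
noncomputable def cstab (V W : FIMod k) {α β : Type} [Finite α] [Finite β] (e : α ≃ β) (i : ℕ) :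
    Ext (V.rep β) (W.rep β) i →ₗ[k] Ext (V.rep α) (W.rep α) i :=
  cmp (viaE e.toEmbedding) (V.embHom e.toEmbedding) (cjHom W e) i

theorem cstab_refl (V W : FIMod k) (α : Type) [Finite α] (i : ℕ)
    (x : Ext (V.rep α) (W.rep α) i) : cstab V W (Equiv.refl α) i x = x := by
  have h0 : viaE (Equiv.refl α).toEmbedding = MonoidHom.id _ := viaE_refl α
  refine (cmp_congr h0 (V.embHom (Equiv.refl α).toEmbedding) (cjHom W (Equiv.refl α))
    (𝟙 (V.rep α)) (𝟙 (W.rep α)) ?_ ?_ i x).trans (cmp_id i x)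
  · intro v
    exact V.mapL_refl α v
  · intro w
    exact cj_refl_apply W α w

theorem cstab_trans (V W : FIMod k) {α β γ : Type} [Finite α] [Finite β] [Finite γ] (e : α ≃ β)
    (e' : β ≃ γ) (i : ℕ) (x : Ext (V.rep γ) (W.rep γ) i) :
    cstab V W e i (cstab V W e' i x) = cstab V W (e.trans e') i x := by
  refine (cmp_cmp (viaE e'.toEmbedding) (viaE e.toEmbedding) (V.embHom e'.toEmbedding)
    (cjHom W e') (V.embHom e.toEmbedding) (cjHom W e) i x).trans ?_
  have h0 : (viaE e'.toEmbedding).comp (viaE e.toEmbedding) = viaE (e.trans e').toEmbedding :=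
    viaE_trans e.toEmbedding e'.toEmbedding
  refine cmp_congr h0 _ _ (V.embHom (e.trans e').toEmbedding) (cjHom W (e.trans e')) ?_ ?_ i x
  · intro v
    exact (V.mapL_trans e.toEmbedding e'.toEmbedding v).symm
  · intro w
    exact cj_trans_apply W e e' w

theorem stab_exists (V W : FIMod k) {α β : Type} [Finite α] [Finite β]
    (e : α ≃ β) (i : ℕ) :
    Nonempty (Ext (V.rep β) (W.rep β) i ≃ₗ[k] Ext (V.rep α) (W.rep α) i) := by
  refine ⟨LinearEquiv.ofBijective (cstab V W e i) ?_⟩
  rw [Function.bijective_iff_has_inverse]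
  refine ⟨cstab V W e.symm i, ?_, ?_⟩
  · intro x
    rw [cstab_trans, Equiv.symm_trans_self, cstab_refl]
  · intro x
    rw [cstab_trans, Equiv.self_trans_symm, cstab_refl]

end

theorem Final_proof (hIso : Stmt_Iso.{u}) (hGen : Stmt_Gen.{u}) (hFD : Stmt_FinDim.{u}) :
    Stmt_Final.{u} := by
  intro k _ p _ _ N d hd V W hV hW hWd i
  have hfd : ∀ (V : FIMod k), FG V → ∀ n : ℕ, FiniteDimensional k (V.at (Fin n)) := fun V hV n =>
    ((hGen.fg_iff V).1 hV).2 (Fin n)
  refine ⟨fun n => ?_, ?_⟩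
  · have := hFD (V.rep (Fin n)) (W.rep (Fin n)) (hfd V hV n) (hfd W hW n) i
    exact Module.Finite.equiv (extEquiv (V.rep (Fin n)) (W.rep (Fin n)) i)
  · obtain ⟨n₀, h₀⟩ := hIso (k := k) p N d hd V W hV hW hWd i
    refine ⟨n₀, fun n hn => ?_⟩
    obtain ⟨e1⟩ := h₀ (Fin n) (by simpa using hn)
    have hcard : Nat.card (Fin n ⊕ Blk p N) = n + p ^ N := by
      simp [Blk]
    obtain ⟨e2⟩ := stab_exists V W (Finite.equivFinOfCardEq hcard) i
    exact (((extEquiv (V.rep (Fin (n + p ^ N))) (W.rep (Fin (n + p ^ N))) i).symm.trans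
      (e2.trans e1)).trans (extEquiv (V.rep (Fin n)) (W.rep (Fin n)) i)).finrank_eq

end Pool.Agent.FIExt
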