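import Pool.Agent.FIExt.Stmts

/-!
# GEN: elementary facts on generation of FI-modules
-/

open CategoryTheory CategoryTheory.Abelian

universe u

namespace Pool.Agent.FIExt

variable {k : Type u} [Field k]

/-- the FI-submodule generated by the degrees `< d`. -/
def lowSub (V : FIMod k) (d : ℕ) : FISub V where
  carrier α _ := Submodule.span k
    {x | ∃ n, n < d ∧ ∃ (j : Fin n ↪ α) (v : V.at (Fin n)), V.mapL j v = x}
  mapL_mem {α β} _ _ j {v} hv := by
    refine Submodule.span_induction (p := fun v _ => V.mapL j v ∈ _) ?_ ?_ ?_ ?_ hv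
    · rintro x ⟨n, hn, i, w, rfl⟩
      exact Submodule.subset_span ⟨n, hn, i.trans j, w, V.mapL_trans i j w⟩
    · rw [map_zero]; exact Submodule.zero_mem _
    · intro x y _ _ hx hy
      rw [map_add]; exact Submodule.add_mem _ hx hy
    · intro c x _ hx
      rw [map_smul]; exact Submodule.smul_mem _ _ hx

theorem lowSub_top (V : FIMod k) (d n : ℕ) (hn : n < d) : (lowSub V d).carrier (Fin n) = ⊤ := by
  rw [eq_top_iff]
  intro v _
  exact Submodule.subset_span ⟨n, hn, Function.Embedding.refl _, v, V.mapL_refl _ v⟩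

theorem lowSub_le (V : FIMod k) (d : ℕ) (K : FISub V) (hK : ∀ n < d, K.carrier (Fin n) = ⊤)
    (α : Type) [Finite α] : (lowSub V d).carrier α ≤ K.carrier α := by
  refine Submodule.span_le.2 ?_
  rintro x ⟨n, hn, i, w, rfl⟩
  refine K.mapL_mem i ?_
  rw [hK n hn]
  trivial

/-- `GenLT` in terms of spanning sets -/
theorem genLT_iff (V : FIMod k) (d : ℕ) :
    GenLT d V ↔ ∀ (α : Type) [Finite α], (lowSub V d).carrier α = ⊤ := by
  constructor
  · intro h
    exact h (lowSub V d) (fun n hn => lowSub_top V d n hn)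
  · intro h K hK α _
    rw [eq_top_iff, ← h α]
    exact lowSub_le V d K hK α

/-- transport along bijections -/
theorem FISub.top_of_equiv {V : FIMod k} (K : FISub V) {α β : Type} [Finite α] [Finite β]
    (e : α ≃ β) (h : K.carrier α = ⊤) : K.carrier β = ⊤ := by
  rw [eq_top_iff]
  intro v _
  have h1 : V.mapL e.toEmbedding (V.mapL e.symm.toEmbedding v) = v := by
    rw [← V.mapL_trans]
    have : e.symm.toEmbedding.trans e.toEmbedding = Function.Embedding.refl β := by
      ext x; simp
    rw [this, V.mapL_refl]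
  rw [← h1]
  refine K.mapL_mem _ ?_
  rw [h]
  trivial

theorem FISub.top_of_card_lt {V : FIMod k} (K : FISub V) {d : ℕ}
    (h : ∀ n < d, K.carrier (Fin n) = ⊤) {β : Type} [Finite β] (hβ : Nat.card β < d) :
    K.carrier β = ⊤ :=
  K.top_of_equiv (Finite.equivFin β).symm (h _ hβ)

/-- the preimage of an FI-submodule -/
def FISub.comap {V W : FIMod k} (f : V ⟶ W) (K : FISub W) : FISub V where
  carrier α _ := (K.carrier α).comap (FIMod.appL f α)
  mapL_mem {α β} _ _ j {v} hv := by
    change FIMod.appL f β (V.mapL j v) ∈ K.carrier β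
    rw [FIMod.appL_mapL]
    exact K.mapL_mem j hv

theorem genLT_of_surj' {V W : FIMod k} (f : V ⟶ W)
    (hf : ∀ (α : Type) [Finite α], Function.Surjective (FIMod.appL f α)) (d : ℕ)
    (hV : GenLT d V) : GenLT d W := by
  intro K hK α _
  have h := hV (K.comap f) (fun n hn => by
    change (K.carrier (Fin n)).comap _ = ⊤
    rw [hK n hn]; rfl) α
  rw [eq_top_iff]
  intro w _
  obtain ⟨v, rfl⟩ := hf α w
  have : v ∈ (K.comap f).carrier α := by rw [h]; trivial
  exact this

/-- decomposition of an injection into `α ⊕ R`. -/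
theorem exists_factor {n : ℕ} {α R : Type} [Finite α] [Finite R] (j : Fin n ↪ α ⊕ R) :
    ∃ (T : Set (Fin n)) (h : Fin n ↪ T ⊕ R) (j0 : T ↪ α), j = h.trans (sumEmb R j0) ∧
      ∀ i, i ∈ T ↔ ∃ a, j i = Sum.inl a := by
  classical
  let T : Set (Fin n) := {i | ∃ a, j i = Sum.inl a}
  have hT : ∀ i : T, ∃ a, j i = Sum.inl a := fun i => i.2
  choose a ha using hT
  have hT' : ∀ i : Fin n, i ∉ T → ∃ r, j i = Sum.inr r := by
    intro i hi
    rcases h : j i with x | r
    · exact absurd ⟨x, h⟩ hi
    · exact ⟨r, rfl⟩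
  choose r hr using hT'
  let j0 : T ↪ α := ⟨a, fun x y hxy => by
    apply Subtype.ext
    apply j.injective
    rw [ha x, ha y, hxy]⟩
  let h : Fin n → T ⊕ R := fun i => if hi : i ∈ T then Sum.inl ⟨i, hi⟩ else Sum.inr (r i hi)
  have hh : ∀ i, sumEmb R j0 (h i) = j i := by
    intro i
    by_cases hi : i ∈ T
    · have : h i = Sum.inl ⟨i, hi⟩ := dif_pos hi
      rw [this]
      change Sum.inl (a ⟨i, hi⟩) = j i
      rw [ha ⟨i, hi⟩]
    · have : h i = Sum.inr (r i hi) := dif_neg hi
      rw [this]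
      change Sum.inr (r i hi) = j i
      rw [hr i hi]
  refine ⟨T, ⟨h, fun x y hxy => j.injective (by rw [← hh x, ← hh y, hxy])⟩, j0, ?_, fun i => Iff.rfl⟩
  ext i
  exact (hh i).symm

theorem shift_mapL (V : FIMod k) (R : Type) [Finite R] {α β : Type} [Finite α] [Finite β]
    (j : α ↪ β) (v : V.at (α ⊕ R)) : (V.shift R).mapL j v = V.mapL (sumEmb R j) v := rfl

theorem card_set_le {n : ℕ} (T : Set (Fin n)) : Nat.card T ≤ n := by
  have := Nat.card_le_card_of_injective (Subtype.val : T → Fin n) Subtype.val_injective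
  simpa using this

theorem genLT_shift' (V : FIMod k) (R : Type) [Finite R] (d : ℕ) (hV : GenLT d V) :
    GenLT d (V.shift R) := by
  intro K hK α _
  rw [genLT_iff] at hV
  have h := hV (α ⊕ R)
  rw [eq_top_iff]
  intro v _
  have hv : v ∈ (lowSub V d).carrier (α ⊕ R) := by rw [h]; trivial
  refine Submodule.span_induction (p := fun v _ => v ∈ K.carrier α) ?_ ?_ ?_ ?_ hv
  · rintro x ⟨n, hn, j, w, rfl⟩
    obtain ⟨T, h, j0, hj, -⟩ := exists_factor j
    rw [hj, V.mapL_trans]
    refine K.mapL_mem (v := V.mapL h w) j0 ?_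
    have : K.carrier T = ⊤ := K.top_of_card_lt hK (lt_of_le_of_lt (card_set_le T) hn)
    rw [this]
    trivial
  · exact Submodule.zero_mem _
  · intro x y _ _ hx hy
    exact Submodule.add_mem _ hx hy
  · intro c x _ hx
    exact Submodule.smul_mem _ _ hx

theorem genLT_coker' (V Δ : FIMod k) (g : V.shift Unit ⟶ Δ) (d : ℕ)
    (hV : GenLT (d + 1) V) (hg : ∀ (α : Type) [Finite α], Function.Surjective (FIMod.appL g α))
    (hg0 : ∀ (α : Type) [Finite α] (v : V.at α),
      FIMod.appL g α (FIMod.appL (V.toShift Unit) α v) = 0) : GenLT d Δ := by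
  intro K0 hK0 α _
  let K : FISub (V.shift Unit) := K0.comap g
  have hK : ∀ n < d, K.carrier (Fin n) = ⊤ := fun n hn => by
    change (K0.carrier (Fin n)).comap _ = ⊤
    rw [hK0 n hn]; rfl
  rw [genLT_iff] at hV
  have h := hV (α ⊕ Unit)
  rw [eq_top_iff]
  intro v0 _
  obtain ⟨v, rfl⟩ := hg α v0
  have hv : v ∈ (lowSub V (d + 1)).carrier (α ⊕ Unit) := by rw [h]; trivial
  change v ∈ K.carrier α
  refine Submodule.span_induction (p := fun v _ => v ∈ K.carrier α) ?_ ?_ ?_ ?_ hv
  · rintro x ⟨n, hn, j, w, rfl⟩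
    obtain ⟨T, h, j0, hj, hT⟩ := exists_factor j
    by_cases hTu : T = Set.univ
    · -- `j` misses the new point
      have hex : ∀ i, ∃ a, j i = Sum.inl a := fun i => (hT i).1 (hTu ▸ Set.mem_univ i)
      choose a ha using hex
      let j' : Fin n ↪ α := ⟨a, fun x y hxy => j.injective (by rw [ha x, ha y, hxy])⟩
      have hjj : j = j'.trans (Function.Embedding.inl : α ↪ α ⊕ Unit) := by
        ext i
        exact ha i
      rw [hjj, V.mapL_trans]
      change FIMod.appL g α (FIMod.appL (V.toShift Unit) α (V.mapL j' w)) ∈ K0.carrier α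
      rw [hg0]
      exact Submodule.zero_mem _
    · have hcard : Nat.card T < n := by
        have h1 : (T : Set (Fin n)).ncard < (Set.univ : Set (Fin n)).ncard :=
          Set.ncard_lt_ncard (Set.ssubset_univ_iff.2 hTu) Set.finite_univ
        rw [Set.ncard_univ, Nat.card_eq_fintype_card, Fintype.card_fin] at h1
        exact h1
      rw [hj, V.mapL_trans]
      refine K.mapL_mem (v := V.mapL h w) j0 ?_
      have : K.carrier T = ⊤ := K.top_of_card_lt hK (by omega)
      rw [this]
      trivial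
  · exact Submodule.zero_mem _
  · intro x y _ _ hx hy
    exact Submodule.add_mem _ hx hy
  · intro c x _ hx
    exact Submodule.smul_mem _ _ hx

/-- the FI-submodule generated by finitely many elements -/
def genSub (V : FIMod k) {m : ℕ} {n : Fin m → ℕ} (v : ∀ i, V.at (Fin (n i))) : FISub V where
  carrier α _ := Submodule.span k (Set.range
    (fun p : Σ i : Fin m, (Fin (n i) ↪ α) => V.mapL p.2 (v p.1)))
  mapL_mem {α β} _ _ j {v} hv := by
    refine Submodule.span_induction (p := fun v _ => V.mapL j v ∈ _) ?_ ?_ ?_ ?_ hv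
    · rintro x ⟨⟨i, ι⟩, rfl⟩
      exact Submodule.subset_span ⟨⟨i, ι.trans j⟩, V.mapL_trans ι j _⟩
    · rw [map_zero]; exact Submodule.zero_mem _
    · intro x y _ _ hx hy
      rw [map_add]; exact Submodule.add_mem _ hx hy
    · intro c x _ hx
      rw [map_smul]; exact Submodule.smul_mem _ _ hx

theorem mem_genSub (V : FIMod k) {m : ℕ} {n : Fin m → ℕ} (v : ∀ i, V.at (Fin (n i))) (i : Fin m) :
    v i ∈ (genSub V v).carrier (Fin (n i)) :=
  Submodule.subset_span ⟨⟨i, Function.Embedding.refl _⟩, V.mapL_refl _ _⟩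

theorem genSub_le (V : FIMod k) {m : ℕ} {n : Fin m → ℕ} (v : ∀ i, V.at (Fin (n i)))
    (K : FISub V) (hK : ∀ i, v i ∈ K.carrier (Fin (n i))) (α : Type) [Finite α] :
    (genSub V v).carrier α ≤ K.carrier α := by
  refine Submodule.span_le.2 ?_
  rintro x ⟨⟨i, ι⟩, rfl⟩
  exact K.mapL_mem ι (hK i)

theorem fg_iff' (V : FIMod k) : FG V ↔
    (∃ d, GenLT d V) ∧ ∀ (α : Type) [Finite α], FiniteDimensional k (V.at α) := by
  constructor
  · rintro ⟨m, n, v, h⟩
    refine ⟨⟨(Finset.univ.sup n) + 1, ?_⟩, ?_⟩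
    · intro K hK α _
      refine h K (fun i => ?_) α
      rw [hK (n i) (Nat.lt_succ_of_le (Finset.le_sup (Finset.mem_univ i)))]
      trivial
    · intro α _
      have h1 := h (genSub V v) (fun i => mem_genSub V v i) α
      have h2 : (Submodule.span k (Set.range
          (fun p : Σ i : Fin m, (Fin (n i) ↪ α) => V.mapL p.2 (v p.1)))) = ⊤ := h1
      have : Finite (Σ i : Fin m, (Fin (n i) ↪ α)) := by
        have : ∀ i : Fin m, Finite (Fin (n i) ↪ α) := fun i => inferInstance
        infer_instance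
      exact Module.finite_def.2 (h2 ▸ Submodule.fg_span (Set.finite_range _))
  · rintro ⟨⟨d, hd⟩, hfd⟩
    classical
    let I := Σ n : Fin d, Fin (Module.finrank k (V.at (Fin n)))
    let e : I ≃ Fin (Fintype.card I) := Fintype.equivFin I
    refine ⟨Fintype.card I, fun i => ((e.symm i).1 : ℕ),
      fun i => Module.finBasis k (V.at (Fin ((e.symm i).1 : ℕ))) (e.symm i).2, ?_⟩
    intro K hK
    refine hd K (fun n hn => ?_)
    have hb : ∀ t : Fin (Module.finrank k (V.at (Fin n))),
        Module.finBasis k (V.at (Fin n)) t ∈ K.carrier (Fin n) := by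
      intro t
      have h1 : ∀ s : I, Module.finBasis k (V.at (Fin (s.1 : ℕ))) s.2 ∈
          K.carrier (Fin (s.1 : ℕ)) := by
        intro s
        obtain ⟨i, rfl⟩ := e.symm.surjective s
        exact hK i
      exact h1 ⟨⟨n, hn⟩, t⟩
    rw [eq_top_iff, ← (Module.finBasis k (V.at (Fin n))).span_eq]
    refine Submodule.span_le.2 ?_
    rintro x ⟨t, rfl⟩
    exact hb t

/-! ### finite sums of free FI-modules -/

/-- `⊕_i FreeFI (r i)` -/
noncomputable def sumFree (k : Type u) [Field k] {m : ℕ} (r : Fin m → ℕ) : FIMod k :=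
  FIMod.mk' (fun α _ => ModuleCat.of k (∀ i : Fin m, (FreeFI k (r i)).at α))
    (fun {_ _} _ _ j => LinearMap.pi (fun i => ((FreeFI k (r i)).mapL j).comp (LinearMap.proj i)))
    (fun _ _ v => funext fun i => (FreeFI k (r i)).mapL_refl _ (v i))
    (fun j j' v => funext fun i => (FreeFI k (r i)).mapL_trans j j' (v i))

/-- projection -/
noncomputable def sumFree.a {m : ℕ} (r : Fin m → ℕ) (i : Fin m) : sumFree k r ⟶ FreeFI k (r i) :=
  FIMod.homMk (fun α _ => (LinearMap.proj i : (∀ i : Fin m, (FreeFI k (r i)).at α) →ₗ[k] _))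
    (fun _ _ => rfl)

/-- inclusion -/
noncomputable def sumFree.b {m : ℕ} (r : Fin m → ℕ) (i : Fin m) : FreeFI k (r i) ⟶ sumFree k r :=
  FIMod.homMk (fun α _ => (LinearMap.single k (fun i => (FreeFI k (r i)).at α) i))
    (fun {α β} _ _ j v => by
      funext t
      change Pi.single (M := fun i => (FreeFI k (r i)).at β) i ((FreeFI k (r i)).mapL j v) t =
        (FreeFI k (r t)).mapL j (Pi.single (M := fun i => (FreeFI k (r i)).at α) i v t)
      by_cases h : t = i
      · subst h
        rw [Pi.single_eq_same, Pi.single_eq_same]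
      · rw [Pi.single_eq_of_ne h, Pi.single_eq_of_ne h, map_zero])

/-- the map out of a free FI-module given by an element -/
noncomputable def freeMap (V : FIMod k) {r : ℕ} (v : V.at (Fin r)) : FreeFI k r ⟶ V :=
  FIMod.homMk (fun α _ => (Finsupp.linearCombination k (fun ι : Fin r ↪ α => V.mapL ι v)))
    (fun {α β} _ _ j x => by
      have key : ∀ x : (Fin r ↪ α) →₀ k,
        Finsupp.linearCombination k (fun ι : Fin r ↪ β => V.mapL ι v)
          (Finsupp.mapDomain (fun ι : Fin r ↪ α => ι.trans j) x) =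
        V.mapL j (Finsupp.linearCombination k (fun ι : Fin r ↪ α => V.mapL ι v) x) := by
        intro x
        rw [Finsupp.linearCombination_mapDomain, Finsupp.linearCombination_apply,
          Finsupp.linearCombination_apply, map_finsuppSum]
        refine Finsupp.sum_congr (fun ι _ => ?_)
        rw [map_smul]
        congr 1
        exact V.mapL_trans ι j v
      exact key x)

theorem freeMap_single (V : FIMod k) {r : ℕ} (v : V.at (Fin r)) {α : Type} [Finite α]
    (ι : Fin r ↪ α) : FIMod.appL (freeMap V v) α (Finsupp.single ι (1 : k)) = V.mapL ι v := by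
  change Finsupp.linearCombination k (fun ι : Fin r ↪ α => V.mapL ι v) (Finsupp.single ι 1) = _
  rw [Finsupp.linearCombination_single, one_smul]

/-- the map from the sum of free modules -/
noncomputable def sumFreeMap (V : FIMod k) {m : ℕ} (r : Fin m → ℕ) (v : ∀ i, V.at (Fin (r i))) :
    sumFree k r ⟶ V :=
  FIMod.homMk (fun α _ => ∑ i, (FIMod.appL (freeMap V (v i)) α).comp
      (LinearMap.proj i : (∀ i : Fin m, (FreeFI k (r i)).at α) →ₗ[k] _))
    (fun {α β} _ _ j x => by
      rw [LinearMap.sum_apply, LinearMap.sum_apply, map_sum]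
      refine Finset.sum_congr rfl (fun i _ => ?_)
      exact FIMod.appL_mapL (freeMap V (v i)) j (x i))

/-- the generator of the free FI-module -/
noncomputable def freeGen (k : Type u) [Field k] (r : ℕ) : (FreeFI k r).at (Fin r) :=
  (Finsupp.single (Function.Embedding.refl (Fin r)) (1 : k) : (Fin r ↪ Fin r) →₀ k)

/-- the basis elements of the free FI-module -/
noncomputable def freeB (k : Type u) [Field k] {r : ℕ} {α : Type} [Finite α] (ι : Fin r ↪ α) :
    (FreeFI k r).at α :=
  (Finsupp.single ι (1 : k) : (Fin r ↪ α) →₀ k)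

theorem mapL_freeGen {r : ℕ} {α : Type} [Finite α] (ι : Fin r ↪ α) :
    (FreeFI k r).mapL ι (freeGen k r) = freeB k ι := by
  change Finsupp.mapDomain (fun κ : Fin r ↪ Fin r => κ.trans ι)
    (Finsupp.single (Function.Embedding.refl _) (1 : k)) = _
  rw [Finsupp.mapDomain_single]
  rfl

theorem free_induction {r : ℕ} {α : Type} [Finite α] {S : Submodule k ((FreeFI k r).at α)}
    (h : ∀ ι : Fin r ↪ α, freeB k ι ∈ S) (x : (FreeFI k r).at α) : x ∈ S := by
  have key : ∀ x : (Fin r ↪ α) →₀ k, x ∈ S := by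
    intro x
    induction x using Finsupp.induction_linear with
    | zero => exact S.zero_mem
    | add y z hy hz => exact S.add_mem hy hz
    | single ι c =>
      have h1 : (Finsupp.single ι c : (Fin r ↪ α) →₀ k) = c • (Finsupp.single ι 1) := by
        rw [Finsupp.smul_single, smul_eq_mul, mul_one]
      rw [h1]
      exact S.smul_mem c (h ι)
  exact key x

theorem exists_free' (V : FIMod k) (hV : FG V) :
    ∃ (m : ℕ) (r : Fin m → ℕ) (F : FIMod k) (a : ∀ i, F ⟶ FreeFI k (r i))
      (b : ∀ i, FreeFI k (r i) ⟶ F) (f : F ⟶ V), FG F ∧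
      (∀ (α : Type) [Finite α] (x : F.at α),
        ∑ i, FIMod.appL (b i) α (FIMod.appL (a i) α x) = x) ∧
      ∀ (α : Type) [Finite α], Function.Surjective (FIMod.appL f α) := by
  obtain ⟨m, r, v, h⟩ := hV
  have hsum : ∀ (α : Type) [Finite α] (x : (sumFree k r).at α),
      ∑ i, FIMod.appL (sumFree.b r i) α (FIMod.appL (sumFree.a r i) α x) = x := by
    intro α _ x
    have key : ∀ x : (∀ i : Fin m, (FreeFI k (r i)).at α),
        ∑ i, Pi.single (M := fun i => (FreeFI k (r i)).at α) i (x i) = x := fun x =>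
      Finset.univ_sum_single x
    exact key x
  refine ⟨m, r, sumFree k r, sumFree.a r, sumFree.b r, sumFreeMap V r v, ?_, hsum, ?_⟩
  · refine ⟨m, r, fun i => FIMod.appL (sumFree.b r i) (Fin (r i)) (freeGen k (r i)), ?_⟩
    intro K hK α _
    rw [eq_top_iff]
    intro x _
    rw [← hsum α x]
    refine Submodule.sum_mem _ (fun i _ => ?_)
    refine free_induction (S := (K.carrier α).comap (FIMod.appL (sumFree.b r i) α)) ?_
      (FIMod.appL (sumFree.a r i) α x)
    intro ι
    rw [Submodule.mem_comap, ← mapL_freeGen, FIMod.appL_mapL]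
    exact K.mapL_mem ι (hK i)
  · intro α _
    rw [← LinearMap.range_eq_top, eq_top_iff, ← h (genSub V v) (fun i => mem_genSub V v i) α]
    refine Submodule.span_le.2 ?_
    rintro x ⟨⟨i, ι⟩, rfl⟩
    refine ⟨FIMod.appL (sumFree.b r i) α (freeB k ι), ?_⟩
    change (∑ t, (FIMod.appL (freeMap V (v t)) α).comp
      (LinearMap.proj t : (∀ i : Fin m, (FreeFI k (r i)).at α) →ₗ[k] _))
        (Pi.single (M := fun i => (FreeFI k (r i)).at α) i (freeB k ι)) = _
    rw [LinearMap.sum_apply, Finset.sum_eq_single i]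
    · change FIMod.appL (freeMap V (v i)) α
        (Pi.single (M := fun i => (FreeFI k (r i)).at α) i (freeB k ι) i) = _
      rw [Pi.single_eq_same]
      exact freeMap_single V (v i) ι
    · intro t _ ht
      change FIMod.appL (freeMap V (v t)) α
        (Pi.single (M := fun i => (FreeFI k (r i)).at α) i (freeB k ι) t) = 0
      rw [Pi.single_eq_of_ne ht, map_zero]
    · intro ht; exact absurd (Finset.mem_univ _) ht

theorem Gen_proof : Stmt_Gen.{u} where
  fg_iff := fun V => fg_iff' V
  genLT_of_surj := fun f hf d hV => genLT_of_surj' f hf d hV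
  genLT_shift := fun V R _ d hV => genLT_shift' V R d hV
  genLT_coker := fun V Δ g d hV hg hg0 => genLT_coker' V Δ g d hV hg hg0
  exists_free := fun V hV => exists_free' V hV

end Pool.Agent.FIExt
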