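import Pool.Agent.FIExt.PhiA

/-!
# The isomorphism theorem
-/

open CategoryTheory CategoryTheory.Abelian CategoryTheory.Limits

universe u

namespace Pool.Agent.FIExt

section

variable {k : Type u} [Field k] {B : Type} [AddCommGroup B] [Finite B]

/-- The inclusion `Perm α → Perm α × B`. -/
abbrev cHom (α B : Type) [AddCommGroup B] : Equiv.Perm α →* Equiv.Perm α × Multiplicative B :=
  MonoidHom.inl (Equiv.Perm α) (Multiplicative B)

/-- The projection `Perm α × B → Perm α`. -/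
abbrev qHom (α B : Type) [AddCommGroup B] : Equiv.Perm α × Multiplicative B →* Equiv.Perm α :=
  MonoidHom.fst (Equiv.Perm α) (Multiplicative B)

theorem qc (α B : Type) [AddCommGroup B] : (qHom α B).comp (cHom α B) = MonoidHom.id _ := rfl

theorem resE_qc {α : Type} {X Y : Rep.{u} k (Equiv.Perm α)} {i : ℕ} (x : Ext X Y i) :
    resE (cHom α B) (resE (qHom α B) x) = x := by
  rw [resE_resE]
  exact resE_id x

/-- The map `x ↦ x_Γ`. -/
noncomputable def gam (V W : FIMod k) (α : Type) [Finite α] (i : ℕ) :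
    Ext (V.rep (α ⊕ B)) (W.rep (α ⊕ B)) i →ₗ[k]
      Ext (Rep.res (qHom α B) (V.rep α)) (Rep.res (blockHom α B) (W.rep (α ⊕ B))) i :=
  cmp (blockHom α B) (wMap V α B) (𝟙 _) i

theorem gam_apply (V W : FIMod k) (α : Type) [Finite α] (i : ℕ)
    (x : Ext (V.rep (α ⊕ B)) (W.rep (α ⊕ B)) i) :
    gam V W α i x = (Ext.mk₀ (wMap V α B)).comp (resE (blockHom α B) x) (zero_add i) := by
  rw [gam, cmp_apply, Ext.comp_mk₀_id]

variable {V : FIMod k} {α : Type} [Finite α] {𝒰 : Rep.{u} k (Equiv.Perm α × Multiplicative B) → Prop}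

/-- The map `Φ`. -/
noncomputable def Phi (D : BData (qHom α B) (V.rep α) 𝒰) {W : FIMod k}
    (hw : D.GoodMap (wMap W α B)) (i : ℕ) :
    Ext (V.rep (α ⊕ B)) (W.rep (α ⊕ B)) i →ₗ[k] Ext (V.rep α) (W.rep α) i :=
  (resE (cHom α B)).comp ((D.Psi hw i).comp (gam V W α i))

theorem Phi_apply (D : BData (qHom α B) (V.rep α) 𝒰) {W : FIMod k}
    (hw : D.GoodMap (wMap W α B)) (i : ℕ) (x : Ext (V.rep (α ⊕ B)) (W.rep (α ⊕ B)) i) :
    Phi D hw i x = resE (cHom α B) (D.Psi hw i (gam V W α i x)) := rfl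

/-- naturality of `Φ` with respect to classes. -/
theorem Phi_comp (D : BData (qHom α B) (V.rep α) 𝒰) {W W' : FIMod k}
    (hw : D.GoodMap (wMap W α B)) (hw' : D.GoodMap (wMap W' α B)) (s t s' : ℕ) (h : s + t = s')
    (y : Ext (W.rep (α ⊕ B)) (W'.rep (α ⊕ B)) t) (y₀ : Ext (W.rep α) (W'.rep α) t)
    (hy : (Ext.mk₀ (wMap W α B)).comp (resE (blockHom α B) y) (zero_add t) =
      (resE (qHom α B) y₀).comp (Ext.mk₀ (wMap W' α B)) (add_zero t))
    (x : Ext (V.rep (α ⊕ B)) (W.rep (α ⊕ B)) s) :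
    Phi D hw' s' (x.comp y h) = (Phi D hw s x).comp y₀ h := by
  rw [Phi_apply, Phi_apply, gam_apply, resE_comp, conj_post, ← gam_apply,
    D.Psi_comp hw hw' s t s' h _ y₀ hy, resE_comp, resE_qc]
  rfl

theorem wMap_nat {W W' : FIMod k} (f : W ⟶ W') (α : Type) [Finite α] :
    wMap W α B ≫ Rep.resMap (blockHom α B) (FIMod.repHom f (α ⊕ B)) =
      Rep.resMap (qHom α B) (FIMod.repHom f α) ≫ wMap W' α B := by
  ext w
  exact FIMod.appL_mapL f Function.Embedding.inl w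

/-- The morphism of short exact sequences of representations of `Perm α × B`. -/
noncomputable def wSC {W' W W'' : FIMod k} {f : W' ⟶ W} {g : W ⟶ W''} {α : Type} [Finite α]
    (hα : ExactAt f g α) (hβ : ExactAt f g (α ⊕ B)) :
    (repSC hα).map (Rep.resFunctor.{u} (k := k) (qHom α B)) ⟶
      (repSC hβ).map (Rep.resFunctor.{u} (k := k) (blockHom α B)) where
  τ₁ := wMap W' α B
  τ₂ := wMap W α B
  τ₃ := wMap W'' α B
  comm₁₂ := wMap_nat f α
  comm₂₃ := wMap_nat g α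

theorem Phi_mk₀ (D : BData (qHom α B) (V.rep α) 𝒰) {W W' : FIMod k}
    (hw : D.GoodMap (wMap W α B)) (hw' : D.GoodMap (wMap W' α B)) (f : W ⟶ W') (s : ℕ)
    (x : Ext (V.rep (α ⊕ B)) (W.rep (α ⊕ B)) s) :
    Phi D hw' s (x.comp (Ext.mk₀ (FIMod.repHom f (α ⊕ B))) (add_zero s)) =
      (Phi D hw s x).comp (Ext.mk₀ (FIMod.repHom f α)) (add_zero s) := by
  refine Phi_comp D hw hw' s 0 s (add_zero s) _ _ ?_ x
  rw [resE_mk₀, resE_mk₀, Ext.mk₀_comp_mk₀, Ext.mk₀_comp_mk₀, wMap_nat]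

theorem Phi_extClass (D : BData (qHom α B) (V.rep α) 𝒰) {W' W W'' : FIMod k} {f : W' ⟶ W}
    {g : W ⟶ W''} (hα : ExactAt f g α) (hβ : ExactAt f g (α ⊕ B))
    (hw' : D.GoodMap (wMap W' α B)) (hw'' : D.GoodMap (wMap W'' α B)) (s s' : ℕ)
    (h : s + 1 = s') (x : Ext (V.rep (α ⊕ B)) (W''.rep (α ⊕ B)) s) :
    Phi D hw' s' (x.comp (repSC_shortExact hβ).extClass h) =
      (Phi D hw'' s x).comp (repSC_shortExact hα).extClass h := by
  refine Phi_comp D hw'' hw' s 1 s' h _ _ ?_ x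
  have h1 := ShortComplex.ShortExact.extClass_naturality
    (res_shortExact (qHom α B) (repSC_shortExact hα))
    (res_shortExact (blockHom α B) (repSC_shortExact hβ)) (wSC hα hβ)
  rw [← resE_extClass (qHom α B) (repSC_shortExact hα),
    ← resE_extClass (blockHom α B) (repSC_shortExact hβ)] at h1
  exact h1.symm

/-- the ladder of the maps `Φ`. -/
noncomputable def PhiCov (D : BData (qHom α B) (V.rep α) 𝒰) {W' W W'' : FIMod k} {f : W' ⟶ W}
    {g : W ⟶ W''} (hα : ExactAt f g α) (hβ : ExactAt f g (α ⊕ B))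
    (hw' : D.GoodMap (wMap W' α B)) (hw : D.GoodMap (wMap W α B))
    (hw'' : D.GoodMap (wMap W'' α B)) :
    CovLadder (repSC_shortExact hβ) (repSC_shortExact hα) (V.rep (α ⊕ B)) (V.rep α) where
  c₁ m := (Phi D hw' m).toAddMonoidHom
  c₂ m := (Phi D hw m).toAddMonoidHom
  c₃ m := (Phi D hw'' m).toAddMonoidHom
  comm_f m x := Phi_mk₀ D hw' hw f m x
  comm_g m x := Phi_mk₀ D hw hw'' g m x
  comm_δ m n h x := Phi_extClass D hα hβ hw' hw'' m n h x

theorem inl_sharp {W : FIMod k} (P : Sharp W) (α : Type) [Finite α] :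
    wMap W α B ≫ wPr P α B = 𝟙 _ := by
  ext w
  exact P.pr_mapL Function.Embedding.inl w

/-- `Φ` for a sharp `W` is the stabilisation map. -/
theorem Phi_sharp (D : BData (qHom α B) (V.rep α) 𝒰) {W : FIMod k} (P : Sharp W)
    (hw : D.GoodMap (wMap W α B)) (i : ℕ) (x : Ext (V.rep (α ⊕ B)) (W.rep (α ⊕ B)) i) :
    Phi D hw i x = stab V P (Function.Embedding.inl : α ↪ α ⊕ B) i x := by
  rw [Phi_apply, D.Psi_split hw (wPr P α B) (inl_sharp P α)]
  have h1 : (gam V W α i x).comp (Ext.mk₀ (wPr P α B)) (add_zero i) =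
      cmp (blockHom α B) (wMap V α B) (wPr P α B) i x := by
    rw [gam_apply, cmp_apply]
  rw [h1]
  have h2 : resE (cHom α B) (cmp (blockHom α B) (wMap V α B) (wPr P α B) i x) =
      cmp (cHom α B) (𝟙 (V.rep α)) (𝟙 (W.rep α)) i
        (cmp (blockHom α B) (wMap V α B) (wPr P α B) i x) := by
    rw [cmp_apply]
    exact ((congrArg (fun t => Ext.comp t (Ext.mk₀ (𝟙 (W.rep α))) (add_zero i))
      (Ext.mk₀_id_comp _)).trans (Ext.comp_mk₀_id _)).symm
  refine h2.trans ?_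
  refine (cmp_cmp (blockHom α B) (cHom α B) (wMap V α B) (wPr P α B) (𝟙 (V.rep α))
    (𝟙 (W.rep α)) i x).trans ?_
  have h3 : (blockHom α B).comp (cHom α B) = viaE (Function.Embedding.inl : α ↪ α ⊕ B) := by
    ext σ y
    rcases y with a | b
    · exact (viaE_apply (Function.Embedding.inl : α ↪ α ⊕ B) σ a).symm
    · rw [viaE_apply_of_notMem]
      · change Sum.inr (0 + b) = Sum.inr b
        rw [zero_add]
      · rintro ⟨a, ha⟩
        cases ha
  refine cmp_congr h3 _ _ _ _ ?_ ?_ i x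
  · intro v
    rfl
  · intro w
    rfl

/-- Restriction of the ladder conditions to the class of FI-modules. -/
def PW (p N : ℕ) [Fact p.Prime] (V W : FIMod k) : Prop :=
  (∃ n₁ : ℕ, ∀ (α : Type) [Finite α], n₁ ≤ Nat.card α →
    ∀ D : BData (qHom α (Blk p N)) (V.rep α) (IsSplit p), D.GoodMap (wMap W α (Blk p N))) ∧
  ∀ i : ℕ, ∃ n₀ : ℕ, ∀ (α : Type) [Finite α], n₀ ≤ Nat.card α →
    ∀ (D : BData (qHom α (Blk p N)) (V.rep α) (IsSplit p))
      (hw : D.GoodMap (wMap W α (Blk p N))), Function.Bijective (Phi D hw i)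

theorem card_sum_ge {α B : Type} [Finite α] [Finite B] {n : ℕ} (h : n ≤ Nat.card α) :
    n ≤ Nat.card (α ⊕ B) := by
  rw [Nat.card_sum]; omega

theorem PW_ext (hB : Stmt_PhiB.{u}) (p N : ℕ) [Fact p.Prime] (V : FIMod k) {W' W W'' : FIMod k}
    (f : W' ⟶ W) (g : W ⟶ W'') (h : EvExact f g) (h' : PW p N V W') (h'' : PW p N V W'') :
    PW p N V W := by
  obtain ⟨n₂, hn₂⟩ := h
  obtain ⟨⟨n', hn'⟩, hi'⟩ := h'
  obtain ⟨⟨n'', hn''⟩, hi''⟩ := h''
  have hex : ∀ (α : Type) [Finite α], n₂ ≤ Nat.card α → ExactAt f g α := fun α _ hα => hn₂ α hα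
  have good : ∀ (α : Type) [Finite α], n₂ ≤ Nat.card α → n' ≤ Nat.card α → n'' ≤ Nat.card α →
      ∀ D : BData (qHom α (Blk p N)) (V.rep α) (IsSplit p),
        D.GoodMap (wMap W α (Blk p N)) := by
    intro α _ h1 h2 h3 D
    exact hB.ext D _ _ (res_shortExact _ (repSC_shortExact (hex α h1)))
      (res_shortExact _ (repSC_shortExact (hex (α ⊕ Blk p N) (card_sum_ge h1))))
      (wSC (hex α h1) (hex (α ⊕ Blk p N) (card_sum_ge h1))) (hn' α h2 D) (hn'' α h3 D)
  refine ⟨⟨max n₂ (max n' n''), fun α _ hα D => good α (by omega) (by omega) (by omega) D⟩, ?_⟩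
  intro i
  obtain ⟨a1, ha1⟩ := hi' i
  obtain ⟨a2, ha2⟩ := hi'' i
  obtain ⟨a3, ha3⟩ := hi' (i + 1)
  have h4 : ∃ a4, ∀ (α : Type) [Finite α], a4 ≤ Nat.card α →
      ∀ (D : BData (qHom α (Blk p N)) (V.rep α) (IsSplit p))
      (hw : D.GoodMap (wMap W'' α (Blk p N))), ∀ m, m + 1 = i →
        Function.Surjective (Phi D hw m) := by
    cases i with
    | zero => exact ⟨0, fun α _ _ D hw m hm => by omega⟩
    | succ i =>
      obtain ⟨a, ha⟩ := hi'' i
      refine ⟨a, fun α _ hα D hw m hm => ?_⟩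
      obtain rfl : m = i := by omega
      exact (ha α hα D hw).2
  obtain ⟨a4, ha4⟩ := h4
  refine ⟨n₂ + n' + n'' + a1 + a2 + a3 + a4, fun α _ hα D hw => ?_⟩
  have g' := hn' α (by omega) D
  have g'' := hn'' α (by omega) D
  let L := PhiCov D (hex α (by omega)) (hex (α ⊕ Blk p N) (card_sum_ge (by omega))) g' hw g''
  constructor
  · exact L.inj₂ i (ha1 α (by omega) D g').1 (ha2 α (by omega) D g'').1
      (ha4 α (by omega) D g'')
  · exact L.surj₂ i (ha1 α (by omega) D g').2 (ha2 α (by omega) D g'').2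
      (ha3 α (by omega) D g').1

theorem PW_ker (hB : Stmt_PhiB.{u}) (p N : ℕ) [Fact p.Prime] (V : FIMod k) {W' W W'' : FIMod k}
    (f : W' ⟶ W) (g : W ⟶ W'') (h : EvExact f g) (h' : PW p N V W) (h'' : PW p N V W'') :
    PW p N V W' := by
  obtain ⟨n₂, hn₂⟩ := h
  obtain ⟨⟨n', hn'⟩, hi'⟩ := h'
  obtain ⟨⟨n'', hn''⟩, hi''⟩ := h''
  have hex : ∀ (α : Type) [Finite α], n₂ ≤ Nat.card α → ExactAt f g α := fun α _ hα => hn₂ α hα
  have good : ∀ (α : Type) [Finite α], n₂ ≤ Nat.card α → n' ≤ Nat.card α → n'' ≤ Nat.card α →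
      ∀ D : BData (qHom α (Blk p N)) (V.rep α) (IsSplit p),
        D.GoodMap (wMap W' α (Blk p N)) := by
    intro α _ h1 h2 h3 D
    exact hB.ker D _ _ (res_shortExact _ (repSC_shortExact (hex α h1)))
      (res_shortExact _ (repSC_shortExact (hex (α ⊕ Blk p N) (card_sum_ge h1))))
      (wSC (hex α h1) (hex (α ⊕ Blk p N) (card_sum_ge h1))) (hn' α h2 D) (hn'' α h3 D)
  refine ⟨⟨max n₂ (max n' n''), fun α _ hα D => good α (by omega) (by omega) (by omega) D⟩, ?_⟩
  intro i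
  obtain ⟨a1, ha1⟩ := hi' i
  obtain ⟨a2, ha2⟩ := hi'' i
  have h4 : ∃ a4, ∀ (α : Type) [Finite α], a4 ≤ Nat.card α →
      ∀ (D : BData (qHom α (Blk p N)) (V.rep α) (IsSplit p))
      (hw : D.GoodMap (wMap W'' α (Blk p N))), ∀ m, m + 1 = i →
        Function.Bijective (Phi D hw m) := by
    cases i with
    | zero => exact ⟨0, fun α _ _ D hw m hm => by omega⟩
    | succ i =>
      obtain ⟨a, ha⟩ := hi'' i
      refine ⟨a, fun α _ hα D hw m hm => ?_⟩
      obtain rfl : m = i := by omega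
      exact ha α hα D hw
  have h5 : ∃ a5, ∀ (α : Type) [Finite α], a5 ≤ Nat.card α →
      ∀ (D : BData (qHom α (Blk p N)) (V.rep α) (IsSplit p))
      (hw : D.GoodMap (wMap W α (Blk p N))), ∀ m, m + 1 = i →
        Function.Surjective (Phi D hw m) := by
    cases i with
    | zero => exact ⟨0, fun α _ _ D hw m hm => by omega⟩
    | succ i =>
      obtain ⟨a, ha⟩ := hi' i
      refine ⟨a, fun α _ hα D hw m hm => ?_⟩
      obtain rfl : m = i := by omega
      exact (ha α hα D hw).2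
  obtain ⟨a4, ha4⟩ := h4
  obtain ⟨a5, ha5⟩ := h5
  refine ⟨n₂ + n' + n'' + a1 + a2 + a4 + a5, fun α _ hα D hw => ?_⟩
  have g' := hn' α (by omega) D
  have g'' := hn'' α (by omega) D
  let L := PhiCov D (hex α (by omega)) (hex (α ⊕ Blk p N) (card_sum_ge (by omega))) hw g' g''
  constructor
  · exact L.inj₁ i (ha1 α (by omega) D g').1 (ha5 α (by omega) D g')
      (fun m hm => (ha4 α (by omega) D g'' m hm).1)
  · exact L.surj₁ i (ha1 α (by omega) D g').2 (ha2 α (by omega) D g'').1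
      (fun m hm => (ha4 α (by omega) D g'' m hm).2)

theorem PW_MA (hB : Stmt_PhiB.{u}) (hSp : Stmt_Split.{u}) (hSt : Stmt_Stable.{u}) (p N : ℕ)
    [Fact p.Prime] (V : FIMod k) (hV : FG V) (r : ℕ) (hr : r < p ^ N)
    (A : Rep.{u} k (Equiv.Perm (Fin r))) (hA : FiniteDimensional k A) :
    PW p N V (MA (Fin r) A) := by
  constructor
  · refine ⟨0, fun α _ _ D => ?_⟩
    obtain ⟨U, t, s, hU, h1, h2⟩ := hSp p N r hr A α
    exact hB.split D (wMap (MA (Fin r) A) α (Blk p N))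
      (wPr (MA.sharp (Fin r) A) α (Blk p N)) t s hU (inl_sharp (MA.sharp (Fin r) A) α) h1 h2
  · intro i
    obtain ⟨n₀, hn₀⟩ := hSt r A hA V hV i
    refine ⟨n₀, fun α _ hα D hw => ?_⟩
    have h1 := hn₀ (Function.Embedding.inl : α ↪ α ⊕ Blk p N) hα
    have h2 : (Phi D hw i : _ → _) =
        stab V (MA.sharp (Fin r) A) (Function.Embedding.inl : α ↪ α ⊕ Blk p N) i := by
      funext x
      exact Phi_sharp D (MA.sharp (Fin r) A) hw i x
    rw [h2]
    exact h1

theorem ext_subsingleton_of_target {G : Type} [Group G] {X Y : Rep.{u} k G}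
    (hY : ∀ y : Y, y = 0) (i : ℕ) : ∀ x : Ext X Y i, x = 0 := by
  intro x
  have h : (𝟙 Y : Y ⟶ Y) = 0 := by
    ext y
    exact hY y
  rw [← Ext.comp_mk₀_id x, h, Ext.mk₀_zero, Ext.comp_zero]

theorem PW_zero (p N : ℕ) [Fact p.Prime] (V W : FIMod k) (hW : EvZero W) : PW p N V W := by
  obtain ⟨n, hn⟩ := hW
  constructor
  · refine ⟨n, fun α _ hα D => ⟨?_, ?_⟩⟩
    · rw [Rep.mono_iff_injective]
      intro x y _
      exact (hn α hα x).trans (hn α hα y).symm
    · intro s x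
      refine ⟨0, ?_⟩
      rw [D.mulPow_zero]
      apply ext_subsingleton_of_target
      intro y
      obtain ⟨y', rfl⟩ := (Rep.epi_iff_surjective
        (cokernel.π (wMap W α (Blk p N)))).1 inferInstance y
      have h0 : y' = 0 := hn (α ⊕ Blk p N) (card_sum_ge hα) y'
      rw [h0, map_zero]
  · intro i
    refine ⟨n, fun α _ hα D hw => ⟨?_, ?_⟩⟩
    · intro x y _
      rw [ext_subsingleton_of_target (hn (α ⊕ Blk p N) (card_sum_ge hα)) i x,
        ext_subsingleton_of_target (hn (α ⊕ Blk p N) (card_sum_ge hα)) i y]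
    · intro y
      refine ⟨0, ?_⟩
      rw [map_zero, ext_subsingleton_of_target (hn α hα) i y]

end

/-- The isomorphism theorem from the modules. -/
theorem Iso_proof (hB : Stmt_PhiB.{u}) (hSp : Stmt_Split.{u}) (hSt : Stmt_Stable.{u})
    (hE : Stmt_EData.{u}) (hDev : Stmt_Dev.{u}) : Stmt_Iso.{u} := by
  intro k _ p _ _ N d hd V W hV hW hWd i
  have hP : PW p N V W := by
    refine hDev d (fun W => PW p N V W) ?_ ?_ ?_ ?_ W hW hWd
    · intro W hW
      exact PW_zero p N V W hW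
    · intro r hr A hA
      exact PW_MA hB hSp hSt p N V hV r (by omega) A hA
    · intro W' W W'' f g h h' h''
      exact PW_ext hB p N V f g h h' h''
    · intro W' W W'' f g h h' h''
      exact PW_ker hB p N V f g h h' h''
  obtain ⟨⟨n₁, hn₁⟩, h2⟩ := hP
  obtain ⟨n₀, hn₀⟩ := h2 i
  refine ⟨max n₁ n₀, fun α _ hα => ?_⟩
  obtain ⟨D⟩ := hE p N (V.rep α)
  have hw := hn₁ α (by omega) D
  exact ⟨LinearEquiv.ofBijective (Phi D hw i) (hn₀ α (by omega) D hw)⟩

end Pool.Agent.FIExt
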