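import Pool.Agent.FIExt.Stmts

/-!
# Noetherianity of FI-modules over a field (module NOETH)
-/

open CategoryTheory

universe u

namespace Pool.Agent.FIExt

namespace NoethAux

/-! ## Words and Higman's lemma -/

open Classical in
/-- the letter at the position `x` -/
noncomputable def letter {r N : ℕ} (e : Fin r ↪ Fin N) (x : Fin N) : Option (Fin r) :=
  if h : ∃ t, e t = x then some h.choose else none

theorem letter_emb {r N : ℕ} (e : Fin r ↪ Fin N) (t : Fin r) : letter e (e t) = some t := by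
  have h : ∃ t', e t' = e t := ⟨t, rfl⟩
  unfold letter
  rw [dif_pos h]
  exact congrArg some (e.injective h.choose_spec)

theorem letter_eq_some {r N : ℕ} (e : Fin r ↪ Fin N) {x : Fin N} {t : Fin r}
    (h : letter e x = some t) : e t = x := by
  unfold letter at h
  split_ifs at h with h'
  have h1 := Option.some_injective _ h
  rw [← h1]
  exact h'.choose_spec

/-- the word of an embedding -/
noncomputable def word {r N : ℕ} (e : Fin r ↪ Fin N) : List (Option (Fin r)) :=
  List.ofFn (letter e)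

theorem exists_of_sublist {r N M : ℕ} (e : Fin r ↪ Fin N) (e' : Fin r ↪ Fin M)
    (h : (word e).Sublist (word e')) : ∃ g : Fin N ↪o Fin M, e.trans g.toEmbedding = e' := by
  rw [List.sublist_iff_exists_fin_orderEmbedding_get_eq] at h
  obtain ⟨f, hf⟩ := h
  have h1 : (word e).length = N := List.length_ofFn
  have h2 : (word e').length = M := List.length_ofFn
  refine ⟨((Fin.castOrderIso h1.symm).toOrderEmbedding.trans f).trans
    (Fin.castOrderIso h2).toOrderEmbedding, ?_⟩
  ext t
  have h3 := hf (Fin.cast h1.symm (e t))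
  have h4 : (word e).get (Fin.cast h1.symm (e t)) = some t := by
    unfold word
    rw [List.get_ofFn]
    exact letter_emb e t
  rw [h4] at h3
  have h5 : letter e' (Fin.cast h2 (f (Fin.cast h1.symm (e t)))) = some t := by
    rw [h3]
    unfold word
    rw [List.get_ofFn]
  have h6 := letter_eq_some e' h5
  rw [h6]
  rfl

/-- Finite bases for sets of words. -/
theorem exists_basis {A : Type} [Finite A] (L : Set (List A)) :
    ∃ S : Finset (List A), (∀ s ∈ S, s ∈ L) ∧ ∀ w ∈ L, ∃ s ∈ S, s.Sublist w := by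
  classical
  by_contra hcon
  push Not at hcon
  have h1 := exists_seq_of_forall_finset_exists (fun w : List A => w ∈ L)
    (fun s w => ¬ s.Sublist w) hcon
  obtain ⟨f, _, hf⟩ := h1
  have h2 : (Set.univ : Set A).PartiallyWellOrderedOn (· = ·) := by
    rw [Set.partiallyWellOrderedOn_iff_exists_lt]
    intro g _
    obtain ⟨a, b, hab, h⟩ := Finite.exists_ne_map_eq_of_infinite g
    rcases lt_or_gt_of_ne hab with h' | h'
    · exact ⟨a, b, h', h⟩
    · exact ⟨b, a, h', h.symm⟩
  have h3 := Set.PartiallyWellOrderedOn.partiallyWellOrderedOn_sublistForall₂ (· = ·) h2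
  rw [Set.partiallyWellOrderedOn_iff_exists_lt] at h3
  obtain ⟨a, b, hab, h⟩ := h3 f (fun n x _ => Set.mem_univ x)
  refine hf a b hab ?_
  rw [List.sublistForall₂_iff] at h
  obtain ⟨l, hl, hl'⟩ := h
  rw [List.forall₂_eq_eq_eq] at hl
  rwa [hl]

/-! ## Monomials -/

/-- Monomials -/
structure Mon {m : ℕ} (n : Fin m → ℕ) (N : ℕ) : Type where
  /-- the component -/
  i : Fin m
  /-- the embedding -/
  emb : Fin (n i) ↪ Fin N

section Mon

variable {m : ℕ} {n : Fin m → ℕ} {N M : ℕ}

/-- the sort key -/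
def Mon.key (b : Mon n N) : Σₗ i : Fin m, Lex (Fin (n i) → Fin N) :=
  ⟨b.i, toLex (fun t => b.emb t)⟩

theorem Mon.key_injective : Function.Injective (Mon.key (n := n) (N := N)) := by
  rintro ⟨i, e⟩ ⟨i', e'⟩ h
  have h1 : i = i' := congrArg Sigma.fst h
  subst h1
  have h2 : (fun t => e t) = (fun t => e' t) := eq_of_heq (Sigma.mk.inj_iff.mp h).2
  have h3 : e = e' := by
    ext t
    rw [congrFun h2 t]
  rw [h3]

instance : Finite (Mon n N) :=
  Finite.of_injective (fun b : Mon n N => (⟨b.i, b.emb⟩ : Σ i : Fin m, (Fin (n i) ↪ Fin N)))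
    (by
      rintro ⟨i, e⟩ ⟨i', e'⟩ h
      have h1 : i = i' := congrArg Sigma.fst h
      subst h1
      have h2 : e = e' := eq_of_heq (Sigma.mk.inj_iff.mp h).2
      rw [h2])

noncomputable instance : LinearOrder (Mon n N) :=
  LinearOrder.lift' Mon.key Mon.key_injective

theorem Mon.lt_iff {b c : Mon n N} : b < c ↔ b.key < c.key := Iff.rfl

/-- pushforward of monomials -/
def Mon.map (h : Fin N ↪ Fin M) (b : Mon n N) : Mon n M := ⟨b.i, b.emb.trans h⟩

theorem Mon.map_strictMono (h : Fin N ↪o Fin M) :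
    StrictMono (Mon.map (n := n) h.toEmbedding) := by
  rintro ⟨i, e⟩ ⟨i', e'⟩ hbc
  rw [Mon.lt_iff, Sigma.Lex.lt_def] at hbc ⊢
  rcases hbc with h1 | ⟨h1, h2⟩
  · exact Or.inl h1
  · right
    have h3 : i = i' := h1
    subst h3
    refine ⟨rfl, ?_⟩
    obtain ⟨t, ht1, ht2⟩ := h2
    refine ⟨t, fun s hs => ?_, ?_⟩
    · exact congrArg h (ht1 s hs)
    · exact h.strictMono ht2

end Mon

/-! ## Leading terms -/

section lead

variable {k : Type u} [Field k] {m : ℕ} {n : Fin m → ℕ}

/-- `c` is the leading monomial of `x` -/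
def IsLead {N : ℕ} (x : Mon n N →₀ k) (c : Mon n N) : Prop :=
  x c ≠ 0 ∧ ∀ b, x b ≠ 0 → b ≤ c

/-- evaluation -/
noncomputable def P (V : FIMod k) (v : ∀ i, V.at (Fin (n i))) (N : ℕ) :
    (Mon n N →₀ k) →ₗ[k] V.at (Fin N) :=
  Finsupp.linearCombination k (fun b => V.mapL b.emb (v b.i))

theorem P_map (V : FIMod k) (v : ∀ i, V.at (Fin (n i))) {N M : ℕ} (h : Fin N ↪ Fin M)
    (x : Mon n N →₀ k) : P V v M (Finsupp.mapDomain (Mon.map h) x) = V.mapL h (P V v N x) := by
  unfold P
  rw [Finsupp.linearCombination_mapDomain, Finsupp.linearCombination_apply,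
    Finsupp.linearCombination_apply, Finsupp.sum, Finsupp.sum, map_sum]
  refine Finset.sum_congr rfl (fun b _ => ?_)
  rw [map_smul, ← V.mapL_trans]
  rfl

theorem exists_lead {N : ℕ} (x : Mon n N →₀ k) (hx : x ≠ 0) : ∃ c, IsLead x c := by
  have h1 : x.support.Nonempty := Finsupp.support_nonempty_iff.mpr hx
  refine ⟨x.support.max' h1, ?_, fun b hb => ?_⟩
  · exact Finsupp.mem_support_iff.mp (x.support.max'_mem h1)
  · exact x.support.le_max' b (Finsupp.mem_support_iff.mpr hb)

theorem main (V : FIMod k) (v : ∀ i, V.at (Fin (n i))) (K : FISub V) :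
    ∃ (T : Type) (_ : Finite T) (n' : T → ℕ) (y : ∀ t, V.at (Fin (n' t))),
      (∀ t, y t ∈ K.carrier (Fin (n' t))) ∧ ∀ Q : FISub V, (∀ t, y t ∈ Q.carrier _) →
        ∀ (N : ℕ) (x : Mon n N →₀ k), P V v N x ∈ K.carrier (Fin N) →
          P V v N x ∈ Q.carrier (Fin N) := by
  classical
  let L : ∀ i : Fin m, Set (List (Option (Fin (n i)))) := fun i =>
    {w | ∃ (N : ℕ) (e : Fin (n i) ↪ Fin N) (x : Mon n N →₀ k),
      P V v N x ∈ K.carrier (Fin N) ∧ IsLead x ⟨i, e⟩ ∧ word e = w}
  have hS := fun i => exists_basis (L i)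
  choose S hS1 hS2 using hS
  have hT : ∀ t : (Σ i : Fin m, {w // w ∈ S i}), ∃ (N : ℕ) (e : Fin (n t.1) ↪ Fin N)
      (x : Mon n N →₀ k), P V v N x ∈ K.carrier (Fin N) ∧ IsLead x ⟨t.1, e⟩ ∧ word e = t.2.1 :=
    fun t => hS1 t.1 t.2.1 t.2.2
  choose Nt et xt hxt1 hxt2 hxt3 using hT
  refine ⟨Σ i : Fin m, {w // w ∈ S i}, inferInstance, Nt, fun t => P V v (Nt t) (xt t),
    hxt1, fun Q hQ N => ?_⟩
  -- the reduction
  have key : ∀ c : Mon n N, ∀ x : Mon n N →₀ k, P V v N x ∈ K.carrier (Fin N) → IsLead x c →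
      P V v N x ∈ Q.carrier (Fin N) := by
    intro c
    induction c using WellFoundedLT.induction with
    | ind c ih =>
      intro x hxK hx
      obtain ⟨s, hs, hsub⟩ := hS2 c.i (word c.emb) ⟨N, c.emb, x, hxK, hx, rfl⟩
      let t : Σ i : Fin m, {w // w ∈ S i} := ⟨c.i, ⟨s, hs⟩⟩
      have h3 : word (et t) = s := hxt3 t
      rw [← h3] at hsub
      obtain ⟨g, hg⟩ := exists_of_sublist (et t) c.emb hsub
      have hgc : Mon.map (n := n) g.toEmbedding ⟨c.i, et t⟩ = c := by
        show (⟨c.i, (et t).trans g.toEmbedding⟩ : Mon n N) = c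
        rw [hg]
      have hinj : Function.Injective (Mon.map (n := n) g.toEmbedding) :=
        (Mon.map_strictMono g).injective
      obtain ⟨l1, l2⟩ := hxt2 t
      -- the leading coefficients
      have l3 : (xt t) ⟨c.i, et t⟩ ≠ 0 := l1
      have l4 : (Finsupp.mapDomain (Mon.map g.toEmbedding) (xt t)) c = (xt t) ⟨c.i, et t⟩ := by
        conv_lhs => rw [← hgc]
        exact Finsupp.mapDomain_apply hinj _ _
      have l5 : ∀ b, (Finsupp.mapDomain (Mon.map g.toEmbedding) (xt t)) b ≠ 0 → b ≤ c := by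
        intro b hb
        by_cases hb' : b ∈ Set.range (Mon.map (n := n) (N := Nt t) g.toEmbedding)
        · obtain ⟨b, rfl⟩ := hb'
          rw [Finsupp.mapDomain_apply hinj] at hb
          rw [← hgc]
          exact (Mon.map_strictMono g).monotone (l2 b hb)
        · exact absurd (Finsupp.mapDomain_of_notMem_range _ _ hb') hb
      set q : Mon n N →₀ k := Finsupp.mapDomain (Mon.map g.toEmbedding) (xt t) with hq
      set a : k := x c / (xt t) ⟨c.i, et t⟩ with ha
      have hPq : P V v N q = V.mapL g.toEmbedding (P V v (Nt t) (xt t)) := P_map V v _ _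
      have hPqK : P V v N q ∈ K.carrier (Fin N) := by
        rw [hPq]; exact K.mapL_mem _ (hxt1 t)
      have hPqQ : P V v N q ∈ Q.carrier (Fin N) := by
        rw [hPq]; exact Q.mapL_mem _ (hQ t)
      have hz : P V v N (x - a • q) ∈ Q.carrier (Fin N) := by
        by_cases h0 : x - a • q = 0
        · rw [h0, map_zero]; exact Submodule.zero_mem _
        · obtain ⟨b, hb⟩ := exists_lead _ h0
          refine ih b ?_ _ ?_ hb
          · have hbc : b ≤ c := by
              by_cases hxb : x b = 0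
              · apply l5
                intro hqb
                apply hb.1
                rw [Finsupp.sub_apply, Finsupp.smul_apply, hxb, hqb, smul_zero, sub_zero]
              · exact hx.2 b hxb
            refine lt_of_le_of_ne hbc ?_
            rintro rfl
            apply hb.1
            rw [Finsupp.sub_apply, Finsupp.smul_apply, l4, ha, smul_eq_mul,
              div_mul_cancel₀ _ l3, sub_self]
          · rw [map_sub, map_smul]
            exact Submodule.sub_mem _ hxK (Submodule.smul_mem _ _ hPqK)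
      have h1 : P V v N x = P V v N (x - a • q) + a • P V v N q := by
        rw [map_sub, map_smul, sub_add_cancel]
      rw [h1]
      exact Submodule.add_mem _ hz (Submodule.smul_mem _ _ hPqQ)
  intro x hx
  by_cases h0 : x = 0
  · rw [h0, map_zero]; exact Submodule.zero_mem _
  · obtain ⟨c, hc⟩ := exists_lead x h0
    exact key c x hx hc

/-- the FI-submodule generated by the `v i` -/
def gen (V : FIMod k) (v : ∀ i, V.at (Fin (n i))) : FISub V where
  carrier α _ := Submodule.span k
    (Set.range (fun b : (Σ i : Fin m, (Fin (n i) ↪ α)) => V.mapL b.2 (v b.1)))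
  mapL_mem {α β} _ _ j {x} hx := by
    have h1 : Submodule.span k
        (Set.range (fun b : (Σ i : Fin m, (Fin (n i) ↪ α)) => V.mapL b.2 (v b.1))) ≤
        (Submodule.span k
        (Set.range (fun b : (Σ i : Fin m, (Fin (n i) ↪ β)) => V.mapL b.2 (v b.1)))).comap
          (V.mapL j) := by
      rw [Submodule.span_le]
      rintro _ ⟨b, rfl⟩
      refine Submodule.subset_span ⟨⟨b.1, b.2.trans j⟩, ?_⟩
      exact V.mapL_trans b.2 j (v b.1)
    exact h1 hx

theorem P_surj (V : FIMod k) (v : ∀ i, V.at (Fin (n i)))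
    (hv : ∀ K : FISub V, (∀ i, v i ∈ K.carrier (Fin (n i))) →
      ∀ (α : Type) [Finite α], K.carrier α = ⊤) (N : ℕ) : Function.Surjective (P V v N) := by
  intro x
  have h1 : x ∈ (gen V v).carrier (Fin N) := by
    rw [hv (gen V v) (fun i => ?_)]
    · exact Submodule.mem_top
    · refine Submodule.subset_span ⟨⟨i, Function.Embedding.refl _⟩, ?_⟩
      exact V.mapL_refl _ _
  have h2 : (gen V v).carrier (Fin N) ≤ LinearMap.range (P V v N) := by
    show Submodule.span k _ ≤ _
    rw [Submodule.span_le]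
    rintro _ ⟨b, rfl⟩
    refine ⟨Finsupp.single ⟨b.1, b.2⟩ 1, ?_⟩
    unfold P
    rw [Finsupp.linearCombination_single, one_smul]
  exact h2 h1

/-- the image in `V` of an FI-submodule of an FI-submodule -/
def img {V : FIMod k} (K : FISub V) (K' : FISub K.toFI) : FISub V where
  carrier α _ := (K'.carrier α).map (K.carrier α).subtype
  mapL_mem {α β} _ _ j {x} hx := by
    obtain ⟨w, hw, rfl⟩ := hx
    exact ⟨K.toFI.mapL j w, K'.mapL_mem j hw, rfl⟩

end lead

end NoethAux

open NoethAux in
/-- FI-submodules of finitely generated FI-modules over a field are finitely generated. -/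
theorem Noeth_proof : Stmt_Noeth := by
  intro k _ V hV K
  obtain ⟨m, n, v, hv⟩ := hV
  obtain ⟨T, hT, n', y, hy, hmain⟩ := NoethAux.main V v K
  obtain ⟨m', ⟨e⟩⟩ := Finite.exists_equiv_fin T
  refine ⟨m', fun i => n' (e.symm i), fun i => (⟨y (e.symm i), hy _⟩ : K.carrier _), ?_⟩
  intro K' hK' α _
  rw [eq_top_iff]
  intro x _
  obtain ⟨N, ⟨f⟩⟩ := Finite.exists_equiv_fin α
  set z : K.toFI.at (Fin N) := K.toFI.mapL f.toEmbedding x with hz
  have hz' : K.toFI.mapL f.symm.toEmbedding z = x := by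
    rw [hz, ← FIMod.mapL_trans]
    have : f.toEmbedding.trans f.symm.toEmbedding = Function.Embedding.refl α := by
      ext a; simp
    rw [this, FIMod.mapL_refl]
  have h1 : ∃ w : V.at (Fin N), w ∈ K.carrier (Fin N) ∧ w = (K.carrier (Fin N)).subtype z :=
    ⟨_, (show K.carrier (Fin N) from z).2, rfl⟩
  obtain ⟨w, hwK, hw⟩ := h1
  obtain ⟨x', rfl⟩ := P_surj V v hv N w
  have h2 : P V v N x' ∈ (img K K').carrier (Fin N) := by
    refine hmain (img K K') (fun t => ?_) N x' hwK
    refine ⟨(⟨y t, hy t⟩ : K.carrier (Fin (n' t))), ?_, rfl⟩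
    have h3 := hK' (e t)
    have h4 : ∀ t' : T, t' = t → (⟨y t', hy t'⟩ : K.carrier (Fin (n' t'))) ∈ K'.carrier (Fin (n' t')) →
        (⟨y t, hy t⟩ : K.carrier (Fin (n' t))) ∈ K'.carrier (Fin (n' t)) := by
      rintro t' rfl h; exact h
    exact h4 _ (e.symm_apply_apply t) h3
  obtain ⟨w', hw', hw''⟩ := h2
  have h5 : w' = z := Subtype.ext (hw''.trans hw)
  rw [← hz']
  refine K'.mapL_mem _ ?_
  rw [← h5]
  exact hw'

end Pool.Agent.FIExt
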