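import Pool.Agent.FIExt.PhiDefs

/-!
# Closure properties of good maps (module PHIB)
-/

open CategoryTheory CategoryTheory.Abelian CategoryTheory.Limits

universe u w v t

namespace Pool.Agent.FIExt

namespace PhiBAux

section snake

variable {C : Type t} [Category.{v} C] [Abelian C]

/-- The snake input given by a morphism of short exact sequences. -/
noncomputable def snake (T T' : ShortComplex C) (hT : T.ShortExact) (hT' : T'.ShortExact)
    (w : T ⟶ T') : ShortComplex.SnakeInput C where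
  L₀ := kernel w
  L₁ := T
  L₂ := T'
  L₃ := cokernel w
  v₀₁ := kernel.ι w
  v₁₂ := w
  v₂₃ := cokernel.π w
  w₀₂ := kernel.condition w
  w₁₃ := cokernel.condition w
  h₀ := kernelIsKernel w
  h₃ := cokernelIsCokernel w
  L₁_exact := hT.exact
  epi_L₁_g := hT.epi_g
  L₂_exact := hT'.exact
  mono_L₂_f := hT'.mono_f

theorem coker_ses (T T' : ShortComplex C) (hT : T.ShortExact) (hT' : T'.ShortExact)
    (w : T ⟶ T') [Mono w.τ₃] : ∃ Q : ShortComplex C, Q.ShortExact ∧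
      Nonempty (Q.X₁ ≅ cokernel w.τ₁) ∧ Nonempty (Q.X₂ ≅ cokernel w.τ₂) ∧
      Nonempty (Q.X₃ ≅ cokernel w.τ₃) := by
  let S := snake T T' hT hT' w
  have hm : Mono S.v₁₂.τ₃ := by show Mono w.τ₃; infer_instance
  have hepi : Epi S.L₂.g := hT'.epi_g
  have h0 : S.v₀₁.τ₃ = 0 := by
    rw [← cancel_mono S.v₁₂.τ₃, zero_comp]
    exact S.w₀₂_τ₃
  have hz : IsZero S.L₀.X₃ := by
    rw [IsZero.iff_id_eq_zero, ← cancel_mono S.v₀₁.τ₃, h0, comp_zero, comp_zero]
  have hmf : Mono S.L₃.f := by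
    have h1 := S.L₂'_exact
    have h2 : S.L₂'.f = 0 := hz.eq_of_src _ _
    exact (S.L₂'.exact_iff_mono h2).1 h1
  refine ⟨S.L₃, ⟨S.L₃_exact⟩, ?_, ?_, ?_⟩
  · exact ⟨S.h₃τ₁.coconePointUniqueUpToIso (colimit.isColimit (parallelPair w.τ₁ 0))⟩
  · exact ⟨S.h₃τ₂.coconePointUniqueUpToIso (colimit.isColimit (parallelPair w.τ₂ 0))⟩
  · exact ⟨S.h₃τ₃.coconePointUniqueUpToIso (colimit.isColimit (parallelPair w.τ₃ 0))⟩

end snake

section tors

variable {k : Type u} [Field k] {Γ S : Type} [Group Γ] [Group S] {q : Γ →* S}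
  {X₀ : Rep.{u} k S} {𝒰 : Rep.{u} k Γ → Prop} (D : BData q X₀ 𝒰)

theorem comp_comp_aux {U : Rep.{u} k Γ} {a b c : ℕ} (z : Ext (Rep.res q X₀) U a)
    (h1 : D.m + a = b) (h2 : D.m + b = c) (h3 : D.m + (D.m + a) = c) :
    D.e.comp (D.e.comp z h1) h2 = D.e.comp (D.e.comp z rfl) h3 := by
  subst h1; rfl

theorem mulPow_e {U : Rep.{u} k Γ} (r s s' : ℕ) (h : D.m + s = s')
    (x : Ext (Rep.res q X₀) U s) :
    ∃ h' : D.m + D.deg r s = D.deg r s',
      D.mulPow U r s' (D.e.comp x h) = D.e.comp (D.mulPow U r s x) h' := by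
  induction r with
  | zero => exact ⟨h, rfl⟩
  | succ r ih =>
    obtain ⟨h', ih⟩ := ih
    have h'' : D.m + D.deg (r + 1) s = D.deg (r + 1) s' := by
      simp only [BData.deg]; omega
    refine ⟨h'', ?_⟩
    rw [BData.mulPow_succ, ih]
    exact comp_comp_aux D _ h' rfl h''

/-- `x` is killed by a power of `e` -/
def Kd {U : Rep.{u} k Γ} {s : ℕ} (x : Ext (Rep.res q X₀) U s) : Prop :=
  ∃ r, D.mulPow U r s x = 0

theorem kd_of_e {U : Rep.{u} k Γ} {s s' : ℕ} (h : D.m + s = s') (x : Ext (Rep.res q X₀) U s)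
    (hx : Kd D (D.e.comp x h)) : Kd D x := by
  obtain ⟨r, hr⟩ := hx
  obtain ⟨h', h1⟩ := mulPow_e D r s s' h x
  refine ⟨r + 1, ?_⟩
  rw [BData.mulPow_succ]
  rw [h1] at hr
  have aux : ∀ (b : ℕ) (h' : D.m + D.deg r s = b),
      D.e.comp (D.mulPow U r s x) h' = 0 → D.e.comp (D.mulPow U r s x) rfl = 0 := by
    rintro b rfl h; exact h
  exact aux _ h' hr

theorem kd_of_mulPow {U : Rep.{u} k Γ} {s : ℕ} (x : Ext (Rep.res q X₀) U s) (r : ℕ)
    (hx : Kd D (D.mulPow U r s x)) : Kd D x := by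
  induction r with
  | zero => exact hx
  | succ r ih =>
    rw [BData.mulPow_succ] at hx
    exact ih (kd_of_e D rfl _ hx)

theorem kd_comp {U U' : Rep.{u} k Γ} {s t s' : ℕ} (h : s + t = s')
    (x : Ext (Rep.res q X₀) U s) (y : Ext U U' t) (hx : Kd D x) : Kd D (x.comp y h) := by
  obtain ⟨r, hr⟩ := hx
  refine ⟨r, ?_⟩
  rw [D.mulPow_comp r s t s' h x y, hr, Ext.zero_comp]

theorem tors_iso {U U' : Rep.{u} k Γ} (e : U ≅ U') (h : D.Tors U) : D.Tors U' := by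
  intro s x
  have h1 : x = (x.comp (Ext.mk₀ e.inv) (add_zero s)).comp (Ext.mk₀ e.hom) (add_zero s) := by
    rw [Ext.comp_assoc_of_third_deg_zero, Ext.mk₀_comp_mk₀, e.inv_hom_id, Ext.comp_mk₀_id]
  rw [h1]
  exact kd_comp D _ _ _ (h s _)

/-- torsion is closed under extensions -/
theorem tors_ext {Q : ShortComplex (Rep.{u} k Γ)} (hQ : Q.ShortExact) (h1 : D.Tors Q.X₁)
    (h3 : D.Tors Q.X₃) : D.Tors Q.X₂ := by
  intro s x
  obtain ⟨r, hr⟩ := h3 s (x.comp (Ext.mk₀ Q.g) (add_zero s))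
  rw [D.mulPow_comp r s 0 s (add_zero s)] at hr
  have hdeg : D.deg r s + 0 = D.deg r s := add_zero _
  obtain ⟨y, hy⟩ := Ext.covariant_sequence_exact₂ _ hQ (D.mulPow Q.X₂ r s x) hr
  apply kd_of_mulPow D x r
  rw [← hy]
  exact kd_comp D _ _ _ (h1 _ y)

/-- torsion is closed under kernels of surjections -/
theorem tors_ker {Q : ShortComplex (Rep.{u} k Γ)} (hQ : Q.ShortExact) (h2 : D.Tors Q.X₂)
    (h3 : D.Tors Q.X₃) : D.Tors Q.X₁ := by
  intro s x
  obtain ⟨r, hr⟩ := h2 s (x.comp (Ext.mk₀ Q.f) (add_zero s))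
  rw [D.mulPow_comp r s 0 s (add_zero s)] at hr
  apply kd_of_mulPow D x r
  have aux : ∀ (n : ℕ) (z : Ext (Rep.res q X₀) Q.X₁ n),
      z.comp (Ext.mk₀ Q.f) (add_zero n) = 0 → Kd D z := by
    intro n z hz
    cases n with
    | zero =>
      have := hQ.mono_f
      have h4 : z = 0 :=
        (injective_iff_map_eq_zero _).1 (Ext.postcomp_mk₀_injective_of_mono (Rep.res q X₀) Q.f) _ hz
      rw [h4]
      exact ⟨0, rfl⟩
    | succ n =>
      obtain ⟨y, hy⟩ := Ext.covariant_sequence_exact₁ _ hQ z hz rfl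
      rw [← hy]
      exact kd_comp D _ _ _ (h3 _ y)
  exact aux _ _ hr

end tors

end PhiBAux

open PhiBAux in
/-- closure properties of good maps. -/
theorem PhiB_proof : Stmt_PhiB where
  ext := by
    intro k _ Γ S _ _ q X₀ 𝒰 D T T' hT hT' w h1 h3
    obtain ⟨m1, t1⟩ := h1
    obtain ⟨m3, t3⟩ := h3
    obtain ⟨Q, hQ, ⟨e1⟩, ⟨e2⟩, ⟨e3⟩⟩ := coker_ses T T' hT hT' w
    have := hT'.mono_f
    have := hT.mono_f
    refine ⟨ShortComplex.mono_τ₂_of_exact_of_mono w hT.exact, ?_⟩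
    exact tors_iso D e2 (tors_ext D hQ (tors_iso D e1.symm t1) (tors_iso D e3.symm t3))
  ker := by
    intro k _ Γ S _ _ q X₀ 𝒰 D T T' hT hT' w h2 h3
    obtain ⟨m2, t2⟩ := h2
    obtain ⟨m3, t3⟩ := h3
    obtain ⟨Q, hQ, ⟨e1⟩, ⟨e2⟩, ⟨e3⟩⟩ := coker_ses T T' hT hT' w
    have := hT.mono_f
    have hm : Mono (w.τ₁ ≫ T'.f) := by
      rw [w.comm₁₂]; infer_instance
    refine ⟨mono_of_mono w.τ₁ T'.f, ?_⟩
    exact tors_iso D e1 (tors_ker D hQ (tors_iso D e2.symm t2) (tors_iso D e3.symm t3))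
  split := by
    intro k _ Γ S _ _ q X₀ 𝒰 D A B U w pr t s hU h1 h2 h3
    have hw : Mono w := by
      have : Mono (w ≫ pr) := by rw [h1]; infer_instance
      exact mono_of_mono w pr
    refine ⟨hw, fun n x => ⟨1, ?_⟩⟩
    have h4 : cokernel.desc w t h2 ≫ s ≫ cokernel.π w = 𝟙 (cokernel w) := by
      rw [← cancel_epi (cokernel.π w), cokernel.π_desc_assoc, Category.comp_id,
        ← Category.assoc, eq_sub_of_add_eq' h3, Preadditive.sub_comp, Category.id_comp,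
        Category.assoc, cokernel.condition, comp_zero, sub_zero]
    have h5 : x = (x.comp (Ext.mk₀ (cokernel.desc w t h2)) (add_zero n)).comp
        (Ext.mk₀ (s ≫ cokernel.π w)) (add_zero n) := by
      rw [Ext.comp_assoc_of_third_deg_zero, Ext.mk₀_comp_mk₀, h4, Ext.comp_mk₀_id]
    have h6 := D.kill U hU n (x.comp (Ext.mk₀ (cokernel.desc w t h2)) (add_zero n))
    have h7 : D.mulPow U 1 n (x.comp (Ext.mk₀ (cokernel.desc w t h2)) (add_zero n)) = 0 := h6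
    rw [h5, D.mulPow_comp 1 n 0 n (add_zero n), h7, Ext.zero_comp]

end Pool.Agent.FIExt
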