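import Pool.Agent.FIExt.Stmts

/-!
# Shapiro's lemma (module SHAPIRO)
-/

open CategoryTheory CategoryTheory.Abelian CategoryTheory.Limits

universe w w' v v' t t' u

namespace Pool.Agent.FIExt

section General

variable {C : Type t} [Category.{v} C] [Abelian C] [HasExt.{w} C] [EnoughProjectives C]
variable {D : Type t'} [Category.{v'} D] [Abelian D] [HasExt.{w'} D] [EnoughProjectives D]

theorem shapiroInd_of_adj (L : D ⥤ C) (R : C ⥤ D) (adj : L ⊣ R) [L.Additive]
    [PreservesFiniteLimits L] [PreservesFiniteColimits L] [R.Additive] [PreservesFiniteLimits R]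
    [PreservesFiniteColimits R] {Y : C} {Z : D} (s : Z ⟶ R.obj Y)
    (h : ∀ N : C, Function.Bijective (fun f : Y ⟶ N => s ≫ R.map f)) (N : C) (n : ℕ) :
    Function.Bijective (fun x : Ext Y N n =>
      (Ext.mk₀ s).comp (x.mapExactFunctor R) (zero_add n)) := by
  let tt : L.obj Z ⟶ Y := (adj.homEquiv Z Y).symm s
  have hs : adj.unit.app Z ≫ R.map tt = s := by
    have := (adj.homEquiv Z Y).apply_symm_apply s
    rw [Adjunction.homEquiv_unit] at this
    exact this
  have hiso : IsIso tt := by
    rw [isIso_iff_coyoneda_map_bijective]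
    intro N
    have h1 : (fun f : Y ⟶ N => tt ≫ f) = (adj.homEquiv Z N).symm ∘ (fun f => s ≫ R.map f) := by
      funext f
      simp only [Function.comp_apply]
      rw [Equiv.eq_symm_apply, Adjunction.homEquiv_unit, R.map_comp, ← Category.assoc, hs]
    rw [h1]
    exact (adj.homEquiv Z N).symm.bijective.comp (h N)
  have hb1 : Function.Bijective (fun x : Ext Y N n => (Ext.mk₀ tt).comp x (zero_add n)) := by
    rw [Function.bijective_iff_has_inverse]
    refine ⟨fun y => (Ext.mk₀ (inv tt)).comp y (zero_add n), fun x => ?_, fun y => ?_⟩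
    · have := Ext.mk₀_comp_mk₀_assoc (inv tt) tt x
      simp only
      rw [this, IsIso.inv_hom_id]
      exact Ext.mk₀_id_comp x
    · have := Ext.mk₀_comp_mk₀_assoc tt (inv tt) y
      simp only
      rw [this, IsIso.hom_inv_id]
      exact Ext.mk₀_id_comp y
  have hb2 : Function.Bijective ((fun x : Ext Y N n => (Ext.mk₀ (adj.unit.app Z)).comp
      (((Ext.mk₀ tt).comp x (zero_add n)).mapExactFunctor R) (zero_add n)) :
        Ext Y N n → Ext Z (R.obj N) n) :=
    (ext_adjunction_bijective L R adj Z N n).comp hb1
  have key : (fun x : Ext Y N n => (Ext.mk₀ s).comp (x.mapExactFunctor R) (zero_add n)) =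
      ((fun x : Ext Y N n => (Ext.mk₀ (adj.unit.app Z)).comp
      (((Ext.mk₀ tt).comp x (zero_add n)).mapExactFunctor R) (zero_add n)) :
        Ext Y N n → Ext Z (R.obj N) n) := by
    funext x
    rw [Ext.mapExactFunctor_comp, Ext.mapExactFunctor_mk₀]
    have := Ext.mk₀_comp_mk₀_assoc (adj.unit.app Z) (R.map tt) (x.mapExactFunctor R)
    erw [this, hs]
  rw [key]
  exact hb2

end General

section RepPart

variable {k : Type u} [Field k] {G H : Type} [Group G] [Group H] (φ : H →* G)

theorem coind_preservesEpi (hφ : Function.Injective φ) :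
    (Rep.coindFunctor.{u} k φ).PreservesEpimorphisms where
  preserves {X Y} f := (Rep.epi_iff_surjective _).2 fun y => by
    let := QuotientGroup.rightRel φ.range
    choose! s hs using (Rep.epi_iff_surjective f).1 ‹_›
    choose! i hi using Quotient.mk'_surjective (α := G)
    have hγ0 (g : G) : ∃ h : H, φ h = g * (i (Quotient.mk' g))⁻¹ :=
      (QuotientGroup.rightRel_apply.1 (Quotient.eq'.1 (hi (Quotient.mk' g))))
    choose γ hγ1 using hγ0
    have hmk (s : H) (g : G) : (Quotient.mk' (φ s * g) : Quotient this) = Quotient.mk' g :=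
      Quotient.eq'.2 (QuotientGroup.rightRel_apply.2 (by simp))
    have hγ (s : H) (g : G) : γ (φ s * g) = s * γ g := by
      apply hφ
      rw [hγ1, map_mul, hγ1, hmk, mul_assoc]
    let x (g : G) : X := X.ρ (γ g) (s (y.1 (i (Quotient.mk' g))))
    refine ⟨⟨x, fun _ _ => ?_⟩, Subtype.ext <| funext fun g => ?_⟩
    · simp only [x]
      rw [hmk, hγ, map_mul]
      rfl
    · have h1 := y.2 (γ g) (i (Quotient.mk' g))
      have h2 := Rep.hom_comm_apply f (γ g) (s (y.1 (i (Quotient.mk' g))))
      have h3 := hs (y.1 (i (Quotient.mk' g)))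
      rw [hγ1, inv_mul_cancel_right] at h1
      rw [h3] at h2
      exact h2.trans h1.symm

theorem shapiroCo_proof : Stmt_ShapiroCo.{u} := by
  intro k _ G H _ _ _ φ hφ Y Z ev h X i
  have h1 : (Rep.coindFunctor.{u} k φ).PreservesEpimorphisms := coind_preservesEpi φ hφ
  have h2 : (Rep.resFunctor.{u} (k := k) φ).PreservesProjectiveObjects :=
    (Rep.resFunctor φ).preservesProjectiveObjects_of_adjunction_of_preservesEpimorphisms
      (Rep.resCoindAdjunction k φ)
  exact mapPost_bijective (Rep.resFunctor.{u} (k := k) φ) ev h X i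

/-- induction along an injective homomorphism, as a functor obtained from the subgroup case. -/
noncomputable def indL (hφ : Function.Injective φ) : Rep.{u} k H ⥤ Rep.{u} k G :=
  Rep.resFunctor.{u} (k := k) (MonoidHom.ofInjective hφ).symm.toMonoidHom ⋙
    Rep.indFunctor k φ.range.subtype

/-- restriction along an isomorphism and along its inverse are adjoint. -/
noncomputable def resEquivAdj {S : Type} [Group S] (e : H ≃* S) :
    Rep.resFunctor.{u} (k := k) e.symm.toMonoidHom ⊣
      Rep.resFunctor.{u} (k := k) e.toMonoidHom :=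
  Adjunction.mkOfHomEquiv
    { homEquiv := fun X Y =>
        { toFun := fun f => Rep.ofHom ⟨f.hom.toLinearMap, fun g => by
            ext x
            have h1 := Rep.hom_comm_apply f (e g) x
            have h0 : X.ρ (e.symm (e g)) x = X.ρ g x := by rw [e.symm_apply_apply]
            exact (congrArg f.hom h0).symm.trans h1⟩
          invFun := fun f => Rep.ofHom ⟨f.hom.toLinearMap, fun g => by
            ext x
            have h1 := Rep.hom_comm_apply f (e.symm g) x
            have h0 : Y.ρ (e (e.symm g)) (f.hom x) = Y.ρ g (f.hom x) := by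
              rw [e.apply_symm_apply]
            exact h1.trans h0⟩
          left_inv := fun f => by ext; rfl
          right_inv := fun f => by ext; rfl }
      homEquiv_naturality_left_symm := by intros; ext; rfl
      homEquiv_naturality_right := by intros; ext; rfl }

theorem shapiroInd_proof : Stmt_ShapiroInd.{u} := by
  intro k _ G H _ _ _ φ hφ Y Z s h N i
  let S := φ.range
  have hfin : S.FiniteIndex := inferInstance
  let e : H ≃* S := MonoidHom.ofInjective hφ
  let L : Rep.{u} k H ⥤ Rep.{u} k G :=
    Rep.resFunctor.{u} (k := k) e.symm.toMonoidHom ⋙ Rep.indFunctor k S.subtype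
  let adj : L ⊣ Rep.resFunctor.{u} (k := k) S.subtype ⋙ Rep.resFunctor.{u} (k := k) e.toMonoidHom :=
    (resEquivAdj e).comp (Rep.indResAdjunction k S.subtype)
  have : L.Additive := adj.left_adjoint_additive
  have hI : (Rep.indFunctor.{u} k S.subtype).IsRightAdjoint := inferInstance
  have hI' : PreservesLimits (Rep.indFunctor.{u} k S.subtype) :=
    (Adjunction.ofIsRightAdjoint _).rightAdjoint_preservesLimits
  have : PreservesFiniteLimits L := comp_preservesFiniteLimits _ _
  have : PreservesColimits L := adj.leftAdjoint_preservesColimits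
  have : PreservesFiniteColimits L := inferInstance
  exact shapiroInd_of_adj L (Rep.resFunctor.{u} (k := k) φ) adj s h N i

end RepPart

end Pool.Agent.FIExt
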