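import Pool.Agent.FIExt.Stmts

/-!
# The complement of `M(A)(α)` in `M(A)(α ⊕ block)` is split
-/

open CategoryTheory CategoryTheory.Abelian

universe u

namespace Pool.Agent.FIExt

namespace Split

/-! ### Characters attached to subsets of a block -/

/-- The translate `-a + T`. -/
def sh {E : Type} [AddCommGroup E] (a : E) (T : Set E) : Set E := {e | a + e ∈ T}

theorem mem_sh {E : Type} [AddCommGroup E] {a e : E} {T : Set E} : e ∈ sh a T ↔ a + e ∈ T :=
  Iff.rfl

theorem sh_zero {E : Type} [AddCommGroup E] (T : Set E) : sh 0 T = T := by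
  ext e; simp [mem_sh]

theorem sh_sh {E : Type} [AddCommGroup E] (a b : E) (T : Set E) : sh a (sh b T) = sh (a + b) T := by
  ext e; simp only [mem_sh]; rw [add_comm a b, add_assoc]

theorem sh_nonempty {E : Type} [AddCommGroup E] (a : E) {T : Set E} (h : T.Nonempty) :
    (sh a T).Nonempty := by
  obtain ⟨e, he⟩ := h
  exact ⟨-a + e, by simpa [mem_sh] using he⟩

theorem sh_ne_univ {E : Type} [AddCommGroup E] (a : E) {T : Set E} (h : T ≠ Set.univ) :
    sh a T ≠ Set.univ := by
  intro hT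
  apply h
  ext e
  have : -a + e ∈ sh a T := by rw [hT]; trivial
  simpa [mem_sh] using this

/-- the stabiliser of a subset -/
def stabS {E : Type} [AddCommGroup E] (T : Set E) : AddSubgroup E where
  carrier := {a | sh a T = T}
  zero_mem' := sh_zero T
  add_mem' {a b} ha hb := by
    change sh (a + b) T = T
    rw [← sh_sh, hb, ha]
  neg_mem' {a} ha := by
    change sh (-a) T = T
    conv_lhs => rw [← ha]
    rw [sh_sh, neg_add_cancel, sh_zero]

theorem exists_char (p : ℕ) [Fact p.Prime] (N : ℕ) (T : Set (Blk p N)) (h : T.Nonempty)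
    (h' : T ≠ Set.univ) : ∃ l : Blk p N →+ ZMod p, l ≠ 0 ∧ ∀ a, sh a T = T → l a = 0 := by
  have hlt : AddSubgroup.toZModSubmodule p (stabS T) < ⊤ := by
    rw [lt_top_iff_ne_top]
    intro htop
    apply h'
    obtain ⟨e, he⟩ := h
    ext x
    have hx : e - x ∈ AddSubgroup.toZModSubmodule p (stabS T) := by rw [htop]; trivial
    have hx' : sh (e - x) T = T := hx
    have : x ∈ sh (e - x) T := by
      rw [mem_sh]
      simpa using he
    rw [hx'] at this
    simpa using this
  obtain ⟨f, hf, hle⟩ := Submodule.exists_le_ker_of_lt_top _ hlt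
  refine ⟨f.toAddMonoidHom, ?_, ?_⟩
  · intro h0
    apply hf
    ext x
    simpa using DFunLike.congr_fun h0 _
  · intro a ha
    exact hle ha

theorem exists_label (p : ℕ) [Fact p.Prime] (N : ℕ) :
    ∃ (l : Set (Blk p N) → (Blk p N →+ ZMod p)) (c : Set (Blk p N) → ZMod p),
      ∀ T : Set (Blk p N), T.Nonempty → T ≠ Set.univ →
        l T ≠ 0 ∧ ∀ a, l (sh a T) = l T ∧ c (sh a T) + l T a = c T := by
  classical
  let S : Setoid (Set (Blk p N)) :=
    { r := fun T T' => ∃ a, T = sh a T'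
      iseqv :=
        { refl := fun T => ⟨0, (sh_zero T).symm⟩
          symm := by
            rintro T T' ⟨a, rfl⟩
            exact ⟨-a, by rw [sh_sh, neg_add_cancel, sh_zero]⟩
          trans := by
            rintro T T' T'' ⟨a, rfl⟩ ⟨b, rfl⟩
            exact ⟨a + b, sh_sh a b T''⟩ } }
  let rep : Set (Blk p N) → Set (Blk p N) := fun T => Quotient.out (Quotient.mk S T)
  have hrep : ∀ T, ∃ a, T = sh a (rep T) := fun T =>
    Setoid.symm (Quotient.mk_out (s := S) T)
  have hrep' : ∀ a T, rep (sh a T) = rep T := by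
    intro a T
    have : Quotient.mk S (sh a T) = Quotient.mk S T := Quotient.sound ⟨a, rfl⟩
    change Quotient.out (Quotient.mk S (sh a T)) = _
    rw [this]
  have hL : ∀ T : Set (Blk p N), ∃ l : Blk p N →+ ZMod p, T.Nonempty → T ≠ Set.univ →
      l ≠ 0 ∧ ∀ a, sh a T = T → l a = 0 := by
    intro T
    by_cases h : T.Nonempty ∧ T ≠ Set.univ
    · obtain ⟨l, hl⟩ := exists_char p N T h.1 h.2
      exact ⟨l, fun _ _ => hl⟩
    · exact ⟨0, fun h1 h2 => absurd ⟨h1, h2⟩ h⟩
  choose L hL using hL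
  choose A hA using hrep
  refine ⟨fun T => L (rep T), fun T => - L (rep T) (A T), fun T h h' => ?_⟩
  have h0 : rep T = sh (-(A T)) T := by
    have : sh (-(A T)) T = sh (-(A T)) (sh (A T) (rep T)) := congrArg (sh _) (hA T)
    rw [this, sh_sh, neg_add_cancel, sh_zero]
  have h1 : (rep T).Nonempty := by
    rw [h0]
    exact sh_nonempty _ h
  have h2 : rep T ≠ Set.univ := by
    rw [h0]
    exact sh_ne_univ _ h'
  obtain ⟨h3, h4⟩ := hL (rep T) h1 h2
  refine ⟨h3, fun a => ⟨by simp only [hrep'], ?_⟩⟩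
  simp only [hrep']
  have h5 : sh (A (sh a T) - A T - a) (rep T) = rep T := by
    have e1 : sh a T = sh (A (sh a T)) (rep T) := by
      conv_lhs => rw [hA (sh a T), hrep']
    have e2 : sh a T = sh (a + A T) (rep T) := by
      conv_lhs => rw [hA T, sh_sh]
    have e3 : sh (A (sh a T) - A T - a) (rep T)
        = sh (-(a + A T)) (sh (A (sh a T)) (rep T)) := by
      rw [sh_sh]; congr 1; abel
    rw [e3, ← e1, e2, sh_sh, neg_add_cancel, sh_zero]
  have h6 := h4 _ h5
  rw [map_sub, map_sub] at h6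
  linear_combination -h6

/-! ### Truncation of elements of `M(A)` -/

section trunc

variable {k : Type u} [Field k] {R : Type} [Finite R] (A : Rep.{u} k (Equiv.Perm R))
  {β : Type} [Finite β]

open Classical in
/-- Restriction of the support of a function to the set `S`. -/
noncomputable def truncL (S : Set (R ↪ β))
    (hS : ∀ (σ : Equiv.Perm R) (ι : R ↪ β), σ.toEmbedding.trans ι ∈ S ↔ ι ∈ S) :
    (MA R A).at β →ₗ[k] (MA R A).at β where
  toFun w := MA.mkFn (fun ι => if ι ∈ S then MA.fn w ι else 0) (fun σ ι => by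
    by_cases h : ι ∈ S
    · rw [if_pos ((hS σ ι).mpr h), if_pos h]
      exact MA.fn_equiv w σ ι
    · rw [if_neg (fun h' => h ((hS σ ι).mp h')), if_neg h, map_zero])
  map_add' w w' := MA.fn_injective (fun ι => by
    by_cases h : ι ∈ S <;> simp [h])
  map_smul' c w := MA.fn_injective (fun ι => by
    by_cases h : ι ∈ S <;> simp [h])

variable {A}

open Classical in
theorem truncL_apply (S : Set (R ↪ β)) (hS) (w : (MA R A).at β) (ι : R ↪ β) :
    MA.fn (truncL A S hS w) ι = if ι ∈ S then MA.fn w ι else 0 := rfl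

theorem truncL_pos {S : Set (R ↪ β)} {hS} (w : (MA R A).at β) {ι : R ↪ β} (h : ι ∈ S) :
    MA.fn (truncL A S hS w) ι = MA.fn w ι := by
  rw [truncL_apply, if_pos h]

theorem truncL_neg {S : Set (R ↪ β)} {hS} (w : (MA R A).at β) {ι : R ↪ β} (h : ι ∉ S) :
    MA.fn (truncL A S hS w) ι = 0 := by
  rw [truncL_apply, if_neg h]

theorem truncL_truncL (S S' : Set (R ↪ β)) (hS hS') (hi) (w : (MA R A).at β) :
    truncL A S hS (truncL A S' hS' w) = truncL A (S ∩ S') hi w := by
  apply MA.fn_injective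
  intro ι
  by_cases h : ι ∈ S
  · by_cases h' : ι ∈ S'
    · rw [truncL_pos _ h, truncL_pos _ h', truncL_pos _ (show ι ∈ S ∩ S' from ⟨h, h'⟩)]
    · rw [truncL_pos _ h, truncL_neg _ h', truncL_neg _ (show ι ∉ S ∩ S' from fun hh => h' hh.2)]
  · rw [truncL_neg _ h, truncL_neg _ (show ι ∉ S ∩ S' from fun hh => h hh.1)]

theorem truncL_congr {S S' : Set (R ↪ β)} (hS hS') (h : S = S') (w : (MA R A).at β) :
    truncL A S hS w = truncL A S' hS' w := by
  subst h; rfl

theorem truncL_empty {S : Set (R ↪ β)} (hS) (h : S = ∅) (w : (MA R A).at β) :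
    truncL A S hS w = 0 := by
  subst h
  apply MA.fn_injective
  intro ι
  rw [truncL_neg _ (Set.notMem_empty _)]
  rfl

theorem fn_sum {ι' : Type} (s : Finset ι') (f : ι' → (MA R A).at β) (ι : R ↪ β) :
    MA.fn (∑ i ∈ s, f i) ι = ∑ i ∈ s, MA.fn (f i) ι := by
  classical
  induction s using Finset.induction_on with
  | empty => simp
  | insert a s ha ih => rw [Finset.sum_insert ha, Finset.sum_insert ha, MA.fn_add, ih]

/-- Truncation and the group action. -/
theorem rho_truncL (σ : Equiv.Perm β) (S S' : Set (R ↪ β)) (hS hS')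
    (h : ∀ ι : R ↪ β, ι.trans σ⁻¹.toEmbedding ∈ S ↔ ι ∈ S') (w : (MA R A).at β) :
    (MA R A).ρ β σ (truncL A S hS w) = truncL A S' hS' ((MA R A).ρ β σ w) := by
  apply MA.fn_injective
  intro ι
  rw [MA.ρ_apply]
  by_cases h' : ι ∈ S'
  · rw [truncL_pos _ h', truncL_pos _ ((h ι).mpr h'), MA.ρ_apply]
  · rw [truncL_neg _ h', truncL_neg _ (fun hh => h' ((h ι).mp hh))]

end trunc

/-! ### The trace of an embedding on the block -/

section main

variable {k : Type u} [Field k] {p N r : ℕ} {α : Type}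

/-- The elements of the block in the range of `ι`. -/
def TT (ι : Fin r ↪ α ⊕ Blk p N) : Set (Blk p N) := {e | ∃ x, ι x = Sum.inr e}

theorem TT_perm (σ : Equiv.Perm (Fin r)) (ι : Fin r ↪ α ⊕ Blk p N) :
    TT (σ.toEmbedding.trans ι) = TT ι := by
  ext e
  constructor
  · rintro ⟨x, hx⟩
    exact ⟨σ x, hx⟩
  · rintro ⟨x, hx⟩
    exact ⟨σ.symm x, by simpa using hx⟩

theorem TT_act (g : Equiv.Perm α × Multiplicative (Blk p N)) (ι : Fin r ↪ α ⊕ Blk p N) :
    TT (ι.trans (blockHom α (Blk p N) g)⁻¹.toEmbedding) = sh g.2.toAdd (TT ι) := by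
  ext e
  constructor
  · rintro ⟨x, hx⟩
    refine ⟨x, ?_⟩
    have h1 : (blockHom α (Blk p N) g)⁻¹ (ι x) = Sum.inr e := hx
    rw [Equiv.Perm.inv_eq_iff_eq] at h1
    rw [h1, blockHom_inr]
  · rintro ⟨x, hx⟩
    refine ⟨x, ?_⟩
    change (blockHom α (Blk p N) g)⁻¹ (ι x) = Sum.inr e
    rw [Equiv.Perm.inv_eq_iff_eq, hx, blockHom_inr]

theorem TT_empty_iff (ι : Fin r ↪ α ⊕ Blk p N) :
    ¬ (TT ι).Nonempty ↔ ∃ ι' : Fin r ↪ α, ι'.trans Function.Embedding.inl = ι := by
  constructor
  · intro h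
    have h1 : ∀ x, ∃ a, ι x = Sum.inl a := by
      intro x
      rcases hx : ι x with a | e
      · exact ⟨a, rfl⟩
      · exact absurd ⟨e, x, hx⟩ h
    choose f hf using h1
    refine ⟨⟨f, fun x y hxy => ι.injective ?_⟩, ?_⟩
    · rw [hf x, hf y, hxy]
    · ext x
      exact (hf x).symm
  · rintro ⟨ι', rfl⟩ ⟨e, x, hx⟩
    simp at hx

theorem TT_ne_univ [Fact p.Prime] (hr : r < p ^ N) (ι : Fin r ↪ α ⊕ Blk p N) :
    TT ι ≠ Set.univ := by
  intro h
  have h1 : ∀ e : Blk p N, ∃ x, ι x = Sum.inr e := fun e => by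
    have : e ∈ TT ι := by rw [h]; trivial
    exact this
  choose f hf using h1
  have hinj : Function.Injective f := by
    intro e e' he
    have := (hf e).symm.trans ((congrArg ι he).trans (hf e'))
    simpa using this
  have h2 := Fintype.card_le_of_injective f hinj
  rw [Fintype.card_fin, Fintype.card_fun, ZMod.card, Fintype.card_fin] at h2
  omega

/-- Truncation to an invariant set, as an equivariant map. -/
noncomputable def truncH (A : Rep.{u} k (Equiv.Perm (Fin r))) [Fact p.Prime] [Finite α]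
    (S : Set (Fin r ↪ α ⊕ Blk p N))
    (hS : ∀ (σ : Equiv.Perm (Fin r)) (ι : Fin r ↪ α ⊕ Blk p N), σ.toEmbedding.trans ι ∈ S ↔ ι ∈ S)
    (hg : ∀ (g : Equiv.Perm α × Multiplicative (Blk p N)) (ι : Fin r ↪ α ⊕ Blk p N),
      ι.trans (blockHom α (Blk p N) g)⁻¹.toEmbedding ∈ S ↔ ι ∈ S) :
    Rep.res (blockHom α (Blk p N)) ((MA (Fin r) A).rep (α ⊕ Blk p N)) ⟶
      Rep.res (blockHom α (Blk p N)) ((MA (Fin r) A).rep (α ⊕ Blk p N)) :=
  Rep.ofHom ⟨truncL A S hS, fun g => by
    ext w
    exact (rho_truncL (blockHom α (Blk p N) g) S S hS hS (hg g) w).symm⟩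

theorem truncH_apply (A : Rep.{u} k (Equiv.Perm (Fin r))) [Fact p.Prime] [Finite α]
    (S : Set (Fin r ↪ α ⊕ Blk p N)) (hS) (hg) (w : (MA (Fin r) A).at (α ⊕ Blk p N)) :
    (truncH A S hS hg).hom w = truncL A S hS w := rfl

end main

end Split

open Split in
theorem Split_proof : Stmt_Split.{u} := by
  classical
  intro k _ p _ N r hr A α _
  obtain ⟨l, c, hlc⟩ := exists_label p N
  have hlc' : ∀ ι : Fin r ↪ α ⊕ Blk p N, (TT ι).Nonempty → l (TT ι) ≠ 0 ∧
      ∀ a, l (sh a (TT ι)) = l (TT ι) ∧ c (sh a (TT ι)) + l (TT ι) a = c (TT ι) :=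
    fun ι h => hlc _ h (TT_ne_univ hr ι)
  have hne : ∀ (g : Equiv.Perm α × Multiplicative (Blk p N)) (ι : Fin r ↪ α ⊕ Blk p N),
      (TT (ι.trans (blockHom α (Blk p N) g)⁻¹.toEmbedding)).Nonempty ↔ (TT ι).Nonempty := by
    intro g ι
    rw [TT_act]
    constructor
    · intro h
      have := sh_nonempty (-g.2.toAdd) h
      rwa [sh_sh, neg_add_cancel, sh_zero] at this
    · exact sh_nonempty _
  -- the nonempty part
  let S0 : Set (Fin r ↪ α ⊕ Blk p N) := {ι | (TT ι).Nonempty}
  have hS0 : ∀ (σ : Equiv.Perm (Fin r)) (ι : Fin r ↪ α ⊕ Blk p N),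
      σ.toEmbedding.trans ι ∈ S0 ↔ ι ∈ S0 := by
    intro σ ι
    change (TT _).Nonempty ↔ _
    rw [TT_perm]; rfl
  -- the parts of the characters
  let Sl : (Blk p N →+ ZMod p) → Set (Fin r ↪ α ⊕ Blk p N) :=
    fun m => {ι | (TT ι).Nonempty ∧ l (TT ι) = m}
  have hSl : ∀ m (σ : Equiv.Perm (Fin r)) (ι : Fin r ↪ α ⊕ Blk p N),
      σ.toEmbedding.trans ι ∈ Sl m ↔ ι ∈ Sl m := by
    intro m σ ι
    change ((TT _).Nonempty ∧ _) ↔ _
    rw [TT_perm]; rfl
  have hSlg : ∀ m (g : Equiv.Perm α × Multiplicative (Blk p N)) (ι : Fin r ↪ α ⊕ Blk p N),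
      ι.trans (blockHom α (Blk p N) g)⁻¹.toEmbedding ∈ Sl m ↔ ι ∈ Sl m := by
    intro m g ι
    change ((TT _).Nonempty ∧ _) ↔ ((TT ι).Nonempty ∧ _)
    rw [hne g ι]
    refine and_congr_right (fun h => ?_)
    rw [TT_act, ((hlc' ι h).2 _).1]
  let Sc : (Blk p N →+ ZMod p) → ZMod p → Set (Fin r ↪ α ⊕ Blk p N) :=
    fun m d => {ι | (TT ι).Nonempty ∧ l (TT ι) = m ∧ c (TT ι) = d}
  have hSc : ∀ m d (σ : Equiv.Perm (Fin r)) (ι : Fin r ↪ α ⊕ Blk p N),
      σ.toEmbedding.trans ι ∈ Sc m d ↔ ι ∈ Sc m d := by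
    intro m d σ ι
    change ((TT _).Nonempty ∧ _) ↔ _
    rw [TT_perm]; rfl
  have hScg : ∀ m d (g : Equiv.Perm α × Multiplicative (Blk p N)) (ι : Fin r ↪ α ⊕ Blk p N),
      ι.trans (blockHom α (Blk p N) g)⁻¹.toEmbedding ∈ Sc m d ↔
        ι ∈ Sc m (d + m g.2.toAdd) := by
    intro m d g ι
    change ((TT _).Nonempty ∧ _) ↔ ((TT ι).Nonempty ∧ _)
    rw [hne g ι]
    refine and_congr_right (fun h => ?_)
    rw [TT_act, ((hlc' ι h).2 _).1]
    refine and_congr_right (fun h' => ?_)
    rw [← ((hlc' ι h).2 g.2.toAdd).2, h']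
    exact (add_left_inj _).symm
  -- splitting idempotents
  let X := Rep.res (blockHom α (Blk p N)) ((MA (Fin r) A).rep (α ⊕ Blk p N))
  have split : ∀ e : X ⟶ X, e ≫ e = e → ∃ (U : Rep.{u} k (Equiv.Perm α × Multiplicative (Blk p N)))
      (t : X ⟶ U) (s : U ⟶ X), s ≫ t = 𝟙 U ∧ t ≫ s = e := by
    intro e he
    obtain ⟨U, s, t, h1, h2⟩ := IsIdempotentComplete.idempotents_split X e he
    exact ⟨U, t, s, h1, h2⟩
  have hid : ∀ S hS hg, truncH A S hS hg ≫ truncH A S hS hg = truncH (α := α) (p := p) (N := N) A S hS hg := by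
    intro S hS hg
    ext w
    change truncL A S hS (truncL A S hS w) = truncL A S hS w
    rw [truncL_truncL S S hS hS (by simpa using hS)]
    exact truncL_congr _ _ (Set.inter_self S) w
  obtain ⟨U, t, s, hst, hts⟩ := split (truncH A S0 hS0 hne) (hid _ _ _)
  choose U' t' s' hst' hts' using fun m => split (truncH A (Sl m) (hSl m) (hSlg m)) (hid _ _ _)
  let n := Nat.card {m : Blk p N →+ ZMod p // m ≠ 0}
  have : Finite (Blk p N →+ ZMod p) := DFunLike.finite _
  let e : Fin n ≃ {m : Blk p N →+ ZMod p // m ≠ 0} := (Finite.equivFin _).symm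
  refine ⟨U, t, s, ⟨n, fun i => (e i).1, fun i => U' (e i).1, fun i => s ≫ t' (e i).1,
    fun i => s' (e i).1 ≫ t, fun i => (e i).2, fun i => ?_, ?_⟩, ?_, ?_⟩
  · -- grading
    set m := (e i).1 with hm
    refine ⟨fun d => (t' m).hom.toLinearMap.comp ((truncL A (Sc m d) (hSc m d)).comp
      (s' m).hom.toLinearMap), ?_, ?_, ?_⟩
    · intro d d' u hdd
      change (t' m).hom (truncL A (Sc m d) (hSc m d) ((s' m).hom ((t' m).hom
        (truncL A (Sc m d') (hSc m d') ((s' m).hom u))))) = 0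
      have h1 : ∀ w, (s' m).hom ((t' m).hom w) = truncL A (Sl m) (hSl m) w := fun w =>
        congrArg (fun f => f.hom w) (hts' m)
      rw [h1]
      have h2 : truncL A (Sc m d) (hSc m d) (truncL A (Sl m) (hSl m)
          (truncL A (Sc m d') (hSc m d') ((s' m).hom u))) = 0 := by
        apply MA.fn_injective
        intro ι
        by_cases h : ι ∈ Sc m d
        · have h' : ι ∉ Sc m d' := by
            intro h'
            exact hdd (h.2.2.symm.trans h'.2.2)
          rw [truncL_pos _ h, truncL_pos _ (show ι ∈ Sl m from ⟨h.1, h.2.1⟩), truncL_neg _ h']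
          rfl
        · rw [truncL_neg _ h]
          rfl
      rw [h2, map_zero]
    · intro u
      change ∑ d, (t' m).hom (truncL A (Sc m d) (hSc m d) ((s' m).hom u)) = u
      rw [← map_sum]
      have h1 : ∀ u, (t' m).hom ((s' m).hom u) = u := fun u =>
        congrArg (fun f => f.hom u) (hst' m)
      have h3 : ∀ w, (s' m).hom ((t' m).hom w) = truncL A (Sl m) (hSl m) w := fun w =>
        congrArg (fun f => f.hom w) (hts' m)
      have h2 : ∑ d, truncL A (Sc m d) (hSc m d) ((s' m).hom u) = (s' m).hom u := by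
        have h4 : (s' m).hom u = truncL A (Sl m) (hSl m) ((s' m).hom u) := by
          rw [← h3, h1]
        apply MA.fn_injective
        intro ι
        rw [fn_sum]
        by_cases h : ι ∈ Sl m
        · rw [Finset.sum_eq_single (c (TT ι))]
          · exact truncL_pos _ (show ι ∈ Sc m (c (TT ι)) from ⟨h.1, h.2, rfl⟩)
          · intro d _ hd
            exact truncL_neg _ (fun h' => hd h'.2.2.symm)
          · intro h'
            exact absurd (Finset.mem_univ _) h'
        · rw [Finset.sum_eq_zero, h4, truncL_neg _ h]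
          intro d _
          exact truncL_neg _ (fun h' => h ⟨h'.1, h'.2.1⟩)
      rw [h2, h1]
    · intro g d u
      change (U' m).ρ g ((t' m).hom (truncL A (Sc m d) (hSc m d) ((s' m).hom u))) =
        (t' m).hom (truncL A (Sc m (d + m g.2.toAdd)) (hSc m _) ((s' m).hom ((U' m).ρ g u)))
      rw [← Rep.hom_comm_apply, Rep.hom_comm_apply (s' m) g u]
      congr 1
      exact rho_truncL (blockHom α (Blk p N) g) (Sc m d) (Sc m (d + m g.2.toAdd)) _ _
        (hScg m d g) _
  · -- the sum
    have h1 : ∑ i, (s ≫ t' (e i).1) ≫ (s' (e i).1 ≫ t) =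
        s ≫ (∑ i, truncH A (Sl (e i).1) (hSl _) (hSlg _)) ≫ t := by
      rw [Preadditive.sum_comp, Preadditive.comp_sum]
      refine Finset.sum_congr rfl (fun i _ => ?_)
      rw [← hts']
      simp only [Category.assoc]
    have h2 : (∑ i, truncH A (Sl (e i).1) (hSl _) (hSlg _)) = truncH A S0 hS0 hne := by
      ext w
      have h3 : ∀ (s : Finset (Fin n)), (∑ i ∈ s, truncH A (Sl (e i).1) (hSl _) (hSlg _)).hom w
          = ∑ i ∈ s, truncL A (Sl (e i).1) (hSl _) w := by
        intro s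
        induction s using Finset.induction_on with
        | empty => simp
        | insert a s ha ih =>
            rw [Finset.sum_insert ha, Finset.sum_insert ha, ← ih]
            rfl
      refine (h3 Finset.univ).trans ?_
      change _ = truncL A S0 hS0 w
      apply MA.fn_injective
      intro ι
      rw [fn_sum]
      by_cases h : ι ∈ S0
      · have h4 := (hlc' ι h).1
        rw [truncL_pos _ h, Finset.sum_eq_single (e.symm ⟨l (TT ι), h4⟩)]
        · apply truncL_pos
          refine ⟨h, ?_⟩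
          rw [Equiv.apply_symm_apply]
        · intro i _ hi
          apply truncL_neg
          intro h'
          apply hi
          rw [Equiv.eq_symm_apply]
          exact Subtype.ext h'.2.symm
        · intro h'
          exact absurd (Finset.mem_univ _) h'
      · rw [truncL_neg _ h]
        exact Finset.sum_eq_zero (fun i _ => truncL_neg _ (fun h' => h h'.1))
    rw [h1, h2, ← hts]
    simp only [Category.assoc, hst, Category.comp_id]
  · -- the map from `W(α)` vanishes
    have h1 : wMap (MA (Fin r) A) α (Blk p N) ≫ t =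
        wMap (MA (Fin r) A) α (Blk p N) ≫ (truncH A S0 hS0 hne) ≫ t := by
      rw [← hts]
      simp only [Category.assoc, hst, Category.comp_id]
    have h2 : wMap (MA (Fin r) A) α (Blk p N) ≫ (truncH A S0 hS0 hne) = 0 := by
      ext w
      change truncL A S0 hS0 ((MA (Fin r) A).mapL Function.Embedding.inl w) = 0
      apply MA.fn_injective
      intro ι
      by_cases h : ι ∈ S0
      · rw [truncL_pos _ h, MA.mapL_apply_of_not]
        · rfl
        · intro h'
          exact (TT_empty_iff ι).mpr h' h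
      · rw [truncL_neg _ h]
        rfl
    rw [h1, ← Category.assoc, h2, Limits.zero_comp]
  · rw [hts]
    ext w
    change (MA (Fin r) A).mapL Function.Embedding.inl
      ((MA.sharp (Fin r) A).pr Function.Embedding.inl w) + truncL A S0 hS0 w = w
    apply MA.fn_injective
    intro ι
    rw [MA.fn_add]
    by_cases h : ι ∈ S0
    · rw [truncL_pos _ h, MA.mapL_apply_of_not, zero_add]
      intro h'
      exact (TT_empty_iff ι).mpr h' h
    · rw [truncL_neg _ h, add_zero]
      obtain ⟨ι', rfl⟩ := (TT_empty_iff ι).mp h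
      rw [MA.mapL_apply]
      rfl

end Pool.Agent.FIExt
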