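import Pool.Agent.FIExt.StableA
import Pool.Agent.FIExt.Basic

/-!
# Stability of `Ext` with coefficients `M(A)`
-/

open CategoryTheory CategoryTheory.Abelian

universe u

namespace Pool.Agent.FIExt

namespace St

section

variable {k : Type u} [Field k]

/-! ### The Shapiro isomorphism -/

/-- `(Σ^R V)(α)` is the restriction of `V(α ⊕ R)`. -/
def aHom (V : FIMod k) (α R : Type) [Finite α] [Finite R] :
    (V.shift R).rep α ⟶ Rep.res (phi α R) (V.rep (α ⊕ R)) :=
  Rep.ofHom ⟨LinearMap.id, fun _ => rfl⟩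

/-- the inverse -/
def aInv (V : FIMod k) (α R : Type) [Finite α] [Finite R] :
    Rep.res (phi α R) (V.rep (α ⊕ R)) ⟶ (V.shift R).rep α :=
  Rep.ofHom ⟨LinearMap.id, fun _ => rfl⟩

theorem aHom_aInv (V : FIMod k) (α R : Type) [Finite α] [Finite R] :
    aHom V α R ≫ aInv V α R = 𝟙 _ := rfl

theorem aInv_aHom (V : FIMod k) (α R : Type) [Finite α] [Finite R] :
    aInv V α R ≫ aHom V α R = 𝟙 _ := rfl

theorem shap_bijective (hS : Stmt_ShapiroCo.{u}) (V : FIMod k) (α R : Type) [Finite α] [Finite R]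
    (B : Type u) [AddCommGroup B] [Module k B] (i : ℕ) :
    Function.Bijective (cmp (phi α R) (aHom V α R) (evB α R B) i) := by
  have h1 := hS (phi α R) (phi_injective α R) (evB (k := k) α R B) ev_bij (V.rep (α ⊕ R)) i
  have h2 : Function.Bijective (fun x : Ext (Rep.res (phi α R) (V.rep (α ⊕ R)))
      ((constFI k B).rep α) i => (Ext.mk₀ (aHom V α R)).comp x (zero_add i)) := by
    rw [Function.bijective_iff_has_inverse]
    refine ⟨fun x => (Ext.mk₀ (aInv V α R)).comp x (zero_add i), ?_, ?_⟩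
    · intro x
      simp only [Ext.mk₀_comp_mk₀_assoc, aInv_aHom, Ext.mk₀_id_comp]
    · intro x
      simp only [Ext.mk₀_comp_mk₀_assoc, aHom_aInv, Ext.mk₀_id_comp]
  have h3 := h2.comp h1
  convert h3 using 1
  funext x
  simp only [Function.comp_apply]
  rw [cmp_apply, Ext.comp_assoc_of_third_deg_zero]

theorem viaE_phi {α α' : Type} (R : Type) (j : α ↪ α') :
    (viaE (sumEmb R j)).comp (phi α R) = (phi α' R).comp (viaE j) := by
  ext σ x
  simp only [MonoidHom.comp_apply]
  rcases x with a | y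
  · by_cases h : ∃ b, j b = a
    · obtain ⟨b, rfl⟩ := h
      have h1 := viaE_apply (sumEmb R j) (phi α R σ) (Sum.inl b)
      rw [phi_inl] at h1 ⊢
      rw [viaE_apply j σ b]
      exact h1
    · rw [phi_inl, viaE_apply_of_notMem j σ a h, viaE_apply_of_notMem]
      rintro ⟨b | b, hb⟩
      · exact h ⟨b, Sum.inl_injective hb⟩
      · exact absurd hb (by simp [sumEmb])
  · have h1 := viaE_apply (sumEmb R j) (phi α R σ) (Sum.inr y)
    rw [phi_inr] at *
    exact h1

/-- the Shapiro isomorphism is compatible with stabilisation. -/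
theorem shap_comm (V : FIMod k) {α α' : Type} (R : Type) [Finite α] [Finite α'] [Finite R]
    (B : Type u) [AddCommGroup B] [Module k B] (j : α ↪ α') (i : ℕ)
    (x : Ext (V.rep (α' ⊕ R)) ((MA R (Atil (k := k) R B)).rep (α' ⊕ R)) i) :
    cmp (phi α R) (aHom V α R) (evB α R B) i
      (stab V (MA.sharp R (Atil (k := k) R B)) (sumEmb R j) i x) =
    stab (V.shift R) (constFI.sharp k B) j i
      (cmp (phi α' R) (aHom V α' R) (evB α' R B) i x) := by
  refine (cmp_cmp (viaE (sumEmb R j)) (phi α R) (V.embHom _)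
    ((MA.sharp R (Atil (k := k) R B)).prHom (sumEmb R j)) (aHom V α R) (evB α R B) i x).trans ?_
  refine Eq.trans ?_ (cmp_cmp (phi α' R) (viaE j) (aHom V α' R) (evB α' R B)
    ((V.shift R).embHom j) ((constFI.sharp k B).prHom j) i x).symm
  refine cmp_congr (viaE_phi R j) _ _ _ _ ?_ ?_ i x
  · intro v
    rfl
  · intro w
    rfl

/-- stability for the coefficients `M(Ã)`. -/
theorem stable_til (h0 : Stmt_Stable0.{u}) (hS : Stmt_ShapiroCo.{u}) (hG : Stmt_Gen.{u}) (r : ℕ)
    (B : Type u) [AddCommGroup B] [Module k B] [FiniteDimensional k B]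
    (V : FIMod k) (hV : FG V) (i : ℕ) : ∃ N : ℕ, ∀ {α β : Type} [Finite α] [Finite β] (j : α ↪ β),
      N ≤ Nat.card α →
        Function.Bijective (stab V (MA.sharp (Fin r) (Atil (k := k) (Fin r) B)) j i) := by
  have hV' : FG (V.shift (Fin r)) := by
    obtain ⟨⟨d, hd⟩, hfd⟩ := (hG.fg_iff V).mp hV
    exact (hG.fg_iff _).mpr ⟨⟨d, hG.genLT_shift V (Fin r) d hd⟩, fun α _ => hfd (α ⊕ Fin r)⟩
  obtain ⟨N, hN⟩ := h0 (k := k) B (V.shift (Fin r)) hV' i
  refine ⟨N + r, fun {β β'} _ _ j hj => ?_⟩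
  obtain ⟨α, α', _, _, j₀, e, e', he, hc⟩ := exists_decomp j r (by omega)
  rw [stab_bijective_iff V (MA.sharp (Fin r) (Atil (k := k) (Fin r) B)) j (sumEmb (Fin r) j₀) e e'
    he i]
  have h1 := hN j₀ (by omega)
  have h2 := shap_bijective hS V α (Fin r) B i
  have h3 := shap_bijective hS V α' (Fin r) B i
  have h4 : (cmp (phi α (Fin r)) (aHom V α (Fin r)) (evB α (Fin r) B) i) ∘
      (stab V (MA.sharp (Fin r) (Atil (k := k) (Fin r) B)) (sumEmb (Fin r) j₀) i) =
      (stab (V.shift (Fin r)) (constFI.sharp k B) j₀ i) ∘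
        (cmp (phi α' (Fin r)) (aHom V α' (Fin r)) (evB α' (Fin r) B) i) :=
    funext (fun x => shap_comm V (Fin r) B j₀ i x)
  have h5 := h1.comp h3
  rw [← h4] at h5
  exact (Function.Bijective.of_comp_iff' h2 _).mp h5

/-- the quotient `Ã / A` -/
def Aquo {R : Type} (A : Rep.{u} k (Equiv.Perm R)) : Rep.{u} k (Equiv.Perm R) :=
  Rep.of (X := (Atil (k := k) R A) ⧸ LinearMap.range (emb A).hom.toLinearMap)
    { toFun := fun σ => Submodule.mapQ _ _ ((Atil (k := k) R A).ρ σ) (by
        rintro _ ⟨a, rfl⟩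
        exact ⟨A.ρ σ a, Rep.hom_comm_apply (emb A) σ a⟩)
      map_one' := by
        apply LinearMap.ext
        intro x
        obtain ⟨x, rfl⟩ := Submodule.mkQ_surjective _ x
        simp
      map_mul' := fun σ σ' => by
        apply LinearMap.ext
        intro x
        obtain ⟨x, rfl⟩ := Submodule.mkQ_surjective _ x
        simp }

/-- the projection -/
def aquoπ {R : Type} (A : Rep.{u} k (Equiv.Perm R)) : Atil (k := k) R A ⟶ Aquo A :=
  Rep.ofHom (ρ := (Atil (k := k) R A).ρ) (σ := (Aquo A).ρ)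
    ⟨(LinearMap.range (emb A).hom.toLinearMap).mkQ, fun _ => rfl⟩

theorem aquoπ_surjective {R : Type} (A : Rep.{u} k (Equiv.Perm R)) :
    Function.Surjective (aquoπ A).hom :=
  Submodule.mkQ_surjective _

theorem aquo_exact {R : Type} (A : Rep.{u} k (Equiv.Perm R)) :
    Function.Exact (emb A).hom (aquoπ A).hom := by
  intro x
  exact (Submodule.Quotient.mk_eq_zero _)

/-- the sequence `0 → M(A) → M(Ã) → M(Ã/A) → 0` -/
theorem exactAt (r : ℕ) (A : Rep.{u} k (Equiv.Perm (Fin r))) (α : Type) [Finite α] :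
    ExactAt (MA.mapA (Fin r) (emb A)) (MA.mapA (Fin r) (aquoπ A)) α :=
  ⟨mapA_injective _ (emb_injective A) α,
    mapA_exact _ _ (emb_injective A) (aquo_exact A) α,
    mapA_surjective _ (aquoπ_surjective A) α⟩

/-- the ladder -/
noncomputable def ladder (V : FIMod k) (r : ℕ) (A : Rep.{u} k (Equiv.Perm (Fin r))) {α β : Type}
    [Finite α] [Finite β] (j : α ↪ β) :
    CovLadder (repSC_shortExact (exactAt r A β)) (repSC_shortExact (exactAt r A α)) (V.rep β)
      (V.rep α) :=
  stabCov V (MA.sharp (Fin r) A) (MA.sharp (Fin r) (Atil (k := k) (Fin r) A))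
    (MA.sharp (Fin r) (Aquo A)) (MA.mapA (Fin r) (emb A)) (MA.mapA (Fin r) (aquoπ A)) j
    (fun _ => rfl) (fun _ => rfl) (exactAt r A α) (exactAt r A β)

end

end St

open St in
theorem Stable_proof (h0 : Stmt_Stable0.{u}) (hS : Stmt_ShapiroCo.{u}) (hG : Stmt_Gen.{u}) :
    Stmt_Stable.{u} := by
  intro k _ r A hA V hV i
  induction i using Nat.strong_induction_on generalizing A with
  | _ i ih =>
    -- injectivity for all `A`
    have inj : ∀ A : Rep.{u} k (Equiv.Perm (Fin r)), FiniteDimensional k A →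
        ∃ N : ℕ, ∀ {α β : Type} [Finite α] [Finite β] (j : α ↪ β), N ≤ Nat.card α →
          Function.Injective (stab V (MA.sharp (Fin r) A) j i) := by
      intro A hA
      obtain ⟨N1, hN1⟩ := stable_til h0 hS hG r A V hV i
      have hq : FiniteDimensional k (Atil (k := k) (Fin r) A) := 
        inferInstanceAs (FiniteDimensional k (Equiv.Perm (Fin r) → A))
      have hq' : FiniteDimensional k (Aquo A) :=
        inferInstanceAs (FiniteDimensional k ((Atil (k := k) (Fin r) A) ⧸
          LinearMap.range (emb A).hom.toLinearMap))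
      rcases i with _ | m
      · refine ⟨N1, fun {α β} _ _ j hj => ?_⟩
        exact (ladder V r A j).inj₁ 0 (hN1 j hj).1 (fun m hm => absurd hm (by omega))
          (fun m hm => absurd hm (by omega))
      · obtain ⟨N2, hN2⟩ := stable_til h0 hS hG r A V hV m
        obtain ⟨N3, hN3⟩ := ih m (by omega) (Aquo A) hq'
        refine ⟨N1 + N2 + N3, fun {α β} _ _ j hj => ?_⟩
        refine (ladder V r A j).inj₁ (m + 1) (hN1 j (by omega)).1 (fun m' hm => ?_)
          (fun m' hm => ?_)
        · obtain rfl : m' = m := by omega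
          exact (hN2 j (by omega)).2
        · obtain rfl : m' = m := by omega
          exact (hN3 j (by omega)).1
    have hq' : FiniteDimensional k (Aquo A) := by
      have hq : FiniteDimensional k (Atil (k := k) (Fin r) A) := 
        inferInstanceAs (FiniteDimensional k (Equiv.Perm (Fin r) → A))
      exact inferInstanceAs (FiniteDimensional k ((Atil (k := k) (Fin r) A) ⧸
          LinearMap.range (emb A).hom.toLinearMap))
    obtain ⟨N0, hN0⟩ := inj A hA
    obtain ⟨N1, hN1⟩ := stable_til h0 hS hG r A V hV i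
    obtain ⟨N2, hN2⟩ := inj (Aquo A) hq'
    rcases i with _ | m
    · refine ⟨N0 + N1 + N2, fun {α β} _ _ j hj => ⟨hN0 j (by omega), ?_⟩⟩
      exact (ladder V r A j).surj₁ 0 (hN1 j (by omega)).2 (hN2 j (by omega))
        (fun m hm => absurd hm (by omega))
    · obtain ⟨N3, hN3⟩ := ih m (by omega) (Aquo A) hq'
      refine ⟨N0 + N1 + N2 + N3, fun {α β} _ _ j hj => ⟨hN0 j (by omega), ?_⟩⟩
      refine (ladder V r A j).surj₁ (m + 1) (hN1 j (by omega)).2 (hN2 j (by omega))
        (fun m' hm => ?_)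
      obtain rfl : m' = m := by omega
      exact (hN3 j (by omega)).2

end Pool.Agent.FIExt
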