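import Pool.Agent.FIExt.Stable0C
import Pool.Agent.FIExt.Gen

/-!
# Stability for constant coefficients
-/

open CategoryTheory CategoryTheory.Abelian

universe u

namespace Pool.Agent.FIExt

section

variable {k : Type u} [Field k]

/-- the kernel of a map of FI-modules -/
def kerSub {V W : FIMod k} (f : V ⟶ W) : FISub V where
  carrier α _ := LinearMap.ker (FIMod.appL f α)
  mapL_mem {α β} _ _ j v hv := by
    rw [LinearMap.mem_ker] at hv ⊢
    rw [FIMod.appL_mapL, hv, map_zero]

theorem kerSub_exactAt {V W : FIMod k} (f : V ⟶ W) (α : Type) [Finite α]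
    (h : Function.Surjective (FIMod.appL f α)) : ExactAt (kerSub f).ι f α := by
  refine ⟨Subtype.val_injective, ?_, h⟩
  intro v
  constructor
  · intro hv
    exact ⟨⟨v, hv⟩, rfl⟩
  · rintro ⟨⟨w, hw⟩, rfl⟩
    exact hw

theorem fg_free (r : ℕ) : FG (FreeFI k r) := by
  refine ⟨1, fun _ => r, fun _ => freeGen k r, ?_⟩
  intro K hK α _
  rw [eq_top_iff]
  intro x _
  have key : ∀ ι : Fin r ↪ α, (freeB k ι) ∈ K.carrier α := by
    intro ι
    rw [← mapL_freeGen]
    exact K.mapL_mem ι (hK 0)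
  exact free_induction key x

variable (B : Type u) [AddCommGroup B] [Module k B]

/-- stability in degree `i` -/
def Cl0 (k : Type u) [Field k] (B : Type u) [AddCommGroup B] [Module k B] (i : ℕ) : Prop :=
  ∀ (V : FIMod k), FG V → ∃ N : ℕ, ∀ {α β : Type} [Finite α] [Finite β] (j : α ↪ β),
      N ≤ Nat.card α → Function.Bijective (stab V (constFI.sharp k B) j i)

/-- `ρ(x) = s · Res(aug · x)` -/
theorem stab_const_eq (r : ℕ) (α : Type) [Finite α] (i : ℕ)
    (y : Ext ((constFI k k).rep (α ⊕ Fin r)) ((constFI k B).rep (α ⊕ Fin r)) i) :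
    stab (constFI k k) (constFI.sharp k B) (inlE α (Fin r)) i y =
      sh0 k B r α i ((Ext.mk₀ (FIMod.repHom (augF k r) (α ⊕ Fin r))).comp y (zero_add i)) := by
  have h := cmp_mk₀_comp (viaE (inlE α (Fin r))) (secFree k r α)
    ((constFI k k).embHom (inlE α (Fin r))) ((constFI.sharp k B).prHom (inlE α (Fin r)))
    (FIMod.repHom (augF k r) (α ⊕ Fin r)) (𝟙 _) (by
      rw [Category.id_comp]; exact secFree_aug r α) i y
  rw [Ext.mk₀_id_comp] at h
  exact h.symm

theorem augF_surj (α : Type) [Finite α] (h : 1 ≤ Nat.card α) :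
    Function.Surjective (FIMod.appL (augF k 1) α) := by
  intro c
  have : Nonempty α := by
    by_contra hne
    rw [not_nonempty_iff] at hne
    simp at h
  obtain ⟨a⟩ := this
  let ι : Fin 1 ↪ α := ⟨fun _ => a, fun _ _ _ => Subsingleton.elim _ _⟩
  exact ⟨(Finsupp.single ι (c : k) : (Fin 1 ↪ α) →₀ k), augF_single (k := k) 1 ι c⟩

theorem g_extClass_zero {C : Type*} [Category C] [Abelian C] [HasExt.{u} C]
    {S : ShortComplex C} (hS : S.ShortExact) {Y : C} {m n : ℕ} (h : 1 + m = n)
    (z : Ext S.X₁ Y m) :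
    (Ext.mk₀ S.g).comp (hS.extClass.comp z h) (zero_add n) = 0 := by
  subst h
  rw [conj_post, hS.comp_extClass, Ext.zero_comp]

/-- injectivity of `aug^*` -/
theorem aug_inj (hN : Stmt_Noeth.{u}) (i : ℕ) (hC : ∀ m, m + 1 = i → Cl0 k B m) :
    ∃ N, ∀ (α : Type) [Finite α], N ≤ Nat.card α →
      ∀ x : Ext ((constFI k k).rep α) ((constFI k B).rep α) i,
        (Ext.mk₀ (FIMod.repHom (augF k 1) α)).comp x (zero_add i) = 0 → x = 0 := by
  cases i with
  | zero =>
    refine ⟨1, fun α _ hα x hx => ?_⟩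
    have hS := repSC_shortExact (kerSub_exactAt (augF k 1) α (augF_surj α hα))
    have h1 : Epi (FIMod.repHom (augF k 1) α) := hS.epi_g
    exact (injective_iff_map_eq_zero _).1
      (Ext.precomp_mk₀_injective_of_epi ((constFI k B).rep α) (FIMod.repHom (augF k 1) α)) x hx
  | succ m =>
    obtain ⟨N, hNN⟩ := hC m rfl (kerSub (augF k 1)).toFI (hN _ (fg_free 1) _)
    refine ⟨N + 1, fun α _ hα x hx => ?_⟩
    have hα' := kerSub_exactAt (augF k 1) α (augF_surj α (by omega))
    have hβ' := kerSub_exactAt (augF k 1) (α ⊕ Fin 1) (augF_surj (α ⊕ Fin 1) (by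
      rw [Nat.card_sum]; simp))
    obtain ⟨z, hz⟩ := Ext.contravariant_sequence_exact₃ (repSC_shortExact hα')
      ((constFI k B).rep α) x hx (add_comm 1 m)
    obtain ⟨z', hz'⟩ := (hNN (inlE α (Fin 1)) (by omega)).2 z
    have h1 := stab_extClass_comp (constFI.sharp k B) (kerSub (augF k 1)).ι (augF k 1)
      (inlE α (Fin 1)) hα' hβ' m (m + 1) (add_comm 1 m) z'
    have h4 := stab_const_eq (k := k) B 1 α (m + 1)
      ((repSC_shortExact hβ').extClass.comp z' (add_comm 1 m))
    have h2 : (Ext.mk₀ (FIMod.repHom (augF k 1) (α ⊕ Fin 1))).comp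
        ((repSC_shortExact hβ').extClass.comp z' (add_comm 1 m)) (zero_add (m + 1)) = 0 :=
      g_extClass_zero (repSC_shortExact hβ') (add_comm 1 m) z'
    have h5 : x = stab (constFI k k) (constFI.sharp k B) (inlE α (Fin 1)) (m + 1)
        ((repSC_shortExact hβ').extClass.comp z' (add_comm 1 m)) := by
      refine Eq.trans ?_ h1.symm
      rw [hz']
      exact hz.symm
    rw [h5]
    refine h4.trans ?_
    exact (congrArg (sh0 k B 1 α (m + 1)) h2).trans (map_zero _)

/-- injectivity of the stabilisation map for `k`, one-point extensions -/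
theorem const_inj (hN : Stmt_Noeth.{u}) (hS : Stmt_ShapiroInd.{u}) (i : ℕ)
    (hC : ∀ m, m + 1 = i → Cl0 k B m) :
    ∃ N, ∀ (α : Type) [Finite α], N ≤ Nat.card α →
      Function.Injective (stab (constFI k k) (constFI.sharp k B) (inlE α (Fin 1)) i) := by
  obtain ⟨N, hNN⟩ := aug_inj (k := k) B hN i hC
  refine ⟨N, fun α _ hα => ?_⟩
  rw [injective_iff_map_eq_zero]
  intro x hx
  rw [stab_const_eq] at hx
  apply hNN (α ⊕ Fin 1) (by rw [Nat.card_sum]; omega) x
  exact (injective_iff_map_eq_zero _).1 (sh0_bij (k := k) B hS 1 α i).1 _ hx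

/-- stability for `k` -/
theorem const_bij [FiniteDimensional k B] (hN : Stmt_Noeth.{u}) (hS : Stmt_ShapiroInd.{u})
    (hF : Stmt_FinDim.{u}) (i : ℕ) (hC : ∀ m, m + 1 = i → Cl0 k B m) :
    ∃ N : ℕ, ∀ {α β : Type} [Finite α] [Finite β] (j : α ↪ β),
      N ≤ Nat.card α → Function.Bijective (stab (constFI k k) (constFI.sharp k B) j i) := by
  obtain ⟨N, hNN⟩ := const_inj (k := k) B hN hS i hC
  let T : (α : Type) → [Finite α] → Type u := fun α _ =>
    Ext ((constFI k k).rep α) ((constFI k B).rep α) i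
  have hfd : ∀ (α : Type) [Finite α],
      FiniteDimensional k (Ext ((constFI k k).rep α) ((constFI k B).rep α) i) := by
    intro α _
    exact hF _ _ (inferInstanceAs (FiniteDimensional k k))
      (inferInstanceAs (FiniteDimensional k B)) i
  let D : (α : Type) → [Finite α] → ℕ := fun α _ =>
    Module.finrank k (Ext ((constFI k k).rep α) ((constFI k B).rep α) i)
  have hDe : ∀ (α β : Type) [Finite α] [Finite β], Nat.card α = Nat.card β → D α = D β := by
    intro α β _ _ hc
    obtain ⟨e⟩ : Nonempty (α ≃ β) := by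
      have := Finite.equivFin α
      have h2 := Finite.equivFin β
      rw [← hc] at h2
      exact ⟨this.trans h2.symm⟩
    exact (LinearEquiv.finrank_eq (LinearEquiv.ofBijective _
      (stab_equiv_bijective (constFI k k) (constFI.sharp k B) e i))).symm
  have hDm : ∀ n, N ≤ n → D (Fin (n + 1)) ≤ D (Fin n) := by
    intro n hn
    have h1 := hNN (Fin n) (by simpa using hn)
    have h2 := LinearMap.finrank_le_finrank_of_injective h1
    rw [hDe (Fin (n + 1)) (Fin n ⊕ Fin 1) (by rw [Nat.card_sum]; simp)]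
    exact h2
  obtain ⟨N', hN', hmin⟩ : ∃ N' ≥ N, ∀ n ≥ N, D (Fin N') ≤ D (Fin n) := by
    have hne : {d | ∃ n ≥ N, D (Fin n) = d}.Nonempty := ⟨D (Fin N), N, le_rfl, rfl⟩
    obtain ⟨n, hn, hd⟩ := Nat.sInf_mem hne
    refine ⟨n, hn, fun n' hn' => ?_⟩
    rw [hd]
    exact Nat.sInf_le ⟨n', hn', rfl⟩
  have hconst : ∀ n ≥ N', D (Fin n) = D (Fin N') := by
    intro n hn
    refine le_antisymm ?_ (hmin n (le_trans hN' hn))
    induction n, hn using Nat.le_induction with
    | base => exact le_rfl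
    | succ n hn ih => exact (hDm n (le_trans hN' hn)).trans ih
  have hstep : ∀ (α : Type) [Finite α], N' ≤ Nat.card α →
      Function.Bijective (stab (constFI k k) (constFI.sharp k B) (inlE α (Fin 1)) i) := by
    intro α _ hα
    have h1 := hNN α (le_trans hN' hα)
    have h2 : D (α ⊕ Fin 1) = D α := by
      rw [hDe (α ⊕ Fin 1) (Fin (Nat.card α + 1)) (by rw [Nat.card_sum]; simp),
        hDe α (Fin (Nat.card α)) (by simp), hconst _ hα, hconst _ (by omega)]
    have := hfd α
    have := hfd (α ⊕ Fin 1)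
    exact ⟨h1, (LinearMap.injective_iff_surjective_of_finrank_eq_finrank h2).1 h1⟩
  refine ⟨N', fun {α β} _ _ j hα => ?_⟩
  obtain ⟨m, hm⟩ := Nat.exists_eq_add_of_le
    (Nat.card_le_card_of_injective j j.injective)
  exact stab_bij_of_step (constFI k k) (constFI.sharp k B) i N' hstep m j hm hα

/-- the claim for all degrees -/
theorem cl0_all [FiniteDimensional k B] (hN : Stmt_Noeth.{u}) (hS : Stmt_ShapiroInd.{u})
    (hF : Stmt_FinDim.{u}) (hG : Stmt_Gen.{u}) (i : ℕ) : Cl0 k B i := by
  induction i using Nat.strong_induction_on with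
  | _ i ih =>
    have hC : ∀ m, m + 1 = i → Cl0 k B m := fun m hm => ih m (by omega)
    obtain ⟨N, hNc⟩ := const_bij (k := k) B hN hS hF i hC
    -- the free cover in degree `i`
    have hcover : ∀ (V : FIMod k), FG V → ∃ (F : FIMod k) (f : F ⟶ V) (M : ℕ), FG F ∧
        (∀ (α : Type) [Finite α], Function.Surjective (FIMod.appL f α)) ∧
        ∀ {α β : Type} [Finite α] [Finite β] (j : α ↪ β), M ≤ Nat.card α →
          Function.Bijective (stab F (constFI.sharp k B) j i) := by
      intro V hV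
      obtain ⟨m, r, F, a, b, f, hFG, hab, hf⟩ := hG.exists_free V hV
      refine ⟨F, f, N + ∑ s, r s, hFG, hf, fun {α β} _ _ j hα => ?_⟩
      refine stab_retract_bij (constFI.sharp k B) m (fun s => FreeFI k (r s)) F a b hab j i
        (fun s => ?_)
      refine stab_free_bij (k := k) B hS (r s) i N hNc j ?_
      have : r s ≤ ∑ s, r s := Finset.single_le_sum (fun _ _ => Nat.zero_le _) (Finset.mem_univ s)
      omega
    -- degrees `< i`
    have hlow : ∀ (V : FIMod k), FG V → ∃ M, ∀ {α β : Type} [Finite α] [Finite β] (j : α ↪ β),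
        M ≤ Nat.card α → ∀ m, m + 1 = i → Function.Bijective (stab V (constFI.sharp k B) j m) := by
      intro V hV
      cases i with
      | zero => exact ⟨0, fun _ _ m hm => by omega⟩
      | succ m =>
        obtain ⟨M, hM⟩ := hC m rfl V hV
        refine ⟨M, fun j hj m' hm' => ?_⟩
        obtain rfl : m' = m := by omega
        exact hM j hj
    have hinj : ∀ (V : FIMod k), FG V → ∃ M, ∀ {α β : Type} [Finite α] [Finite β] (j : α ↪ β),
        M ≤ Nat.card α → Function.Injective (stab V (constFI.sharp k B) j i) := by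
      intro V hV
      obtain ⟨F, f, M, hFG, hf, hM⟩ := hcover V hV
      obtain ⟨M1, h1⟩ := hlow F hFG
      obtain ⟨M2, h2⟩ := hlow (kerSub f).toFI (hN F hFG _)
      refine ⟨M + M1 + M2, fun {α β} _ _ j hj => ?_⟩
      exact (stabContra (constFI.sharp k B) (kerSub f).ι f j
        (kerSub_exactAt f α (hf α)) (kerSub_exactAt f β (hf β))).inj₃ i
        (hM j (by omega)).1 (fun m hm => (h1 j (by omega) m hm).2)
        (fun m hm => (h2 j (by omega) m hm).1)
    intro V hV
    obtain ⟨F, f, M, hFG, hf, hM⟩ := hcover V hV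
    obtain ⟨M1, h1⟩ := hinj V hV
    obtain ⟨M2, h2⟩ := hinj (kerSub f).toFI (hN F hFG _)
    obtain ⟨M3, h3⟩ := hlow (kerSub f).toFI (hN F hFG _)
    refine ⟨M + M1 + M2 + M3, fun {α β} _ _ j hj => ⟨h1 j (by omega), ?_⟩⟩
    exact (stabContra (constFI.sharp k B) (kerSub f).ι f j
      (kerSub_exactAt f α (hf α)) (kerSub_exactAt f β (hf β))).surj₃ i
      (hM j (by omega)).2 (h2 j (by omega)) (fun m hm => (h3 j (by omega) m hm).2)

theorem Stable0_proof (hN : Stmt_Noeth.{u}) (hS : Stmt_ShapiroInd.{u})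
    (hF : Stmt_FinDim.{u}) (hG : Stmt_Gen.{u}) : Stmt_Stable0.{u} :=
  fun {_} _ B _ _ _ V hV i => cl0_all B hN hS hF hG i V hV

end

end Pool.Agent.FIExt
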