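import Pool.Agent.FIExt.Iso
import Pool.Agent.FIExt.Beta
import Pool.Agent.FIExt.Dev
import Pool.Agent.FIExt.EData
import Pool.Agent.FIExt.FinDim
import Pool.Agent.FIExt.Gen
import Pool.Agent.FIExt.Noeth
import Pool.Agent.FIExt.PhiB
import Pool.Agent.FIExt.Shapiro
import Pool.Agent.FIExt.Split
import Pool.Agent.FIExt.Stable
import Pool.Agent.FIExt.Stable0

/-!
# Assembly
-/

open CategoryTheory CategoryTheory.Abelian

universe u

namespace Pool.Agent.FIExt

theorem Stable0_final : Stmt_Stable0.{u} :=
  Stable0_proof Noeth_proof shapiroInd_proof FinDim_proof Gen_proof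

theorem Stable_final : Stmt_Stable.{u} :=
  Stable_proof Stable0_final shapiroCo_proof Gen_proof

theorem Dev_final : Stmt_Dev.{u} := Dev_proof Noeth_proof Gen_proof

theorem EData_final : Stmt_EData.{u} := EData_proof (Beta_proof shapiroCo_proof shapiroInd_proof)

theorem Iso_final : Stmt_Iso.{u} :=
  Iso_proof PhiB_proof Split_proof Stable_final EData_final Dev_final

end Pool.Agent.FIExt
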