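import Pool.Agent.FIExt.PhiDefs

/-!
# The retraction `Ψ`
-/

open CategoryTheory CategoryTheory.Abelian CategoryTheory.Limits

universe u

namespace Pool.Agent.FIExt

section

variable {k : Type u} [Field k] {Γ S : Type} [Group Γ] [Group S] {q : Γ →* S}
  {X₀ : Rep.{u} k S} {𝒰 : Rep.{u} k Γ → Prop} (D : BData q X₀ 𝒰)

/-- The relation `e^r y = η · w`, `z = ρ^r η`. -/
def BData.Rel {W₀ : Rep.{u} k S} {B : Rep.{u} k Γ} (w : Rep.res q W₀ ⟶ B) (s : ℕ)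
    (y : Ext (Rep.res q X₀) B s) (z : Ext (Rep.res q X₀) (Rep.res q W₀) s) (r : ℕ) : Prop :=
  ∃ η : Ext (Rep.res q X₀) (Rep.res q W₀) (D.deg r s),
    D.mulPow B r s y = η.comp (Ext.mk₀ w) (add_zero _) ∧ z = D.rhoPow W₀ r s η

variable {D}

theorem BData.Rel.succ {W₀ : Rep.{u} k S} {B : Rep.{u} k Γ} {w : Rep.res q W₀ ⟶ B} {s : ℕ}
    {y : Ext (Rep.res q X₀) B s} {z : Ext (Rep.res q X₀) (Rep.res q W₀) s} {r : ℕ}
    (h : D.Rel w s y z r) : D.Rel w s y z (r + 1) := by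
  obtain ⟨η, h1, h2⟩ := h
  refine ⟨D.e.comp η rfl, ?_, ?_⟩
  · rw [BData.mulPow_succ, h1]
    exact (Ext.comp_assoc_of_third_deg_zero D.e η (Ext.mk₀ w) rfl).symm
  · rw [h2, BData.rhoPow_succ]
    exact congrArg (D.rhoPow W₀ r s) (D.ρ_e W₀ _ η).symm

theorem BData.Rel.mono {W₀ : Rep.{u} k S} {B : Rep.{u} k Γ} {w : Rep.res q W₀ ⟶ B} {s : ℕ}
    {y : Ext (Rep.res q X₀) B s} {z : Ext (Rep.res q X₀) (Rep.res q W₀) s} {r r' : ℕ}
    (h : D.Rel w s y z r) (hr : r ≤ r') : D.Rel w s y z r' := by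
  induction r', hr using Nat.le_induction with
  | base => exact h
  | succ r' _ ih => exact ih.succ

theorem BData.GoodMap.injective {W₀ : Rep.{u} k S} {B : Rep.{u} k Γ} {w : Rep.res q W₀ ⟶ B}
    (hw : D.GoodMap w) {n : ℕ} (η : Ext (Rep.res q X₀) (Rep.res q W₀) n)
    (h : η.comp (Ext.mk₀ w) (add_zero n) = 0) : η = 0 := by
  have := hw.1
  cases n with
  | zero =>
    exact (injective_iff_map_eq_zero _).1 (Ext.postcomp_mk₀_injective_of_mono _ w) η h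
  | succ n =>
    let T : ShortComplex (Rep.{u} k Γ) := ShortComplex.mk w (cokernel.π w) (cokernel.condition w)
    have hT : T.ShortExact := { exact := ShortComplex.exact_cokernel w }
    obtain ⟨u, rfl⟩ := Ext.covariant_sequence_exact₁ _ hT η h rfl
    obtain ⟨r, hr⟩ := hw.2 n u
    have h1 := D.mulPow_comp (U := cokernel w) (U' := Rep.res q W₀) r n 1 (n + 1) rfl u
      hT.extClass
    rw [hr, Ext.zero_comp] at h1
    have h2 := D.rhoPow_mulPow W₀ r (n + 1) (u.comp hT.extClass rfl)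
    rw [← h2]
    erw [h1]
    exact map_zero _

theorem BData.Rel.unique {W₀ : Rep.{u} k S} {B : Rep.{u} k Γ} {w : Rep.res q W₀ ⟶ B}
    (hw : D.GoodMap w) {s : ℕ}
    {y : Ext (Rep.res q X₀) B s} {z z' : Ext (Rep.res q X₀) (Rep.res q W₀) s} {r r' : ℕ}
    (h : D.Rel w s y z r) (h' : D.Rel w s y z' r') : z = z' := by
  obtain ⟨η, h1, h2⟩ := h.mono (le_max_left r r')
  obtain ⟨η', h1', h2'⟩ := h'.mono (le_max_right r r')
  have : η = η' := by
    rw [← sub_eq_zero]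
    apply hw.injective
    rw [ext_sub_comp, ← h1, ← h1', sub_self]
  rw [h2, h2', this]

theorem BData.Rel.exists {W₀ : Rep.{u} k S} {B : Rep.{u} k Γ} {w : Rep.res q W₀ ⟶ B}
    (hw : D.GoodMap w) {s : ℕ} (y : Ext (Rep.res q X₀) B s) :
    ∃ z r, D.Rel w s y z r := by
  have := hw.1
  let T : ShortComplex (Rep.{u} k Γ) := ShortComplex.mk w (cokernel.π w) (cokernel.condition w)
  have hT : T.ShortExact := { exact := ShortComplex.exact_cokernel w }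
  obtain ⟨r, hr⟩ := hw.2 s (y.comp (Ext.mk₀ (cokernel.π w)) (add_zero s))
  rw [D.mulPow_comp r s 0 s (add_zero s) y (Ext.mk₀ (cokernel.π w))] at hr
  obtain ⟨η, hη⟩ := Ext.covariant_sequence_exact₂ _ hT (D.mulPow B r s y) hr
  exact ⟨_, r, η, hη.symm, rfl⟩

theorem BData.Rel.add {W₀ : Rep.{u} k S} {B : Rep.{u} k Γ} {w : Rep.res q W₀ ⟶ B} {s : ℕ}
    {y y' : Ext (Rep.res q X₀) B s} {z z' : Ext (Rep.res q X₀) (Rep.res q W₀) s} {r r' : ℕ}
    (h : D.Rel w s y z r) (h' : D.Rel w s y' z' r') : D.Rel w s (y + y') (z + z') (max r r') := by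
  obtain ⟨η, h1, h2⟩ := h.mono (le_max_left r r')
  obtain ⟨η', h1', h2'⟩ := h'.mono (le_max_right r r')
  exact ⟨η + η', by rw [map_add, h1, h1', Ext.add_comp], by rw [h2, h2', map_add]⟩

theorem BData.Rel.smul {W₀ : Rep.{u} k S} {B : Rep.{u} k Γ} {w : Rep.res q W₀ ⟶ B} {s : ℕ}
    {y : Ext (Rep.res q X₀) B s} {z : Ext (Rep.res q X₀) (Rep.res q W₀) s} {r : ℕ}
    (c : k) (h : D.Rel w s y z r) : D.Rel w s (c • y) (c • z) r := by
  obtain ⟨η, h1, h2⟩ := h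
  exact ⟨c • η, by rw [map_smul, h1, Ext.smul_comp], by rw [h2, map_smul]⟩

variable (D)

/-- the retraction `Ψ`. -/
noncomputable def BData.Psi {W₀ : Rep.{u} k S} {B : Rep.{u} k Γ} {w : Rep.res q W₀ ⟶ B}
    (hw : D.GoodMap w) (s : ℕ) :
    Ext (Rep.res q X₀) B s →ₗ[k] Ext (Rep.res q X₀) (Rep.res q W₀) s where
  toFun y := (BData.Rel.exists hw y).choose
  map_add' y y' := by
    obtain ⟨r, h⟩ := (BData.Rel.exists hw y).choose_spec
    obtain ⟨r', h'⟩ := (BData.Rel.exists hw y').choose_spec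
    obtain ⟨r'', h''⟩ := (BData.Rel.exists hw (y + y')).choose_spec
    exact h''.unique hw (h.add h')
  map_smul' c y := by
    obtain ⟨r, h⟩ := (BData.Rel.exists hw y).choose_spec
    obtain ⟨r'', h''⟩ := (BData.Rel.exists hw (c • y)).choose_spec
    exact h''.unique hw (h.smul c)

theorem BData.Psi_eq {W₀ : Rep.{u} k S} {B : Rep.{u} k Γ} {w : Rep.res q W₀ ⟶ B}
    (hw : D.GoodMap w) (s : ℕ) (y : Ext (Rep.res q X₀) B s)
    (z : Ext (Rep.res q X₀) (Rep.res q W₀) s) (r : ℕ) (h : D.Rel w s y z r) :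
    D.Psi hw s y = z := by
  obtain ⟨r', h'⟩ := (BData.Rel.exists hw y).choose_spec
  exact h'.unique hw h

theorem BData.Psi_rel {W₀ : Rep.{u} k S} {B : Rep.{u} k Γ} {w : Rep.res q W₀ ⟶ B}
    (hw : D.GoodMap w) (s : ℕ) (y : Ext (Rep.res q X₀) B s) :
    ∃ r, D.Rel w s y (D.Psi hw s y) r :=
  (BData.Rel.exists hw y).choose_spec

theorem BData.Psi_comp {W₀ W₁ : Rep.{u} k S} {B B' : Rep.{u} k Γ} {w : Rep.res q W₀ ⟶ B}
    {w' : Rep.res q W₁ ⟶ B'} (hw : D.GoodMap w) (hw' : D.GoodMap w') (s t s' : ℕ)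
    (h : s + t = s') (y : Ext B B' t) (y₀ : Ext W₀ W₁ t)
    (hy : (Ext.mk₀ w).comp y (zero_add t) = (resE q y₀).comp (Ext.mk₀ w') (add_zero t))
    (x : Ext (Rep.res q X₀) B s) :
    D.Psi hw' s' (x.comp y h) = (D.Psi hw s x).comp (resE q y₀) h := by
  obtain ⟨r, η, h1, h2⟩ := D.Psi_rel hw s x
  refine D.Psi_eq hw' s' _ _ r ⟨η.comp (resE q y₀) (D.deg_add r s t s' h), ?_, ?_⟩
  · rw [D.mulPow_comp r s t s' h x y, h1, Ext.comp_assoc_of_second_deg_zero, hy,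
      Ext.comp_assoc_of_third_deg_zero]
  · rw [D.rhoPow_comp r s t s' h, h2]

theorem BData.Psi_split {W₀ : Rep.{u} k S} {B : Rep.{u} k Γ} {w : Rep.res q W₀ ⟶ B}
    (hw : D.GoodMap w) (pr : B ⟶ Rep.res q W₀) (hpr : w ≫ pr = 𝟙 _) (s : ℕ)
    (x : Ext (Rep.res q X₀) B s) : D.Psi hw s x = x.comp (Ext.mk₀ pr) (add_zero s) := by
  obtain ⟨r, η, h1, h2⟩ := D.Psi_rel hw s x
  have h3 : D.mulPow (Rep.res q W₀) r s (x.comp (Ext.mk₀ pr) (add_zero s)) = η := by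
    rw [D.mulPow_comp r s 0 s (add_zero s) x (Ext.mk₀ pr), h1, Ext.comp_assoc_of_third_deg_zero,
      Ext.mk₀_comp_mk₀, hpr, Ext.comp_mk₀_id]
  rw [h2, ← h3, D.rhoPow_mulPow]

end

theorem PhiA_proof : Stmt_PhiA.{u} := by
  intro k _ Γ S _ _ q X₀ 𝒰 D
  refine ⟨fun W₀ B w hw s => D.Psi hw s, ?_, ?_⟩
  · intro W₀ W₁ B B' w w' hw hw' s t s' h y y₀ hy x
    exact D.Psi_comp hw hw' s t s' h y y₀ hy x
  · intro W₀ B w hw pr hpr s x
    exact D.Psi_split hw pr hpr s x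

end Pool.Agent.FIExt
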