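import Pool.Agent.FIExt.Stmts
import Pool.Agent.FIExt.Basic

/-!
# Powers of `e`, torsion representations, good maps
-/

open CategoryTheory CategoryTheory.Abelian CategoryTheory.Limits

universe u

namespace Pool.Agent.FIExt

section

variable {k : Type u} [Field k] {Γ S : Type} [Group Γ] [Group S] {q : Γ →* S}
  {X₀ : Rep.{u} k S} {𝒰 : Rep.{u} k Γ → Prop}

/-- the degree of `e^r x`, `x` of degree `s`. -/
def BData.deg (D : BData q X₀ 𝒰) : ℕ → ℕ → ℕ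
  | 0, s => s
  | r + 1, s => D.m + D.deg r s

theorem BData.deg_add (D : BData q X₀ 𝒰) (r s t s' : ℕ) (h : s + t = s') :
    D.deg r s + t = D.deg r s' := by
  induction r with
  | zero => exact h
  | succ r ih => simp only [BData.deg]; omega

/-- multiplication by `e^r`. -/
noncomputable def BData.mulPow (D : BData q X₀ 𝒰) (U : Rep.{u} k Γ) :
    ∀ (r s : ℕ), Ext (Rep.res q X₀) U s →ₗ[k] Ext (Rep.res q X₀) U (D.deg r s)
  | 0, _ => LinearMap.id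
  | r + 1, s => (Ext.precompOfLinear D.e k U (rfl : D.m + D.deg r s = D.m + D.deg r s)).comp
      (D.mulPow U r s)

theorem BData.mulPow_zero (D : BData q X₀ 𝒰) (U : Rep.{u} k Γ) (s : ℕ)
    (x : Ext (Rep.res q X₀) U s) : D.mulPow U 0 s x = x := rfl

theorem BData.mulPow_succ (D : BData q X₀ 𝒰) (U : Rep.{u} k Γ) (r s : ℕ)
    (x : Ext (Rep.res q X₀) U s) :
    D.mulPow U (r + 1) s x = D.e.comp (D.mulPow U r s x) rfl := rfl

/-- the left inverse of multiplication by `e^r`. -/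
noncomputable def BData.rhoPow (D : BData q X₀ 𝒰) (N₀ : Rep.{u} k S) :
    ∀ (r s : ℕ), Ext (Rep.res q X₀) (Rep.res q N₀) (D.deg r s) →ₗ[k]
      Ext (Rep.res q X₀) (Rep.res q N₀) s
  | 0, _ => LinearMap.id
  | r + 1, s => (D.rhoPow N₀ r s).comp (D.ρ N₀ (D.deg r s))

theorem BData.rhoPow_zero (D : BData q X₀ 𝒰) (N₀ : Rep.{u} k S) (s : ℕ)
    (x : Ext (Rep.res q X₀) (Rep.res q N₀) s) : D.rhoPow N₀ 0 s x = x := rfl

theorem BData.rhoPow_succ (D : BData q X₀ 𝒰) (N₀ : Rep.{u} k S) (r s : ℕ)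
    (x : Ext (Rep.res q X₀) (Rep.res q N₀) (D.deg (r + 1) s)) :
    D.rhoPow N₀ (r + 1) s x = D.rhoPow N₀ r s (D.ρ N₀ (D.deg r s) x) := rfl

theorem BData.rhoPow_mulPow (D : BData q X₀ 𝒰) (N₀ : Rep.{u} k S) (r s : ℕ)
    (x : Ext (Rep.res q X₀) (Rep.res q N₀) s) :
    D.rhoPow N₀ r s (D.mulPow (Rep.res q N₀) r s x) = x := by
  induction r with
  | zero => rfl
  | succ r ih => rw [BData.rhoPow_succ, BData.mulPow_succ, D.ρ_e, ih]

theorem BData.mulPow_comp (D : BData q X₀ 𝒰) {U U' : Rep.{u} k Γ} (r s t s' : ℕ)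
    (h : s + t = s') (x : Ext (Rep.res q X₀) U s) (y : Ext U U' t) :
    D.mulPow U' r s' (x.comp y h) = (D.mulPow U r s x).comp y (D.deg_add r s t s' h) := by
  induction r with
  | zero => rfl
  | succ r ih =>
    rw [BData.mulPow_succ, BData.mulPow_succ, ih]
    have h' := D.deg_add r s t s' h
    exact (Ext.comp_assoc D.e (D.mulPow U r s x) y rfl h'
      (show D.m + D.deg r s + t = D.m + D.deg r s' by omega)).symm

theorem BData.rhoPow_comp (D : BData q X₀ 𝒰) {N₀ N₁ : Rep.{u} k S} (r s t s' : ℕ)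
    (h : s + t = s') (x : Ext (Rep.res q X₀) (Rep.res q N₀) (D.deg r s)) (y : Ext N₀ N₁ t) :
    D.rhoPow N₁ r s' (x.comp (resE q y) (D.deg_add r s t s' h)) =
      (D.rhoPow N₀ r s x).comp (resE q y) h := by
  induction r with
  | zero => rfl
  | succ r ih =>
    rw [BData.rhoPow_succ, BData.rhoPow_succ]
    have := D.ρ_nat N₀ N₁ (D.deg r s) t (D.deg r s') (D.deg_add r s t s' h) x y
    erw [this]
    exact ih _

/-- `U` is `e`-torsion. -/
def BData.Tors (D : BData q X₀ 𝒰) (U : Rep.{u} k Γ) : Prop :=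
  ∀ (s : ℕ) (x : Ext (Rep.res q X₀) U s), ∃ r, D.mulPow U r s x = 0

/-- `w` is a good map: injective with torsion cokernel. -/
def BData.GoodMap (D : BData q X₀ 𝒰) {A B : Rep.{u} k Γ} (w : A ⟶ B) : Prop :=
  Mono w ∧ D.Tors (cokernel w)

end

/-! ### PHIB : closure properties of good maps -/

/-- closure properties of good maps. -/
structure Stmt_PhiB : Prop where
  /-- extensions -/
  ext : ∀ {k : Type u} [Field k] {Γ S : Type} [Group Γ] [Group S] {q : Γ →* S}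
    {X₀ : Rep.{u} k S} {𝒰 : Rep.{u} k Γ → Prop} (D : BData q X₀ 𝒰)
    (T T' : ShortComplex (Rep.{u} k Γ)) (_ : T.ShortExact) (_ : T'.ShortExact) (w : T ⟶ T'),
    D.GoodMap w.τ₁ → D.GoodMap w.τ₃ → D.GoodMap w.τ₂
  /-- kernels of surjections -/
  ker : ∀ {k : Type u} [Field k] {Γ S : Type} [Group Γ] [Group S] {q : Γ →* S}
    {X₀ : Rep.{u} k S} {𝒰 : Rep.{u} k Γ → Prop} (D : BData q X₀ 𝒰)
    (T T' : ShortComplex (Rep.{u} k Γ)) (_ : T.ShortExact) (_ : T'.ShortExact) (w : T ⟶ T'),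
    D.GoodMap w.τ₂ → D.GoodMap w.τ₃ → D.GoodMap w.τ₁
  /-- complemented maps with complement killed by `e` -/
  split : ∀ {k : Type u} [Field k] {Γ S : Type} [Group Γ] [Group S] {q : Γ →* S}
    {X₀ : Rep.{u} k S} {𝒰 : Rep.{u} k Γ → Prop} (D : BData q X₀ 𝒰) {A B U : Rep.{u} k Γ}
    (w : A ⟶ B) (pr : B ⟶ A) (t : B ⟶ U) (s : U ⟶ B), 𝒰 U → w ≫ pr = 𝟙 A → w ≫ t = 0 →
    pr ≫ w + t ≫ s = 𝟙 B → D.GoodMap w

/-! ### PHIA : the retraction `Ψ` -/

/-- existence and naturality of the retraction `Ψ`. -/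
def Stmt_PhiA : Prop :=
  ∀ {k : Type u} [Field k] {Γ S : Type} [Group Γ] [Group S] {q : Γ →* S}
    {X₀ : Rep.{u} k S} {𝒰 : Rep.{u} k Γ → Prop} (D : BData q X₀ 𝒰),
    ∃ Ψ : ∀ (W₀ : Rep.{u} k S) (B : Rep.{u} k Γ) (w : Rep.res q W₀ ⟶ B), D.GoodMap w →
      ∀ s, Ext (Rep.res q X₀) B s →ₗ[k] Ext (Rep.res q X₀) (Rep.res q W₀) s,
    (∀ (W₀ W₁ : Rep.{u} k S) (B B' : Rep.{u} k Γ) (w : Rep.res q W₀ ⟶ B)
      (w' : Rep.res q W₁ ⟶ B') (hw : D.GoodMap w) (hw' : D.GoodMap w') (s t s' : ℕ)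
      (h : s + t = s') (y : Ext B B' t) (y₀ : Ext W₀ W₁ t),
      (Ext.mk₀ w).comp y (zero_add t) = (resE q y₀).comp (Ext.mk₀ w') (add_zero t) →
      ∀ x : Ext (Rep.res q X₀) B s,
        Ψ W₁ B' w' hw' s' (x.comp y h) = (Ψ W₀ B w hw s x).comp (resE q y₀) h) ∧
    (∀ (W₀ : Rep.{u} k S) (B : Rep.{u} k Γ) (w : Rep.res q W₀ ⟶ B) (hw : D.GoodMap w)
      (pr : B ⟶ Rep.res q W₀), w ≫ pr = 𝟙 _ → ∀ (s : ℕ) (x : Ext (Rep.res q X₀) B s),
      Ψ W₀ B w hw s x = x.comp (Ext.mk₀ pr) (add_zero s))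

/-! ### ISO and the final theorem -/

/-- The isomorphism theorem, one block. -/
def Stmt_Iso : Prop :=
  ∀ {k : Type u} [Field k] (p : ℕ) [Fact p.Prime] [CharP k p] (N d : ℕ), d ≤ p ^ N →
    ∀ (V W : FIMod k), FG V → FG W → GenLT d W → ∀ i : ℕ, ∃ n₀ : ℕ, ∀ (α : Type) [Finite α],
      n₀ ≤ Nat.card α → Nonempty
        (Ext (V.rep (α ⊕ Blk p N)) (W.rep (α ⊕ Blk p N)) i ≃ₗ[k] Ext (V.rep α) (W.rep α) i)

/-- `V_n` as a module over the group algebra `k[S_n]`. -/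
noncomputable abbrev grpMod {k : Type u} [Field k] (V : FIMod k) (n : ℕ) :
    ModuleCat.{u} (MonoidAlgebra k (Equiv.Perm (Fin n))) :=
  ModuleCat.of _ (V.ρ (Fin n)).asModule

/-- The final theorem. -/
def Stmt_Final : Prop :=
  ∀ {k : Type u} [Field k] (p : ℕ) [Fact p.Prime] [CharP k p] (N d : ℕ), d ≤ p ^ N →
    ∀ (V W : FIMod k), FG V → FG W → GenLT d W → ∀ i : ℕ,
      (∀ n, FiniteDimensional k (Ext (grpMod V n) (grpMod W n) i)) ∧
      ∃ n₀ : ℕ, ∀ n ≥ n₀,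
        Module.finrank k (Ext (grpMod V (n + p ^ N)) (grpMod W (n + p ^ N)) i) =
          Module.finrank k (Ext (grpMod V n) (grpMod W n) i)

end Pool.Agent.FIExt
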