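import Pool.Agent.FIExt.ExtGen

/-!
# Restriction maps on `Ext` between categories of representations
-/

open CategoryTheory CategoryTheory.Abelian CategoryTheory.Limits

universe u

namespace Pool.Agent.FIExt

noncomputable instance instEP (k : Type u) [Field k] (G : Type) [Group G] :
    EnoughProjectives (Rep.{u} k G) :=
  Rep.equivalenceModuleMonoidAlgebra.enoughProjectives_iff.2 ModuleCat.enoughProjectives.{u}

instance instHasExt (k : Type u) [Field k] (G : Type) [Group G] : HasExt.{u} (Rep.{u} k G) :=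
  hasExt_of_enoughProjectives _

section

variable {k : Type u} [Field k] {G H K : Type} [Group G] [Group H] [Group K]

/-- Restriction along a group homomorphism on `Ext` groups. -/
noncomputable def resE (φ : H →* G) {X Y : Rep.{u} k G} {i : ℕ} :
    Ext X Y i →ₗ[k] Ext (Rep.res φ X) (Rep.res φ Y) i :=
  (Rep.resFunctor.{u} (k := k) φ).mapExtLinearMap k X Y i

theorem resE_apply (φ : H →* G) {X Y : Rep.{u} k G} {i : ℕ} (x : Ext X Y i) :
    resE φ x = x.mapExactFunctor (Rep.resFunctor.{u} (k := k) φ) := rfl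

theorem resE_mk₀ (φ : H →* G) {X Y : Rep.{u} k G} (f : X ⟶ Y) :
    resE φ (Ext.mk₀ f) = Ext.mk₀ (Rep.resMap φ f) :=
  Ext.mapExactFunctor_mk₀ (Rep.resFunctor.{u} (k := k) φ) f

theorem resE_comp (φ : H →* G) {X Y Z : Rep.{u} k G} {a b c : ℕ} (x : Ext X Y a)
    (y : Ext Y Z b) (h : a + b = c) :
    resE φ (x.comp y h) = (resE φ x).comp (resE φ y) h :=
  Ext.mapExactFunctor_comp (Rep.resFunctor.{u} (k := k) φ) x y h

/-- restriction of a short exact sequence. -/
theorem res_shortExact (φ : H →* G) {S : ShortComplex (Rep.{u} k G)} (hS : S.ShortExact) :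
    (S.map (Rep.resFunctor.{u} (k := k) φ)).ShortExact :=
  hS.map_of_exact _

theorem resE_extClass (φ : H →* G) {S : ShortComplex (Rep.{u} k G)} (hS : S.ShortExact) :
    resE φ hS.extClass = (res_shortExact φ hS).extClass :=
  Ext.mapExactFunctor_extClass (Rep.resFunctor.{u} (k := k) φ) hS

/-- functoriality of restriction. -/
theorem resE_resE (φ : H →* G) (ψ : K →* H) {X Y : Rep.{u} k G} {i : ℕ} (x : Ext X Y i) :
    resE ψ (resE φ x) = resE (φ.comp ψ) x := by
  have : PreservesFiniteLimits (Rep.resFunctor.{u} (k := k) φ ⋙ Rep.resFunctor.{u} (k := k) ψ) :=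
    comp_preservesFiniteLimits _ _
  have : PreservesFiniteColimits (Rep.resFunctor.{u} (k := k) φ ⋙ Rep.resFunctor.{u} (k := k) ψ) :=
    comp_preservesFiniteColimits _ _
  exact (mapExactFunctor_comp_functor (Rep.resFunctor.{u} (k := k) φ)
    (Rep.resFunctor.{u} (k := k) ψ) x).symm

theorem resE_id {X Y : Rep.{u} k G} {i : ℕ} (x : Ext X Y i) :
    resE (MonoidHom.id G) x = x :=
  mapExactFunctor_id x

end

end Pool.Agent.FIExt
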