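import Pool.Agent.FIExt.Stmts

/-!
# Stability for constant coefficients: the free FI-modules
-/

open CategoryTheory CategoryTheory.Abelian

universe u

namespace Pool.Agent.FIExt

/-- the inclusion of the first summand -/
abbrev inlE (α R : Type) : α ↪ α ⊕ R := Function.Embedding.inl
/-- the inclusion of the second summand -/
abbrev inrE (α R : Type) : R ↪ α ⊕ R := Function.Embedding.inr

theorem exists_perm_of_emb {β R : Type} [Finite β] (j j' : R ↪ β) :
    ∃ g : Equiv.Perm β, j.trans g.toEmbedding = j' := by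
  classical
  have := Fintype.ofFinite β
  let e : {x // x ∈ Set.range j} ≃ {x // x ∈ Set.range j'} :=
    (Equiv.ofInjective j j.injective).symm.trans (Equiv.ofInjective j' j'.injective)
  refine ⟨e.extendSubtype, ?_⟩
  ext x
  have h := Equiv.extendSubtype_apply_of_mem e (j x) ⟨x, rfl⟩
  refine h.trans ?_
  have h2 : (Equiv.ofInjective j j.injective).symm ⟨j x, ⟨x, rfl⟩⟩ = x :=
    Equiv.ofInjective_symm_apply j.injective x
  show ((Equiv.ofInjective j' j'.injective) ((Equiv.ofInjective j j.injective).symm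
    ⟨j x, ⟨x, rfl⟩⟩) : β) = j' x
  rw [h2]
  rfl

theorem exists_viaE {α R : Type} (τ : Equiv.Perm (α ⊕ R))
    (h : ∀ i, τ (Sum.inr i) = Sum.inr i) : ∃ σ, viaE (inlE α R) σ = τ := by
  have h1 : ∀ (τ : Equiv.Perm (α ⊕ R)), (∀ i, τ (Sum.inr i) = Sum.inr i) →
      ∀ a, ∃ a', τ (Sum.inl a) = Sum.inl a' := by
    intro τ h a
    rcases hx : τ (Sum.inl a) with a' | i
    · exact ⟨a', rfl⟩
    · rw [← h i] at hx
      exact absurd (τ.injective hx) (by simp)
  have h' : ∀ i, τ⁻¹ (Sum.inr i) = Sum.inr i := fun i => by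
    rw [Equiv.Perm.inv_eq_iff_eq, h]
  choose f hf using h1 τ h
  choose g hg using h1 τ⁻¹ h'
  let σ : Equiv.Perm α := ⟨f, g, fun a => by
    have : (Sum.inl (g (f a)) : α ⊕ R) = Sum.inl a := by
      rw [← hg, ← hf]; simp
    exact Sum.inl_injective this, fun a => by
    have : (Sum.inl (f (g a)) : α ⊕ R) = Sum.inl a := by
      rw [← hf, ← hg]; simp
    exact Sum.inl_injective this⟩
  refine ⟨σ, ?_⟩
  ext x
  cases x with
  | inl a =>
    have := viaE_apply (inlE α R) σ a
    refine this.trans ?_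
    exact (hf a).symm
  | inr i =>
    rw [viaE_apply_of_notMem, h]
    rintro ⟨a, ha⟩
    cases ha

section

variable {k : Type u} [Field k]

theorem FreeFI.mapL_single (r : ℕ) {α β : Type} [Finite α] [Finite β] (j : α ↪ β)
    (ι : Fin r ↪ α) (c : k) :
    (FreeFI k r).mapL j (Finsupp.single ι c : (Fin r ↪ α) →₀ k) =
      (Finsupp.single (ι.trans j) c : (Fin r ↪ β) →₀ k) :=
  Finsupp.mapDomain_single

/-- the section `1 ↦ e_{inr}` -/
noncomputable def secFree (k : Type u) [Field k] (r : ℕ) (α : Type) [Finite α] :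
    (constFI k k).rep α ⟶ Rep.res (viaE (inlE α (Fin r))) ((FreeFI k r).rep (α ⊕ Fin r)) :=
  Rep.ofHom ⟨Finsupp.lsingle (inrE α (Fin r)), fun σ => by
    apply LinearMap.ext
    intro c
    have h := FreeFI.mapL_single (k := k) r (viaE (inlE α (Fin r)) σ).toEmbedding
      (inrE α (Fin r)) c
    have e : (inrE α (Fin r)).trans (viaE (inlE α (Fin r)) σ).toEmbedding = inrE α (Fin r) := by
      ext x
      exact viaE_apply_of_notMem (inlE α (Fin r)) σ _ (by rintro ⟨a, ha⟩; cases ha)
    rw [e] at h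
    exact h.symm⟩

theorem secFree_apply (r : ℕ) (α : Type) [Finite α] (c : k) :
    (secFree k r α).hom c = (Finsupp.single (inrE α (Fin r)) c : (Fin r ↪ α ⊕ Fin r) →₀ k) := rfl

theorem secFree_bij (r : ℕ) (α : Type) [Finite α] (N : Rep.{u} k (Equiv.Perm (α ⊕ Fin r))) :
    Function.Bijective (fun f : (FreeFI k r).rep (α ⊕ Fin r) ⟶ N =>
      secFree k r α ≫ Rep.resMap (viaE (inlE α (Fin r))) f) := by
  constructor
  · intro f f' hff
    have h1 : f.hom (Finsupp.single (inrE α (Fin r)) 1 : (Fin r ↪ α ⊕ Fin r) →₀ k) =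
        f'.hom (Finsupp.single (inrE α (Fin r)) 1 : (Fin r ↪ α ⊕ Fin r) →₀ k) := by
      have := congrArg (fun t => t.hom (1 : k)) hff
      exact this
    have h2 : ∀ ι : Fin r ↪ α ⊕ Fin r,
        f.hom (Finsupp.single ι 1 : (Fin r ↪ α ⊕ Fin r) →₀ k) =
        f'.hom (Finsupp.single ι 1 : (Fin r ↪ α ⊕ Fin r) →₀ k) := by
      intro ι
      obtain ⟨g, hg⟩ := exists_perm_of_emb (inrE α (Fin r)) ι
      have h3 := Rep.hom_comm_apply f g (Finsupp.single (inrE α (Fin r)) 1 : (Fin r ↪ α ⊕ Fin r) →₀ k)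
      have h4 := Rep.hom_comm_apply f' g (Finsupp.single (inrE α (Fin r)) 1 : (Fin r ↪ α ⊕ Fin r) →₀ k)
      have h5 := FreeFI.mapL_single (k := k) r g.toEmbedding (inrE α (Fin r)) 1
      rw [hg] at h5
      have h6 : ((FreeFI k r).rep (α ⊕ Fin r)).ρ g
        (Finsupp.single (inrE α (Fin r)) 1 : (Fin r ↪ α ⊕ Fin r) →₀ k) =
          (Finsupp.single ι 1 : (Fin r ↪ α ⊕ Fin r) →₀ k) := h5
      rw [h6] at h3 h4
      rw [h3, h4, h1]
    ext x
    have h7 : f.hom.toLinearMap = f'.hom.toLinearMap := by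
      apply Finsupp.lhom_ext'
      intro ι
      apply LinearMap.ext_ring
      exact h2 ι
    exact LinearMap.congr_fun h7 x
  · intro h
    let n : N := h.hom (1 : k)
    have hn : ∀ σ : Equiv.Perm α, N.ρ (viaE (inlE α (Fin r)) σ) n = n := by
      intro σ
      exact (Rep.hom_comm_apply h σ (1 : k)).symm
    choose g hg using exists_perm_of_emb (β := α ⊕ Fin r) (inrE α (Fin r))
    have key : ∀ (τ τ' : Equiv.Perm (α ⊕ Fin r)),
        (inrE α (Fin r)).trans τ.toEmbedding = (inrE α (Fin r)).trans τ'.toEmbedding →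
        N.ρ τ n = N.ρ τ' n := by
      intro τ τ' hττ
      obtain ⟨σ, hσ⟩ := exists_viaE (τ'⁻¹ * τ) (fun i => by
        have := DFunLike.congr_fun hττ i
        have h' : τ (Sum.inr i) = τ' (Sum.inr i) := this
        rw [Equiv.Perm.mul_apply, h']; simp)
      have h1 := hn σ
      rw [hσ] at h1
      conv_rhs => rw [← h1]
      rw [← Module.End.mul_apply, ← map_mul, mul_inv_cancel_left]
    let F : ((Fin r ↪ α ⊕ Fin r) →₀ k) →ₗ[k] N :=
      Finsupp.linearCombination k (fun ι => N.ρ (g ι) n)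
    have hF : ∀ ι, F (Finsupp.single ι 1) = N.ρ (g ι) n := by
      intro ι
      simp [F]
    refine ⟨Rep.ofHom ⟨F, fun τ => ?_⟩, ?_⟩
    · apply Finsupp.lhom_ext'
      intro ι
      apply LinearMap.ext_ring
      have h5 := FreeFI.mapL_single (k := k) r τ.toEmbedding ι 1
      show F ((FreeFI k r).mapL τ.toEmbedding (Finsupp.single ι 1 : (Fin r ↪ α ⊕ Fin r) →₀ k)) =
        N.ρ τ (F (Finsupp.single ι 1))
      rw [h5, hF, hF, ← Module.End.mul_apply, ← map_mul]
      apply key
      rw [hg]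
      ext x
      have := DFunLike.congr_fun (hg ι) x
      show τ (ι x) = τ ((g ι) (Sum.inr x))
      rw [← this]
      rfl
    · ext
      show F (Finsupp.single (inrE α (Fin r)) 1) = n
      rw [hF]
      rw [key (g (inrE α (Fin r))) 1 (by rw [hg]; rfl)]
      simp

end

end Pool.Agent.FIExt
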