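import Pool.Agent.FIExt.Stable0A

/-!
# Stability for constant coefficients: Shapiro maps and the augmentation
-/

open CategoryTheory CategoryTheory.Abelian

universe u

namespace Pool.Agent.FIExt

section

variable {k : Type u} [Field k]

theorem viaE_injective {α β : Type} (j : α ↪ β) : Function.Injective (viaE j) :=
  Equiv.Perm.viaEmbeddingHom_injective j

/-- the augmentation `FreeFI r → k`. -/
noncomputable def augF (k : Type u) [Field k] (r : ℕ) : FreeFI k r ⟶ constFI k k :=
  FIMod.homMk (V := FreeFI k r) (W := constFI k k)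
    (fun α _ => (Finsupp.linearCombination k (fun _ : Fin r ↪ α => (1 : k)) :
      ((Fin r ↪ α) →₀ k) →ₗ[k] k))
    (fun {α β} _ _ j v => by
      have h : (Finsupp.linearCombination k (fun _ : Fin r ↪ β => (1 : k)) ∘ₗ
        Finsupp.lmapDomain k k (fun ι => ι.trans j)) =
        Finsupp.linearCombination k (fun _ : Fin r ↪ α => (1 : k)) := by
        ext ι
        simp
      exact LinearMap.congr_fun h v)

theorem augF_single (r : ℕ) {α : Type} [Finite α] (ι : Fin r ↪ α) (c : k) :
    (FIMod.appL (augF k r) α (Finsupp.single ι c : (Fin r ↪ α) →₀ k) : k) = c := by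
  have : (Finsupp.linearCombination k (fun _ : Fin r ↪ α => (1 : k)))
    (Finsupp.single ι c) = c := by simp
  exact this

/-- `s ≫ aug` is the identity. -/
theorem secFree_aug (r : ℕ) (α : Type) [Finite α] :
    secFree k r α ≫ Rep.resMap (viaE (inlE α (Fin r))) (FIMod.repHom (augF k r) (α ⊕ Fin r)) =
      (constFI k k).embHom (inlE α (Fin r)) := by
  ext
  exact augF_single r (inrE α (Fin r)) (1 : k)

variable (B : Type u) [AddCommGroup B] [Module k B]

theorem constFI_emb_pr {α β : Type} [Finite α] [Finite β] (j : α ↪ β) :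
    (constFI k B).embHom j ≫ (constFI.sharp k B).prHom j = 𝟙 _ := by
  ext x
  rfl

theorem constFI_pr_emb {α β : Type} [Finite α] [Finite β] (j : α ↪ β) :
    (constFI.sharp k B).prHom j ≫ (constFI k B).embHom j = 𝟙 _ := by
  ext x
  rfl

/-- the Shapiro map -/
noncomputable def sh0 (k : Type u) [Field k] (B : Type u) [AddCommGroup B] [Module k B]
    (r : ℕ) (α : Type) [Finite α] (i : ℕ) :
    Ext ((FreeFI k r).rep (α ⊕ Fin r)) ((constFI k B).rep (α ⊕ Fin r)) i →ₗ[k]
      Ext ((constFI k k).rep α) ((constFI k B).rep α) i :=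
  cmp (viaE (inlE α (Fin r))) (secFree k r α) ((constFI.sharp k B).prHom (inlE α (Fin r))) i

theorem sh0_bij (hS : Stmt_ShapiroInd.{u}) (r : ℕ) (α : Type) [Finite α] (i : ℕ) :
    Function.Bijective (sh0 k B r α i) := by
  have h1 := hS (viaE (inlE α (Fin r))) (viaE_injective _) (secFree k r α)
    (secFree_bij r α) ((constFI k B).rep (α ⊕ Fin r)) i
  have h2 : Function.Bijective (fun x : Ext ((constFI k k).rep α)
      (Rep.res (viaE (inlE α (Fin r))) ((constFI k B).rep (α ⊕ Fin r))) i =>
      x.comp (Ext.mk₀ ((constFI.sharp k B).prHom (inlE α (Fin r)))) (add_zero i)) := by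
    rw [Function.bijective_iff_has_inverse]
    refine ⟨fun x => x.comp (Ext.mk₀ ((constFI k B).embHom (inlE α (Fin r)))) (add_zero i),
      fun x => ?_, fun x => ?_⟩
    · dsimp only
      rw [Ext.comp_assoc_of_third_deg_zero, Ext.mk₀_comp_mk₀, constFI_pr_emb, Ext.comp_mk₀_id]
    · dsimp only
      rw [Ext.comp_assoc_of_third_deg_zero, Ext.mk₀_comp_mk₀, constFI_emb_pr, Ext.comp_mk₀_id]
  exact h2.comp h1

end

end Pool.Agent.FIExt
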