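import Pool.Agent.FIExt.Stable0B
import Pool.Agent.FIExt.Basic

/-!
# Stability for constant coefficients: free modules, retracts, one-point extensions
-/

open CategoryTheory CategoryTheory.Abelian

universe u

namespace Pool.Agent.FIExt

section

variable {k : Type u} [Field k]

/-- bijectivity along all embeddings follows from one-point extensions -/
theorem stab_bij_of_step (V : FIMod k) {W : FIMod k} (P : Sharp W) (i N : ℕ)
    (h : ∀ (α : Type) [Finite α], N ≤ Nat.card α →
      Function.Bijective (stab V P (inlE α (Fin 1)) i)) :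
    ∀ (m : ℕ) {α β : Type} [Finite α] [Finite β] (j : α ↪ β), Nat.card β = Nat.card α + m →
      N ≤ Nat.card α → Function.Bijective (stab V P j i) := by
  intro m
  induction m with
  | zero =>
    intro α β _ _ j hc _
    have hb : Function.Bijective j := by
      rw [Nat.bijective_iff_injective_and_card]
      exact ⟨j.injective, by omega⟩
    have e : j = (Equiv.ofBijective j hb).toEmbedding := by ext; rfl
    rw [e]
    exact stab_equiv_bijective V P _ i
  | succ m ih =>
    intro α β _ _ j hc hN
    have hns : ¬ Function.Surjective j := by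
      intro hs
      have := Nat.card_eq_of_bijective j ⟨j.injective, hs⟩
      omega
    rw [Function.Surjective] at hns
    push Not at hns
    obtain ⟨b, hb⟩ := hns
    let j1 : α ⊕ Fin 1 ↪ β :=
      { toFun := Sum.elim j (fun _ => b)
        inj' := by
          rintro (x | x) (y | y) hxy
          · exact congrArg _ (j.injective hxy)
          · exact absurd hxy (hb x)
          · exact absurd hxy.symm (hb y)
          · exact congrArg _ (Subsingleton.elim _ _) }
    have e : j = (inlE α (Fin 1)).trans j1 := by ext; rfl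
    have h1 := h α hN
    have hcard : Nat.card (α ⊕ Fin 1) = Nat.card α + 1 := by
      rw [Nat.card_sum]; simp
    have h2 := ih j1 (by rw [hcard]; omega) (by rw [hcard]; omega)
    have h3 : (stab V P j i : _ → _) = stab V P (inlE α (Fin 1)) i ∘ stab V P j1 i := by
      funext x
      rw [Function.comp_apply, stab_trans, ← e]
    rw [h3]
    exact h1.comp h2

variable (B : Type u) [AddCommGroup B] [Module k B]

/-- the restriction of the stabilisation map of `FreeFI r` is that of `k`. -/
theorem sh0_stab (r : ℕ) {α α' : Type} [Finite α] [Finite α'] (j₀ : α ↪ α') (i : ℕ)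
    (x : Ext ((FreeFI k r).rep (α' ⊕ Fin r)) ((constFI k B).rep (α' ⊕ Fin r)) i) :
    sh0 k B r α i (stab (FreeFI k r) (constFI.sharp k B) (sumEmb (Fin r) j₀) i x) =
      stab (constFI k k) (constFI.sharp k B) j₀ i (sh0 k B r α' i x) := by
  refine (cmp_cmp (viaE (sumEmb (Fin r) j₀)) (viaE (inlE α (Fin r))) _ _ _ _ i x).trans ?_
  refine Eq.trans ?_ (cmp_cmp (viaE (inlE α' (Fin r))) (viaE j₀) _ _ _ _ i x).symm
  refine cmp_congr ?_ _ _ _ _ ?_ ?_ i x
  · rw [viaE_trans, viaE_trans]
    rfl
  · intro c
    exact FreeFI.mapL_single (k := k) r (sumEmb (Fin r) j₀) (inrE α (Fin r)) c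
  · intro w
    rfl

theorem stab_free_bij (hS : Stmt_ShapiroInd.{u}) (r i N : ℕ)
    (h : ∀ {α β : Type} [Finite α] [Finite β] (j : α ↪ β), N ≤ Nat.card α →
      Function.Bijective (stab (constFI k k) (constFI.sharp k B) j i)) :
    ∀ {α β : Type} [Finite α] [Finite β] (j : α ↪ β), N + r ≤ Nat.card α →
      Function.Bijective (stab (FreeFI k r) (constFI.sharp k B) j i) := by
  intro β β' _ _ j hN
  obtain ⟨α, α', _, _, j₀, e, e', he, hc⟩ := exists_decomp j r (by omega)
  rw [stab_bijective_iff (FreeFI k r) (constFI.sharp k B) j (sumEmb (Fin r) j₀) e e' he]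
  have h1 := h j₀ (by omega)
  have h2 := sh0_bij (k := k) B hS r α i
  have h3 := h1.comp (sh0_bij (k := k) B hS r α' i)
  have h4 : (sh0 k B r α i) ∘ (stab (FreeFI k r) (constFI.sharp k B) (sumEmb (Fin r) j₀) i) =
      (stab (constFI k k) (constFI.sharp k B) j₀ i) ∘ (sh0 k B r α' i) :=
    funext (fun x => sh0_stab (k := k) B r j₀ i x)
  rw [← h4] at h3
  exact (Function.Bijective.of_comp_iff' h2 _).1 h3

/-- retracts -/
theorem stab_retract_bij {W : FIMod k} (P : Sharp W) (m : ℕ) (U : Fin m → FIMod k) (F : FIMod k)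
    (a : ∀ s, F ⟶ U s) (b : ∀ s, U s ⟶ F)
    (hab : ∀ (α : Type) [Finite α] (x : F.at α),
        ∑ s, FIMod.appL (b s) α (FIMod.appL (a s) α x) = x)
    {α β : Type} [Finite α] [Finite β] (j : α ↪ β) (i : ℕ)
    (h : ∀ s, Function.Bijective (stab (U s) P j i)) : Function.Bijective (stab F P j i) := by
  have hid : ∀ (γ : Type) [Finite γ], ∑ s, (FIMod.repHom (a s) γ ≫ FIMod.repHom (b s) γ) =
      𝟙 (F.rep γ) := by
    intro γ _
    apply Rep.hom_ext
    apply Representation.IntertwiningMap.ext
    apply LinearMap.ext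
    intro x
    have h1 : ∀ (Q : Finset (Fin m)), (∑ s ∈ Q, (FIMod.repHom (a s) γ ≫
        FIMod.repHom (b s) γ)).hom x = ∑ s ∈ Q, FIMod.appL (b s) γ (FIMod.appL (a s) γ x) := by
      intro Q
      induction Q using Finset.induction_on with
      | empty => rfl
      | insert s Q hs ih =>
        rw [Finset.sum_insert hs, Finset.sum_insert hs, ← ih]
        rfl
    exact (h1 Finset.univ).trans (hab γ x)
  have hdec : ∀ (γ : Type) [Finite γ] (x : Ext (F.rep γ) (W.rep γ) i),
      ∑ s, (Ext.mk₀ (FIMod.repHom (a s) γ)).comp ((Ext.mk₀ (FIMod.repHom (b s) γ)).comp x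
        (zero_add i)) (zero_add i) = x := by
    intro γ _ x
    conv_rhs => rw [← Ext.mk₀_id_comp x, ← hid γ, Ext.mk₀_sum, Ext.sum_comp]
    refine Finset.sum_congr rfl (fun s _ => ?_)
    rw [Ext.mk₀_comp_mk₀_assoc]
  constructor
  · rw [injective_iff_map_eq_zero]
    intro x hx
    rw [← hdec β x]
    refine Finset.sum_eq_zero (fun s _ => ?_)
    have : (Ext.mk₀ (FIMod.repHom (b s) β)).comp x (zero_add i) = 0 := by
      apply (h s).1
      rw [stab_mk₀_comp, hx, map_zero, Ext.comp_zero]
    rw [this, Ext.comp_zero]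
  · intro y
    choose z hz using fun s => (h s).2 ((Ext.mk₀ (FIMod.repHom (b s) α)).comp y (zero_add i))
    refine ⟨∑ s, (Ext.mk₀ (FIMod.repHom (a s) β)).comp (z s) (zero_add i), ?_⟩
    rw [map_sum]
    conv_rhs => rw [← hdec α y]
    refine Finset.sum_congr rfl (fun s _ => ?_)
    rw [stab_mk₀_comp, hz]

end

end Pool.Agent.FIExt
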