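import Pool.Agent.FIExt.Stmts

/-!
# Preparations for the stability of `Ext` with coefficients `M(A)`
-/

open CategoryTheory CategoryTheory.Abelian

universe u

namespace Pool.Agent.FIExt

namespace St

section

variable {k : Type u} [Field k]

/-! ### Coinduced representations -/

/-- functions `Perm R → B`, coinduced from the trivial group -/
def Atil (R : Type) (B : Type u) [AddCommGroup B] [Module k B] : Rep.{u} k (Equiv.Perm R) :=
  Rep.of (X := Equiv.Perm R → B)
    { toFun := fun σ =>
        { toFun := fun f τ => f (τ * σ)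
          map_add' := fun _ _ => rfl
          map_smul' := fun _ _ => rfl }
      map_one' := by ext f τ; simp
      map_mul' := fun σ σ' => by ext f τ; simp [mul_assoc] }

/-- an element as a function -/
def Atil.fn {R : Type} {B : Type u} [AddCommGroup B] [Module k B] (a : Atil (k := k) R B) :
    Equiv.Perm R → B := a

theorem Atil.rho_apply {R : Type} {B : Type u} [AddCommGroup B] [Module k B] (σ τ : Equiv.Perm R)
    (a : Atil (k := k) R B) : Atil.fn ((Atil (k := k) R B).ρ σ a) τ = Atil.fn a (τ * σ) := rfl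

/-- the embedding `A → Ã` -/
def emb {R : Type} (A : Rep.{u} k (Equiv.Perm R)) : A ⟶ Atil (k := k) R A :=
  Rep.ofHom (σ := (Atil (k := k) R A).ρ)
    { toFun := fun a τ => A.ρ τ a
      map_add' := fun a b => funext (fun τ => map_add (A.ρ τ) a b)
      map_smul' := fun c a => funext (fun τ => map_smul (A.ρ τ) c a)
      isIntertwining' := fun σ => by
        ext a
        change (fun τ => A.ρ τ (A.ρ σ a)) = (fun τ => A.ρ (τ * σ) a)
        funext τ
        rw [map_mul]; rfl }

theorem emb_apply {R : Type} (A : Rep.{u} k (Equiv.Perm R)) (a : A) (τ : Equiv.Perm R) :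
    Atil.fn ((emb A).hom a) τ = A.ρ τ a := rfl

theorem emb_injective {R : Type} (A : Rep.{u} k (Equiv.Perm R)) :
    Function.Injective (emb A).hom := by
  intro a b h
  have h1 : Atil.fn ((emb A).hom a) 1 = Atil.fn ((emb A).hom b) 1 := by rw [h]
  rw [emb_apply, emb_apply, map_one] at h1
  exact h1

/-! ### Exactness of `A ↦ M(A)` -/

section exact

variable {R : Type} [Finite R] {A A' A'' : Rep.{u} k (Equiv.Perm R)}

theorem mapA_injective (f : A ⟶ A') (hf : Function.Injective f.hom) (α : Type) [Finite α] :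
    Function.Injective (FIMod.appL (MA.mapA R f) α) := by
  intro w w' h
  apply MA.fn_injective
  intro ι
  apply hf
  rw [← MA.mapA_apply, ← MA.mapA_apply, h]

theorem mapA_exact (f : A ⟶ A') (g : A' ⟶ A'') (hf : Function.Injective f.hom)
    (hfg : Function.Exact f.hom g.hom) (α : Type) [Finite α] :
    Function.Exact (FIMod.appL (MA.mapA R f) α) (FIMod.appL (MA.mapA R g) α) := by
  intro w
  constructor
  · intro h
    have h1 : ∀ ι, ∃ a, f.hom a = MA.fn w ι := by
      intro ι
      have : g.hom (MA.fn w ι) = 0 := by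
        rw [← MA.mapA_apply, h]; rfl
      exact (hfg _).mp this
    choose v hv using h1
    refine ⟨MA.mkFn v (fun σ ι => ?_), ?_⟩
    · apply hf
      rw [hv, Rep.hom_comm_apply, hv]
      exact MA.fn_equiv w σ ι
    · apply MA.fn_injective
      intro ι
      rw [MA.mapA_apply]
      exact hv ι
  · rintro ⟨v, rfl⟩
    apply MA.fn_injective
    intro ι
    rw [MA.mapA_apply, MA.mapA_apply]
    exact (hfg _).mpr ⟨_, rfl⟩

theorem mapA_surjective (g : A' ⟶ A'') (hg : Function.Surjective g.hom) (α : Type) [Finite α] :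
    Function.Surjective (FIMod.appL (MA.mapA R g) α) := by
  intro w
  -- orbits of embeddings
  let S : Setoid (R ↪ α) :=
    { r := fun ι ι' => ∃ σ : Equiv.Perm R, ι = σ.toEmbedding.trans ι'
      iseqv :=
        { refl := fun ι => ⟨1, rfl⟩
          symm := by
            rintro ι ι' ⟨σ, rfl⟩
            refine ⟨σ⁻¹, ?_⟩
            ext x
            simp
          trans := by
            rintro ι ι' ι'' ⟨σ, rfl⟩ ⟨σ', rfl⟩
            exact ⟨σ' * σ, rfl⟩ } }
  let rep : (R ↪ α) → (R ↪ α) := fun ι => Quotient.out (Quotient.mk S ι)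
  have hrep : ∀ ι, ∃ σ : Equiv.Perm R, ι = σ.toEmbedding.trans (rep ι) := fun ι =>
    Setoid.symm (Quotient.mk_out (s := S) ι)
  have hrep' : ∀ (σ : Equiv.Perm R) ι, rep (σ.toEmbedding.trans ι) = rep ι := by
    intro σ ι
    have : Quotient.mk S (σ.toEmbedding.trans ι) = Quotient.mk S ι := Quotient.sound ⟨σ, rfl⟩
    change Quotient.out (Quotient.mk S (σ.toEmbedding.trans ι)) = _
    rw [this]
  choose s hs using hrep
  have huniq : ∀ (σ σ' : Equiv.Perm R) (ι : R ↪ α),
      σ.toEmbedding.trans ι = σ'.toEmbedding.trans ι → σ = σ' := by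
    intro σ σ' ι h
    ext x
    exact ι.injective (DFunLike.congr_fun h x)
  have hs' : ∀ (σ : Equiv.Perm R) ι, s (σ.toEmbedding.trans ι) = s ι * σ := by
    intro σ ι
    apply huniq _ _ (rep ι)
    have h1 := hs (σ.toEmbedding.trans ι)
    rw [hrep'] at h1
    rw [← h1]
    have h2 := hs ι
    conv_lhs => rw [h2]
    rfl
  choose L hL using hg
  refine ⟨MA.mkFn (fun ι => A'.ρ (s ι)⁻¹ (L (MA.fn w (rep ι)))) (fun σ ι => ?_), ?_⟩
  · rw [hs', hrep', mul_inv_rev, map_mul]
    rfl
  · apply MA.fn_injective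
    intro ι
    rw [MA.mapA_apply, MA.fn_mkFn, Rep.hom_comm_apply, hL, ← MA.fn_equiv]
    exact congrArg (MA.fn w) (hs ι).symm

end exact

/-! ### Evaluation -/

section ev

variable (α R : Type) [Finite α] [Finite R] (B : Type u) [AddCommGroup B] [Module k B]

/-- `Perm α → Perm (α ⊕ R)` -/
def phi (α R : Type) : Equiv.Perm α →* Equiv.Perm (α ⊕ R) :=
  (Equiv.Perm.sumCongrHom α R).comp (MonoidHom.inl _ _)

theorem phi_inl {α R : Type} (σ : Equiv.Perm α) (a : α) :
    phi α R σ (Sum.inl a) = Sum.inl (σ a) := rfl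

theorem phi_inr {α R : Type} (σ : Equiv.Perm α) (a : R) :
    phi α R σ (Sum.inr a) = Sum.inr a := rfl

theorem phi_injective (α R : Type) : Function.Injective (phi α R) := by
  intro σ σ' h
  ext a
  have := DFunLike.congr_fun h (Sum.inl a)
  simpa [phi_inl] using this

/-- A permutation of `α ⊕ R` fixing `R` pointwise comes from a permutation of `α`. -/
theorem exists_phi {α R : Type} [Finite α] (g : Equiv.Perm (α ⊕ R))
    (h : ∀ x, g (Sum.inr x) = Sum.inr x) : ∃ σ, phi α R σ = g := by
  have h1 : ∀ a, ∃ a', g (Sum.inl a) = Sum.inl a' := by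
    intro a
    rcases hx : g (Sum.inl a) with a' | x
    · exact ⟨a', rfl⟩
    · have := g.injective (hx.trans (h x).symm)
      simp at this
  choose f hf using h1
  have hinj : Function.Injective f := by
    intro a b hab
    have := g.injective ((hf a).trans ((congrArg Sum.inl hab).trans (hf b).symm))
    simpa using this
  refine ⟨Equiv.ofBijective f (Finite.injective_iff_bijective.mp hinj), ?_⟩
  ext x
  rcases x with a | x
  · rw [phi_inl, hf]; rfl
  · rw [phi_inr, h]

/-- Every embedding of `R` is the composite of `inr` and a permutation. -/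
theorem exists_perm {α R : Type} [Finite α] [Finite R] (ι : R ↪ α ⊕ R) :
    ∃ g : Equiv.Perm (α ⊕ R), ∀ x, g (Sum.inr x) = ι x := by
  classical
  have := Fintype.ofFinite α
  have := Fintype.ofFinite R
  let e1 : R ≃ Set.range (Sum.inr : R → α ⊕ R) := Equiv.ofInjective _ Sum.inr_injective
  let e2 : R ≃ Set.range ι := Equiv.ofInjective _ ι.injective
  let e : {x // x ∈ Set.range (Sum.inr : R → α ⊕ R)} ≃ {x // x ∈ Set.range ι} :=
    e1.symm.trans e2
  refine ⟨e.extendSubtype, fun x => ?_⟩
  rw [Equiv.extendSubtype_apply_of_mem e (Sum.inr x) ⟨x, rfl⟩]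
  have h1 : e1.symm ⟨Sum.inr x, ⟨x, rfl⟩⟩ = x := by
    rw [Equiv.symm_apply_eq]; rfl
  change ((e2 (e1.symm ⟨Sum.inr x, _⟩)) : α ⊕ R) = ι x
  rw [h1]; rfl

/-- evaluation at the embedding `inr` and the identity -/
def evL : (MA R (Atil (k := k) R B)).at (α ⊕ R) →ₗ[k] B where
  toFun w := Atil.fn (MA.fn w Function.Embedding.inr) 1
  map_add' _ _ := rfl
  map_smul' _ _ := rfl

/-- the evaluation as an equivariant map -/
noncomputable def evB : Rep.res (phi α R) ((MA R (Atil (k := k) R B)).rep (α ⊕ R)) ⟶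
    (constFI k B).rep α :=
  Rep.ofHom ⟨evL α R B, fun σ => by
    ext w
    change Atil.fn (MA.fn ((MA R (Atil (k := k) R B)).ρ (α ⊕ R) (phi α R σ) w)
      Function.Embedding.inr) 1 = Atil.fn (MA.fn w Function.Embedding.inr) 1
    rw [MA.ρ_apply]
    congr 2⟩

variable {α R B}

/-- formula for the values of a map to `M(Ã)` -/
theorem hom_formula {X : Rep.{u} k (Equiv.Perm (α ⊕ R))}
    (f : X ⟶ (MA R (Atil (k := k) R B)).rep (α ⊕ R)) (x : X) (ι : R ↪ α ⊕ R)
    (τ : Equiv.Perm R) (g : Equiv.Perm (α ⊕ R)) (hg : ∀ y, g (Sum.inr y) = ι (τ⁻¹ y)) :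
    Atil.fn (MA.fn (f.hom x) ι) τ = (Rep.resMap (phi α R) f ≫ evB α R B).hom (X.ρ g⁻¹ x) := by
  change _ = Atil.fn (MA.fn (f.hom (X.ρ g⁻¹ x)) Function.Embedding.inr) 1
  rw [Rep.hom_comm_apply]
  change _ = Atil.fn (MA.fn ((MA R (Atil (k := k) R B)).ρ (α ⊕ R) g⁻¹ (f.hom x))
    Function.Embedding.inr) 1
  rw [MA.ρ_apply, inv_inv]
  have e : (Function.Embedding.inr : R ↪ α ⊕ R).trans g.toEmbedding = τ⁻¹.toEmbedding.trans ι := by
    ext y
    exact hg y
  rw [e, MA.fn_equiv, inv_inv, Atil.rho_apply, one_mul]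

theorem ev_bij (X : Rep.{u} k (Equiv.Perm (α ⊕ R))) :
    Function.Bijective (fun f : X ⟶ (MA R (Atil (k := k) R B)).rep (α ⊕ R) =>
      Rep.resMap (phi α R) f ≫ evB α R B) := by
  constructor
  · intro f f' h
    ext x
    apply MA.fn_injective
    intro ι
    change Atil.fn _ = Atil.fn _
    funext τ
    obtain ⟨g, hg⟩ := exists_perm (τ⁻¹.toEmbedding.trans ι)
    refine (hom_formula f x ι τ g hg).trans ?_
    refine Eq.trans ?_ (hom_formula f' x ι τ g hg).symm
    exact congrArg (fun q => q.hom (X.ρ g⁻¹ x)) h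
  · intro h
    -- invariance
    have hinv : ∀ (σ : Equiv.Perm α) (x : X), h.hom (X.ρ (phi α R σ) x) = h.hom x := by
      intro σ x
      have := Rep.hom_comm_apply h σ x
      exact this
    have hindep : ∀ (g g' : Equiv.Perm (α ⊕ R)), (∀ y, g (Sum.inr y) = g' (Sum.inr y)) → ∀ x : X,
        h.hom (X.ρ g⁻¹ x) = h.hom (X.ρ g'⁻¹ x) := by
      intro g g' hgg x
      obtain ⟨σ, hσ⟩ := exists_phi (g⁻¹ * g') (fun y => by
        rw [Equiv.Perm.mul_apply, ← hgg]
        exact g.symm_apply_apply _)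
      rw [← hinv σ (X.ρ g'⁻¹ x), hσ, ← Module.End.mul_apply, ← map_mul, mul_assoc,
        mul_inv_cancel, mul_one]
    choose γ hγ using fun ι : R ↪ α ⊕ R => exists_perm ι
    let F : X → (MA R (Atil (k := k) R B)).at (α ⊕ R) := fun x =>
      MA.mkFn (A := Atil (k := k) R B) (fun ι => (fun τ : Equiv.Perm R =>
        h.hom (X.ρ (γ (τ⁻¹.toEmbedding.trans ι))⁻¹ x) : Equiv.Perm R → B)) (fun σ ι => by
          change (fun τ : Equiv.Perm R => h.hom (X.ρ (γ (τ⁻¹.toEmbedding.trans
            (σ.toEmbedding.trans ι)))⁻¹ x)) = (fun τ : Equiv.Perm R =>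
              h.hom (X.ρ (γ ((τ * σ⁻¹)⁻¹.toEmbedding.trans ι))⁻¹ x))
          funext τ
          apply hindep
          intro y
          rw [hγ, hγ, mul_inv_rev, inv_inv]
          rfl)
    have hF : ∀ x ι τ, Atil.fn (MA.fn (F x) ι) τ =
      h.hom (X.ρ (γ (τ⁻¹.toEmbedding.trans ι))⁻¹ x) := fun x ι τ => rfl
    let FL : X →ₗ[k] (MA R (Atil (k := k) R B)).at (α ⊕ R) :=
      { toFun := F
        map_add' := fun x y => MA.fn_injective (fun ι => by
          change Atil.fn _ = Atil.fn _
          funext τ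
          refine (hF (x + y) ι τ).trans ?_
          refine Eq.trans ?_ (congrArg₂ (· + ·) (hF x ι τ) (hF y ι τ)).symm
          rw [map_add, map_add]; rfl)
        map_smul' := fun c x => MA.fn_injective (fun ι => by
          change Atil.fn _ = Atil.fn _
          funext τ
          refine (hF (c • x) ι τ).trans ?_
          refine Eq.trans ?_ (congrArg (c • ·) (hF x ι τ)).symm
          rw [map_smul, map_smul]; rfl) }
    let FH : X ⟶ (MA R (Atil (k := k) R B)).rep (α ⊕ R) :=
      Rep.ofHom (ρ := X.ρ) ⟨FL, fun g => by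
        ext x
        change F (X.ρ g x) = (MA R (Atil (k := k) R B)).ρ (α ⊕ R) g (F x)
        apply MA.fn_injective
        intro ι
        rw [MA.ρ_apply]
        change Atil.fn _ = Atil.fn _
        funext τ
        refine (hF (X.ρ g x) ι τ).trans ?_
        refine Eq.trans ?_ (hF x (ι.trans g⁻¹.toEmbedding) τ).symm
        rw [← Module.End.mul_apply, ← map_mul]
        have e : (γ (τ⁻¹.toEmbedding.trans ι))⁻¹ * g =
          (g⁻¹ * γ (τ⁻¹.toEmbedding.trans ι))⁻¹ := by rw [mul_inv_rev, inv_inv]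
        rw [e]
        apply hindep
        intro y
        rw [Equiv.Perm.mul_apply, hγ, hγ]
        rfl⟩
    refine ⟨FH, ?_⟩
    ext x
    change Atil.fn (MA.fn (F x) Function.Embedding.inr) 1 = h.hom x
    rw [hF]
    refine (hindep _ 1 (fun y => ?_) x).trans ?_
    · rw [hγ]
      rfl
    · rw [inv_one, map_one]; rfl

end ev

end

end St

end Pool.Agent.FIExt
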