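import Pool.Agent.FIExt.Defs2

/-!
# Module statements (squad MP_37892f_al)

Prove `theorem X_proof : Stmt_X` in `Pool/Agent/FIExt/X.lean`.  The paper proofs are in
`/team-store/MP_37892f_PROOF.md`.
-/

open CategoryTheory CategoryTheory.Abelian

universe u

namespace Pool.Agent.FIExt

/-! ### SHAPIRO -/

/-- Shapiro's lemma, coinduced form. -/
def Stmt_ShapiroCo : Prop :=
  ∀ {k : Type u} [Field k] {G H : Type} [Group G] [Group H] [Finite G] (φ : H →* G),
    Function.Injective φ → ∀ {Y : Rep.{u} k G} {Z : Rep.{u} k H} (ev : Rep.res φ Y ⟶ Z),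
    (∀ X : Rep.{u} k G, Function.Bijective (fun f : X ⟶ Y => Rep.resMap φ f ≫ ev)) →
    ∀ (X : Rep.{u} k G) (i : ℕ), Function.Bijective
      (fun x : Ext X Y i => (resE φ x).comp (Ext.mk₀ ev) (add_zero i))

/-- Shapiro's lemma, induced form. -/
def Stmt_ShapiroInd : Prop :=
  ∀ {k : Type u} [Field k] {G H : Type} [Group G] [Group H] [Finite G] (φ : H →* G),
    Function.Injective φ → ∀ {Y : Rep.{u} k G} {Z : Rep.{u} k H} (s : Z ⟶ Rep.res φ Y),
    (∀ N : Rep.{u} k G, Function.Bijective (fun f : Y ⟶ N => s ≫ Rep.resMap φ f)) →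
    ∀ (N : Rep.{u} k G) (i : ℕ), Function.Bijective
      (fun x : Ext Y N i => (Ext.mk₀ s).comp (resE φ x) (zero_add i))

/-! ### FINDIM -/

/-- `Ext` groups between finite-dimensional representations of finite groups are
finite-dimensional. -/
def Stmt_FinDim : Prop :=
  ∀ {k : Type u} [Field k] {G : Type} [Group G] [Finite G] (X Y : Rep.{u} k G),
    FiniteDimensional k X → FiniteDimensional k Y → ∀ i : ℕ, FiniteDimensional k (Ext X Y i)

/-! ### GEN: elementary facts on generation -/

/-- elementary facts on generation. -/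
structure Stmt_Gen : Prop where
  /-- `FG` is equivalent to generation in bounded degree plus finite-dimensionality. -/
  fg_iff : ∀ {k : Type u} [Field k] (V : FIMod k), FG V ↔
    (∃ d, GenLT d V) ∧ ∀ (α : Type) [Finite α], FiniteDimensional k (V.at α)
  /-- quotients -/
  genLT_of_surj : ∀ {k : Type u} [Field k] {V W : FIMod k} (f : V ⟶ W),
    (∀ (α : Type) [Finite α], Function.Surjective (FIMod.appL f α)) →
      ∀ d, GenLT d V → GenLT d W
  /-- shifts -/
  genLT_shift : ∀ {k : Type u} [Field k] (V : FIMod k) (R : Type) [Finite R] (d : ℕ),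
    GenLT d V → GenLT d (V.shift R)
  /-- the cokernel of `V → ΣV` is generated in smaller degree -/
  genLT_coker : ∀ {k : Type u} [Field k] (V Δ : FIMod k) (g : V.shift Unit ⟶ Δ) (d : ℕ),
    GenLT (d + 1) V → (∀ (α : Type) [Finite α], Function.Surjective (FIMod.appL g α)) →
    (∀ (α : Type) [Finite α] (v : V.at α),
      FIMod.appL g α (FIMod.appL (V.toShift Unit) α v) = 0) → GenLT d Δ
  /-- finitely generated FI-modules are quotients of finite sums of free ones; the sum `F` is
  presented by its inclusions and projections. -/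
  exists_free : ∀ {k : Type u} [Field k] (V : FIMod k), FG V →
    ∃ (m : ℕ) (r : Fin m → ℕ) (F : FIMod k) (a : ∀ i, F ⟶ FreeFI k (r i))
      (b : ∀ i, FreeFI k (r i) ⟶ F) (f : F ⟶ V), FG F ∧
      (∀ (α : Type) [Finite α] (x : F.at α),
        ∑ i, FIMod.appL (b i) α (FIMod.appL (a i) α x) = x) ∧
      ∀ (α : Type) [Finite α], Function.Surjective (FIMod.appL f α)

/-! ### NOETH -/

/-- Noetherianity: FI-submodules of finitely generated FI-modules over a field are finitely
generated. -/
def Stmt_Noeth : Prop :=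
  ∀ {k : Type u} [Field k] (V : FIMod k), FG V → ∀ K : FISub V, FG K.toFI

/-! ### DEV -/

/-- Dévissage. -/
def Stmt_Dev : Prop :=
  ∀ {k : Type u} [Field k] (d : ℕ) (P : FIMod k → Prop),
    (∀ V, EvZero V → P V) →
    (∀ r < d, ∀ A : Rep.{u} k (Equiv.Perm (Fin r)), FiniteDimensional k A → P (MA (Fin r) A)) →
    (∀ {V' V V'' : FIMod k} (f : V' ⟶ V) (g : V ⟶ V''), EvExact f g → P V' → P V'' → P V) →
    (∀ {V' V V'' : FIMod k} (f : V' ⟶ V) (g : V ⟶ V''), EvExact f g → P V → P V'' → P V') →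
    ∀ V, FG V → GenLT d V → P V

/-! ### STABLE0 and STABLE -/

/-- Stability for constant coefficients. -/
def Stmt_Stable0 : Prop :=
  ∀ {k : Type u} [Field k] (B : Type u) [AddCommGroup B] [Module k B] [FiniteDimensional k B]
    (V : FIMod k), FG V → ∀ i : ℕ, ∃ N : ℕ, ∀ {α β : Type} [Finite α] [Finite β] (j : α ↪ β),
      N ≤ Nat.card α → Function.Bijective (stab V (constFI.sharp k B) j i)

/-- Stability for the coefficients `M(A)`. -/
def Stmt_Stable : Prop :=
  ∀ {k : Type u} [Field k] (r : ℕ) (A : Rep.{u} k (Equiv.Perm (Fin r))), FiniteDimensional k A →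
    ∀ (V : FIMod k), FG V → ∀ i : ℕ, ∃ N : ℕ, ∀ {α β : Type} [Finite α] [Finite β] (j : α ↪ β),
      N ≤ Nat.card α → Function.Bijective (stab V (MA.sharp (Fin r) A) j i)

/-! ### BETA -/

/-- The class `β` of a character of order `p`. -/
def Stmt_Beta : Prop :=
  ∀ {k : Type u} [Field k] (p : ℕ) [Fact p.Prime] [CharP k p] {Γ S H : Type} [Group Γ] [Group S]
    [Group H] [Finite Γ] (q : Γ →* S) (i : H →* Γ) (r : Γ →* H)
    (lam : Γ →* Multiplicative (ZMod p)), Function.Surjective lam → Function.Injective i →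
    i.range = lam.ker → r.comp i = MonoidHom.id H → (q.comp i).comp r = q →
    ∀ X₀ : Rep.{u} k S, Nonempty (BData q X₀ (IsGraded lam))

/-! ### EDATA -/

/-- The class `e` of an elementary abelian block. -/
def Stmt_EData : Prop :=
  ∀ {k : Type u} [Field k] (p : ℕ) [Fact p.Prime] [CharP k p] (N : ℕ) {S : Type} [Group S]
    [Finite S] (X₀ : Rep.{u} k S),
    Nonempty (BData (MonoidHom.fst S (Multiplicative (Blk p N))) X₀ (IsSplit p))

/-! ### SPLIT -/

/-- the inclusion `W(α) → W(α ⊕ B)` as a map of representations of `Perm α × B`. -/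
def wMap {k : Type u} [Field k] (W : FIMod k) (α B : Type) [Finite α] [AddCommGroup B]
    [Finite B] : Rep.res (MonoidHom.fst (Equiv.Perm α) (Multiplicative B)) (W.rep α) ⟶
      Rep.res (blockHom α B) (W.rep (α ⊕ B)) :=
  W.gMap Function.Embedding.inl (MonoidHom.fst _ _) (blockHom α B) (fun _ _ => rfl)

/-- the projection `W(α ⊕ B) → W(α)` as a map of representations of `Perm α × B`. -/
def wPr {k : Type u} [Field k] {W : FIMod k} (P : Sharp W) (α B : Type) [Finite α]
    [AddCommGroup B] [Finite B] : Rep.res (blockHom α B) (W.rep (α ⊕ B)) ⟶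
      Rep.res (MonoidHom.fst (Equiv.Perm α) (Multiplicative B)) (W.rep α) :=
  P.gPr Function.Embedding.inl (MonoidHom.fst _ _) (blockHom α B) (fun _ _ => rfl)

/-- The complement of `M(A)(α)` in `M(A)(α ⊕ block)` is split. -/
def Stmt_Split : Prop :=
  ∀ {k : Type u} [Field k] (p : ℕ) [Fact p.Prime] (N r : ℕ), r < p ^ N →
    ∀ (A : Rep.{u} k (Equiv.Perm (Fin r))) (α : Type) [Finite α],
    ∃ (U : Rep.{u} k (Equiv.Perm α × Multiplicative (Blk p N)))
      (t : Rep.res (blockHom α (Blk p N)) ((MA (Fin r) A).rep (α ⊕ Blk p N)) ⟶ U)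
      (s : U ⟶ Rep.res (blockHom α (Blk p N)) ((MA (Fin r) A).rep (α ⊕ Blk p N))),
      IsSplit p U ∧ wMap (MA (Fin r) A) α (Blk p N) ≫ t = 0 ∧
        wPr (MA.sharp (Fin r) A) α (Blk p N) ≫ wMap (MA (Fin r) A) α (Blk p N) + t ≫ s = 𝟙 _

end Pool.Agent.FIExt
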