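import Pool.Agent.FIExt.PhiDefs

/-!
# The theorem in the form of the problem
-/

open CategoryTheory CategoryTheory.Abelian CategoryTheory.Limits

universe u

namespace Pool.Agent.FIExt

/-- The public statement: for finitely generated FI-modules `V`, `W` over a field of characteristic
`p > 0`, the dimension of `Ext^i` over `k[S_n]` of `V_n` by `W_n` is eventually periodic in `n`, and
every power `p ^ N ≥ d` is an eventual period, when `W` is generated in degrees `< d`. -/
def Stmt_Top : Prop :=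
  ∀ {k : Type u} [Field k] (p : ℕ) [Fact p.Prime] [CharP k p] (V W : FIMod k), FG V → FG W →
    (∀ i n : ℕ, FiniteDimensional k (Ext (grpMod V n) (grpMod W n) i)) ∧
    (∀ i d N : ℕ, GenLT d W → d ≤ p ^ N → ∃ n₀ : ℕ, ∀ n ≥ n₀,
      Module.finrank k (Ext (grpMod V (n + p ^ N)) (grpMod W (n + p ^ N)) i) =
        Module.finrank k (Ext (grpMod V n) (grpMod W n) i)) ∧
    ∀ i : ℕ, ∃ P ≥ 1, ∃ n₀ : ℕ, ∀ n ≥ n₀,
      Module.finrank k (Ext (grpMod V (n + P)) (grpMod W (n + P)) i) =
        Module.finrank k (Ext (grpMod V n) (grpMod W n) i)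

theorem Top_proof (hFinal : Stmt_Final.{u}) (hGen : Stmt_Gen.{u}) : Stmt_Top.{u} := by
  intro k _ p hp _ V W hV hW
  obtain ⟨⟨d, hd⟩, -⟩ := (hGen.fg_iff W).1 hW
  have hN : d ≤ p ^ d := (Nat.lt_pow_self hp.out.one_lt).le
  refine ⟨fun i n => (hFinal p d d hN V W hV hW hd i).1 n, ?_, ?_⟩
  · intro i d' N hd' hN'
    exact (hFinal p N d' hN' V W hV hW hd' i).2
  · intro i
    exact ⟨p ^ d, Nat.one_le_pow _ _ hp.out.pos, (hFinal p d d hN V W hV hW hd i).2⟩

end Pool.Agent.FIExt
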